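import Mathlib

/-!
# Averaging lemma: a slow component driven by a fast pointer
-/

set_option autoImplicit false
open Classical

namespace Pool.Agent.J6H46.QI

section Neumann
variable {X : Type} [Fintype X]

theorem pow_sums (K : Matrix X X ℝ) (q : ℝ) (hq : 0 ≤ q) (hK0 : ∀ i j, 0 ≤ K i j)
    (hrow : ∀ i, ∑ j, K i j ≤ q) (hcol : ∀ j, ∑ i, K i j ≤ q) (m : ℕ) :
    (∀ i j, 0 ≤ (K ^ (m + 1)) i j) ∧ (∀ i, ∑ j, (K ^ (m + 1)) i j ≤ q ^ (m + 1)) ∧
    (∀ j, ∑ i, (K ^ (m + 1)) i j ≤ q ^ (m + 1)) := by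
  induction m with
  | zero => simpa using ⟨hK0, hrow, hcol⟩
  | succ m ih =>
    obtain ⟨h0, h1, h2⟩ := ih
    refine ⟨fun i j => ?_, fun i => ?_, fun j => ?_⟩
    · rw [pow_succ, Matrix.mul_apply]
      exact Finset.sum_nonneg fun k _ => mul_nonneg (h0 i k) (hK0 k j)
    · rw [pow_succ]
      simp only [Matrix.mul_apply]
      rw [Finset.sum_comm]
      simp only [← Finset.mul_sum]
      calc ∑ k, (K ^ (m + 1)) i k * ∑ j, K k j ≤ ∑ k, (K ^ (m + 1)) i k * q :=
            Finset.sum_le_sum fun k _ => mul_le_mul_of_nonneg_left (hrow k) (h0 i k)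
        _ = (∑ k, (K ^ (m + 1)) i k) * q := by rw [Finset.sum_mul]
        _ ≤ q ^ (m + 1) * q := mul_le_mul_of_nonneg_right (h1 i) hq
        _ = q ^ (m + 1 + 1) := by rw [pow_succ q (m+1)]
    · rw [pow_succ]
      simp only [Matrix.mul_apply]
      rw [Finset.sum_comm]
      simp only [← Finset.sum_mul]
      calc ∑ k, (∑ i, (K ^ (m + 1)) i k) * K k j ≤ ∑ k, q ^ (m + 1) * K k j :=
            Finset.sum_le_sum fun k _ => mul_le_mul_of_nonneg_right (h2 k) (hK0 k j)
        _ = q ^ (m + 1) * ∑ k, K k j := by rw [Finset.mul_sum]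
        _ ≤ q ^ (m + 1) * q := mul_le_mul_of_nonneg_left (hcol j) (pow_nonneg hq _)
        _ = q ^ (m + 1 + 1) := by rw [pow_succ q (m+1)]

theorem neumann (K : Matrix X X ℝ) (q : ℝ) (hq : 0 ≤ q) (hq2 : q ≤ 1 / 2) (hK0 : ∀ i j, 0 ≤ K i j)
    (hrow : ∀ i, ∑ j, K i j ≤ q) (hcol : ∀ j, ∑ i, K i j ≤ q) :
    ∃ N : Matrix X X ℝ, (∀ i j, 0 ≤ N i j) ∧ N = K + K * N ∧ (∀ i, ∑ j, N i j ≤ 2 * q) ∧
      (∀ j, ∑ i, N i j ≤ 2 * q) := by
  have hp := pow_sums K q hq hK0 hrow hcol
  have hgeo : Summable (fun m : ℕ => q ^ (m + 1)) := by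
    have := summable_geometric_of_lt_one hq (by linarith : q < 1)
    exact (summable_nat_add_iff 1).mpr this
  have hgs : ∑' m : ℕ, q ^ (m + 1) ≤ 2 * q := by
    have h1 := tsum_geometric_of_lt_one hq (by linarith : q < 1)
    have h2 : ∑' m : ℕ, q ^ (m + 1) = q * ∑' m : ℕ, q ^ m := by
      rw [← tsum_mul_left]; exact tsum_congr fun m => pow_succ' q m
    rw [h2, h1, mul_comm 2 q]
    refine mul_le_mul_of_nonneg_left ?_ hq
    rw [inv_le_comm₀ (by linarith) (by norm_num)]
    linarith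
  have hsum : ∀ i j, Summable (fun m : ℕ => (K ^ (m + 1)) i j) := fun i j =>
    Summable.of_nonneg_of_le (fun m => (hp m).1 i j)
      (fun m => (Finset.single_le_sum (f := fun j => (K ^ (m + 1)) i j)
        (fun k _ => (hp m).1 i k) (Finset.mem_univ j)).trans ((hp m).2.1 i)) hgeo
  refine ⟨Matrix.of fun i j => ∑' m : ℕ, (K ^ (m + 1)) i j, fun i j => ?_, ?_, fun i => ?_, fun j => ?_⟩
  · exact tsum_nonneg fun m => (hp m).1 i j
  · ext i j
    rw [Matrix.add_apply, Matrix.mul_apply]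
    simp only [Matrix.of_apply]
    rw [(hsum i j).tsum_eq_zero_add]
    simp only [zero_add, pow_one]
    congr 1
    have h1 : ∀ k, K i k * ∑' m : ℕ, (K ^ (m + 1)) k j = ∑' m : ℕ, K i k * (K ^ (m + 1)) k j :=
      fun k => tsum_mul_left.symm
    rw [Finset.sum_congr rfl fun k _ => h1 k, ← Summable.tsum_finsetSum]
    · refine tsum_congr fun m => ?_
      rw [pow_succ' K (m + 1), Matrix.mul_apply]
    · intro k _
      exact (hsum k j).mul_left _
  · simp only [Matrix.of_apply]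
    rw [← Summable.tsum_finsetSum (fun j _ => hsum i j)]
    refine (Summable.tsum_le_tsum (fun m => (hp m).2.1 i) ?_ hgeo).trans hgs
    exact summable_sum fun j _ => hsum i j
  · simp only [Matrix.of_apply]
    rw [← Summable.tsum_finsetSum (fun i _ => hsum i j)]
    refine (Summable.tsum_le_tsum (fun m => (hp m).2.2 j) ?_ hgeo).trans hgs
    exact summable_sum fun i _ => hsum i j

end Neumann

section Avg
variable {X A : Type} [Fintype X]

/-- toggling part of the generator -/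
noncomputable def BB (c : ℝ) (st : A → X → Bool → A) (w : A → X → Bool → ℝ) (F : A → X → ℝ)
    (η : A) (z : X) : ℝ := c * ∑ ε : Bool, w η z ε * (F (st η z ε) z - F η z)

/-- one step of the chain -/
noncomputable def PQ (c : ℝ) (st : A → X → Bool → A) (w : A → X → Bool → ℝ) (Q : Matrix X X ℝ)
    (F : A → X → ℝ) (η : A) (z : X) : ℝ := Q.mulVec (F η) z + BB c st w F η z

/-- hypotheses on the pointer -/
structure Ptr (Q : Matrix X X ℝ) (T : ℕ) (C : Finset X) (Λ ε : ℝ) : Prop where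
  nn : ∀ t i j, 0 ≤ (Q ^ t) i j
  sym : ∀ t i j, (Q ^ t) i j = (Q ^ t) j i
  row : ∀ i, ∑ j, Q i j = 1
  mix : ∀ i j, |(Q ^ T) i j - 1 / Fintype.card X| ≤ ε / Fintype.card X
  green : ∀ i, ∑ j ∈ C, ∑ t ∈ Finset.range T, (Q ^ t) i j ≤ Λ

theorem averaging {c : ℝ} {st : A → X → Bool → A} {w : A → X → Bool → ℝ} {Q : Matrix X X ℝ}
    {T : ℕ} {C : Finset X} {Λ ε κ : ℝ} (hP : Ptr Q T C Λ ε) (hc : 0 ≤ c)
    (hw : ∀ η z ε, 0 ≤ w η z ε) (hκ : ∀ η z, c * ∑ ε : Bool, w η z ε ≤ κ)
    (hΛ : 0 ≤ Λ) (hκ0 : 0 ≤ κ)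
    (hq : 5 * κ * Λ ≤ 1 / 2) (hε0 : 0 ≤ ε) (hε : ε ≤ 1) (V : A → ℝ) (β : A → X → ℝ)
    (hβ0 : ∀ η z, 0 ≤ β η z)
    (hβ : ∀ η z, |BB c st w (fun η _ => V η) η z| ≤ β η z)
    (hβC : ∀ η z, z ∉ C → β η z = 0)
    (hβ4 : ∀ η z ε z', z ∈ C → β (st η z ε) z' ≤ 4 * β η z')
    (hVn : ∀ η z ε z', z ∉ C → BB c st w (fun η _ => V η) (st η z ε) z' = BB c st w (fun η _ => V η) η z')
    (hβn : ∀ η z ε z', z ∉ C → β (st η z ε) z' = β η z')
    (bh : A → ℝ) (hbh : ∀ η z, β η z ≤ bh η) :
    ∃ U : A → X → ℝ, (∀ η z, |U η z - V η| ≤ 2 * Λ * bh η) ∧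
      ∀ η z, PQ c st w Q U η z ≤ U η z + (1 / Fintype.card X) *
        (∑ z', BB c st w (fun η _ => V η) η z' + (ε + 20 * κ * Λ) * ∑ z', β η z') := by
  set q := 5 * κ * Λ with hqdef
  have hq0 : 0 ≤ q := by positivity
  set G : Matrix X X ℝ := ∑ t ∈ Finset.range T, Q ^ t with hG
  have hGa : ∀ i j, G i j = ∑ t ∈ Finset.range T, (Q ^ t) i j := by
    intro i j; rw [hG, Matrix.sum_apply]
  have hG0 : ∀ i j, 0 ≤ G i j := fun i j => by
    rw [hGa]; exact Finset.sum_nonneg fun t _ => hP.nn t i j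
  have hGs : ∀ i j, G i j = G j i := fun i j => by
    rw [hGa, hGa]; exact Finset.sum_congr rfl fun t _ => hP.sym t i j
  have hGr : ∀ i, ∑ j ∈ C, G i j ≤ Λ := fun i => by
    have := hP.green i
    simp only [hGa]; exact this
  have hQG : Q * G = G + Q ^ T - 1 := by
    have := mul_geom_sum Q T
    rw [← hG, sub_mul, one_mul] at this
    rw [sub_eq_iff_eq_add.mp this]
    abel
  let K : Matrix X X ℝ := Matrix.of fun i j => if i ∈ C ∧ j ∈ C then 5 * κ * G i j else 0
  have hK0 : ∀ i j, 0 ≤ K i j := by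
    intro i j
    show 0 ≤ (if i ∈ C ∧ j ∈ C then 5 * κ * G i j else 0)
    split_ifs
    · have := hG0 i j; positivity
    · exact le_rfl
  have hKr : ∀ i, ∑ j, K i j ≤ q := by
    intro i
    show ∑ j, (if i ∈ C ∧ j ∈ C then 5 * κ * G i j else 0) ≤ q
    by_cases hi : i ∈ C
    · simp only [hi, true_and]
      rw [Finset.sum_ite_mem, Finset.univ_inter, ← Finset.mul_sum]
      exact mul_le_mul_of_nonneg_left (hGr i) (by positivity)
    · simp only [hi, false_and, if_false, Finset.sum_const_zero]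
      exact hq0
  have hKc : ∀ j, ∑ i, K i j ≤ q := by
    intro j
    show ∑ i, (if i ∈ C ∧ j ∈ C then 5 * κ * G i j else 0) ≤ q
    by_cases hj : j ∈ C
    · simp only [hj, and_true]
      rw [Finset.sum_ite_mem, Finset.univ_inter, ← Finset.mul_sum]
      simp only [hGs _ j]
      exact mul_le_mul_of_nonneg_left (hGr j) (by positivity)
    · simp only [hj, and_false, if_false, Finset.sum_const_zero]
      exact hq0
  obtain ⟨N, hN0, hNK, hNr, hNc⟩ := neumann K q hq0 hq hK0 hKr hKc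
  -- rows of `N` off `C` vanish
  have hNC : ∀ i j, i ∉ C → N i j = 0 := by
    intro i j hi
    have h1 : ∀ k, K i k = 0 := fun k => by
      show (if i ∈ C ∧ k ∈ C then 5 * κ * G i k else 0) = 0
      rw [if_neg (fun h => hi h.1)]
    have h2 := congrFun (congrFun hNK i) j
    rw [h2, Matrix.add_apply, Matrix.mul_apply, h1, zero_add]
    exact Finset.sum_eq_zero fun k _ => by rw [h1, zero_mul]
  set bv : A → X → ℝ := BB c st w (fun η _ => V η) with hbv
  let r : A → X → ℝ := fun η => N.mulVec (β η)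
  have hr0 : ∀ η z, 0 ≤ r η z := fun η z =>
    Finset.sum_nonneg fun k _ => mul_nonneg (hN0 z k) (hβ0 η k)
  have hrC : ∀ η z, z ∉ C → r η z = 0 := fun η z hz =>
    Finset.sum_eq_zero fun k _ => by show N z k * β η k = 0; rw [hNC z k hz, zero_mul]
  have hr4 : ∀ η z ε z', z ∈ C → r (st η z ε) z' ≤ 4 * r η z' := by
    intro η z ε z' hz
    show ∑ k, N z' k * β (st η z ε) k ≤ 4 * ∑ k, N z' k * β η k
    rw [Finset.mul_sum]
    refine Finset.sum_le_sum fun k _ => ?_
    have := mul_le_mul_of_nonneg_left (hβ4 η z ε k hz) (hN0 z' k)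
    linarith
  have hrn : ∀ η z ε z', z ∉ C → r (st η z ε) z' = r η z' := by
    intro η z ε z' hz
    show ∑ k, N z' k * β (st η z ε) k = ∑ k, N z' k * β η k
    exact Finset.sum_congr rfl fun k _ => by rw [hβn η z ε k hz]
  have hreq : ∀ η, r η = K.mulVec (β η + r η) := by
    intro η
    show N.mulVec (β η) = K.mulVec (β η + N.mulVec (β η))
    rw [Matrix.mulVec_add, Matrix.mulVec_mulVec, ← Matrix.add_mulVec, ← hNK]
  -- sum and sup of `r`
  have hrsum : ∀ η, ∑ z, r η z ≤ 2 * q * ∑ z, β η z := by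
    intro η
    show ∑ z, ∑ k, N z k * β η k ≤ _
    rw [Finset.sum_comm, Finset.mul_sum]
    refine Finset.sum_le_sum fun k _ => ?_
    rw [← Finset.sum_mul]
    exact mul_le_mul_of_nonneg_right (hNc k) (hβ0 η k)
  have hbh0 : ∀ η (z : X), 0 ≤ bh η := fun η z => (hβ0 η z).trans (hbh η z)
  have hrsup : ∀ η z, r η z ≤ 2 * q * bh η := by
    intro η z
    show ∑ k, N z k * β η k ≤ _
    refine (Finset.sum_le_sum fun k _ => mul_le_mul_of_nonneg_left (hbh η k) (hN0 z k)).trans ?_
    rw [← Finset.sum_mul]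
    exact mul_le_mul_of_nonneg_right (hNr z) (hbh0 η z)
  let Gf : A → X → ℝ := fun η => G.mulVec (bv η + r η)
  let Gb : A → X → ℝ := fun η => G.mulVec (β η + r η)
  have hGf : ∀ η z, |Gf η z| ≤ Gb η z := by
    intro η z
    show |∑ k, G z k * (bv η k + r η k)| ≤ ∑ k, G z k * (β η k + r η k)
    refine (Finset.abs_sum_le_sum_abs _ _).trans (Finset.sum_le_sum fun k _ => ?_)
    rw [abs_mul, abs_of_nonneg (hG0 z k)]
    refine mul_le_mul_of_nonneg_left ?_ (hG0 z k)
    refine (abs_add_le _ _).trans (add_le_add (hβ η k) ?_)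
    rw [abs_of_nonneg (hr0 η k)]
  have hGb4 : ∀ η z ε z', z ∈ C → Gb (st η z ε) z' ≤ 4 * Gb η z' := by
    intro η z ε z' hz
    show ∑ k, G z' k * (β (st η z ε) k + r (st η z ε) k) ≤ 4 * ∑ k, G z' k * (β η k + r η k)
    rw [Finset.mul_sum]
    refine Finset.sum_le_sum fun k _ => ?_
    have h1 := hβ4 η z ε k hz
    have h2 := hr4 η z ε k hz
    have := mul_le_mul_of_nonneg_left (add_le_add h1 h2) (hG0 z' k)
    linarith
  have hGbC : ∀ η z, Gb η z = ∑ k ∈ C, G z k * (β η k + r η k) := by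
    intro η z
    show ∑ k, G z k * (β η k + r η k) = _
    symm
    apply Finset.sum_subset (Finset.subset_univ C)
    intro k _ hk
    rw [hβC η k hk, hrC η k hk]; ring
  have hGb0 : ∀ η z, 0 ≤ Gb η z := fun η z => (abs_nonneg _).trans (hGf η z)
  have hKGb : ∀ η z, z ∈ C → 5 * κ * Gb η z = r η z := by
    intro η z hz
    rw [hreq η, hGbC, Finset.mul_sum]
    show _ = ∑ k, (if z ∈ C ∧ k ∈ C then 5 * κ * G z k else 0) * (β η + r η) k
    simp only [hz, true_and, ite_mul, zero_mul]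
    rw [Finset.sum_ite_mem, Finset.univ_inter]
    exact Finset.sum_congr rfl fun k _ => by simp only [Pi.add_apply]; ring
  refine ⟨fun η z => V η + Gf η z, fun η z => ?_, fun η z => ?_⟩
  · show |V η + Gf η z - V η| ≤ _
    rw [add_sub_cancel_left]
    refine (hGf η z).trans ?_
    rw [hGbC]
    have h1 : ∑ k ∈ C, G z k * (β η k + r η k) ≤ ∑ k ∈ C, G z k * (2 * bh η) := by
      refine Finset.sum_le_sum fun k _ => mul_le_mul_of_nonneg_left ?_ (hG0 z k)
      have a1 := hbh η k
      have a2 := hrsup η k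
      have a3 := hbh0 η z
      nlinarith
    refine h1.trans ?_
    rw [← Finset.sum_mul]
    have := mul_le_mul_of_nonneg_right (hGr z) (show 0 ≤ 2 * bh η by linarith [hbh0 η z])
    linarith
  · -- main computation
    have hQU : Q.mulVec (fun z => V η + Gf η z) z =
        V η + Gf η z + ((Q ^ T).mulVec (bv η + r η)) z - (bv η z + r η z) := by
      have e1 : (fun z => V η + Gf η z) = (fun _ => V η) + G.mulVec (bv η + r η) := rfl
      rw [e1, Matrix.mulVec_add, Matrix.mulVec_mulVec, hQG, Matrix.sub_mulVec, Matrix.add_mulVec,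
        Matrix.one_mulVec]
      have e2 : Q.mulVec (fun _ => V η) z = V η := by
        show ∑ k, Q z k * V η = V η
        rw [← Finset.sum_mul, hP.row, one_mul]
      simp only [Pi.add_apply, Pi.sub_apply, e2]
      show V η + (Gf η z + ((Q ^ T).mulVec (bv η + r η)) z - (bv η z + r η z)) = _
      ring
    have hBU : BB c st w (fun η z => V η + Gf η z) η z =
        bv η z + c * ∑ ε : Bool, w η z ε * (Gf (st η z ε) z - Gf η z) := by
      rw [hbv]
      unfold BB
      rw [← mul_add, ← Finset.sum_add_distrib]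
      congr 1
      exact Finset.sum_congr rfl fun ε _ => by ring
    have hBG : c * ∑ ε : Bool, w η z ε * (Gf (st η z ε) z - Gf η z) ≤ r η z := by
      by_cases hz : z ∈ C
      · rw [← hKGb η z hz]
        have h1 : ∑ ε : Bool, w η z ε * (Gf (st η z ε) z - Gf η z) ≤
            ∑ ε : Bool, w η z ε * (5 * Gb η z) := by
          refine Finset.sum_le_sum fun ε _ => mul_le_mul_of_nonneg_left ?_ (hw η z ε)
          have a1 := (abs_le.mp (hGf (st η z ε) z)).2
          have a2 := (abs_le.mp (hGf η z)).1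
          have a3 := hGb4 η z ε z hz
          linarith
        have h2 := mul_le_mul_of_nonneg_left h1 hc
        rw [← Finset.sum_mul] at h2
        have h3 := mul_le_mul_of_nonneg_right (hκ η z) (show 0 ≤ 5 * Gb η z by linarith [hGb0 η z])
        linarith
      · have h1 : ∀ ε, Gf (st η z ε) z = Gf η z := by
          intro ε
          show ∑ k, G z k * (bv (st η z ε) k + r (st η z ε) k) = ∑ k, G z k * (bv η k + r η k)
          exact Finset.sum_congr rfl fun k _ => by rw [hVn η z ε k hz, hrn η z ε k hz]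
        rw [hrC η z hz]
        simp [h1]
    have hQT : ((Q ^ T).mulVec (bv η + r η)) z ≤ (1 / Fintype.card X) *
        (∑ z', bv η z' + (ε + 20 * κ * Λ) * ∑ z', β η z') := by
      have hX : 0 < (Fintype.card X : ℝ) := by
        have : 0 < Fintype.card X := Fintype.card_pos_iff.mpr ⟨z⟩
        exact_mod_cast this
      have h1 : ∀ k, (Q ^ T) z k * bv η k ≤ (1 / Fintype.card X) * bv η k +
          (ε / Fintype.card X) * β η k := by
        intro k
        have a1 := hP.mix z k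
        have a2 := hβ η k
        have a3 : ((Q ^ T) z k - 1 / Fintype.card X) * bv η k ≤ ε / Fintype.card X * β η k := by
          refine (le_abs_self _).trans ?_
          rw [abs_mul]
          exact mul_le_mul a1 a2 (abs_nonneg _) (by positivity)
        linarith
      have h2 : ∀ k, (Q ^ T) z k * r η k ≤ (2 / Fintype.card X) * r η k := by
        intro k
        refine mul_le_mul_of_nonneg_right ?_ (hr0 η k)
        have a1 := (abs_le.mp (hP.mix z k)).2
        have : ε / (Fintype.card X : ℝ) ≤ 1 / Fintype.card X := by gcongr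
        have e : (2:ℝ) / Fintype.card X = 1 / Fintype.card X + 1 / Fintype.card X := by ring
        linarith
      show ∑ k, (Q ^ T) z k * (bv η k + r η k) ≤ _
      have h3 : ∑ k, (Q ^ T) z k * (bv η k + r η k) ≤ ∑ k, ((1 / Fintype.card X) * bv η k +
          (ε / Fintype.card X) * β η k + (2 / Fintype.card X) * r η k) :=
        Finset.sum_le_sum fun k _ => by linarith [h1 k, h2 k]
      rw [Finset.sum_add_distrib, Finset.sum_add_distrib, ← Finset.mul_sum, ← Finset.mul_sum,
        ← Finset.mul_sum] at h3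
      have h4 := mul_le_mul_of_nonneg_left (hrsum η) (show (0:ℝ) ≤ 2 / Fintype.card X by positivity)
      refine h3.trans ?_
      have h5 : (2 / (Fintype.card X : ℝ)) * (2 * q * ∑ z, β η z) =
          (1 / Fintype.card X) * (20 * κ * Λ * ∑ z, β η z) := by
        rw [hqdef]; ring
      rw [h5] at h4
      have h6 : ε / (Fintype.card X : ℝ) * ∑ z, β η z = (1 / Fintype.card X) * (ε * ∑ z, β η z) := by
        ring
      rw [h6]
      linarith
    unfold PQ
    rw [hQU, hBU]
    linarith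

end Avg
end Pool.Agent.J6H46.QI
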