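import Pool.Agent.J6H46.QI.Lamp

/-!
# The weighted lamp graph and its blow-up
-/

set_option autoImplicit false
set_option linter.unusedSectionVars false
open Classical

namespace Pool.Agent.J6H46.QI
open Pool.H521RB

section
variable {M : ℕ} {J : Fin M → ℕ} {n : ℕ} [NeZero n] (b : ZMod n → ZMod 2) {Y : Type} [Fintype Y]
  (blk : Y → Option (Ix M)) (Γ : SimpleGraph (Y × ZMod n)) (hb : ¬ Bad n b) (hn : 200 ≤ n)
  (hk : ∀ p : Ix M, 2 * (n:ℝ) * ((Bk blk p).card : ℝ) = Sc * J p.1)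

/-- the system -/
noncomputable abbrev SY : LS J (Y × ZMod n) (LA n Y) := sys b blk hb (by omega) hk

/-- the weights of the perturbed graph -/
noncomputable def wgt (W : ℕ) (p q : LA n Y × (Y × ZMod n)) : ℕ :=
  (if p.1 = q.1 ∧ Γ.Adj p.2 q.2 then W else 0) +
    ∑ ε : Bool, (if p.2 = q.2 ∧ q.1 = stp b p.1 p.2 ε then (SY b blk hb hn hk).wt p.1 p.2 ε else 0)

theorem wt_sym (η : LA n Y) (z : Y × ZMod n) (ε : Bool) :
    (SY b blk hb hn hk).wt (stp b η z ε) z ε = (SY b blk hb hn hk).wt η z ε := by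
  set L := SY b blk hb hn hk with hL
  have hst : L.st (stp b η z ε) z ε = η := stp_stp b η z ε
  rcases h : L.clu z with _ | p
  · rw [L.wt_none h, L.wt_none h]
  · rw [L.wt_some h, L.wt_some h, hst]
    have hu := L.upd (η := η) (ε := ε) h
    have e0 : L.st η z ε = stp b η z ε := rfl
    rw [e0] at hu ⊢
    by_cases he : L.n (stp b η z ε) p = L.n η p
    · rw [if_pos he, if_pos he.symm]
    · rw [if_neg he, if_neg (Ne.symm he), hu, Function.update_self, Function.update_idem, max_comm]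

theorem wgt_sum (W : ℕ) (f : LA n Y × (Y × ZMod n) → ℝ) (p : LA n Y × (Y × ZMod n)) :
    ∑ q, (wgt b blk Γ hb hn hk W p q : ℝ) * f q =
      W * ∑ z', (if Γ.Adj p.2 z' then f (p.1, z') else 0) +
      ∑ ε : Bool, ((SY b blk hb hn hk).wt p.1 p.2 ε : ℝ) * f (stp b p.1 p.2 ε, p.2) := by
  obtain ⟨η, z⟩ := p
  have h0 : ∀ q : LA n Y × (Y × ZMod n), (wgt b blk Γ hb hn hk W (η, z) q : ℝ) * f q =
      (if q.1 = η then (W : ℝ) * (if Γ.Adj z q.2 then f (η, q.2) else 0) else 0) +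
      ∑ ε : Bool, (if q = (stp b η z ε, z) then ((SY b blk hb hn hk).wt η z ε : ℝ) * f (stp b η z ε, z) else 0) := by
    rintro ⟨η', z'⟩
    unfold wgt
    push_cast
    rw [add_mul]
    congr 1
    · by_cases he : η' = η
      · subst he
        by_cases ha : Γ.Adj z z' <;> simp [ha]
      · have he' : ¬ η = η' := fun h => he h.symm
        simp [he, he']
    · rw [Finset.sum_mul]
      refine Finset.sum_congr rfl fun ε _ => ?_
      by_cases h1 : z = z' ∧ η' = stp b η z ε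
      · obtain ⟨rfl, rfl⟩ := h1
        simp
      · have h2 : ¬ ((η', z') : LA n Y × (Y × ZMod n)) = (stp b η z ε, z) := by
          intro h
          have := Prod.mk.inj h
          exact h1 ⟨this.2.symm, this.1⟩
        rw [if_neg h2]
        simp only [h1, if_false, zero_mul]
  simp only [h0, Finset.sum_add_distrib]
  congr 1
  · rw [Fintype.sum_prod_type, Finset.sum_eq_single η]
    · simp only [if_true]
      rw [← Finset.mul_sum]
    · intro η' _ hne; simp [hne]
    · intro h; exact absurd (Finset.mem_univ _) h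
  · rw [Finset.sum_comm]
    refine Finset.sum_congr rfl fun ε _ => ?_
    rw [Finset.sum_ite_eq']
    simp

theorem wgt_ok (hS : Sep J) {dX : ℕ} (hd : ∀ z, Γ.degree z = dX) (W D m : ℕ)
    (hD : W * dX + 2 * 1099511627776 + 2 ≤ D) (hm : D ≤ m) :
    Wgt (wgt b blk Γ hb hn hk W) D m where
  symm u v := by
    obtain ⟨η, z⟩ := u
    obtain ⟨η', z'⟩ := v
    unfold wgt
    simp only
    congr 1
    · by_cases h : η = η' ∧ Γ.Adj z z'
      · rw [if_pos h, if_pos ⟨h.1.symm, h.2.symm⟩]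
      · rw [if_neg h, if_neg (fun h' => h ⟨h'.1.symm, h'.2.symm⟩)]
    · refine Finset.sum_congr rfl fun ε _ => ?_
      by_cases h : z = z' ∧ η' = stp b η z ε
      · obtain ⟨rfl, rfl⟩ := h
        rw [if_pos ⟨rfl, rfl⟩, if_pos ⟨rfl, (stp_stp b η z ε).symm⟩, wt_sym]
      · rw [if_neg h, if_neg]
        rintro ⟨rfl, h2⟩
        refine h ⟨rfl, ?_⟩
        rw [h2, stp_stp]
  irr v := by
    obtain ⟨η, z⟩ := v
    unfold wgt
    simp only
    rw [if_neg (fun h => Γ.loopless.irrefl _ h.2), zero_add]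
    refine Finset.sum_eq_zero fun ε _ => ?_
    rw [if_neg (fun h => stp_ne b hb hn η z ε h.2.symm)]
  tot v := by
    have h1 := wgt_sum b blk Γ hb hn hk W (fun _ => 1) v
    simp only [mul_one] at h1
    have h3 : ∑ z', (if Γ.Adj v.2 z' then (1:ℝ) else 0) = dX := by
      rw [Finset.sum_boole, ← SimpleGraph.neighborFinset_eq_filter,
        SimpleGraph.card_neighborFinset_eq_degree, hd]
    rw [h3, Fintype.sum_bool] at h1
    have h4 := (SY b blk hb hn hk).wt_le hS v.1 v.2 true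
    have h5 := (SY b blk hb hn hk).wt_le hS v.1 v.2 false
    have h6 : ∑ q, wgt b blk Γ hb hn hk W v q = W * dX +
        ((SY b blk hb hn hk).wt v.1 v.2 true + (SY b blk hb hn hk).wt v.1 v.2 false) := by
      exact_mod_cast h1
    omega
  m_le := hm

theorem wgt_supp (hS : Sep J) {W : ℕ} (hW : 0 < W) :
    Supp (lampG b Γ hb hn) (wgt b blk Γ hb hn hk W) := by
  rintro ⟨η, z⟩ ⟨η', z'⟩
  have hadj : (lampG b Γ hb hn).Adj (η, z) (η', z') ↔ (η = η' ∧ Γ.Adj z z') ∨
      (z = z' ∧ ∃ ε, η' = stp b η z ε) := Iff.rfl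
  rw [hadj]
  unfold wgt
  simp only
  constructor
  · rintro (h | ⟨rfl, ε, rfl⟩)
    · rw [if_pos h]; omega
    · have h3 := Finset.single_le_sum (f := fun ε' : Bool =>
        (if z = z ∧ stp b η z ε = stp b η z ε' then (SY b blk hb hn hk).wt η z ε' else 0))
        (fun _ _ => Nat.zero_le _) (Finset.mem_univ ε)
      beta_reduce at h3
      rw [if_pos ⟨rfl, rfl⟩] at h3
      have h4 := (SY b blk hb hn hk).wt_pos hS η z ε
      omega
  · intro h
    by_cases h1 : η = η' ∧ Γ.Adj z z'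
    · exact Or.inl h1
    · rw [if_neg h1, zero_add] at h
      obtain ⟨ε, _, hε⟩ := Finset.exists_ne_zero_of_sum_ne_zero (Nat.pos_iff_ne_zero.mp h)
      by_cases h2 : z = z' ∧ η' = stp b η z ε
      · exact Or.inr ⟨h2.1, ε, h2.2⟩
      · rw [if_neg h2] at hε; exact absurd rfl hε

/-- the weighted walk is the process of the averaging lemma -/
theorem RR_eq (W D : ℕ) (f : LA n Y × (Y × ZMod n) → ℝ) (p : LA n Y × (Y × ZMod n)) :
    RR (wgt b blk Γ hb hn hk W) D f p =
      PQ (1 / (2 * (D:ℝ))) (stp b) (fun η z ε => ((SY b blk hb hn hk).wt η z ε : ℝ))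
        (lapQ Γ (W / (2 * (D:ℝ)))) (fun η z => f (η, z)) p.1 p.2 := by
  unfold RR PQ BB
  rw [lapQ_mulVec]
  have h1 : ∑ q, (wgt b blk Γ hb hn hk W p q : ℝ) * (f q - f p) =
      W * ∑ z', (if Γ.Adj p.2 z' then f (p.1, z') - f (p.1, p.2) else 0) +
      ∑ ε : Bool, ((SY b blk hb hn hk).wt p.1 p.2 ε : ℝ) * (f (stp b p.1 p.2 ε, p.2) - f (p.1, p.2)) :=
    wgt_sum b blk Γ hb hn hk W (fun q => f q - f p) p
  rw [h1]
  ring

theorem RR_iter (W D t : ℕ) (f : LA n Y × (Y × ZMod n) → ℝ)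
    (p : LA n Y × (Y × ZMod n)) :
    ((RR (wgt b blk Γ hb hn hk W) D)^[t] f) p =
      Et (1 / (2 * (D:ℝ))) (stp b) (fun η z ε => ((SY b blk hb hn hk).wt η z ε : ℝ))
        (lapQ Γ (W / (2 * (D:ℝ)))) p.1 p.2 t (fun η z => f (η, z)) := by
  induction t generalizing f with
  | zero => rfl
  | succ t ih =>
    rw [Function.iterate_succ_apply, ih, Et_succ]
    congr 1
    funext η z
    exact RR_eq b blk Γ hb hn hk W D f (η, z)

end
end Pool.Agent.J6H46.QI
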