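import Mathlib

/-!
# Multi-stage induction (numerical part)
-/

set_option autoImplicit false
open Classical

namespace Pool.Agent.J6H46.QI

theorem lin_bound (y : ℕ → ℝ) (b : ℝ) (T : ℕ) (h : ∀ t < T, y (t + 1) ≤ y t + b) :
    y T ≤ y 0 + b * T := by
  induction T with
  | zero => simp
  | succ T ih =>
    have h1 := h T (by omega)
    have h2 := ih fun t ht => h t (by omega)
    push_cast
    linarith

theorem grow_bound (y : ℕ → ℝ) (c : ℝ) (hc : 0 ≤ c) (hy : ∀ t, 0 ≤ y t)
    (h : ∀ t, y (t + 1) ≤ (1 + c) * y t) (t r : ℕ) : y (t + r) ≤ Real.exp (c * r) * y t := by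
  have key : y (t + r) ≤ (1 + c) ^ r * y t := by
    induction r with
    | zero => simp
    | succ r ih =>
      calc y (t + (r + 1)) ≤ (1 + c) * y (t + r) := h (t + r)
        _ ≤ (1 + c) * ((1 + c) ^ r * y t) := mul_le_mul_of_nonneg_left ih (by linarith)
        _ = _ := by ring
  refine key.trans (mul_le_mul_of_nonneg_right ?_ (hy t))
  have := pow_le_pow_left₀ (by linarith) (Real.add_one_le_exp c) r
  rw [← Real.exp_nat_mul, add_comm] at this
  rwa [mul_comm c]

theorem sq_pow (j : ℕ) (h : 20 ≤ j) : 3 * (2 + j * j) ≤ 2 ^ j := by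
  induction j, h using Nat.le_induction with
  | base => norm_num
  | succ j hj ih =>
    rw [pow_succ]
    nlinarith

theorem multi {M : ℕ} (J : Fin M → ℕ) (δ : ℝ) (hδ : 0 < δ) (u : Fin M × Bool → ℕ → ℝ)
    (hJ20 : ∀ i, M + 20 ≤ J i)
    (hsep : ∀ i s : Fin M, i < s → 20 * J s ≤ J i)
    (hδJ : ∀ i, δ * 151115727451828646838272 * J i ≤ 1)
    (hu0 : ∀ p, u p 0 ≤ 2) (hun : ∀ p t, 0 ≤ u p t)
    (hctrl : ∀ p i t, i < p.1 → u p (t + 1) ≤ u p t + δ * (274877906944 * J p.1 * 2 ^ (2 * J p.1) +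
      151115727451828646838272 * J p.1 * 2 ^ (16 * J p.1) *
        ((1 / 2 ^ (16 * J i)) * (2 * (u (i, false) t + u (i, true) t)))))
    (hcrude : ∀ p t, u p (t + 1) ≤ (1 + δ * 151115727451828646838272 * J p.1) * u p t) :
    ∀ s : Fin M, ∀ ε (t : ℕ), (t:ℝ) * (151115727451828646838272 * δ) ≤ (s:ℕ) + 1 →
      u (s, ε) t ≤ 2 ^ (9 * J s) := by
  intro s
  induction s using WellFoundedLT.induction with
  | ind s ih =>
  intro ε t ht
  have hJs := hJ20 s
  have hJs1 : (20:ℝ) ≤ J s := by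
    have : 20 ≤ J s := by omega
    exact_mod_cast this
  have hsM : ((s:ℕ):ℝ) ≤ M := by exact_mod_cast s.2.le
  have hMJ : (M:ℝ) ≤ J s := by
    have : M ≤ J s := by omega
    exact_mod_cast this
  have hs0 : (0:ℝ) ≤ ((s:ℕ):ℝ) := Nat.cast_nonneg _
  set A : ℝ := 151115727451828646838272 * δ with hA
  have hApos : 0 < A := by positivity
  -- stage A
  have stageA : ∀ T : ℕ, (T:ℝ) * A ≤ (s:ℕ) → u (s, ε) T ≤ 2 + M * J s * 2 ^ (2 * J s) := by
    intro T hT
    rcases Nat.eq_zero_or_pos (s:ℕ) with h0 | h0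
    · rw [h0] at hT
      have h1 : (T:ℝ) ≤ 0 := by
        by_contra hc
        have : 0 < (T:ℝ) * A := mul_pos (not_le.mp hc) hApos
        push_cast at hT; linarith
      have h2 : T = 0 := by exact_mod_cast le_antisymm h1 (Nat.cast_nonneg _)
      rw [h2]
      have := hu0 (s, ε)
      have h3 : (0:ℝ) ≤ M * J s * 2 ^ (2 * J s) := by positivity
      linarith
    · let i0 : Fin M := ⟨(s:ℕ) - 1, by omega⟩
      have hi0 : i0 < s := by rw [Fin.lt_def]; show (s:ℕ) - 1 < s; omega
      have hi0' : ((i0:ℕ) : ℝ) + 1 = ((s:ℕ):ℝ) := by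
        have : (i0:ℕ) + 1 = (s:ℕ) := by show (s:ℕ) - 1 + 1 = s; omega
        exact_mod_cast this
      have hJi := hsep i0 s hi0
      have hrec : ∀ t < T, u (s, ε) (t + 1) ≤ u (s, ε) t +
          δ * (549755813888 * J s * 2 ^ (2 * J s)) := by
        intro t ht
        have htT : (t:ℝ) * A ≤ ((i0:ℕ) : ℝ) + 1 := by
          rw [hi0']
          have : (t:ℝ) ≤ T := by exact_mod_cast ht.le
          exact (mul_le_mul_of_nonneg_right this hApos.le).trans hT
        have y1 := ih i0 hi0 false t htT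
        have y2 := ih i0 hi0 true t htT
        have h := hctrl (s, ε) i0 t hi0
        refine h.trans ?_
        simp only
        have e1 : (1 / 2 ^ (16 * J i0) : ℝ) * (2 * (u (i0, false) t + u (i0, true) t)) ≤
            4 / 2 ^ (7 * J i0) := by
          have : (1 / 2 ^ (16 * J i0) : ℝ) * (2 * (u (i0, false) t + u (i0, true) t)) ≤
              (1 / 2 ^ (16 * J i0) : ℝ) * (2 * (2 ^ (9 * J i0) + 2 ^ (9 * J i0))) := by gcongr
          refine this.trans (le_of_eq ?_)
          rw [show 16 * J i0 = 7 * J i0 + 9 * J i0 by ring, pow_add]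
          field_simp
          ring
        have e2 : (2:ℝ) ^ (14 * J s) * 2 ^ 77 * 4 ≤ 2 ^ (7 * J i0) := by
          rw [show (4:ℝ) = 2 ^ 2 by norm_num, ← pow_add, ← pow_add]
          exact pow_le_pow_right₀ (by norm_num) (by omega)
        have e3 : (151115727451828646838272 * J s * 2 ^ (16 * J s) * (4 / 2 ^ (7 * J i0)) : ℝ) ≤
            J s * 2 ^ (2 * J s) := by
          rw [mul_div_assoc', div_le_iff₀ (by positivity)]
          rw [show 16 * J s = 2 * J s + 14 * J s by ring, pow_add]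
          have h5 : (0:ℝ) ≤ J s * 2 ^ (2 * J s) := by positivity
          have h6 := mul_le_mul_of_nonneg_left e2 h5
          norm_num at h6 ⊢
          linarith
        have e4 := mul_le_mul_of_nonneg_left e1
          (show (0:ℝ) ≤ 151115727451828646838272 * J s * 2 ^ (16 * J s) by positivity)
        have e5 : (0:ℝ) ≤ J s * 2 ^ (2 * J s) := by positivity
        have e6 : (274877906944 * J s * 2 ^ (2 * J s) +
          151115727451828646838272 * J s * 2 ^ (16 * J s) *
            ((1 / 2 ^ (16 * J i0)) * (2 * (u (i0, false) t + u (i0, true) t))) : ℝ) ≤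
            549755813888 * J s * 2 ^ (2 * J s) := by linarith
        have := mul_le_mul_of_nonneg_left e6 hδ.le
        linarith
      have hfin := lin_bound (u (s, ε)) _ T hrec
      refine hfin.trans ?_
      have k0 := hu0 (s, ε)
      have k1 : δ * (549755813888 * J s * 2 ^ (2 * J s)) * T ≤ M * J s * 2 ^ (2 * J s) := by
        have h1 : δ * 549755813888 * T ≤ M := by
          have : δ * 549755813888 * T ≤ T * A := by
            rw [hA]
            have : (0:ℝ) ≤ δ * T := by positivity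
            linarith
          linarith
        have h2 := mul_le_mul_of_nonneg_right h1 (show (0:ℝ) ≤ J s * 2 ^ (2 * J s) by positivity)
        linarith
      linarith
  -- stage B
  set T := min t (⌊((s:ℕ) : ℝ) / A⌋₊) with hTdef
  have hTt : T ≤ t := min_le_left _ _
  have hsA : (0:ℝ) ≤ ((s:ℕ) : ℝ) / A := by positivity
  have hT : (T:ℝ) * A ≤ (s:ℕ) := by
    rw [← le_div_iff₀ hApos]
    calc (T:ℝ) ≤ (⌊((s:ℕ) : ℝ) / A⌋₊ : ℝ) := by exact_mod_cast min_le_right _ _
      _ ≤ _ := Nat.floor_le hsA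
  have hr : ((t - T : ℕ) : ℝ) ≤ 1 / A + 1 := by
    rw [Nat.cast_sub hTt]
    rcases le_total t (⌊((s:ℕ) : ℝ) / A⌋₊) with h | h
    · have : T = t := min_eq_left h
      rw [this, sub_self]; positivity
    · have h1 : T = ⌊((s:ℕ) : ℝ) / A⌋₊ := min_eq_right h
      have h2 := Nat.lt_floor_add_one (((s:ℕ) : ℝ) / A)
      have h3 : (t:ℝ) ≤ ((s:ℕ) : ℝ) / A + 1 / A := by
        rw [← add_div, le_div_iff₀ hApos]; exact ht
      rw [h1]
      linarith
  have hAst := stageA T hT
  have hgrow := grow_bound (u (s, ε)) (δ * 151115727451828646838272 * J s) (by positivity)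
    (hun _) (fun t => hcrude (s, ε) t) T (t - T)
  rw [Nat.add_sub_cancel' hTt] at hgrow
  have hexpo : δ * 151115727451828646838272 * J s * ((t - T : ℕ) : ℝ) ≤ J s + 1 := by
    have h1 : δ * 151115727451828646838272 * J s * ((t - T : ℕ) : ℝ) ≤
        δ * 151115727451828646838272 * J s * (1 / A + 1) :=
      mul_le_mul_of_nonneg_left hr (by positivity)
    have h2 : δ * 151115727451828646838272 * J s * (1 / A) = J s := by
      rw [hA]; field_simp
    have h3 := hδJ s
    linarith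
  have h1 : u (s, ε) t ≤ Real.exp (J s + 1) * (2 + M * J s * 2 ^ (2 * J s)) :=
    hgrow.trans (mul_le_mul (Real.exp_le_exp.mpr hexpo) hAst (hun _ _) (Real.exp_pos _).le)
  refine h1.trans ?_
  have h2 : Real.exp (J s + 1) ≤ 3 ^ (J s) * 3 := by
    have h3 : Real.exp (J s + 1) = Real.exp 1 ^ (J s + 1) := by
      rw [← Real.exp_nat_mul]; push_cast; ring_nf
    rw [h3, ← pow_succ]
    have : Real.exp 1 < 2.7182818286 := Real.exp_one_lt_d9
    exact pow_le_pow_left₀ (Real.exp_pos _).le (by linarith) _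
  have h5 : 2 + (M:ℝ) * J s * 2 ^ (2 * J s) ≤ (2 + J s * J s) * 4 ^ (J s) := by
    have e : (2:ℝ) ^ (2 * J s) = 4 ^ (J s) := by rw [pow_mul]; norm_num
    rw [e]
    have e1 : (1:ℝ) ≤ 4 ^ (J s) := one_le_pow₀ (by norm_num)
    have e2 : (M:ℝ) * J s ≤ J s * J s := by gcongr
    nlinarith
  have h6 : (3:ℝ) * (2 + J s * J s) ≤ 2 ^ (J s) := by exact_mod_cast sq_pow (J s) (by omega)
  have hpos : (0:ℝ) < 2 + M * J s * 2 ^ (2 * J s) := by positivity
  calc Real.exp (J s + 1) * (2 + M * J s * 2 ^ (2 * J s))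
      ≤ (3 ^ (J s) * 3) * ((2 + J s * J s) * 4 ^ (J s)) := mul_le_mul h2 h5 hpos.le (by positivity)
    _ = 3 ^ (J s) * (4 ^ (J s) * (3 * (2 + J s * J s))) := by ring
    _ ≤ 3 ^ (J s) * (4 ^ (J s) * 2 ^ (J s)) := by gcongr
    _ = 24 ^ (J s) := by rw [← mul_pow, ← mul_pow]; norm_num
    _ ≤ 512 ^ (J s) := pow_le_pow_left₀ (by norm_num) (by norm_num) _
    _ = 2 ^ (9 * J s) := by rw [pow_mul]; norm_num

end Pool.Agent.J6H46.QI
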