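import Pool.Agent.J6H46.QI.Lev3
import Pool.Agent.J6H46.QI.Avg
import Pool.Agent.J6H46.QI.Ind

/-!
# Lamp systems with clusters: the slow level dynamics
-/

set_option autoImplicit false
open Classical

namespace Pool.Agent.J6H46.QI
open Pool.H521RB

/-- slots of cluster `p` which move the level up -/
noncomputable def upS {M : ℕ} {X A : Type} [Fintype X] (st : A → X → Bool → A) (n : A → Ix M → ℕ)
    (clu : X → Option (Ix M)) (η : A) (p : Ix M) : Finset (X × Bool) :=
  Finset.univ.filter fun a => clu a.1 = some p ∧ n (st η a.1 a.2) p = n η p + 1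

/-- slots of cluster `p` which move the level down -/
noncomputable def dnS {M : ℕ} {X A : Type} [Fintype X] (st : A → X → Bool → A) (n : A → Ix M → ℕ)
    (clu : X → Option (Ix M)) (η : A) (p : Ix M) : Finset (X × Bool) :=
  Finset.univ.filter fun a => clu a.1 = some p ∧ n (st η a.1 a.2) p + 1 = n η p

/-- lamp system with clusters -/
structure LS {M : ℕ} (J : Fin M → ℕ) (X A : Type) [Fintype X] where
  st : A → X → Bool → A
  n : A → Ix M → ℕ
  clu : X → Option (Ix M)
  stay : ∀ η z ε, clu z = none → n (st η z ε) = n η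
  far : ∀ η z ε z' ε', clu z = none → n (st (st η z ε) z' ε') = n (st η z' ε')
  move : ∀ η z ε p, clu z = some p → nbr p (n η) (n (st η z ε))
  rates : ∀ η, Rates J (n η) (fun p => ((upS st n clu η p).card : ℝ))
    (fun p => ((dnS st n clu η p).card : ℝ))
  size : ∀ p, 2 * ((Finset.univ.filter fun z => clu z = some p).card : ℝ) ≤ Sc * J p.1

section
variable {M : ℕ} {J : Fin M → ℕ} {X A : Type} [Fintype X] (L : LS J X A)

/-- integer weights of toggle edges -/
noncomputable def LS.wt (η : A) (z : X) (ε : Bool) : ℕ :=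
  match L.clu z with
  | none => 1
  | some p => if L.n (L.st η z ε) p = L.n η p then 1 else
      wN J (Function.update (L.n η) p (max (L.n (L.st η z ε) p) (L.n η p))) p

theorem LS.wt_none {η : A} {z : X} {ε : Bool} (h : L.clu z = none) : L.wt η z ε = 1 := by
  unfold LS.wt; rw [h]
theorem LS.wt_some {η : A} {z : X} {ε : Bool} {p : Ix M} (h : L.clu z = some p) :
    L.wt η z ε = if L.n (L.st η z ε) p = L.n η p then 1 else
      wN J (Function.update (L.n η) p (max (L.n (L.st η z ε) p) (L.n η p))) p := by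
  unfold LS.wt; rw [h]

theorem LS.wt_pos (hS : Sep J) (η : A) (z : X) (ε : Bool) : 1 ≤ L.wt η z ε := by
  rcases h : L.clu z with _ | p
  · rw [L.wt_none h]
  · rw [L.wt_some h]
    split_ifs
    · exact le_rfl
    · exact wN_pos hS.J0 _ _

theorem LS.wt_le (hS : Sep J) (η : A) (z : X) (ε : Bool) : L.wt η z ε ≤ 1099511627776 := by
  rcases h : L.clu z with _ | p
  · rw [L.wt_none h]; norm_num
  · rw [L.wt_some h]
    split_ifs
    · norm_num
    · exact wN_le' hS.J0 _ _

theorem LS.wt_leK (hS : Sep J) (η : A) (z : X) (ε : Bool) : (L.wt η z ε : ℝ) ≤ Kc := by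
  have h := L.wt_le hS η z ε
  have : ((L.wt η z ε : ℕ) : ℝ) ≤ ((1099511627776 : ℕ) : ℝ) := by exact_mod_cast h
  unfold Kc; push_cast at this; exact this

theorem LS.upd {η : A} {z : X} {ε : Bool} {p : Ix M} (h : L.clu z = some p) :
    L.n (L.st η z ε) = Function.update (L.n η) p (L.n (L.st η z ε) p) := by
  funext q
  by_cases hq : q = p
  · subst hq; rw [Function.update_self]
  · rw [Function.update_of_ne hq]; exact (L.move η z ε p h).1 q hq

/-- number of up / down slots -/
noncomputable def LS.Un (η : A) (p : Ix M) : ℝ := ((upS L.st L.n L.clu η p).card : ℝ)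
noncomputable def LS.Dn (η : A) (p : Ix M) : ℝ := ((dnS L.st L.n L.clu η p).card : ℝ)

theorem LS.term (f : (Ix M → ℕ) → ℝ) (η : A) (a : X × Bool) :
    (L.wt η a.1 a.2 : ℝ) * (f (L.n (L.st η a.1 a.2)) - f (L.n η)) =
    ∑ p : Ix M, ((if L.clu a.1 = some p ∧ L.n (L.st η a.1 a.2) p = L.n η p + 1 then
      (wN J (Function.update (L.n η) p (L.n η p + 1)) p : ℝ) *
        (f (Function.update (L.n η) p (L.n η p + 1)) - f (L.n η)) else 0) +
      (if L.clu a.1 = some p ∧ L.n (L.st η a.1 a.2) p + 1 = L.n η p then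
      (wN J (L.n η) p : ℝ) * (f (Function.update (L.n η) p (L.n η p - 1)) - f (L.n η)) else 0)) := by
  rcases h : L.clu a.1 with _ | p
  · rw [L.stay _ _ _ h, sub_self, mul_zero]
    simp
  · rw [Finset.sum_eq_single p]
    · rw [L.wt_some h]
      have hm := L.move η a.1 a.2 p h
      have hu := L.upd (η := η) (ε := a.2) h
      simp only [true_and]
      set k := L.n (L.st η a.1 a.2) p with hk
      rcases (show k = L.n η p ∨ k = L.n η p + 1 ∨ k + 1 = L.n η p by
        have := hm.2; omega) with h1 | h1 | h1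
      · rw [if_pos h1, if_neg (by omega), if_neg (by omega), hu, h1, Function.update_eq_self]
        simp
      · rw [if_neg (by omega), if_pos h1, if_neg (by omega), add_zero, hu, h1,
          max_eq_left (by omega)]
      · rw [if_neg (by omega), if_neg (by omega), if_pos h1, zero_add, hu,
          max_eq_right (by omega), Function.update_eq_self, show k = L.n η p - 1 by omega]
    · intro q _ hq
      rw [if_neg, if_neg, add_zero]
      · rintro ⟨h1, _⟩; exact hq (Option.some.inj h1).symm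
      · rintro ⟨h1, _⟩; exact hq (Option.some.inj h1).symm
    · intro h; exact absurd (Finset.mem_univ _) h

theorem LS.gen_sum (c : ℝ) (f : (Ix M → ℕ) → ℝ) (η : A) :
    ∑ z, BB c L.st (fun η z ε => (L.wt η z ε : ℝ)) (fun η _ => f (L.n η)) η z =
      c * ∑ p, Lp J (L.Un η) (L.Dn η) f (L.n η) p := by
  unfold BB
  rw [← Finset.mul_sum]
  congr 1
  rw [← Fintype.sum_prod_type' (fun z ε => (L.wt η z ε : ℝ) * (f (L.n (L.st η z ε)) - f (L.n η)))]
  rw [Finset.sum_congr rfl fun a _ => L.term f η a, Finset.sum_comm]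
  refine Finset.sum_congr rfl fun p _ => ?_
  rw [Finset.sum_add_distrib, ← Finset.sum_filter, ← Finset.sum_filter, Finset.sum_const,
    Finset.sum_const, nsmul_eq_mul, nsmul_eq_mul]
  unfold Lp LS.Un LS.Dn upS dnS
  ring

/-- bound for the effect of a move at a slot -/
noncomputable def LS.bet (c : ℝ) (p0 : Ix M) (η : A) (z : X) : ℝ :=
  match L.clu z with
  | none => 0
  | some p => c * (2 * Kc) * (dl (J p0.1) (L.n η p0) * ss J p0 (L.n η) p)

theorem LS.bet_none (c : ℝ) (p0 : Ix M) (η : A) {z : X} (h : L.clu z = none) :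
    L.bet c p0 η z = 0 := by unfold LS.bet; rw [h]
theorem LS.bet_some (c : ℝ) (p0 : Ix M) (η : A) {z : X} {p : Ix M} (h : L.clu z = some p) :
    L.bet c p0 η z = c * (2 * Kc) * (dl (J p0.1) (L.n η p0) * ss J p0 (L.n η) p) := by
  unfold LS.bet; rw [h]

theorem tau_le {M : ℕ} (hM : 0 < M) : tau M ≤ 1 / 2 := by
  have : (1:ℝ) ≤ M := by exact_mod_cast hM
  unfold tau
  rw [div_le_div_iff₀ (by positivity) (by norm_num)]; nlinarith

theorem ss_le (hS : Sep J) {p0 : Ix M} (n : Ix M → ℕ) (p : Ix M) : ss J p0 n p ≤ 3 := by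
  have ht := tau_le hS.M0
  have ht0 := tau_pos hS.M0
  unfold ss
  split_ifs with h1 h2
  · exact le_rfl
  · linarith
  · have h3 := hS.ratio (not_le.mp h2)
    have h4 := nu_le (J := J) n p0.1 p.1
    have h5 := nu_nonneg (J := J) n p0.1 p.1
    have hM : (1:ℝ) ≤ M := by exact_mod_cast hS.M0
    have h6 : 1 / rho M ≤ 1 / 2 := by
      have : 2 ≤ rho M := by unfold rho; nlinarith
      gcongr
    have h7 : (0:ℝ) ≤ J p0.1 / J p.1 := by positivity
    have h8 : (J p0.1 : ℝ) / J p.1 ≤ 1 / 2 := h3.trans h6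
    nlinarith

variable {p0 : Ix M}

/-- parameters of the pointer -/
structure Par (L : LS J X A) (Q : Matrix X X ℝ) (c : ℝ) (T : ℕ) (Λ ε : ℝ) : Prop where
  ptr : Ptr Q T (Finset.univ.filter fun z => (L.clu z).isSome) Λ ε
  c0 : 0 < c
  Λ0 : 0 ≤ Λ
  small : c * Λ * (1920 * Kc ^ 2) ≤ 1
  ε0 : 0 ≤ ε
  ε1 : ε * (48 * Kc) ≤ 1

theorem LS.exists_U (hS : Sep J) {Q : Matrix X X ℝ} {c : ℝ} {T : ℕ} {Λ ε : ℝ}
    (hP : Par L Q c T Λ ε) (p0 : Ix M) :
    ∃ U : A → X → ℝ, (∀ η z, |U η z - VV J p0 (L.n η)| ≤ VV J p0 (L.n η) / 10) ∧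
      (∀ η z, PQ c L.st (fun η z ε => (L.wt η z ε : ℝ)) Q U η z ≤ U η z + c / Fintype.card X *
        (274877906944 * J p0.1 * 2 ^ (2 * J p0.1) +
          (Kc + 13) * Sc * J p0.1 * 2 ^ (16 * J p0.1) * G1 J (L.n η) p0.1)) ∧
      (∀ η z, PQ c L.st (fun η z ε => (L.wt η z ε : ℝ)) Q U η z ≤ U η z + c / Fintype.card X *
        ((Kc + 6) * Sc * J p0.1 * VV J p0 (L.n η))) := by
  have hK := Kc_pos
  have hK1 := Kc_one
  have hSc := Sc_pos
  have hc := hP.c0
  have hΛ := hP.Λ0
  have hn : ∀ η p, (L.n η p : ℝ) ≤ Sc * J p.1 := fun η p => (L.rates η).n_le p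
  have hVg : ∀ η, dl (J p0.1) (L.n η p0) ≤ VV J p0 (L.n η) := fun η =>
    (FF_ge_dl _ _).trans (VV_ge hS.J0 _ (by linarith [hn η p0]))
  have hcΛ : c * Λ * Kc ≤ 1 / 1920 := by
    have h1 := hP.small
    have h2 : c * Λ * Kc ≤ c * Λ * Kc ^ 2 := by
      have : Kc ≤ Kc ^ 2 := by nlinarith
      exact mul_le_mul_of_nonneg_left this (by positivity)
    nlinarith
  have hε1 : ε ≤ 1 := by
    have h1 := hP.ε1
    have h2 := hP.ε0
    nlinarith
  -- the pointwise bound
  have hβ : ∀ η z, |BB c L.st (fun η z ε => (L.wt η z ε : ℝ)) (fun η _ => VV J p0 (L.n η)) η z| ≤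
      L.bet c p0 η z := by
    intro η z
    rcases h : L.clu z with _ | p
    · rw [L.bet_none c p0 η h]
      unfold BB
      simp [L.stay η z _ h]
    · rw [L.bet_some c p0 η h]
      unfold BB
      rw [abs_mul, abs_of_pos hc, mul_assoc c]
      refine mul_le_mul_of_nonneg_left ?_ hc.le
      refine (Finset.abs_sum_le_sum_abs _ _).trans ?_
      have : ∀ ε ∈ (Finset.univ : Finset Bool), |(L.wt η z ε : ℝ) *
          (VV J p0 (L.n (L.st η z ε)) - VV J p0 (L.n η))| ≤
          Kc * (dl (J p0.1) (L.n η p0) * ss J p0 (L.n η) p) := by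
        intro ε _
        rw [abs_mul, abs_of_nonneg (Nat.cast_nonneg _)]
        exact mul_le_mul (L.wt_leK hS η z ε) (VV_move hS (L.move η z ε p h) (hn η p0))
          (abs_nonneg _) hK.le
      refine (Finset.sum_le_sum this).trans (le_of_eq ?_)
      simp
      ring
  have hstay : ∀ η z ε, z ∉ (Finset.univ.filter fun z => (L.clu z).isSome) →
      L.n (L.st η z ε) = L.n η := by
    intro η z ε hz
    apply L.stay
    simp only [Finset.mem_filter, Finset.mem_univ, true_and, Bool.not_eq_true,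
      Option.isSome_eq_false_iff, Option.isNone_iff_eq_none] at hz
    exact hz
  have hbetn : ∀ η η' z, L.n η' = L.n η → L.bet c p0 η' z = L.bet c p0 η z := by
    intro η η' z h
    unfold LS.bet
    rw [h]
  have hav := averaging (c := c) (st := L.st) (w := fun η z ε => (L.wt η z ε : ℝ)) (Q := Q)
    (κ := 2 * c * Kc) hP.ptr hc.le (fun η z ε => Nat.cast_nonneg _)
    (fun η z => by
      have h1 : ∑ ε : Bool, (L.wt η z ε : ℝ) ≤ ∑ _ε : Bool, Kc :=
        Finset.sum_le_sum fun ε _ => L.wt_leK hS η z ε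
      have h2 := mul_le_mul_of_nonneg_left h1 hc.le
      refine h2.trans (le_of_eq ?_)
      simp
      ring)
    hΛ (by positivity) (by nlinarith) hP.ε0 hε1 (fun η => VV J p0 (L.n η)) (L.bet c p0)
    (fun η z => by
      rcases h : L.clu z with _ | p
      · rw [L.bet_none c p0 η h]
      · rw [L.bet_some c p0 η h]
        have := dl_pos (J p0.1) (L.n η p0)
        have := ss_nonneg (p0 := p0) hS (L.n η) p
        positivity)
    hβ
    (fun η z hz => by
      apply L.bet_none
      simp only [Finset.mem_filter, Finset.mem_univ, true_and, Bool.not_eq_true,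
        Option.isSome_eq_false_iff, Option.isNone_iff_eq_none] at hz
      exact hz)
    (fun η z ε z' hz => by
      obtain ⟨q, hq⟩ : ∃ q, L.clu z = some q := by
        simp only [Finset.mem_filter, Finset.mem_univ, true_and] at hz
        exact Option.isSome_iff_exists.mp hz
      rcases h : L.clu z' with _ | p
      · rw [L.bet_none c p0 _ h, L.bet_none c p0 _ h]; norm_num
      · rw [L.bet_some c p0 _ h, L.bet_some c p0 _ h]
        have h1 := dl_nbr (J := J) (p0 := p0) (L.move η z ε q hq)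
        have h2 := ss_nbr (p0 := p0) hS (L.move η z ε q hq) p
        have h3 := ss_nonneg (p0 := p0) hS (L.n (L.st η z ε)) p
        have h4 := dl_pos (J p0.1) (L.n η p0)
        have h5 := mul_le_mul h1 h2 h3 (by positivity)
        have h6 := mul_le_mul_of_nonneg_left h5 (show 0 ≤ c * (2 * Kc) by positivity)
        linarith)
    (fun η z ε z' hz => by
      unfold BB
      have h0 := hstay η z ε hz
      congr 1
      refine Finset.sum_congr rfl fun ε' _ => ?_
      -- both sides depend on the level vector only through slot effects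
      have hz0 : L.clu z = none := by
        simp only [Finset.mem_filter, Finset.mem_univ, true_and, Bool.not_eq_true,
          Option.isSome_eq_false_iff, Option.isNone_iff_eq_none] at hz
        exact hz
      have h1 := L.far η z ε z' ε' hz0
      have h2 : L.wt (L.st η z ε) z' ε' = L.wt η z' ε' := by
        unfold LS.wt; rw [h1, h0]
      simp only
      rw [h2, h1, h0])
    (fun η z ε z' hz => hbetn _ _ _ (hstay η z ε hz))
    (fun η => c * (2 * Kc) * (dl (J p0.1) (L.n η p0) * 3))
    (fun η z => by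
      have := dl_pos (J p0.1) (L.n η p0)
      rcases h : L.clu z with _ | p
      · rw [L.bet_none c p0 η h]; positivity
      · rw [L.bet_some c p0 η h]
        have h2 := ss_le (p0 := p0) hS (L.n η) p
        gcongr)
  obtain ⟨U, hU1, hU2⟩ := hav
  have hsumβ : ∀ η, ∑ z', L.bet c p0 η z' ≤ c * Kc * (dl (J p0.1) (L.n η p0) * (12 * (Sc * J p0.1))) := by
    intro η
    have h1 : ∀ z', L.bet c p0 η z' = ∑ p : Ix M, if L.clu z' = some p then
        c * (2 * Kc) * (dl (J p0.1) (L.n η p0) * ss J p0 (L.n η) p) else 0 := by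
      intro z'
      rcases h : L.clu z' with _ | p
      · rw [L.bet_none c p0 η h]; simp
      · rw [L.bet_some c p0 η h]
        simp
    rw [Finset.sum_congr rfl fun z' _ => h1 z', Finset.sum_comm]
    have h2 : ∀ p : Ix M, ∑ z', (if L.clu z' = some p then
        c * (2 * Kc) * (dl (J p0.1) (L.n η p0) * ss J p0 (L.n η) p) else 0) ≤
        c * Kc * dl (J p0.1) (L.n η p0) * (Sc * J p.1 * ss J p0 (L.n η) p) := by
      intro p
      rw [← Finset.sum_filter, Finset.sum_const, nsmul_eq_mul]
      have h3 := L.size p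
      have h4 := ss_nonneg (p0 := p0) hS (L.n η) p
      have h5 := dl_pos (J p0.1) (L.n η p0)
      have h6 := mul_le_mul_of_nonneg_right h3
        (show 0 ≤ c * Kc * dl (J p0.1) (L.n η p0) * ss J p0 (L.n η) p by positivity)
      linarith
    refine (Finset.sum_le_sum fun p _ => h2 p).trans ?_
    rw [← Finset.mul_sum]
    have h5 := dl_pos (J p0.1) (L.n η p0)
    have h7 := mul_le_mul_of_nonneg_left (ss_sum (p0 := p0) hS (L.n η))
      (show 0 ≤ c * Kc * dl (J p0.1) (L.n η p0) by positivity)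
    linarith
  -- total drift
  have htot : ∀ η, ∑ z', BB c L.st (fun η z ε => (L.wt η z ε : ℝ)) (fun η _ => VV J p0 (L.n η)) η z' +
      (ε + 20 * (2 * c * Kc) * Λ) * ∑ z', L.bet c p0 η z' ≤
      c * (∑ p, Lp J (L.Un η) (L.Dn η) (VV J p0) (L.n η) p +
        dl (J p0.1) (L.n η p0) * (Sc * J p0.1 / 2)) := by
    intro η
    rw [L.gen_sum c (VV J p0) η, mul_add]
    refine add_le_add le_rfl ?_
    have h5 := dl_pos (J p0.1) (L.n η p0)
    have hJ0 : (0:ℝ) < J p0.1 := by exact_mod_cast hS.J0 p0.1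
    have e0 : (ε + 20 * (2 * c * Kc) * Λ) * (24 * Kc) ≤ 1 := by
      have a1 := hP.ε1
      have a2 := hP.small
      nlinarith
    have hε0 := hP.ε0
    have e1 := mul_le_mul_of_nonneg_left (hsumβ η)
      (show 0 ≤ ε + 20 * (2 * c * Kc) * Λ by positivity)
    have e2 := mul_le_mul_of_nonneg_right e0
      (show 0 ≤ c * dl (J p0.1) (L.n η p0) * (Sc * J p0.1) / 2 by positivity)
    linarith
  have hcX : 0 ≤ 1 / (Fintype.card X : ℝ) := by positivity
  refine ⟨U, fun η z => ?_, fun η z => ?_, fun η z => ?_⟩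
  · refine (hU1 η z).trans ?_
    have h5 := dl_pos (J p0.1) (L.n η p0)
    have h6 := hVg η
    have h7 : 2 * Λ * (c * (2 * Kc) * (dl (J p0.1) (L.n η p0) * 3)) =
        12 * (c * Λ * Kc) * dl (J p0.1) (L.n η p0) := by ring
    rw [h7]
    nlinarith
  · refine (hU2 η z).trans ?_
    have h1 := drift_ctrl (p0 := p0) hS (L.rates η)
    have h2 := mul_le_mul_of_nonneg_left ((htot η).trans (mul_le_mul_of_nonneg_left h1 hc.le)) hcX
    refine (add_le_add_right h2 _).trans (le_of_eq ?_)
    ring
  · refine (hU2 η z).trans ?_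
    have h1 := drift_crude (p0 := p0) hS (L.rates η)
    have h2 := mul_le_mul_of_nonneg_left ((htot η).trans (mul_le_mul_of_nonneg_left h1 hc.le)) hcX
    refine (add_le_add_right h2 _).trans (le_of_eq ?_)
    ring

end
end Pool.Agent.J6H46.QI
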