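import Pool.Agent.J6H46.QI.Chain

/-!
# Localisation of the target level
-/

set_option autoImplicit false
open Classical

namespace Pool.Agent.J6H46.QI
open Pool.H521RB

section Exp
variable {X A : Type} [Fintype X] (c : ℝ) (st : A → X → Bool → A) (w : A → X → Bool → ℝ)
  (Q : Matrix X X ℝ)

/-- expectation of `F` after `t` steps from `(η, z)` -/
noncomputable def Et (η : A) (z : X) (t : ℕ) (F : A → X → ℝ) : ℝ := ((PQ c st w Q)^[t] F) η z

variable {c st w Q}

theorem Et_zero (η : A) (z : X) (F : A → X → ℝ) : Et c st w Q η z 0 F = F η z := rfl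
theorem Et_succ (η : A) (z : X) (t : ℕ) (F : A → X → ℝ) :
    Et c st w Q η z (t + 1) F = Et c st w Q η z t (PQ c st w Q F) := by
  unfold Et; rw [Function.iterate_succ_apply]

theorem PQ_add (F G : A → X → ℝ) : PQ c st w Q (fun η z => F η z + G η z) =
    fun η z => PQ c st w Q F η z + PQ c st w Q G η z := by
  funext η z
  unfold PQ BB
  have e1 : Q.mulVec ((fun η z => F η z + G η z) η) z = Q.mulVec (F η) z + Q.mulVec (G η) z := by
    rw [show (fun η z => F η z + G η z) η = F η + G η from rfl, Matrix.mulVec_add, Pi.add_apply]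
  rw [e1]
  have : ∀ ε, w η z ε * (F (st η z ε) z + G (st η z ε) z - (F η z + G η z)) =
      w η z ε * (F (st η z ε) z - F η z) + w η z ε * (G (st η z ε) z - G η z) := fun ε => by ring
  rw [Finset.sum_congr rfl fun ε _ => this ε, Finset.sum_add_distrib]
  ring

theorem PQ_smul (a : ℝ) (F : A → X → ℝ) : PQ c st w Q (fun η z => a * F η z) =
    fun η z => a * PQ c st w Q F η z := by
  funext η z
  unfold PQ BB
  have e1 : Q.mulVec ((fun η z => a * F η z) η) z = a * Q.mulVec (F η) z := by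
    rw [show (fun η z => a * F η z) η = a • F η from rfl, Matrix.mulVec_smul, Pi.smul_apply,
      smul_eq_mul]
  rw [e1]
  have : ∀ ε, w η z ε * (a * F (st η z ε) z - a * F η z) =
      a * (w η z ε * (F (st η z ε) z - F η z)) := fun ε => by ring
  rw [Finset.sum_congr rfl fun ε _ => this ε, ← Finset.mul_sum]
  ring

theorem PQ_const (hrow : ∀ i, ∑ j, Q i j = 1) (a : ℝ) :
    PQ c st w Q (fun _ _ => a) = fun _ _ => a := by
  funext η z
  unfold PQ BB
  simp only [sub_self, mul_zero, Finset.sum_const_zero, add_zero]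
  show ∑ k, Q z k * a = a
  rw [← Finset.sum_mul, hrow, one_mul]

theorem PQ_mono (hc : 0 ≤ c) (hw : ∀ η z ε, 0 ≤ w η z ε) (hQ : ∀ i j, 0 ≤ Q i j)
    (hd : ∀ η z, c * ∑ ε : Bool, w η z ε ≤ Q z z) {F G : A → X → ℝ} (h : ∀ η z, F η z ≤ G η z)
    (η : A) (z : X) : PQ c st w Q F η z ≤ PQ c st w Q G η z := by
  unfold PQ BB
  simp only [mul_sub, Finset.sum_sub_distrib, ← Finset.sum_mul]
  have h1 : ∑ ε : Bool, w η z ε * F (st η z ε) z ≤ ∑ ε : Bool, w η z ε * G (st η z ε) z :=
    Finset.sum_le_sum fun ε _ => mul_le_mul_of_nonneg_left (h _ _) (hw η z ε)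
  have h2 : Q.mulVec (G η) z - Q.mulVec (F η) z ≥ Q z z * (G η z - F η z) := by
    show ∑ k, Q z k * G η k - ∑ k, Q z k * F η k ≥ _
    rw [← Finset.sum_sub_distrib]
    have h3 : ∀ k ∈ Finset.univ, 0 ≤ Q z k * G η k - Q z k * F η k := by
      intro k _
      rw [← mul_sub]
      exact mul_nonneg (hQ z k) (sub_nonneg.mpr (h η k))
    have := Finset.single_le_sum h3 (Finset.mem_univ z)
    linarith
  have h4 := mul_le_mul_of_nonneg_left h1 hc
  have h5 := mul_le_mul_of_nonneg_right (hd η z) (sub_nonneg.mpr (h η z))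
  linarith

theorem Et_add (η : A) (z : X) (t : ℕ) (F G : A → X → ℝ) :
    Et c st w Q η z t (fun η z => F η z + G η z) = Et c st w Q η z t F + Et c st w Q η z t G := by
  induction t generalizing F G with
  | zero => rfl
  | succ t ih => rw [Et_succ, PQ_add, ih, Et_succ, Et_succ]

theorem Et_smul (η : A) (z : X) (t : ℕ) (a : ℝ) (F : A → X → ℝ) :
    Et c st w Q η z t (fun η z => a * F η z) = a * Et c st w Q η z t F := by
  induction t generalizing F with
  | zero => rfl
  | succ t ih => rw [Et_succ, PQ_smul, ih, Et_succ]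

theorem Et_const (hrow : ∀ i, ∑ j, Q i j = 1) (η : A) (z : X) (t : ℕ) (a : ℝ) :
    Et c st w Q η z t (fun _ _ => a) = a := by
  induction t with
  | zero => rfl
  | succ t ih => rw [Et_succ, PQ_const hrow, ih]

theorem Et_mono (hc : 0 ≤ c) (hw : ∀ η z ε, 0 ≤ w η z ε) (hQ : ∀ i j, 0 ≤ Q i j)
    (hd : ∀ η z, c * ∑ ε : Bool, w η z ε ≤ Q z z) (η : A) (z : X) (t : ℕ)
    {F G : A → X → ℝ} (h : ∀ η z, F η z ≤ G η z) : Et c st w Q η z t F ≤ Et c st w Q η z t G := by
  induction t generalizing F G with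
  | zero => exact h η z
  | succ t ih =>
    rw [Et_succ, Et_succ]
    exact ih fun η z => PQ_mono hc hw hQ hd h η z

theorem Et_affine (hrow : ∀ i, ∑ j, Q i j = 1) (η : A) (z : X) (t : ℕ) (a b : ℝ)
    (F G H : A → X → ℝ) :
    Et c st w Q η z t (fun η z => F η z + (a + b * (G η z + H η z))) =
      Et c st w Q η z t F + (a + b * (Et c st w Q η z t G + Et c st w Q η z t H)) := by
  rw [Et_add η z t F (fun η z => a + b * (G η z + H η z)),
    Et_add η z t (fun _ _ => a) (fun η z => b * (G η z + H η z)), Et_const hrow,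
    Et_smul η z t b (fun η z => G η z + H η z), Et_add]

end Exp

section
variable {M : ℕ} {J : Fin M → ℕ} {X A : Type} [Fintype X] (L : LS J X A)

theorem VV_zero (p0 : Ix M) : VV J p0 (fun _ => 0) = 1 := by
  unfold VV
  have h1 : ∑ i ∈ Finset.Iio p0.1, T1 J p0 (fun _ => 0) i = 0 := by
    refine Finset.sum_eq_zero fun i _ => ?_
    have : ∀ p : Ix M, sg (fun _ => 0) p = 0 := by
      intro p; unfold sg par; simp
    unfold T1 Psi
    rw [this, this]; ring
  rw [h1, FF_zero]; ring

theorem Sep.twenty (hS : Sep J) {i s : Fin M} (h : i < s) : 20 * J s ≤ J i := by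
  have h1 := hS.sep i s h
  have hM : (1:ℝ) ≤ M := by exact_mod_cast hS.M0
  have h2 : 20 ≤ rho M := by unfold rho; nlinarith
  have h3 : (0:ℝ) ≤ J s := Nat.cast_nonneg _
  have h4 : (20:ℝ) * J s ≤ J i := by nlinarith
  exact_mod_cast h4

theorem LS.localized (hS : Sep J) (hJ20 : ∀ i, M + 20 ≤ J i) {Q : Matrix X X ℝ} {c : ℝ} {T : ℕ}
    {Λ ε : ℝ} (hP : Par L Q c T Λ ε)
    (hd : ∀ η z, c * ∑ ε : Bool, (L.wt η z ε : ℝ) ≤ Q z z)
    (η0 : A) (z0 : X) (hη0 : L.n η0 = fun _ => 0)
    (hbig : ∀ i, c / Fintype.card X * 151115727451828646838272 * J i ≤ 1)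
    (t : ℕ) (ht : (t:ℝ) * (151115727451828646838272 * (c / Fintype.card X)) ≤ M)
    (p0 : Ix M) (hp0 : (p0.1 : ℕ) + 1 = M) :
    Et c L.st (fun η z ε => (L.wt η z ε : ℝ)) Q η0 z0 t
      (fun η _ => if 16 * J p0.1 ≤ L.n η p0 then (1:ℝ) else 0) ≤ 1 / 10 := by
  have hX : 0 < (Fintype.card X : ℝ) := by
    have : 0 < Fintype.card X := Fintype.card_pos_iff.mpr ⟨z0⟩
    exact_mod_cast this
  have hc := hP.c0
  have hδ : 0 < c / Fintype.card X := by positivity
  have hQ0 : ∀ i j, 0 ≤ Q i j := by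
    intro i j; have := hP.ptr.nn 1 i j; rwa [pow_one] at this
  choose U hU1 hU2 hU3 using fun p => L.exists_U hS hP p
  have hn : ∀ η p, (L.n η p : ℝ) ≤ Sc * J p.1 := fun η p => (L.rates η).n_le p
  have hVpos : ∀ p η, 0 < VV J p (L.n η) := fun p η =>
    ((dl_pos _ _).trans_le (FF_ge_dl _ _)).trans_le (VV_ge hS.J0 _ (by linarith [hn η p]))
  have hUV : ∀ p η z, (9/10) * VV J p (L.n η) ≤ U p η z ∧ U p η z ≤ (11/10) * VV J p (L.n η) := by
    intro p η z
    have := abs_le.mp (hU1 p η z)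
    constructor <;> linarith [this.1, this.2]
  have hmono : ∀ (t : ℕ) {F G : A → X → ℝ}, (∀ η z, F η z ≤ G η z) →
      Et c L.st (fun η z ε => (L.wt η z ε : ℝ)) Q η0 z0 t F ≤
      Et c L.st (fun η z ε => (L.wt η z ε : ℝ)) Q η0 z0 t G := fun t F G h =>
    Et_mono hc.le (fun η z ε => Nat.cast_nonneg _) hQ0 hd η0 z0 t h
  set E : ℕ → (A → X → ℝ) → ℝ := Et c L.st (fun η z ε => (L.wt η z ε : ℝ)) Q η0 z0 with hE
  have hKS : (Kc + 13) * Sc ≤ 151115727451828646838272 := by unfold Kc Sc; norm_num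
  have hKS6 : (Kc + 6) * Sc * 2 ≤ 151115727451828646838272 := by unfold Kc Sc; norm_num
  have hK := Kc_pos
  have hSc := Sc_pos
  have hmain := multi J (c / Fintype.card X) hδ (fun p t => E t (U p)) hJ20
    (fun i s h => hS.twenty h) hbig
    (fun p => by
      show U p η0 z0 ≤ 2
      have := (hUV p η0 z0).2
      rw [hη0, VV_zero] at this
      linarith)
    (fun p t => by
      have h1 := hmono t (F := fun _ _ => 0) (G := U p) (fun η z => by
        have := (hUV p η z).1
        have := hVpos p η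
        linarith)
      rw [hE] at h1 ⊢
      rwa [Et_const hP.ptr.row] at h1)
    (fun p i t hi => by
      show E (t + 1) (U p) ≤ E t (U p) + _
      rw [hE, Et_succ]
      have hG : ∀ η z, G1 J (L.n η) p.1 ≤
          (1 / 2 ^ (16 * J i)) * (2 * (U (i, false) η z + U (i, true) η z)) := by
        intro η z
        have h1 := G1_bound hS (L.n η) (hn η) hi
        refine h1.trans (mul_le_mul_of_nonneg_left ?_ (by positivity))
        have a1 := (hUV (i, false) η z).1
        have a2 := (hUV (i, true) η z).1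
        have a3 := hVpos (i, false) η
        have a4 := hVpos (i, true) η
        linarith
      have key : ∀ η z, PQ c L.st (fun η z ε => (L.wt η z ε : ℝ)) Q (U p) η z ≤
          U p η z + (c / Fintype.card X * (274877906944 * J p.1 * 2 ^ (2 * J p.1)) +
          (c / Fintype.card X * (151115727451828646838272 * J p.1 * 2 ^ (16 * J p.1)) *
            ((1 / 2 ^ (16 * J i)) * 2)) * (U (i, false) η z + U (i, true) η z)) := by
        intro η z
        refine (hU2 p η z).trans ?_
        have h1 := hG η z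
        have hG0 := G1_nonneg (J := J) (L.n η) p.1
        have h2 : (Kc + 13) * Sc * J p.1 * 2 ^ (16 * J p.1) * G1 J (L.n η) p.1 ≤
            151115727451828646838272 * J p.1 * 2 ^ (16 * J p.1) *
              ((1 / 2 ^ (16 * J i)) * (2 * (U (i, false) η z + U (i, true) η z))) := by
          gcongr
        have h3 := mul_le_mul_of_nonneg_left h2 hδ.le
        linarith
      refine (Et_mono hc.le (fun η z ε => Nat.cast_nonneg _) hQ0 hd η0 z0 t key).trans (le_of_eq ?_)
      rw [Et_affine hP.ptr.row]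
      ring)
    (fun p t => by
      show E (t + 1) (U p) ≤ _ * E t (U p)
      rw [hE, Et_succ, ← Et_smul]
      refine Et_mono hc.le (fun η z ε => Nat.cast_nonneg _) hQ0 hd η0 z0 t fun η z => ?_
      refine (hU3 p η z).trans ?_
      have h1 := (hUV p η z).1
      have h2 := hVpos p η
      have hJp : (0:ℝ) < J p.1 := by exact_mod_cast hS.J0 p.1
      have h3 : (Kc + 6) * Sc * J p.1 * VV J p (L.n η) ≤
          151115727451828646838272 * J p.1 * U p η z := by
        have h4 : VV J p (L.n η) ≤ 2 * U p η z := by linarith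
        calc (Kc + 6) * Sc * J p.1 * VV J p (L.n η) ≤ (Kc + 6) * Sc * J p.1 * (2 * U p η z) := by
              gcongr
          _ = ((Kc + 6) * Sc * 2) * J p.1 * U p η z := by ring
          _ ≤ _ := by
              have : 0 ≤ U p η z := by linarith
              gcongr
      have h5 := mul_le_mul_of_nonneg_left h3 hδ.le
      linarith)
  have h1 := hmain p0.1 p0.2 t (by
    refine ht.trans (le_of_eq ?_)
    have : ((p0.1 : ℕ) : ℝ) + 1 = ((p0.1 + 1 : ℕ) : ℝ) := by push_cast; ring
    rw [this, hp0])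
  have h2 : E t (fun η _ => if 16 * J p0.1 ≤ L.n η p0 then (1:ℝ) else 0) ≤
      (2 / 2 ^ (16 * J p0.1)) * E t (U p0) := by
    rw [hE, ← Et_smul]
    refine Et_mono hc.le (fun η z ε => Nat.cast_nonneg _) hQ0 hd η0 z0 t fun η z => ?_
    have a1 := (hUV p0 η z).1
    have a2 := hVpos p0 η
    have a3 := VV_ge hS.J0 (p0 := p0) (L.n η) (by linarith [hn η p0])
    split_ifs with h
    · have := FF_big h
      rw [div_mul_eq_mul_div, le_div_iff₀ (by positivity), one_mul]
      linarith
    · have : 0 ≤ U p0 η z := by linarith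
      positivity
  refine h2.trans ?_
  have h3 : (2 / 2 ^ (16 * J p0.1) : ℝ) * E t (U p0) ≤ (2 / 2 ^ (16 * J p0.1)) * 2 ^ (9 * J p0.1) := by
    gcongr
  refine h3.trans ?_
  rw [show 16 * J p0.1 = 7 * J p0.1 + 9 * J p0.1 by ring, pow_add]
  have h4 : (20:ℝ) ≤ 2 ^ (7 * J p0.1) := by
    calc (20:ℝ) ≤ 2 ^ 7 := by norm_num
      _ ≤ 2 ^ (7 * J p0.1) := pow_le_pow_right₀ (by norm_num) (by have := hJ20 p0.1; omega)
  have h5 : (2:ℝ) / (2 ^ (7 * J p0.1) * 2 ^ (9 * J p0.1)) * 2 ^ (9 * J p0.1) = 2 / 2 ^ (7 * J p0.1) := by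
    field_simp
  rw [h5, div_le_div_iff₀ (by positivity) (by norm_num)]
  linarith

end
end Pool.Agent.J6H46.QI
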