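import Mathlib

/-!
# A cyclic convolution over `F_2` of length `2^k` : product of non periodic elements
-/

set_option autoImplicit false
open Classical Polynomial

namespace Pool.Agent.J6H46.QI

section
variable {n : ℕ} [NeZero n]

/-- cyclic convolution -/
def conv (g b : ZMod n → ZMod 2) : ZMod n → ZMod 2 := fun c => ∑ j, g j * b (c - j)

/-- Hamming weight -/
noncomputable def wt (g : ZMod n → ZMod 2) : ℕ := (Finset.univ.filter fun j => g j ≠ 0).card

/-- the attached polynomial -/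
noncomputable def PP (g : ZMod n → ZMod 2) : (ZMod 2)[X] := ∑ j : ZMod n, C (g j) * X ^ (j.val)

theorem PP_coeff (g : ZMod n → ZMod 2) (j : ZMod n) : (PP g).coeff j.val = g j := by
  unfold PP
  rw [finsetSum_coeff, Finset.sum_eq_single j]
  · simp
  · intro i _ hi
    rw [coeff_C_mul_X_pow, if_neg]
    intro h
    exact hi (ZMod.val_injective n h).symm
  · intro h; exact absurd (Finset.mem_univ _) h

theorem PP_coeff_ge (g : ZMod n → ZMod 2) {k : ℕ} (hk : n ≤ k) : (PP g).coeff k = 0 := by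
  unfold PP
  rw [finsetSum_coeff]
  refine Finset.sum_eq_zero fun j _ => ?_
  rw [coeff_C_mul_X_pow, if_neg]
  have := ZMod.val_lt j
  omega

theorem PP_eq_zero {g : ZMod n → ZMod 2} (h : PP g = 0) : g = 0 := by
  funext j
  rw [← PP_coeff g j, h]; simp

omit [NeZero n] in
theorem X_pow_mod (a : ℕ) : (X ^ n - 1 : (ZMod 2)[X]) ∣ X ^ a - X ^ (a % n) := by
  have h1 : a = n * (a / n) + a % n := (Nat.div_add_mod a n).symm
  have h2 : (X ^ a - X ^ (a % n) : (ZMod 2)[X]) = (X ^ (n * (a / n)) - 1) * X ^ (a % n) := by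
    rw [sub_mul, one_mul, ← pow_add, ← h1]
  rw [h2]
  apply Dvd.dvd.mul_right
  rw [pow_mul]
  have := sub_dvd_pow_sub_pow (X ^ n : (ZMod 2)[X]) 1 (a / n)
  rwa [one_pow] at this

theorem PP_mul (g b : ZMod n → ZMod 2) : (X ^ n - 1 : (ZMod 2)[X]) ∣ PP g * PP b - PP (conv g b) := by
  have h1 : PP (conv g b) = ∑ i : ZMod n, ∑ j : ZMod n, C (g i * b j) * X ^ ((i + j).val) := by
    unfold PP conv
    simp only [map_sum, Finset.sum_mul]
    rw [Finset.sum_comm]
    refine Finset.sum_congr rfl fun i _ => ?_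
    refine Fintype.sum_equiv (Equiv.subRight i) _ _ fun c => ?_
    simp
  have h2 : PP g * PP b = ∑ i : ZMod n, ∑ j : ZMod n, C (g i * b j) * X ^ (i.val + j.val) := by
    unfold PP
    rw [Finset.sum_mul_sum]
    refine Finset.sum_congr rfl fun i _ => Finset.sum_congr rfl fun j _ => ?_
    rw [C_mul, pow_add]; ring
  rw [h1, h2, ← Finset.sum_sub_distrib]
  refine Finset.dvd_sum fun i _ => ?_
  rw [← Finset.sum_sub_distrib]
  refine Finset.dvd_sum fun j _ => ?_
  rw [← mul_sub]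
  apply Dvd.dvd.mul_left
  rw [ZMod.val_add]
  exact X_pow_mod _

theorem frob (k : ℕ) : (X ^ (2 ^ k) - 1 : (ZMod 2)[X]) = (X - 1) ^ (2 ^ k) := by
  have : (X - 1 : (ZMod 2)[X]) ^ (2 ^ k) = X ^ (2 ^ k) - 1 ^ (2 ^ k) :=
    sub_pow_char_pow (X : (ZMod 2)[X]) 1 k
  rw [this, one_pow]

theorem primeX : Prime (X - 1 : (ZMod 2)[X]) := by
  have := prime_X_sub_C (1 : ZMod 2)
  rwa [C_1] at this

end

/-- a function divisible by `X^m - 1` is periodic -/
theorem periodic_of_dvd {m : ℕ} (hm : 0 < m) [NeZero (2 * m)] (g : ZMod (2 * m) → ZMod 2)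
    (h : (X ^ m - 1 : (ZMod 2)[X]) ∣ PP g) : ∀ x, g (x + (m : ZMod (2 * m))) = g x := by
  obtain ⟨q, hq⟩ := h
  have hmonic : (X ^ m - 1 : (ZMod 2)[X]).Monic := by
    have := monic_X_pow_sub_C (1 : ZMod 2) (Nat.pos_iff_ne_zero.mp hm)
    rwa [C_1] at this
  have hdegm : (X ^ m - 1 : (ZMod 2)[X]).natDegree = m := by
    have := natDegree_X_pow_sub_C (n := m) (r := (1 : ZMod 2))
    rwa [C_1] at this
  have hqdeg : ∀ k, m ≤ k → q.coeff k = 0 := by
    intro k hk
    by_cases hq0 : q = 0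
    · rw [hq0]; simp
    · apply coeff_eq_zero_of_natDegree_lt
      have h1 : (PP g).natDegree = m + q.natDegree := by
        rw [hq, hmonic.natDegree_mul' hq0, hdegm]
      have h2 : (PP g).natDegree < 2 * m := by
        by_contra hc
        have h3 : (PP g) ≠ 0 := by
          rw [hq]; exact mul_ne_zero hmonic.ne_zero hq0
        have h4 := PP_coeff_ge g (not_lt.mp hc)
        exact h3 (leadingCoeff_eq_zero.mp h4)
      omega
  have hlow : ∀ k, k < m → (PP g).coeff k = q.coeff k := by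
    intro k hk
    rw [hq, sub_mul, one_mul, coeff_sub, coeff_X_pow_mul', if_neg (by omega), zero_sub]
    have : ∀ z : ZMod 2, -z = z := by decide
    exact this _
  have hhigh : ∀ k, k < m → (PP g).coeff (k + m) = q.coeff k := by
    intro k hk
    rw [hq, sub_mul, one_mul, coeff_sub, coeff_X_pow_mul, hqdeg (k + m) (by omega), sub_zero]
  have key : ∀ k, k < m → (PP g).coeff k = (PP g).coeff (k + m) := fun k hk => by
    rw [hlow k hk, hhigh k hk]
  intro x
  have hx := ZMod.val_lt x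
  have hmv : ((m : ℕ) : ZMod (2 * m)).val = m := by
    rw [ZMod.val_natCast, Nat.mod_eq_of_lt (by omega)]
  rw [← PP_coeff g x, ← PP_coeff g (x + m), ZMod.val_add, hmv]
  rcases lt_or_ge x.val m with h1 | h1
  · rw [Nat.mod_eq_of_lt (by omega), key _ h1]
  · have h2 : (x.val + m) % (2 * m) = x.val - m := by
      rw [Nat.mod_eq_sub_mod (by omega), Nat.mod_eq_of_lt (by omega)]; omega
    rw [h2, key _ (by omega), Nat.sub_add_cancel h1]

/-- product of non periodic elements is non zero -/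
theorem conv_ne_zero {k : ℕ} [NeZero (2 * 2 ^ k)] (g b : ZMod (2 * 2 ^ k) → ZMod 2)
    (hg : ¬ ∀ x, g (x + ((2 ^ k : ℕ) : ZMod (2 * 2 ^ k))) = g x)
    (hb : ¬ ∀ x, b (x + ((2 ^ k : ℕ) : ZMod (2 * 2 ^ k))) = b x) : conv g b ≠ 0 := by
  intro h0
  have h1 := PP_mul g b
  have hP0 : PP (conv g b) = 0 := by rw [h0]; unfold PP; simp
  have hX : (X ^ (2 * 2 ^ k) - 1 : (ZMod 2)[X]) = (X - 1) ^ (2 ^ (k + 1)) := by
    rw [show 2 * 2 ^ k = 2 ^ (k + 1) by ring, frob]
  rw [hP0, sub_zero, hX] at h1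
  have hp := primeX
  have hg' : ¬ (X - 1 : (ZMod 2)[X]) ^ (2 ^ k) ∣ PP g := by
    intro hd
    rw [← frob] at hd
    exact hg (periodic_of_dvd (by positivity) g hd)
  have hb' : ¬ (X - 1 : (ZMod 2)[X]) ^ (2 ^ k) ∣ PP b := by
    intro hd
    rw [← frob] at hd
    exact hb (periodic_of_dvd (by positivity) b hd)
  have e1 : emultiplicity (X - 1 : (ZMod 2)[X]) (PP g) < (2 ^ k : ℕ) := by
    by_contra hc
    exact hg' (pow_dvd_of_le_emultiplicity (not_lt.mp hc))
  have e2 : emultiplicity (X - 1 : (ZMod 2)[X]) (PP b) < (2 ^ k : ℕ) := by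
    by_contra hc
    exact hb' (pow_dvd_of_le_emultiplicity (not_lt.mp hc))
  have e3 := le_emultiplicity_of_pow_dvd h1
  rw [emultiplicity_mul hp] at e3
  obtain ⟨a, ha⟩ := ENat.ne_top_iff_exists.mp (ne_top_of_lt e1)
  obtain ⟨c, hc⟩ := ENat.ne_top_iff_exists.mp (ne_top_of_lt e2)
  rw [← ha] at e1 e3
  rw [← hc] at e2 e3
  have e1' : a < 2 ^ k := by exact_mod_cast e1
  have e2' : c < 2 ^ k := by exact_mod_cast e2
  have e3' : 2 ^ (k + 1) ≤ a + c := by exact_mod_cast e3
  have : 2 ^ (k + 1) = 2 ^ k + 2 ^ k := by ring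
  omega

end Pool.Agent.J6H46.QI
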