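import Pool.Agent.J6H46.QI.Code1

/-!
# Good quasi-cyclic codes of length `2 * 2^k`: counting
-/

set_option autoImplicit false
set_option linter.unusedSectionVars false
set_option linter.unnecessarySimpa false
set_option linter.unusedSimpArgs false
open Classical

namespace Pool.Agent.J6H46.QI

section
variable {n : ℕ} [NeZero n]

/-- `b` is bad: a nonzero `g` with both `g` and `g * b` light -/
def Bad (n : ℕ) [NeZero n] (b : ZMod n → ZMod 2) : Prop :=
  ∃ g : ZMod n → ZMod 2, g ≠ 0 ∧ 100 * wt g ≤ n ∧ 100 * wt (conv g b) ≤ n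

theorem conv_sub (g b b' : ZMod n → ZMod 2) : conv g (b - b') = conv g b - conv g b' := by
  funext c
  unfold conv
  simp only [Pi.sub_apply, mul_sub, Finset.sum_sub_distrib]

theorem wt_gen (t : ℝ) : ∑ g : ZMod n → ZMod 2, t ^ (wt g) = (1 + t) ^ n := by
  have h1 : ∀ g : ZMod n → ZMod 2, t ^ (wt g) = ∏ j, (if g j ≠ 0 then t else 1) := by
    intro g
    unfold wt
    rw [Finset.prod_ite, Finset.prod_const, Finset.prod_const_one, mul_one]
  rw [Finset.sum_congr rfl fun g _ => h1 g]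
  have h2 := Finset.prod_univ_sum (fun _ : ZMod n => (Finset.univ : Finset (ZMod 2)))
    (fun _ v => if v ≠ 0 then t else (1:ℝ))
  rw [Fintype.piFinset_univ] at h2
  rw [← h2]
  have h3 : ∑ v : ZMod 2, (if v ≠ 0 then t else (1:ℝ)) = 1 + t := by
    rw [show (Finset.univ : Finset (ZMod 2)) = {0, 1} by decide]
    simp
  rw [Finset.prod_const, h3, Finset.card_univ, ZMod.card]

/-- number of light functions -/
noncomputable def Vn (n : ℕ) [NeZero n] : ℕ :=
  (Finset.univ.filter fun g : ZMod n → ZMod 2 => 100 * wt g ≤ n).card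

theorem Vn_pow : (Vn n : ℝ) ^ 200 ≤ 2 ^ (25 * n) := by
  have h1 : (Vn n : ℝ) ≤ 100 ^ (n / 100) * (1 + 1 / 100) ^ n := by
    rw [← wt_gen (n := n) (1 / 100), Finset.mul_sum]
    unfold Vn
    rw [Finset.card_filter]
    push_cast
    refine Finset.sum_le_sum fun g _ => ?_
    split_ifs with h
    · have h2 : wt g ≤ n / 100 := by omega
      rw [one_div, inv_pow, ← div_eq_mul_inv, le_div_iff₀ (by positivity), one_mul]
      exact pow_le_pow_right₀ (by norm_num) h2
    · positivity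
  calc (Vn n : ℝ) ^ 200 ≤ (100 ^ (n / 100) * (1 + 1 / 100) ^ n) ^ 200 :=
        pow_le_pow_left₀ (Nat.cast_nonneg _) h1 _
    _ = 100 ^ ((n / 100) * 200) * ((1 + 1 / 100) ^ 200) ^ n := by
        rw [mul_pow, ← pow_mul, ← pow_mul, ← pow_mul, mul_comm n 200]
    _ ≤ 100 ^ (2 * n) * (8:ℝ) ^ n := by
        have e1 : (100:ℝ) ^ ((n / 100) * 200) ≤ 100 ^ (2 * n) :=
          pow_le_pow_right₀ (by norm_num) (by omega)
        have e2 : ((1 + 1 / 100 : ℝ) ^ 200) ^ n ≤ 8 ^ n :=
          pow_le_pow_left₀ (by positivity) (by norm_num) _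
        exact mul_le_mul e1 e2 (by positivity) (by positivity)
    _ = 80000 ^ n := by rw [pow_mul, ← mul_pow]; norm_num
    _ ≤ (2 ^ 25) ^ n := pow_le_pow_left₀ (by norm_num) (by norm_num) _
    _ = 2 ^ (25 * n) := by rw [pow_mul]

end

section fold
variable {m : ℕ} [NeZero m] [NeZero (2 * m)]

/-- reduction `ZMod (2m) → ZMod m` -/
def ph (m : ℕ) : ZMod (2 * m) →+* ZMod m := ZMod.castHom (dvd_mul_left m 2) (ZMod m)

/-- section -/
def sc (m : ℕ) (c : ZMod m) : ZMod (2 * m) := ((c.val : ℕ) : ZMod (2 * m))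

theorem ph_sc (c : ZMod m) : ph m (sc m c) = c := by
  unfold ph sc
  rw [map_natCast, ZMod.natCast_val, ZMod.cast_id', id]

theorem ph_m : ph m ((m : ℕ) : ZMod (2 * m)) = 0 := by
  unfold ph
  rw [map_natCast, ZMod.natCast_self]

theorem m_ne : ((m : ℕ) : ZMod (2 * m)) ≠ 0 := by
  intro h
  rw [ZMod.natCast_eq_zero_iff] at h
  have hm : 0 < m := Nat.pos_of_ne_zero (NeZero.ne m)
  have := Nat.le_of_dvd hm h
  omega

theorem m_add : ((m : ℕ) : ZMod (2 * m)) + ((m : ℕ) : ZMod (2 * m)) = 0 := by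
  have : ((2 * m : ℕ) : ZMod (2 * m)) = 0 := ZMod.natCast_self _
  rw [← this]; push_cast; ring

/-- `ZMod (2m)` is two copies of `ZMod m` -/
noncomputable def sp (m : ℕ) [NeZero m] [NeZero (2 * m)] : ZMod m × Bool ≃ ZMod (2 * m) :=
  Equiv.ofBijective (fun a => sc m a.1 + (if a.2 then ((m : ℕ) : ZMod (2 * m)) else 0)) (by
    rw [Fintype.bijective_iff_injective_and_card]
    constructor
    · rintro ⟨c, ε⟩ ⟨c', ε'⟩ h
      simp only at h
      have h1 := congrArg (ph m) h
      rw [map_add, map_add, ph_sc, ph_sc] at h1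
      have h2 : ∀ ε : Bool, ph m (if ε then ((m : ℕ) : ZMod (2 * m)) else 0) = 0 := by
        intro ε; cases ε
        · simp
        · simpa using ph_m
      rw [h2, h2, add_zero, add_zero] at h1
      subst h1
      have h3 := add_left_cancel h
      have hm := m_ne (m := m)
      cases ε <;> cases ε' <;> simp_all
    · rw [Fintype.card_prod, ZMod.card, ZMod.card, Fintype.card_bool]; ring)

theorem sum_sp {R : Type} [AddCommMonoid R] (F : ZMod (2 * m) → R) :
    ∑ x, F x = ∑ c : ZMod m, (F (sc m c) + F (sc m c + ((m : ℕ) : ZMod (2 * m)))) := by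
  rw [← (sp m).sum_comp, Fintype.sum_prod_type]
  refine Finset.sum_congr rfl fun c _ => ?_
  rw [Fintype.sum_bool]
  show F (sc m c + _) + F (sc m c + _) = _
  simp [add_comm]

/-- folding -/
def fold (b : ZMod (2 * m) → ZMod 2) : ZMod m → ZMod 2 :=
  fun c => b (sc m c) + b (sc m c + ((m : ℕ) : ZMod (2 * m)))

theorem eq_or (x : ZMod (2 * m)) : x = sc m (ph m x) ∨ x = sc m (ph m x) + ((m : ℕ) : ZMod (2 * m)) := by
  obtain ⟨⟨c, ε⟩, h⟩ := (sp m).surjective x
  have h' : sc m c + (if ε then ((m : ℕ) : ZMod (2 * m)) else 0) = x := h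
  have hc : ph m x = c := by
    rw [← h', map_add, ph_sc]
    cases ε
    · simp
    · simp [ph_m]
  rw [hc]
  cases ε
  · left; simpa using h'.symm
  · right; simpa using h'.symm

theorem fold_ph (b : ZMod (2 * m) → ZMod 2) (x : ZMod (2 * m)) :
    fold b (ph m x) = b x + b (x + ((m : ℕ) : ZMod (2 * m))) := by
  unfold fold
  rcases eq_or x with h | h
  · rw [← h]
  · have h2 : x + ((m : ℕ) : ZMod (2 * m)) = sc m (ph m x) := by
      conv_lhs => rw [h]
      rw [add_assoc, m_add, add_zero]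
    rw [h2, ← h, add_comm]

theorem conv_periodic (g' : ZMod m → ZMod 2) (b : ZMod (2 * m) → ZMod 2) (x : ZMod (2 * m)) :
    conv (fun x => g' (ph m x)) b x = conv g' (fold b) (ph m x) := by
  unfold conv
  rw [sum_sp]
  refine Finset.sum_congr rfl fun c _ => ?_
  beta_reduce
  rw [map_add, ph_sc, ph_m, add_zero, ← mul_add]
  congr 1
  rw [show ph m x - c = ph m (x - sc m c) by rw [map_sub, ph_sc], fold_ph]
  congr 2
  have h := m_add (m := m)
  rw [eq_neg_of_add_eq_zero_left h]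
  have h3 : -(((m : ℕ) : ZMod (2 * m))) = ((m : ℕ) : ZMod (2 * m)) := (eq_neg_of_add_eq_zero_left h).symm
  rw [h3]
  have h4 : x - (sc m c + ((m : ℕ) : ZMod (2 * m))) = x - sc m c - ((m : ℕ) : ZMod (2 * m)) := by ring
  rw [h4, sub_eq_add_neg (x - sc m c), h3]

theorem wt_periodic (g' : ZMod m → ZMod 2) : wt (fun x : ZMod (2 * m) => g' (ph m x)) = 2 * wt g' := by
  unfold wt
  rw [Finset.card_filter, Finset.card_filter, sum_sp, Finset.mul_sum]
  refine Finset.sum_congr rfl fun c _ => ?_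
  beta_reduce
  rw [map_add, ph_sc, ph_m, add_zero]
  ring

/-- number of bad functions -/
noncomputable def cb (n : ℕ) [NeZero n] : ℕ :=
  (Finset.univ.filter fun b : ZMod n → ZMod 2 => Bad n b).card

theorem card_fn (n : ℕ) [NeZero n] : Fintype.card (ZMod n → ZMod 2) = 2 ^ n := by
  rw [Fintype.card_fun, ZMod.card, ZMod.card]

/-- few functions with prescribed fold lie in a given set -/
theorem card_fold (S : Finset (ZMod m → ZMod 2)) :
    (Finset.univ.filter fun b : ZMod (2 * m) → ZMod 2 => fold b ∈ S).card ≤ S.card * 2 ^ m := by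
  rw [← card_fn m, ← Finset.card_univ, ← Finset.card_product]
  refine Finset.card_le_card_of_injOn (fun b => (fold b, fun c => b (sc m c))) ?_ ?_
  · intro b hb
    have hb' : fold b ∈ S := (Finset.mem_filter.mp hb).2
    exact Finset.mem_coe.mpr (Finset.mem_product.mpr ⟨hb', Finset.mem_univ _⟩)
  · intro b _ b' _ h
    simp only [Prod.mk.injEq] at h
    obtain ⟨h1, h2⟩ := h
    have h3 : ∀ c, b (sc m c) = b' (sc m c) := fun c => congrFun h2 c
    funext x
    rcases eq_or x with hx | hx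
    · rw [hx]; exact h3 _
    · have h4 := congrFun h1 (ph m x)
      unfold fold at h4
      rw [h3, ← hx] at h4
      exact add_left_cancel h4

/-- periodic functions -/
theorem fold_periodic {b : ZMod (2 * m) → ZMod 2}
    (hb : ∀ x, b (x + ((m : ℕ) : ZMod (2 * m))) = b x) : fold b = 0 := by
  funext c
  unfold fold
  rw [hb]
  have : ∀ z : ZMod 2, z + z = 0 := by decide
  exact this _

end fold

theorem card_fiber (k : ℕ) [NeZero (2 ^ k)] [NeZero (2 * 2 ^ k)] (g h : ZMod (2 * 2 ^ k) → ZMod 2)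
    (hg : ¬ ∀ x, g (x + ((2 ^ k : ℕ) : ZMod (2 * 2 ^ k))) = g x) :
    (Finset.univ.filter fun b : ZMod (2 * 2 ^ k) → ZMod 2 => conv g b = h).card ≤ 2 ^ (2 ^ k) := by
  by_cases hne : (Finset.univ.filter fun b : ZMod (2 * 2 ^ k) → ZMod 2 => conv g b = h).Nonempty
  · obtain ⟨b0, hb0⟩ := hne
    have hb0' : conv g b0 = h := (Finset.mem_filter.mp hb0).2
    have h1 := card_fold (m := 2 ^ k) {0}
    rw [Finset.card_singleton, one_mul] at h1
    refine le_trans ?_ h1
    refine Finset.card_le_card_of_injOn (fun b => b - b0) ?_ ?_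
    · intro b hb
      have hb' : conv g b = h := (Finset.mem_filter.mp hb).2
      refine Finset.mem_coe.mpr (Finset.mem_filter.mpr ⟨Finset.mem_univ _, ?_⟩)
      rw [Finset.mem_singleton]
      apply fold_periodic
      by_contra hc
      refine conv_ne_zero g (b - b0) hg hc ?_
      rw [conv_sub, hb', hb0', sub_self]
    · intro b _ b' _ hbb
      exact sub_left_injective hbb
  · rw [Finset.not_nonempty_iff_eq_empty.mp hne, Finset.card_empty]; positivity

theorem cb_rec (k : ℕ) [NeZero (2 ^ k)] [NeZero (2 * 2 ^ k)] :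
    cb (2 * 2 ^ k) ≤ cb (2 ^ k) * 2 ^ (2 ^ k) + Vn (2 * 2 ^ k) ^ 2 * 2 ^ (2 ^ k) := by
  set m := 2 ^ k with hm
  let L := Finset.univ.filter fun g : ZMod (2 * m) → ZMod 2 => 100 * wt g ≤ 2 * m
  have hsub : (Finset.univ.filter fun b : ZMod (2 * m) → ZMod 2 => Bad (2 * m) b) ⊆
      (Finset.univ.filter fun b : ZMod (2 * m) → ZMod 2 =>
        fold b ∈ Finset.univ.filter fun b : ZMod m → ZMod 2 => Bad m b) ∪
      (L.filter fun g => ¬ ∀ x, g (x + ((m : ℕ) : ZMod (2 * m))) = g x).biUnion (fun g =>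
        L.biUnion fun h => Finset.univ.filter fun b => conv g b = h) := by
    intro b hb
    obtain ⟨g, hg0, hg1, hg2⟩ := (Finset.mem_filter.mp hb).2
    rw [Finset.mem_union]
    by_cases hper : ∀ x, g (x + ((m : ℕ) : ZMod (2 * m))) = g x
    · left
      refine Finset.mem_filter.mpr ⟨Finset.mem_univ _, Finset.mem_filter.mpr ⟨Finset.mem_univ _, ?_⟩⟩
      let g' : ZMod m → ZMod 2 := fun c => g (sc m c)
      have hgg : g = fun x => g' (ph m x) := by
        funext x
        rcases eq_or x with hx | hx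
        · show g x = g (sc m (ph m x)); rw [← hx]
        · show g x = g (sc m (ph m x))
          conv_lhs => rw [hx]
          exact hper _
      refine ⟨g', ?_, ?_, ?_⟩
      · intro h0
        apply hg0
        rw [hgg, h0]; rfl
      · rw [hgg, wt_periodic] at hg1; omega
      · have : conv g b = fun x => conv g' (fold b) (ph m x) := by
          funext x; rw [hgg]; exact conv_periodic g' b x
        rw [this, wt_periodic] at hg2; omega
    · right
      refine Finset.mem_biUnion.mpr ⟨g, Finset.mem_filter.mpr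
        ⟨Finset.mem_filter.mpr ⟨Finset.mem_univ _, hg1⟩, hper⟩, ?_⟩
      exact Finset.mem_biUnion.mpr ⟨conv g b, Finset.mem_filter.mpr ⟨Finset.mem_univ _, hg2⟩,
        Finset.mem_filter.mpr ⟨Finset.mem_univ _, rfl⟩⟩
  have h1 := (Finset.card_le_card hsub).trans (Finset.card_union_le _ _)
  have h2 := card_fold (m := m) (Finset.univ.filter fun b : ZMod m → ZMod 2 => Bad m b)
  have h3 : ((L.filter fun g => ¬ ∀ x, g (x + ((m : ℕ) : ZMod (2 * m))) = g x).biUnion (fun g =>
        L.biUnion fun h => Finset.univ.filter fun b => conv g b = h)).card ≤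
        Vn (2 * m) ^ 2 * 2 ^ m := by
    refine (Finset.card_biUnion_le).trans ?_
    have h4 : ∀ g ∈ L.filter fun g => ¬ ∀ x, g (x + ((m : ℕ) : ZMod (2 * m))) = g x,
        (L.biUnion fun h => Finset.univ.filter fun b => conv g b = h).card ≤ L.card * 2 ^ m := by
      intro g hg
      refine (Finset.card_biUnion_le).trans ?_
      refine (Finset.sum_le_sum fun h _ => card_fiber k g h (Finset.mem_filter.mp hg).2).trans ?_
      rw [Finset.sum_const, smul_eq_mul]
    refine (Finset.sum_le_sum h4).trans ?_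
    rw [Finset.sum_const, smul_eq_mul]
    have h5 : (L.filter fun g => ¬ ∀ x, g (x + ((m : ℕ) : ZMod (2 * m))) = g x).card ≤ L.card :=
      Finset.card_filter_le _ _
    calc _ ≤ L.card * (L.card * 2 ^ m) := Nat.mul_le_mul_right _ h5
      _ = Vn (2 * m) ^ 2 * 2 ^ m := by
          show L.card * (L.card * 2 ^ m) = L.card ^ 2 * 2 ^ m
          ring
  exact h1.trans (add_le_add h2 h3)

instance nz (k : ℕ) : NeZero (2 ^ k) := ⟨by positivity⟩
instance nz2 (k : ℕ) : NeZero (2 * 2 ^ k) := ⟨by positivity⟩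

theorem Vn_sq (k : ℕ) : (Vn (2 ^ (k + 2)) : ℝ) ^ 2 ≤ 2 ^ (2 ^ k) := by
  have h1 := Vn_pow (n := 2 ^ (k + 2))
  have h2 : ((Vn (2 ^ (k + 2)) : ℝ) ^ 2) ^ 100 ≤ (2 ^ (2 ^ k)) ^ 100 := by
    rw [← pow_mul, ← pow_mul]
    refine h1.trans (le_of_eq ?_)
    congr 1
    rw [pow_succ, pow_succ]; ring
  exact le_of_pow_le_pow_left₀ (by norm_num) (by positivity) h2

theorem cb_bound (k : ℕ) (hk : 6 ≤ k) : (cb (2 ^ k) : ℝ) ≤ (1 / 2 - 1 / 2 ^ k) * 2 ^ (2 ^ k) := by
  induction k, hk using Nat.le_induction with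
  | base =>
    have : cb (2 ^ 6) = 0 := by
      unfold cb
      rw [Finset.card_eq_zero, Finset.filter_eq_empty_iff]
      rintro b - ⟨g, hg0, hg1, -⟩
      apply hg0
      have h2 : wt g = 0 := by omega
      unfold wt at h2
      rw [Finset.card_eq_zero, Finset.filter_eq_empty_iff] at h2
      funext j
      have := h2 (Finset.mem_univ j)
      simpa using this
    rw [this]; norm_num
  | succ k hk ih =>
    obtain ⟨j, rfl⟩ : ∃ j, k = j + 1 := ⟨k - 1, by omega⟩
    have h1 : (cb (2 * 2 ^ (j + 1)) : ℝ) ≤ cb (2 ^ (j + 1)) * 2 ^ (2 ^ (j + 1)) +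
        Vn (2 * 2 ^ (j + 1)) ^ 2 * 2 ^ (2 ^ (j + 1)) := by exact_mod_cast cb_rec (j + 1)
    have e1 : cb (2 * 2 ^ (j + 1)) = cb (2 ^ (j + 1 + 1)) := by congr 1; ring
    have e2 : Vn (2 * 2 ^ (j + 1)) = Vn (2 ^ (j + 2)) := by congr 1; ring
    rw [e1, e2] at h1
    have h2 := Vn_sq j
    have h3 : ((2:ℝ) ^ (2 ^ (j + 1 + 1))) = 2 ^ (2 ^ (j + 1)) * 2 ^ (2 ^ (j + 1)) := by
      rw [← pow_add]; congr 1; ring
    have h4 : ((2:ℝ) ^ (2 ^ (j + 1))) = 2 ^ (2 ^ j) * 2 ^ (2 ^ j) := by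
      rw [← pow_add]; congr 1; ring
    have h5 : (2:ℝ) ^ (j + 2) ≤ 2 ^ (2 ^ j) := by
      refine pow_le_pow_right₀ (by norm_num) ?_
      have : j < 2 ^ (j - 1) := by
        have h6 : j - 1 < 2 ^ (j - 1) := Nat.lt_two_pow_self
        have h7 : ∀ i, 4 ≤ i → i + 1 < 2 ^ i := by
          intro i hi
          induction i, hi using Nat.le_induction with
          | base => norm_num
          | succ i hi ih => rw [pow_succ]; omega
        have := h7 (j - 1) (by omega)
        omega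
      have h8 : 2 ^ j = 2 * 2 ^ (j - 1) := by
        rw [← pow_succ']; congr 1; omega
      omega
    have hA : (0:ℝ) < 2 ^ (2 ^ j) := by positivity
    have hB : (0:ℝ) < 2 ^ j := by positivity
    rw [h3]
    set A : ℝ := 2 ^ (2 ^ j) with hAdef
    have h6 : (Vn (2 ^ (j + 2)) : ℝ) ^ 2 * 2 ^ (2 ^ (j + 1)) ≤ A * 2 ^ (2 ^ (j + 1)) := by gcongr
    have h7 : (cb (2 ^ (j + 1)) : ℝ) * 2 ^ (2 ^ (j + 1)) ≤
        ((1 / 2 - 1 / 2 ^ (j + 1)) * 2 ^ (2 ^ (j + 1))) * 2 ^ (2 ^ (j + 1)) := by gcongr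
    have h8 : A ≤ (1 / 2 ^ (j + 2)) * 2 ^ (2 ^ (j + 1)) := by
      rw [h4, one_div, ← div_eq_inv_mul, le_div_iff₀ (by positivity)]
      exact mul_le_mul_of_nonneg_left h5 hA.le
    have h9 : (1:ℝ) / 2 ^ (j + 1) = 1 / 2 ^ (j + 2) + 1 / 2 ^ (j + 2) := by
      rw [pow_succ (2:ℝ) (j + 1)]; field_simp; norm_num
    have h10 := mul_le_mul_of_nonneg_right h8 (show (0:ℝ) ≤ 2 ^ (2 ^ (j + 1)) by positivity)
    have h11 : (1:ℝ) / 2 ^ (j + 1 + 1) = 1 / 2 ^ (j + 2) := rfl
    rw [h11]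
    rw [h9] at h7
    nlinarith

/-- existence of a good `b` -/
theorem exists_good (k : ℕ) (hk : 6 ≤ k) : ∃ b : ZMod (2 ^ k) → ZMod 2, ¬ Bad (2 ^ k) b := by
  by_contra hc
  push Not at hc
  have h1 : cb (2 ^ k) = 2 ^ (2 ^ k) := by
    unfold cb
    rw [Finset.filter_true_of_mem (fun b _ => hc b), Finset.card_univ, card_fn]
  have h2 := cb_bound k hk
  rw [h1] at h2
  push_cast at h2
  have h3 : (0:ℝ) < 2 ^ (2 ^ k) := by positivity
  have h4 : (0:ℝ) < 1 / 2 ^ k := by positivity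
  nlinarith

end Pool.Agent.J6H46.QI
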