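import Pool.Agent.J6H46.QI.Params

/-!
# The pair of graphs
-/

set_option autoImplicit false
set_option linter.unusedSectionVars false
open Classical

namespace Pool.Agent.J6H46.QI
open Pool.H521RB Pool.Agent.K3h39.LT

/-- degree `dX + 2`, constant `C` is beaten -/
def Good (dX : ℕ) (C : ℝ) : Prop :=
  ∃ (V V' : Type) (_ : Fintype V) (_ : Fintype V') (G : SimpleGraph V) (G' : SimpleGraph V'),
    G.Connected ∧ G'.Connected ∧ VertexTransitive G ∧ (∀ v, G.degree v = dX + 2) ∧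
    (∀ v, G'.degree v = Dc dX) ∧ IsQI 1 (2 * (Dc dX : ℝ)) G G' ∧ (∃ t, Mixed G t) ∧
    (∃ t, Mixed G' t) ∧ C * tInf G < tInf G'

theorem T_bound {x : ℝ} (hx0 : 0 < x) (hx1 : x ≤ 1) {n N : ℕ} (hn : 200 ≤ n) (hN0 : 0 < N)
    (hN : N ≤ 2 ^ n) :
    (1 - x) ^ (⌈4 * (n:ℝ) / x⌉₊) ≤ (1 / (48 * Kc)) / ((N:ℝ) ^ 2 * n) := by
  set T := ⌈4 * (n:ℝ) / x⌉₊ with hT
  have h1 : 1 - x ≤ Real.exp (-x) := by linarith [Real.add_one_le_exp (-x)]
  have h2 : (1 - x) ^ T ≤ Real.exp (-x) ^ T := pow_le_pow_left₀ (by linarith) h1 _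
  have h3 : Real.exp (-x) ^ T = Real.exp (-(x * T)) := by
    rw [← Real.exp_nat_mul]; congr 1; ring
  have h4 : 4 * (n:ℝ) ≤ x * T := by
    have := Nat.le_ceil (4 * (n:ℝ) / x)
    rw [div_le_iff₀ hx0] at this
    linarith
  have h5 : Real.exp (-(x * T)) ≤ Real.exp (-(4 * n)) := Real.exp_le_exp.mpr (by linarith)
  have h6 : (16:ℝ) ^ n ≤ Real.exp (4 * n) := by
    have h : (2:ℝ) ≤ Real.exp 1 := by have := Real.add_one_le_exp (1:ℝ); linarith
    calc (16:ℝ) ^ n = (2 ^ 4) ^ n := by norm_num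
      _ = 2 ^ (4 * n) := by rw [← pow_mul]
      _ ≤ (Real.exp 1) ^ (4 * n) := pow_le_pow_left₀ (by norm_num) h _
      _ = Real.exp (4 * n) := by rw [← Real.exp_nat_mul]; push_cast; congr 1; ring
  have h7 : 48 * Kc * ((N:ℝ) ^ 2 * n) ≤ 16 ^ n := by
    have e1 : (N:ℝ) ≤ 2 ^ n := by exact_mod_cast hN
    have e2 : (n:ℝ) ≤ 2 ^ n := by exact_mod_cast Nat.lt_two_pow_self.le
    have e3 : 48 * Kc ≤ (2:ℝ) ^ n := by
      have : (2:ℝ) ^ 46 ≤ 2 ^ n := pow_le_pow_right₀ (by norm_num) (by omega)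
      refine le_trans ?_ this
      unfold Kc; norm_num
    have e4 : (N:ℝ) ^ 2 ≤ (2 ^ n) ^ 2 := pow_le_pow_left₀ (Nat.cast_nonneg _) e1 2
    have hK := Kc_pos
    calc 48 * Kc * ((N:ℝ) ^ 2 * n) ≤ 2 ^ n * ((2 ^ n) ^ 2 * 2 ^ n) :=
          mul_le_mul e3 (mul_le_mul e4 e2 (Nat.cast_nonneg _) (by positivity)) (by positivity)
            (by positivity)
      _ = 16 ^ n := by
          have e5 : (16:ℝ) ^ n = (2 ^ n) ^ 4 := by rw [← pow_mul, mul_comm, pow_mul]; norm_num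
          rw [e5]; ring
  have hK := Kc_pos
  have hNr : (0:ℝ) < N := by exact_mod_cast hN0
  have hnr : (0:ℝ) < n := by
    have : 0 < n := by omega
    exact_mod_cast this
  rw [div_div]
  refine (h2.trans (h3.le.trans h5)).trans ?_
  rw [Real.exp_neg, ← one_div]
  exact one_div_le_one_div_of_le (by positivity) (h7.trans h6)

theorem par_bounds {n N : ℕ} {j dX : ℕ} (hn : n = 2 ^ (4 * j)) (hj : 100 ≤ j)
    (hRM : Rr (2 ^ (3 * j)) ^ (2 ^ (3 * j)) ≤ N) {T : ℕ} {x : ℝ}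
    (hx : x = (Wc : ℝ) / (2 * (Dc dX : ℝ)) * (1 / (32 * ((2:ℝ) ^ j) ^ 2)))
    (hT : T = ⌈4 * (n:ℝ) / x⌉₊) :
    1 / (2 * (Dc dX : ℝ)) * (T / N + 1 / ((Wc : ℝ) / (2 * (Dc dX : ℝ)) * gapP)) *
      (1920 * Kc ^ 2) ≤ 1 := by
  have hW : (1:ℝ) ≤ Wc := by exact_mod_cast Wc_pos
  have hD : (2:ℝ) ≤ Dc dX := by
    have : 2 ≤ Dc dX := by unfold Dc; omega
    exact_mod_cast this
  have hg := gapP_pos
  have hK := Kc_pos
  have hs : (0:ℝ) < 2 ^ j := by positivity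
  have hx0 : 0 < x := by rw [hx]; positivity
  -- bound for T
  have hT1 : (T:ℝ) ≤ 4 * n / x + 1 := by
    rw [hT]; exact (Nat.ceil_lt_add_one (by positivity)).le
  have hT2 : 4 * (n:ℝ) / x = 256 * n * (2 ^ j) ^ 2 * (Dc dX / Wc) := by
    rw [hx]; field_simp; ring
  have hT3 : (T:ℝ) ≤ 257 * n * (2 ^ j) ^ 2 * Dc dX := by
    have e1 : (Dc dX : ℝ) / Wc ≤ Dc dX := div_le_self (by linarith) hW
    have e2 : (1:ℝ) ≤ n * (2 ^ j) ^ 2 * Dc dX := by
      have a1 : (1:ℝ) ≤ n := by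
        have : 1 ≤ n := by rw [hn]; exact Nat.one_le_two_pow
        exact_mod_cast this
      have a2 : (1:ℝ) ≤ (2 ^ j) ^ 2 := one_le_pow₀ (one_le_pow₀ (by norm_num))
      have a3 : (1:ℝ) ≤ n * (2 ^ j) ^ 2 := one_le_mul_of_one_le_of_one_le a1 a2
      exact one_le_mul_of_one_le_of_one_le a3 (by linarith)
    rw [hT2] at hT1
    have e3 : 256 * (n:ℝ) * (2 ^ j) ^ 2 * (Dc dX / Wc) ≤ 256 * n * (2 ^ j) ^ 2 * Dc dX :=
      mul_le_mul_of_nonneg_left e1 (by positivity)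
    linarith
  -- bound for N
  have hN1 : (2:ℝ) ^ (120 + 12 * j) ≤ N := by
    have e1 : 2 ^ (120 + 12 * j) ≤ Rr (2 ^ (3 * j)) ^ (2 ^ (3 * j)) := by
      rw [Rr_eq, ← pow_mul]
      apply Nat.pow_le_pow_right (by norm_num)
      have : 2 ^ 1 ≤ 2 ^ (3 * j) := Nat.pow_le_pow_right (by norm_num) (by omega)
      nlinarith
    exact_mod_cast e1.trans hRM
  have hN0 : (0:ℝ) < N := lt_of_lt_of_le (by positivity) hN1
  -- first part
  have h1 : 1 / (2 * (Dc dX : ℝ)) * (T / N) * (1920 * Kc ^ 2) ≤ 1 / 2 := by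
    have e1 : (T:ℝ) * (1920 * Kc ^ 2) ≤ N * Dc dX := by
      have e2 : (257 * (n:ℝ) * (2 ^ j) ^ 2) * (1920 * Kc ^ 2) ≤ 2 ^ (120 + 12 * j) := by
        rw [hn]; push_cast
        have e3 : (2:ℝ) ^ (4 * j) * (2 ^ j) ^ 2 = 2 ^ (6 * j) := by
          rw [← pow_mul, ← pow_add]; congr 1; ring
        have e4 : (257:ℝ) * 1920 * Kc ^ 2 ≤ 2 ^ 120 := by unfold Kc; norm_num
        have e5 : (2:ℝ) ^ (6 * j) ≤ 2 ^ (12 * j) := pow_le_pow_right₀ (by norm_num) (by omega)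
        calc (257 * (2:ℝ) ^ (4 * j) * (2 ^ j) ^ 2) * (1920 * Kc ^ 2)
            = (257 * 1920 * Kc ^ 2) * (2 ^ (4 * j) * (2 ^ j) ^ 2) := by ring
          _ = (257 * 1920 * Kc ^ 2) * 2 ^ (6 * j) := by rw [e3]
          _ ≤ 2 ^ 120 * 2 ^ (12 * j) := mul_le_mul e4 e5 (by positivity) (by positivity)
          _ = _ := by rw [← pow_add]
      have e6 := mul_le_mul_of_nonneg_right hT3 (show 0 ≤ 1920 * Kc ^ 2 by positivity)
      have e7 := mul_le_mul_of_nonneg_right (e2.trans hN1) (show (0:ℝ) ≤ Dc dX by linarith)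
      linarith
    rw [show 1 / (2 * (Dc dX : ℝ)) * (T / N) * (1920 * Kc ^ 2) =
      (T * (1920 * Kc ^ 2)) / (2 * (N * Dc dX)) by field_simp]
    rw [div_le_iff₀ (by positivity)]
    linarith
  have h2 : 1 / (2 * (Dc dX : ℝ)) * (1 / ((Wc : ℝ) / (2 * (Dc dX : ℝ)) * gapP)) * (1920 * Kc ^ 2) ≤ 1 / 2 := by
    rw [show 1 / (2 * (Dc dX : ℝ)) * (1 / ((Wc : ℝ) / (2 * (Dc dX : ℝ)) * gapP)) * (1920 * Kc ^ 2) =
      (1920 * Kc ^ 2) / (Wc * gapP) by field_simp]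
    rw [div_le_iff₀ (by positivity)]
    have := Wc_ge
    linarith
  rw [mul_add, add_mul]
  linarith


/-! ### numerical lemmas -/

theorem num_cQd {W d D K : ℝ} (hK : 0 ≤ K) (hD : 0 < D) (h : W * d + 2 * K + 2 ≤ D) :
    2 * (W / (2 * D)) * d ≤ 1 := by
  rw [show 2 * (W / (2 * D)) * d = (W * d) / D by field_simp, div_le_one hD]
  linarith

theorem num_diag {W d D K w1 w2 : ℝ} (hD : 0 < D) (h : W * d + 2 * K + 2 ≤ D)
    (h1 : w1 ≤ K) (h2 : w2 ≤ K) : 1 / (2 * D) * (w1 + w2) ≤ 1 - W / (2 * D) * d := by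
  rw [show 1 / (2 * D) * (w1 + w2) = (w1 + w2) / (2 * D) by field_simp,
    show 1 - W / (2 * D) * d = (2 * D - W * d) / (2 * D) by field_simp]
  apply div_le_div_of_nonneg_right _ (by positivity)
  linarith

theorem num_big {n N D J' : ℝ} (hn : 0 < n) (hN : 2 ^ 43 ≤ N) (hD : 2 ≤ D)
    (h : Sc * J' ≤ 2 * n * N) :
    (1 / (2 * D)) / (N ^ 2 * n) * 151115727451828646838272 * J' ≤ 1 := by
  have hN0 : 0 < N := lt_of_lt_of_le (by norm_num) hN
  rw [show (1 / (2 * D)) / (N ^ 2 * n) * 151115727451828646838272 * J' =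
    (151115727451828646838272 * J') / (2 * D * (N ^ 2 * n)) by field_simp,
    div_le_one (by positivity)]
  unfold Sc at h
  have h3 : (151115727451828646838272:ℝ) * J' ≤ 4398046511104 * (2 * n * N) := by
    linarith
  refine h3.trans ?_
  have h4 : (4398046511104:ℝ) ≤ 2 ^ 43 := by norm_num
  have h5 : (4398046511104:ℝ) * 1 ≤ N * D :=
    mul_le_mul (h4.trans hN) (by linarith) (by norm_num) hN0.le
  have h6 := mul_le_mul_of_nonneg_right h5 (show (0:ℝ) ≤ 2 * n * N by positivity)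
  linarith

theorem num_final {C t tG X D d : ℝ} {j : ℕ} (hC0 : 0 ≤ C) (hC : 2 ^ 100 * C ≤ 2 ^ j)
    (hX0 : 0 < X) (hD : 2 ≤ D) (hd : d ≤ 38) (hup : tG ≤ 192000 * (d + 2) * X * (2 ^ j) ^ 2)
    (hlow : (2:ℝ) ^ (3 * j) < t * (151115727451828646838272 * ((1 / (2 * D)) / X))) :
    C * tG < t := by
  have h1 : (2:ℝ) ^ (3 * j) * (2 * D * X) < t * 151115727451828646838272 := by
    have e1 : t * (151115727451828646838272 * (1 / (2 * D) / X)) =
        (t * 151115727451828646838272) / (2 * D * X) := by field_simp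
    rw [e1, lt_div_iff₀ (by positivity)] at hlow
    exact hlow
  have h3 : C * tG ≤ C * (7680000 * X * (2 ^ j) ^ 2) := by
    refine mul_le_mul_of_nonneg_left (hup.trans ?_) hC0
    have := mul_le_mul_of_nonneg_right hd (show 0 ≤ 192000 * X * ((2:ℝ) ^ j) ^ 2 by positivity)
    linarith
  have h4 : (2:ℝ) ^ 100 * C * (X * (2 ^ j) ^ 2) ≤ 2 ^ j * (X * (2 ^ j) ^ 2) :=
    mul_le_mul_of_nonneg_right hC (by positivity)
  have h5 : (2:ℝ) ^ (3 * j) = 2 ^ j * (2 ^ j) ^ 2 := by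
    rw [← pow_mul, ← pow_add]; congr 1; ring
  have h6 : (2:ℝ) ^ (3 * j) * X ≤ 2 ^ (3 * j) * (2 * D * X) := by
    refine mul_le_mul_of_nonneg_left ?_ (by positivity)
    nlinarith
  have h7 : (7680000:ℝ) * 151115727451828646838272 ≤ 2 ^ 100 := by norm_num
  have h8 := mul_le_mul_of_nonneg_right h7 (show 0 ≤ C * (X * ((2:ℝ) ^ j) ^ 2) by positivity)
  have h9 : C * (7680000 * X * (2 ^ j) ^ 2) * 151115727451828646838272 <
      t * 151115727451828646838272 := by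
    rw [h5] at h6 h1
    refine lt_of_le_of_lt ?_ (lt_of_le_of_lt h6 h1)
    refine le_trans (le_of_eq ?_) (h8.trans ?_)
    · ring
    · refine le_trans (le_of_eq ?_) (h4.trans (le_of_eq ?_)) <;> ring
  have h10 : C * (7680000 * X * (2 ^ j) ^ 2) < t := lt_of_mul_lt_mul_right h9 (by norm_num)
  exact lt_of_le_of_lt h3 h10

theorem hk_num {n j k e : ℕ} (hn : n = 2 ^ (4 * j)) (hj : 100 ≤ j) {i : Fin (2 ^ (3 * j))}
    (he : e = 2 ^ (3 * j) - 1 - (i : ℕ)) (hk : k = Rr (2 ^ (3 * j)) ^ e) :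
    2 * n * k = 34359738368 * Jf j i := by
  rw [hk, hn, he]
  unfold Jf
  have h1 : 2 * 2 ^ (4 * j) = 34359738368 * 2 ^ (4 * j - 34) := by
    rw [show (34359738368 : ℕ) = 2 ^ 35 by norm_num, ← pow_add, ← pow_succ']
    congr 1; omega
  rw [h1]; ring

theorem big43 {j N : ℕ} (hj : 100 ≤ j) (hRM : Rr (2 ^ (3 * j)) ^ (2 ^ (3 * j)) ≤ N) :
    (2:ℝ) ^ 43 ≤ N := by
  have h1 : 2 ^ 43 ≤ Rr (2 ^ (3 * j)) ^ (2 ^ (3 * j)) := by
    rw [Rr_eq, ← pow_mul]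
    apply Nat.pow_le_pow_right (by norm_num)
    have : 1 ≤ 2 ^ (3 * j) := Nat.one_le_two_pow
    nlinarith
  exact_mod_cast h1.trans hRM

theorem hm_num {n j k : ℕ} (hn : n = 2 ^ (4 * j)) (hj : 100 ≤ j) {i : Fin (2 ^ (3 * j))}
    (hi : (i : ℕ) = 2 ^ (3 * j) - 1) (hk : k = Rr (2 ^ (3 * j)) ^ (2 ^ (3 * j) - 1 - (i : ℕ))) :
    2 ^ 34 * Jf j i = n * k := by
  rw [hk, hn]
  unfold Jf
  rw [hi]
  simp only [Nat.sub_self, pow_zero, mul_one]
  rw [← pow_add]; congr 1; omega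

/-! ### the pair for a general pointer graph -/

theorem core_Y {n : ℕ} [NeZero n] {j : ℕ} (hn : n = 2 ^ (4 * j)) (hn200 : 200 ≤ n) (hj : 100 ≤ j)
    {Y : Type} [Fintype Y] (Γ : SimpleGraph (Y × ZMod n)) (hΓc : Γ.Connected)
    (b : ZMod n → ZMod 2) (hb : ¬ Bad n b) (hLt : VertexTransitive (lampG b Γ hb hn200))
    {dX : ℕ} (hd : ∀ z, Γ.degree z = dX) (hd38 : dX ≤ 38) (hdX1 : 1 ≤ dX)
    {P : Type} [Fintype P] (hYP : Fintype.card Y = Fintype.card P ^ 2)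
    (hP1 : Fintype.card P ≤ 2 ^ n)
    (H : SimpleGraph P) (hHdX : ∀ x, H.degree x ≤ dX) (hHP : PI H gapP)
    (hΓP : PI Γ (1 / (32 * ((2:ℝ) ^ j) ^ 2)))
    (π : Y → P) (hproj : ∀ (c : ℝ) (f : P → ℝ),
      (lapQ Γ c).mulVec (fun x => f (π x.1)) = fun x => (lapQ H c).mulVec f (π x.1))
    (x0 : P) (A : Finset Y) (hA : A.card = Fintype.card P) (hAπ : ∀ y ∈ A, π y = x0)
    (hsum : ∑ p : Ix (2 ^ (3 * j)), Rr (2 ^ (3 * j)) ^ (2 ^ (3 * j) - 1 - (p.1 : ℕ)) ≤ Fintype.card P)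
    (hRM : Rr (2 ^ (3 * j)) ^ (2 ^ (3 * j)) ≤ Fintype.card P)
    {W D : ℕ} [NeZero D] (hWD : W = Wc ∧ D = Dc dX)
    {C : ℝ} (hC0 : 0 ≤ C) (hC : 2 ^ 100 * C ≤ 2 ^ j) :
    ∃ (V V' : Type) (_ : Fintype V) (_ : Fintype V') (G : SimpleGraph V) (G' : SimpleGraph V'),
    G.Connected ∧ G'.Connected ∧ VertexTransitive G ∧ (∀ v, G.degree v = dX + 2) ∧
    (∀ v, G'.degree v = D) ∧ IsQI 1 (2 * (D : ℝ)) G G' ∧ (∃ t, Mixed G t) ∧
    (∃ t, Mixed G' t) ∧ C * tInf G < tInf G' := by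
  have hN0 : 0 < Fintype.card P := Fintype.card_pos_iff.mpr ⟨x0⟩
  obtain ⟨y0, hy0⟩ := Finset.card_pos.mp (hA.symm ▸ hN0)
  obtain ⟨g, hg⟩ : ∃ g : ℝ, g = 1 / (32 * ((2:ℝ) ^ j) ^ 2) := ⟨_, rfl⟩
  rw [← hg] at hΓP
  have hs0 : (1:ℝ) ≤ (2 ^ j) ^ 2 := one_le_pow₀ (one_le_pow₀ (by norm_num))
  have hg0 : 0 < g := by rw [hg]; positivity
  have hg1 : g ≤ 1 := by
    rw [hg, div_le_one (by positivity)]
    linarith
  -- clusters
  obtain ⟨blk, hblk1, hblk2⟩ := exists_blk (ι := Ix (2 ^ (3 * j)))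
    (fun p => Rr (2 ^ (3 * j)) ^ (2 ^ (3 * j) - 1 - (p.1 : ℕ))) A (by rw [hA]; exact hsum)
  have hBk : ∀ p : Ix (2 ^ (3 * j)), (Bk blk p).card = Rr (2 ^ (3 * j)) ^ (2 ^ (3 * j) - 1 - (p.1 : ℕ)) := by
    intro p
    rw [← hblk2 p]; unfold Bk; congr!
  have hk : ∀ p : Ix (2 ^ (3 * j)), 2 * (n:ℝ) * ((Bk blk p).card : ℝ) = Sc * Jf j p.1 := by
    intro p
    have := hk_num (k := (Bk blk p).card) hn hj (i := p.1) rfl (hBk p)
    unfold Sc
    exact_mod_cast this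
  have hS := Jf_sep j
  -- weights
  obtain ⟨hW, hD⟩ := hWD
  have hDc : W * dX + 2 * 1099511627776 + 2 ≤ D := by rw [hW, hD]; exact le_refl _
  have hD2 : 2 ≤ D := by omega
  have hW0 : 0 < W := by rw [hW]; exact Wc_pos
  have hw := wgt_ok b blk Γ hb hn200 hk hS hd W D D hDc le_rfl
  have hsupp := wgt_supp b blk Γ hb hn200 hk hS hW0
  have hGc := lamp_connected b Γ hb hn200 hΓc
  have hDr : (2:ℝ) ≤ D := by exact_mod_cast hD2
  have hDr0 : (0:ℝ) < D := by linarith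
  have hWr : (1:ℝ) ≤ W := by exact_mod_cast hW0
  have hDcr : (W : ℝ) * dX + 2 * Kc + 2 ≤ D := by
    unfold Kc; exact_mod_cast hDc
  have hKc := Kc_pos
  have hKc1 := Kc_one
  have hdXr : (1:ℝ) ≤ dX := by exact_mod_cast hdX1
  -- pointer chain
  obtain ⟨cQ, hcQ⟩ : ∃ cQ : ℝ, cQ = (W : ℝ) / (2 * (D : ℝ)) := ⟨_, rfl⟩
  have hcQ0 : 0 < cQ := by rw [hcQ]; positivity
  have hcQd : 2 * cQ * dX ≤ 1 := by rw [hcQ]; exact num_cQd hKc.le hDr0 hDcr
  have hcQ1 : cQ ≤ 1 := by nlinarith only [hcQd, hdXr, hcQ0]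
  have hx1 : cQ * g ≤ 1 := by nlinarith only [hcQ1, hg1, hcQ0, hg0]
  have hx2 : cQ * gapP ≤ 1 := by
    have := gapP_le
    have := gapP_pos
    nlinarith only [hcQ1, this, hcQ0, gapP_le]
  have hN0r : (0:ℝ) < Fintype.card P := by exact_mod_cast hN0
  have hcY : (Fintype.card Y : ℝ) = (Fintype.card P : ℝ) ^ 2 := by exact_mod_cast hYP
  have hcX : (Fintype.card (Y × ZMod n) : ℝ) = (Fintype.card P : ℝ) ^ 2 * n := by
    rw [Fintype.card_prod, ZMod.card, hYP]; push_cast; ring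
  obtain ⟨T, hT⟩ : ∃ T : ℕ, T = ⌈4 * (n:ℝ) / (cQ * g)⌉₊ := ⟨_, rfl⟩
  have hTb : (1 - cQ * g) ^ T ≤ (1 / (48 * Kc)) / Fintype.card (Y × ZMod n) := by
    rw [hcX, hT]
    exact T_bound (by positivity) hx1 hn200 hN0 hP1
  have hPtr := ptr_of Γ H (fun x => π x.1) (c := cQ) (hproj cQ)
    (dX := dX) (fun x => (hd x).le) hHdX hcQ0 hcQd hΓP hHP hx1 gapP_pos hx2 T hTb x0
    (Finset.univ.filter fun z => ((SY b blk hb hn200 hk).clu z).isSome) (by
      intro x hx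
      have h1 : (blk x.1).isSome := (Finset.mem_filter.mp hx).2
      have h2 : blk x.1 ≠ none := by
        intro h; rw [h] at h1; simp at h1
      exact hAπ _ (hblk1 _ h2))
  have hsmall : 1 / (2 * (D : ℝ)) * (T / Fintype.card P + 1 / (cQ * gapP)) * (1920 * Kc ^ 2) ≤ 1 := by
    rw [hcQ, hD, hW]
    exact par_bounds (dX := dX) hn hj hRM (T := T) (x := cQ * g) (by rw [hcQ, hg, hD, hW]) hT
  have hPar : Par (SY b blk hb hn200 hk) (lapQ Γ ((W : ℝ) / (2 * (D : ℝ)))) (1 / (2 * (D : ℝ))) T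
      (T / Fintype.card P + 1 / (cQ * gapP)) (1 / (48 * Kc)) := {
    ptr := by rw [← hcQ]; exact hPtr
    c0 := by positivity
    Λ0 := by have := gapP_pos; positivity
    small := hsmall
    ε0 := by positivity
    ε1 := by rw [one_div, inv_mul_cancel₀ (by positivity)] }
  have hdiag : ∀ η z, (1 / (2 * (D : ℝ))) * ∑ ε : Bool, ((SY b blk hb hn200 hk).wt η z ε : ℝ) ≤
      lapQ Γ ((W : ℝ) / (2 * (D : ℝ))) z z := by
    intro η z
    have h1 := (SY b blk hb hn200 hk).wt_leK hS η z true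
    have h2 := (SY b blk hb hn200 hk).wt_leK hS η z false
    have h3 : lapQ Γ ((W : ℝ) / (2 * (D : ℝ))) z z = 1 - (W : ℝ) / (2 * (D : ℝ)) * dX := by
      unfold lapQ
      simp only [Matrix.of_apply, if_true]
      rw [if_neg (Γ.loopless.irrefl z), add_zero, hd]
    rw [Fintype.sum_bool, h3]
    exact num_diag hDr0 hDcr h1 h2
  have hnr : (0:ℝ) < n := by
    have : 0 < n := by omega
    exact_mod_cast this
  have hbig : ∀ i, (1 / (2 * (D : ℝ))) / Fintype.card (Y × ZMod n) *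
      151115727451828646838272 * Jf j i ≤ 1 := by
    intro i
    rw [hcX]
    refine num_big hnr (big43 hj hRM) hDr ?_
    rw [← hk (i, false)]
    refine mul_le_mul_of_nonneg_left ?_ (by positivity)
    have h2 : (Bk blk (i, false)).card ≤ Fintype.card P := by
      rw [← hA]
      refine Finset.card_le_card fun y hy => hblk1 y ?_
      have : blk y = some (i, false) := (Finset.mem_filter.mp hy).2
      rw [this]; simp
    exact_mod_cast h2
  -- the two mixing times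
  have hYne : Nonempty Y := ⟨y0⟩
  have hGdeg : ∀ v, (lampG b Γ hb hn200).degree v = dX + 2 := by
    intro v; rw [lamp_degree, hd]
  have hexG := exists_mixed (lampG b Γ hb hn200) hGc (k := dX + 2) (by omega) hGdeg
  have hG'c := GP_connected hw hsupp hGc
  have hexG' := exists_mixed (GP hw) hG'c (k := D) (by omega) (GP_degree hw)
  have hup : tInf (lampG b Γ hb hn200) ≤ 192000 * (dX + 2) * (Fintype.card P ^ 2 * n) * (2 ^ j) ^ 2 := by
    apply Nat.sInf_le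
    refine lamp_mixed b hb hn200 hd hΓP hg0 hg1 ?_ hYne _ (le_of_eq ?_)
    · rw [hcY]
      have h1 : (Fintype.card P : ℝ) ≤ 2 ^ n := by exact_mod_cast hP1
      calc (Fintype.card P : ℝ) ^ 2 ≤ (2 ^ n) ^ 2 := pow_le_pow_left₀ hN0r.le h1 2
        _ = 4 ^ n := by rw [← pow_mul, mul_comm, pow_mul]; norm_num
    · rw [hcY, hg]; push_cast
      field_simp
      ring
  have hlow := lower b blk Γ hb hn200 hk hS (fun i => Jf_20 (by omega) i) hw hYne hPar hdiag hbig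
    (⟨2 ^ (3 * j) - 1, by have : 0 < 2 ^ (3 * j) := by positivity
                          omega⟩, false) (by
      have : 0 < 2 ^ (3 * j) := by positivity
      simp only; omega) (hm_num hn hj rfl (hBk _)) (Nat.sInf_mem hexG')
  refine ⟨_, _, inferInstance, inferInstance, lampG b Γ hb hn200, GP hw, hGc, hG'c, hLt, hGdeg,
    GP_degree hw, GP_QI hw hsupp hGc, hexG, hexG', ?_⟩
  have hd38r : (dX : ℝ) ≤ 38 := by exact_mod_cast hd38
  refine num_final (X := (Fintype.card P : ℝ) ^ 2 * n) (D := D) (d := dX) (j := j) hC0 hC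
    (by positivity) hDr hd38r ?_ ?_
  · exact_mod_cast hup
  · rw [hcX] at hlow
    push_cast at hlow
    exact hlow

end Pool.Agent.J6H46.QI
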