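import Mathlib

/-!
# Lazy simple random walk, uniform mixing time, quasi-isometries
-/

set_option autoImplicit false
open Classical

namespace Pool.Agent.J6H46.QI

/-- Transition matrix of the lazy simple random walk on a finite graph:
`P(x,x) = 1/2` and `P(x,y) = 1/(2 deg x)` for `y ~ x`. -/
noncomputable def lazyP {V : Type} [Fintype V] (G : SimpleGraph V) : Matrix V V ℝ :=
  Matrix.of fun x y => (if x = y then 1 / 2 else 0) +
    (if G.Adj x y then 1 / (2 * (G.degree x : ℝ)) else 0)

/-- Stationary law `π(x) = deg x / (2|E|)`. -/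
noncomputable def statPi {V : Type} [Fintype V] (G : SimpleGraph V) (x : V) : ℝ :=
  (G.degree x : ℝ) / (2 * (G.edgeFinset.card : ℝ))

/-- At time `t` the lazy walk is mixed in the uniform sense:
`max_{x,y} |P^t(x,y)/π(y) - 1| ≤ 1/4`. -/
def Mixed {V : Type} [Fintype V] (G : SimpleGraph V) (t : ℕ) : Prop :=
  ∀ x y, |(lazyP G ^ t) x y / statPi G y - 1| ≤ 1 / 4

/-- Uniform (`L^∞`) mixing time: the least `t` with `Mixed G t`. -/
noncomputable def tInf {V : Type} [Fintype V] (G : SimpleGraph V) : ℕ := sInf {t | Mixed G t}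

/-- The automorphism group acts transitively on vertices. -/
def VertexTransitive {V : Type} (G : SimpleGraph V) : Prop :=
  ∀ x y : V, ∃ φ : G ≃g G, φ x = y

/-- `G'` is `(a,b)`-quasi-isometric to `G`. -/
def IsQI {V V' : Type} (a b : ℝ) (G : SimpleGraph V) (G' : SimpleGraph V') : Prop :=
  ∃ f : V → V', (∀ x y, a⁻¹ * G.dist x y - b ≤ G'.dist (f x) (f y) ∧
    (G'.dist (f x) (f y) : ℝ) ≤ a * G.dist x y + b) ∧
    ∀ v' : V', ∃ x : V, (G'.dist v' (f x) : ℝ) ≤ b

end Pool.Agent.J6H46.QI
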