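import Pool.Agent.J6H46.QI.Defs

/-!
# Blow-up of a weighted graph to a regular simple graph
-/

set_option autoImplicit false
set_option linter.unusedSectionVars false
open Classical

namespace Pool.Agent.J6H46.QI

section
variable {V : Type} [Fintype V] (wg : V → V → ℕ) (D m : ℕ) [NeZero m]

/-- symmetric integer weights without loops, total weight at most `D - 2`, at most `m` -/
structure Wgt : Prop where
  symm : ∀ u v, wg u v = wg v u
  irr : ∀ v, wg v v = 0
  tot : ∀ v, ∑ u, wg v u + 2 ≤ D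
  m_le : D ≤ m

variable {wg D m}

/-- internal weight of a fibre -/
def bb (wg : V → V → ℕ) (D : ℕ) (v : V) : ℕ := D - ∑ u, wg v u

theorem Wgt.bb_eq (h : Wgt wg D m) (v : V) : bb wg D v + ∑ u, wg v u = D ∧ 2 ≤ bb wg D v := by
  have := h.tot v
  unfold bb; omega

theorem Wgt.le (h : Wgt wg D m) (u v : V) : wg u v ≤ m := by
  have h1 := h.tot u
  have h2 : wg u v ≤ ∑ x, wg u x := Finset.single_le_sum (f := fun x => wg u x)
    (fun _ _ => Nat.zero_le _) (Finset.mem_univ v)
  have := h.m_le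
  omega

/-- the blow-up -/
def GP (h : Wgt wg D m) : SimpleGraph (V × ZMod m × Bool) where
  Adj a c := (a.2.2 = c.2.2 ∧ (a.2.1 + c.2.1).val < wg a.1 c.1) ∨
    (a.1 = c.1 ∧ a.2.2 ≠ c.2.2 ∧ (a.2.1 + c.2.1).val < bb wg D a.1)
  symm := ⟨by
    rintro a c (⟨h1, h2⟩ | ⟨h1, h2, h3⟩)
    · left; refine ⟨h1.symm, ?_⟩; rw [add_comm, h.symm]; exact h2
    · right; refine ⟨h1.symm, h2.symm, ?_⟩; rw [add_comm, ← h1]; exact h3⟩
  loopless := ⟨by
    rintro a (⟨h1, h2⟩ | ⟨h1, h2, h3⟩)
    · rw [h.irr] at h2; exact Nat.not_lt_zero _ h2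
    · exact h2 rfl⟩

theorem card_val_lt (i : ZMod m) {w : ℕ} (hw : w ≤ m) :
    (Finset.univ.filter fun j : ZMod m => (i + j).val < w).card = w := by
  have h1 : (Finset.univ.filter fun j : ZMod m => (i + j).val < w).card =
      (Finset.univ.filter fun j : ZMod m => j.val < w).card := by
    refine Finset.card_bij (fun j _ => i + j) ?_ ?_ ?_
    · intro j hj
      exact Finset.mem_filter.mpr ⟨Finset.mem_univ _, (Finset.mem_filter.mp hj).2⟩
    · intro j _ j' _ h; exact add_left_cancel h
    · intro j hj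
      refine ⟨j - i, Finset.mem_filter.mpr ⟨Finset.mem_univ _, ?_⟩, by ring⟩
      rw [add_sub_cancel]; exact (Finset.mem_filter.mp hj).2
  rw [h1]
  have h2 : (Finset.univ.filter fun j : ZMod m => j.val < w).card = (Finset.range w).card := by
    refine Finset.card_bij (fun j _ => j.val) ?_ ?_ ?_
    · intro j hj
      exact Finset.mem_range.mpr (Finset.mem_filter.mp hj).2
    · intro j _ j' _ h; exact ZMod.val_injective m h
    · intro k hk
      have hk' := Finset.mem_range.mp hk
      have hv : ((k : ℕ) : ZMod m).val = k := by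
        rw [ZMod.val_natCast, Nat.mod_eq_of_lt (by omega)]
      exact ⟨(k : ZMod m), Finset.mem_filter.mpr ⟨Finset.mem_univ _, by rw [hv]; exact hk'⟩, hv⟩
  rw [h2, Finset.card_range]

/-- sums over neighbours of functions of the base point -/
theorem nbr_sum (h : Wgt wg D m) (f : V → ℝ) (a : V × ZMod m × Bool) :
    ∑ c, (if (GP h).Adj a c then f c.1 else 0) = ∑ u, (wg a.1 u : ℝ) * f u + (bb wg D a.1 : ℝ) * f a.1 := by
  obtain ⟨v, i, ε⟩ := a
  have h0 : ∀ c : V × ZMod m × Bool, (if (GP h).Adj (v, i, ε) c then f c.1 else 0) =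
      (if c.2.2 = ε ∧ (i + c.2.1).val < wg v c.1 then f c.1 else 0) +
      (if c.1 = v ∧ c.2.2 = !ε ∧ (i + c.2.1).val < bb wg D v then f c.1 else 0) := by
    rintro ⟨u, j, ε'⟩
    have hadj : (GP h).Adj (v, i, ε) (u, j, ε') ↔ (ε = ε' ∧ (i + j).val < wg v u) ∨
      (v = u ∧ ε ≠ ε' ∧ (i + j).val < bb wg D v) := Iff.rfl
    simp only [hadj]
    by_cases he : ε = ε'
    · subst he
      simp
    · have he2 : ε' = !ε := by cases ε <;> cases ε' <;> simp_all
      subst he2
      have e1 : ¬ (ε = !ε) := by cases ε <;> simp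
      have e2 : ¬ ((!ε) = ε) := by cases ε <;> simp
      simp only [e1, e2, false_and, false_or, if_false, zero_add, ne_eq, not_false_eq_true,
        true_and]
      by_cases huv : v = u
      · subst huv; simp
      · rw [if_neg (fun h => huv h.1), if_neg (fun h => huv h.1.symm)]
  rw [Finset.sum_congr rfl fun c _ => h0 c, Finset.sum_add_distrib]
  congr 1
  · rw [Fintype.sum_prod_type]
    refine Finset.sum_congr rfl fun u _ => ?_
    rw [Fintype.sum_prod_type]
    have h1 : ∀ j : ZMod m, ∑ ε' : Bool, (if ε' = ε ∧ (i + j).val < wg v u then f u else 0) =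
        if (i + j).val < wg v u then f u else 0 := by
      intro j
      rw [Finset.sum_eq_single ε]
      · simp
      · intro ε' _ hne; rw [if_neg (fun h => hne h.1)]
      · intro hn; exact absurd (Finset.mem_univ _) hn
    rw [Finset.sum_congr rfl fun j _ => h1 j, ← Finset.sum_filter, Finset.sum_const,
      card_val_lt i (h.le v u), nsmul_eq_mul]
  · rw [Fintype.sum_prod_type, Finset.sum_eq_single v]
    · rw [Fintype.sum_prod_type]
      have h1 : ∀ j : ZMod m, ∑ ε' : Bool, (if v = v ∧ ε' = !ε ∧ (i + j).val < bb wg D v then f v else 0) =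
          if (i + j).val < bb wg D v then f v else 0 := by
        intro j
        rw [Finset.sum_eq_single (!ε)]
        · simp
        · intro ε' _ hne; rw [if_neg (fun h => hne h.2.1)]
        · intro hn; exact absurd (Finset.mem_univ _) hn
      rw [Finset.sum_congr rfl fun j _ => h1 j, ← Finset.sum_filter, Finset.sum_const,
        card_val_lt i (by have := h.bb_eq v; have := h.m_le; omega), nsmul_eq_mul]
    · intro u _ hu
      refine Finset.sum_eq_zero fun c _ => ?_
      rw [if_neg (fun h => hu h.1)]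
    · intro hn; exact absurd (Finset.mem_univ _) hn

theorem GP_degree (h : Wgt wg D m) (a : V × ZMod m × Bool) : (GP h).degree a = D := by
  have h1 := nbr_sum h (fun _ => 1) a
  have h2 : ∑ c, (if (GP h).Adj a c then (1:ℝ) else 0) = (GP h).degree a := by
    rw [Finset.sum_boole, ← SimpleGraph.card_neighborFinset_eq_degree,
      SimpleGraph.neighborFinset_eq_filter]
  rw [h2] at h1
  have h3 : ((GP h).degree a : ℝ) = (D : ℝ) := by
    rw [h1]
    have := (h.bb_eq a.1).1
    have h4 : (bb wg D a.1 : ℝ) + ∑ u, (wg a.1 u : ℝ) = D := by exact_mod_cast this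
    simp only [mul_one]
    linarith
  exact_mod_cast h3

/-- one step of the weighted walk -/
noncomputable def RR (wg : V → V → ℕ) (D : ℕ) (f : V → ℝ) (v : V) : ℝ :=
  f v + 1 / (2 * (D : ℝ)) * ∑ u, (wg v u : ℝ) * (f u - f v)

theorem lazy_step (h : Wgt wg D m) (f : V → ℝ) :
    (lazyP (GP h)).mulVec (fun a => f a.1) = fun a => RR wg D f a.1 := by
  funext a
  have hD : (0:ℝ) < D := by
    have := h.bb_eq a.1
    have h1 : 0 < D := by omega
    exact_mod_cast h1
  show ∑ c, (lazyP (GP h)) a c * f c.1 = _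
  unfold lazyP
  simp only [Matrix.of_apply, add_mul, Finset.sum_add_distrib, ite_mul, zero_mul,
    Finset.sum_ite_eq, Finset.mem_univ, if_true, GP_degree h]
  have h1 : ∑ c, (if (GP h).Adj a c then 1 / (2 * (D : ℝ)) * f c.1 else 0) =
      1 / (2 * (D : ℝ)) * ∑ c, (if (GP h).Adj a c then f c.1 else 0) := by
    rw [Finset.mul_sum]
    refine Finset.sum_congr rfl fun c _ => ?_
    split_ifs <;> ring
  rw [h1, nbr_sum h f a]
  unfold RR
  have h4 : (bb wg D a.1 : ℝ) = D - ∑ u, (wg a.1 u : ℝ) := by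
    have := (h.bb_eq a.1).1
    have h4 : (bb wg D a.1 : ℝ) + ∑ u, (wg a.1 u : ℝ) = D := by exact_mod_cast this
    linarith
  rw [h4]
  simp only [mul_sub, Finset.sum_sub_distrib, ← Finset.sum_mul]
  field_simp
  ring

theorem pow_proj {W U : Type} [Fintype W] (P : Matrix W W ℝ) (π : W → U)
    (R : (U → ℝ) → (U → ℝ)) (hR : ∀ f : U → ℝ, P.mulVec (fun a => f (π a)) = fun a => R f (π a))
    (t : ℕ) (f : U → ℝ) : (P ^ t).mulVec (fun a => f (π a)) = fun a => (R^[t] f) (π a) := by
  induction t generalizing f with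
  | zero => simp
  | succ t ih =>
    rw [pow_succ, ← Matrix.mulVec_mulVec, hR, ih, Function.iterate_succ_apply]

theorem statPi_reg {W : Type} [Fintype W] (G : SimpleGraph W) {k : ℕ} (hk : 0 < k)
    (hreg : ∀ v, G.degree v = k) (x : W) : statPi G x = 1 / Fintype.card W := by
  have h1 := G.sum_degrees_eq_twice_card_edges
  simp only [hreg, Finset.sum_const, Finset.card_univ, smul_eq_mul] at h1
  unfold statPi
  rw [hreg]
  have h2 : (2 * (G.edgeFinset.card : ℝ)) = Fintype.card W * k := by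
    have : ((2 * G.edgeFinset.card : ℕ) : ℝ) = ((Fintype.card W * k : ℕ) : ℝ) := by rw [h1]
    push_cast at this; linarith
  rw [h2]
  have hk' : (k:ℝ) ≠ 0 := by positivity
  have hW : (Fintype.card W : ℝ) ≠ 0 := by
    have : 0 < Fintype.card W := Fintype.card_pos_iff.mpr ⟨x⟩
    positivity
  field_simp

theorem mixed_gen {W U : Type} [Fintype W] (H : SimpleGraph W) (π : W → U)
    (R : (U → ℝ) → (U → ℝ)) (hR : ∀ f : U → ℝ, (lazyP H).mulVec (fun a => f (π a)) = fun a => R f (π a))
    (hst : ∀ x, statPi H x = 1 / Fintype.card W) {t : ℕ} (hm : Mixed H t) (f : U → ℝ)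
    (hf : ∀ v, 0 ≤ f v) (w : W) :
    (3 / 4) * ((∑ a, f (π a)) / Fintype.card W) ≤ (R^[t] f) (π w) := by
  have h1 := congrFun (pow_proj (lazyP H) π R hR t f) w
  rw [← h1]
  show _ ≤ ∑ c, (lazyP H ^ t) w c * f (π c)
  have hW : (0:ℝ) < Fintype.card W := by
    have : 0 < Fintype.card W := Fintype.card_pos_iff.mpr ⟨w⟩
    exact_mod_cast this
  have h2 : ∀ c, (3 / 4) * (1 / (Fintype.card W : ℝ)) ≤ (lazyP H ^ t) w c := by
    intro c
    have h3 := (abs_le.mp (hm w c)).1
    rw [hst, div_div_eq_mul_div, div_one] at h3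
    rw [mul_one_div, div_le_iff₀ (by positivity)]
    linarith
  have h4 : ∑ c, (3 / 4) * (1 / (Fintype.card W : ℝ)) * f (π c) ≤
      ∑ c, (lazyP H ^ t) w c * f (π c) :=
    Finset.sum_le_sum fun c _ => mul_le_mul_of_nonneg_right (h2 c) (hf _)
  refine le_trans (le_of_eq ?_) h4
  rw [← Finset.mul_sum]
  ring

theorem mixed_lower [Nonempty V] (h : Wgt wg D m) {t : ℕ} (hm : Mixed (GP h) t) (f : V → ℝ) (hf : ∀ v, 0 ≤ f v)
    (v : V) : (3 / 4) * ((∑ u, f u) / Fintype.card V) ≤ ((RR wg D)^[t] f) v := by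
  have hD : 0 < D := by have := h.bb_eq v; omega
  have hm0 : (0:ℝ) < m := by
    have : 0 < m := Nat.pos_of_ne_zero (NeZero.ne m)
    exact_mod_cast this
  have h1 := mixed_gen (GP h) (fun a => a.1) (RR wg D) (lazy_step h)
    (statPi_reg (GP h) hD (GP_degree h)) hm f hf (v, 0, false)
  refine le_trans (le_of_eq ?_) h1
  rw [Fintype.sum_prod_type]
  simp only [Finset.sum_const, Finset.card_univ, nsmul_eq_mul]
  have hc : (Fintype.card (ZMod m × Bool) : ℝ) = m * 2 := by
    rw [Fintype.card_prod, ZMod.card, Fintype.card_bool]; push_cast; ring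
  have hcW : (Fintype.card (V × ZMod m × Bool) : ℝ) = Fintype.card V * (m * 2) := by
    rw [Fintype.card_prod, ← hc]; push_cast; ring
  rw [← Finset.mul_sum, hcW, hc]
  field_simp

/-! ### geometry -/

variable {G : SimpleGraph V}

/-- the base graph is the support of the weights -/
def Supp (G : SimpleGraph V) (wg : V → V → ℕ) : Prop := ∀ u v, G.Adj u v ↔ 0 < wg u v

/-- embedding of the base -/
def emb (h : Wgt wg D m) (hs : Supp G wg) : G →g GP h where
  toFun v := (v, 0, false)
  map_rel' := by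
    intro u v huv
    left
    refine ⟨rfl, ?_⟩
    simp only [add_zero, ZMod.val_zero]
    exact (hs u v).mp huv

theorem fib_step (h : Wgt wg D m) (v : V) (i : ZMod m) (ε : Bool) :
    (GP h).Adj (v, i, ε) (v, -i, !ε) ∧ (1 < m → (GP h).Adj (v, i, ε) (v, 1 - i, !ε)) := by
  have hb := (h.bb_eq v).2
  constructor
  · right
    refine ⟨rfl, by cases ε <;> simp, ?_⟩
    simp only [add_neg_cancel, ZMod.val_zero]
    omega
  · intro hm
    right
    refine ⟨rfl, by cases ε <;> simp, ?_⟩
    simp only [add_sub_cancel]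
    have : Fact (1 < m) := ⟨hm⟩
    rw [ZMod.val_one]
    omega

theorem one_lt_m [Nonempty V] (h : Wgt wg D m) : 1 < m := by
  obtain ⟨v⟩ := ‹Nonempty V›
  have := h.bb_eq v
  have := h.m_le
  omega

theorem fib_walk [Nonempty V] (h : Wgt wg D m) (v : V) (k : ℕ) :
    ∃ p : (GP h).Walk (v, 0, false) (v, (k : ZMod m), false), p.length ≤ 2 * k := by
  induction k with
  | zero => exact ⟨SimpleGraph.Walk.nil.copy rfl (by rw [Nat.cast_zero]), by simp⟩
  | succ k ih =>
    obtain ⟨p, hp⟩ := ih
    have hm := one_lt_m h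
    have h1 := (fib_step h v (k : ZMod m) false).1
    have h2 := (fib_step h v (-(k : ZMod m)) true).2 hm
    have h3 : (1 - -(k : ZMod m)) = ((k + 1 : ℕ) : ZMod m) := by push_cast; ring
    rw [h3] at h2
    refine ⟨(p.concat h1).concat h2, ?_⟩
    rw [SimpleGraph.Walk.length_concat, SimpleGraph.Walk.length_concat]
    omega

theorem fib_dist [Nonempty V] (h : Wgt wg D m) (v : V) (i : ZMod m) (ε : Bool) :
    ∃ p : (GP h).Walk (v, i, ε) (v, 0, false), p.length ≤ 2 * m := by
  cases ε
  · have h0 := fib_walk h v i.val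
    rw [ZMod.natCast_zmod_val] at h0
    obtain ⟨p, hp⟩ := h0
    refine ⟨p.reverse, ?_⟩
    rw [SimpleGraph.Walk.length_reverse]
    have := ZMod.val_lt i
    omega
  · have h0 := fib_walk h v (-i).val
    rw [ZMod.natCast_zmod_val] at h0
    obtain ⟨p, hp⟩ := h0
    have h1 := (fib_step h v i true).1
    simp only [Bool.not_true] at h1
    refine ⟨SimpleGraph.Walk.cons h1 p.reverse, ?_⟩
    rw [SimpleGraph.Walk.length_cons, SimpleGraph.Walk.length_reverse]
    have := ZMod.val_lt (-i)
    omega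

theorem GP_connected (h : Wgt wg D m) (hs : Supp G wg) (hc : G.Connected) : (GP h).Connected := by
  have := hc.nonempty
  rw [SimpleGraph.connected_iff]
  refine ⟨?_, inferInstance⟩
  rintro ⟨u, i, ε⟩ ⟨v, j, ε'⟩
  obtain ⟨p, -⟩ := fib_dist h u i ε
  obtain ⟨q, -⟩ := fib_dist h v j ε'
  obtain ⟨r⟩ := hc.preconnected u v
  exact ⟨(p.append (r.map (emb h hs))).append q.reverse⟩

theorem proj_dist (h : Wgt wg D m) (hs : Supp G wg) (hc : G.Connected) {a c : V × ZMod m × Bool}
    (p : (GP h).Walk a c) : G.dist a.1 c.1 ≤ p.length := by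
  induction p with
  | nil => simp
  | cons hadj p ih =>
    rename_i x y z
    rw [SimpleGraph.Walk.length_cons]
    have h1 : G.dist x.1 y.1 ≤ 1 := by
      rcases hadj with ⟨_, h2⟩ | ⟨h1, _⟩
      · have : G.Adj x.1 y.1 := (hs _ _).mpr (by omega)
        rw [SimpleGraph.dist_eq_one_iff_adj.mpr this]
      · rw [h1, SimpleGraph.dist_self]; omega
    have h2 := hc.dist_triangle (u := x.1) (v := y.1) (w := z.1)
    omega

theorem GP_QI (h : Wgt wg D m) (hs : Supp G wg) (hc : G.Connected) :
    IsQI 1 (2 * (m : ℝ)) G (GP h) := by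
  have := hc.nonempty
  have hc' := GP_connected h hs hc
  refine ⟨fun v => (v, 0, false), fun x y => ?_, ?_⟩
  · have h1 : (GP h).dist (x, 0, false) (y, 0, false) ≤ G.dist x y := by
      obtain ⟨p, hp⟩ := hc.exists_walk_length_eq_dist x y
      rw [← hp, ← SimpleGraph.Walk.length_map (emb h hs) p]
      exact SimpleGraph.dist_le _
    have h2 : G.dist x y ≤ (GP h).dist (x, 0, false) (y, 0, false) := by
      obtain ⟨p, hp⟩ := hc'.exists_walk_length_eq_dist (x, (0 : ZMod m), false) (y, (0 : ZMod m), false)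
      rw [← hp]
      exact proj_dist h hs hc p
    have h1' : ((GP h).dist (x, (0 : ZMod m), false) (y, (0 : ZMod m), false) : ℝ) ≤ G.dist x y := by
      exact_mod_cast h1
    have h2' : (G.dist x y : ℝ) ≤ (GP h).dist (x, (0 : ZMod m), false) (y, (0 : ZMod m), false) := by
      exact_mod_cast h2
    have hm : (0:ℝ) ≤ m := Nat.cast_nonneg _
    constructor
    · rw [inv_one, one_mul]; linarith
    · rw [one_mul]; linarith
  · rintro ⟨v, i, ε⟩
    obtain ⟨p, hp⟩ := fib_dist h v i ε
    refine ⟨v, ?_⟩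
    have : (GP h).dist (v, i, ε) (v, 0, false) ≤ 2 * m := (SimpleGraph.dist_le p).trans hp
    exact_mod_cast this

end
end Pool.Agent.J6H46.QI
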