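import Pool.Agent.J6H46.QI.Pointer

/-!
# Connectivity, vertex transitivity, convergence
-/

set_option autoImplicit false
set_option linter.unusedSectionVars false
open Classical

namespace Pool.Agent.J6H46.QI

section conv
variable {W : Type} [Fintype W]

theorem connected_PI (G : SimpleGraph W) (hc : G.Connected) : ∃ g : ℝ, 0 < g ∧ g ≤ 1 ∧ PI G g := by
  have := hc.nonempty
  obtain ⟨D, hD⟩ : ∃ D : ℕ, ∀ x y, G.dist x y ≤ D :=
    ⟨∑ x, ∑ y, G.dist x y, fun x y =>
      (Finset.single_le_sum (f := fun y => G.dist x y) (fun _ _ => Nat.zero_le _)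
        (Finset.mem_univ y)).trans
      (Finset.single_le_sum (f := fun x => ∑ y, G.dist x y) (fun _ _ => Nat.zero_le _)
        (Finset.mem_univ x))⟩
  have hN : (1:ℝ) ≤ Fintype.card W := by
    have : 0 < Fintype.card W := Fintype.card_pos
    exact_mod_cast this
  set N : ℝ := (Fintype.card W : ℝ) with hNdef
  refine ⟨1 / (N * (D ^ 2 + 1)), by positivity, ?_, ?_⟩
  · rw [div_le_one (by positivity)]
    nlinarith [sq_nonneg (D:ℝ)]
  · intro f
    have hE := En_nonneg G f
    have hedge : ∀ u v, G.Adj u v → |f u - f v| ≤ Real.sqrt (En G f) := by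
      intro u v huv
      apply Real.abs_le_sqrt
      have h1 := Finset.single_le_sum (f := fun x => ∑ y, if G.Adj x y then (f x - f y) ^ 2 else 0)
        (fun x _ => Finset.sum_nonneg fun y _ => by split_ifs <;> positivity) (Finset.mem_univ u)
      have h2 := Finset.single_le_sum (f := fun y => if G.Adj u y then (f u - f y) ^ 2 else 0)
        (fun y _ => by beta_reduce; split_ifs <;> positivity) (Finset.mem_univ v)
      beta_reduce at h1 h2
      rw [if_pos huv] at h2
      exact h2.trans h1
    have hwalk : ∀ {u v : W} (p : G.Walk u v), |f u - f v| ≤ p.length * Real.sqrt (En G f) := by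
      intro u v p
      induction p with
      | nil => simp
      | cons h p ih =>
        rename_i x y z
        rw [SimpleGraph.Walk.length_cons]
        have h1 := hedge _ _ h
        have h2 := abs_add_le (f x - f y) (f y - f z)
        rw [sub_add_sub_cancel] at h2
        push_cast
        linarith
    have hpair : ∀ x y, (f x - f y) ^ 2 ≤ (D ^ 2 + 1) * En G f := by
      intro x y
      obtain ⟨p, hp⟩ := hc.exists_walk_length_eq_dist x y
      have h1 := hwalk p
      have h2 : (p.length : ℝ) ≤ D := by rw [hp]; exact_mod_cast hD x y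
      have h3 : |f x - f y| ≤ D * Real.sqrt (En G f) :=
        h1.trans (mul_le_mul_of_nonneg_right h2 (Real.sqrt_nonneg _))
      have h4 : (f x - f y) ^ 2 ≤ (D * Real.sqrt (En G f)) ^ 2 := by
        rw [← sq_abs]
        exact pow_le_pow_left₀ (abs_nonneg _) h3 2
      rw [mul_pow, Real.sq_sqrt hE] at h4
      nlinarith
    have hVa : Va f ≤ N * (N * ((D ^ 2 + 1) * En G f)) := by
      unfold Va
      refine (Finset.sum_le_sum fun x _ => Finset.sum_le_sum fun y _ => hpair x y).trans (le_of_eq ?_)
      simp only [Finset.sum_const, Finset.card_univ, nsmul_eq_mul]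
      rw [← hNdef]
    rw [one_div, inv_mul_le_iff₀ (by positivity)]
    refine hVa.trans (le_of_eq ?_)
    ring

theorem lazy_eq_lap (G : SimpleGraph W) {k : ℕ} (hk : 0 < k) (hreg : ∀ v, G.degree v = k) :
    lazyP G = lapQ G (1 / (2 * (k:ℝ))) := by
  ext x y
  unfold lazyP lapQ
  simp only [Matrix.of_apply, hreg]
  congr 1
  have hk' : (0:ℝ) < k := by exact_mod_cast hk
  split_ifs
  · field_simp; norm_num
  · rfl

theorem scale_bd' {a N e : ℝ} (hN : 0 < N) (h1 : |a - 1 / N| ≤ e) :
    |N * a - 1| ≤ e * N := by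
  have h4 : N * a - 1 = N * (a - 1 / N) := by field_simp
  rw [h4, abs_mul, abs_of_pos hN]
  have h5 := mul_le_mul_of_nonneg_left h1 hN.le
  linarith

theorem exists_mixed (G : SimpleGraph W) (hc : G.Connected) {k : ℕ} (hk : 0 < k)
    (hreg : ∀ v, G.degree v = k) : ∃ t, Mixed G t := by
  obtain ⟨g, hg0, hg1, hPI⟩ := connected_PI G hc
  have := hc.nonempty
  have hN : (1:ℝ) ≤ Fintype.card W := by
    have : 0 < Fintype.card W := Fintype.card_pos
    exact_mod_cast this
  have hk' : (1:ℝ) ≤ k := by exact_mod_cast hk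
  set c : ℝ := 1 / (2 * (k:ℝ)) with hcdef
  have hc0 : 0 < c := by positivity
  have hc1 : c ≤ 1 := by
    rw [hcdef, div_le_one (by positivity)]; linarith
  have hcg : 0 < c * g := by positivity
  have hcg1 : c * g ≤ 1 := by nlinarith
  obtain ⟨t, ht⟩ := exists_pow_lt_of_lt_one (show 0 < 1 / (8 * (Fintype.card W : ℝ)) by positivity)
    (show 1 - c * g < 1 by linarith)
  refine ⟨t, fun x y => ?_⟩
  rw [lazy_eq_lap G hk hreg, statPi_reg G hk hreg, div_div_eq_mul_div, div_one, mul_comm]
  have h1 := lapQ_mix G (fun v => (hreg v).le) hPI hc0.le (by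
    rw [hcdef, mul_one_div, div_mul_eq_mul_div, div_le_one (by positivity)]) hcg1 t x y
  have h2 := scale_bd' (show (0:ℝ) < Fintype.card W by linarith) (h1.trans ht.le)
  refine h2.trans ?_
  rw [one_div_mul_eq_div, div_le_div_iff₀ (by positivity) (by norm_num)]
  linarith

end conv
end Pool.Agent.J6H46.QI
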