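import Pool.Agent.J6H46.QI.Upper1

/-!
# Upper bound for the mixing time of the lamp graph
-/

set_option autoImplicit false
set_option linter.unusedSectionVars false
set_option linter.unusedSimpArgs false
open Classical

namespace Pool.Agent.J6H46.QI

section gen
variable {W U X : Type} [Fintype W] [Fintype U] [Fintype X]

theorem pow_char (P : Matrix W W ℝ) (π : W → X) (χ : W → ℝ) (T : Matrix X X ℝ)
    (h : ∀ f : X → ℝ, P.mulVec (fun p => χ p * f (π p)) = fun p => χ p * T.mulVec f (π p))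
    (t : ℕ) (f : X → ℝ) :
    (P ^ t).mulVec (fun p => χ p * f (π p)) = fun p => χ p * (T ^ t).mulVec f (π p) := by
  induction t generalizing f with
  | zero => simp
  | succ t ih =>
    rw [pow_succ, ← Matrix.mulVec_mulVec, h, ih, pow_succ, ← Matrix.mulVec_mulVec]

theorem mulVec_single' (T : Matrix X X ℝ) (x y : X) :
    T.mulVec (fun z => if z = y then 1 else 0) x = T x y := by
  show ∑ z, T x z * (if z = y then (1:ℝ) else 0) = T x y
  simp

theorem scale_bd {a N e : ℝ} (hN : 0 < N) (h1 : |a - 1 / N| ≤ e) (h2 : e * N ≤ 1 / 8) :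
    |N * a - 1| ≤ 1 / 8 := by
  have h4 : N * a - 1 = N * (a - 1 / N) := by field_simp
  rw [h4, abs_mul, abs_of_pos hN]
  have h5 := mul_le_mul_of_nonneg_left h1 hN.le
  linarith

theorem psd_single {T : Matrix X X ℝ} (hT : ∀ i j, T i j = T j i)
    (hpos : ∀ f, 0 ≤ ip f (T.mulVec f)) {lam : ℝ} (hl : 0 ≤ lam)
    (hlam : ∀ f, ip f (T.mulVec f) ≤ lam * ip f f) (t : ℕ) (x y : X) :
    |(T ^ t) x y| ≤ lam ^ t := by
  have h1 := psd_entry hT hpos hl (fun _ => True) (fun _ _ => trivial) (fun f _ => hlam f)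
      (fun z => if z = y then 1 else 0) trivial (by unfold ip; simp) t x
  rwa [mulVec_single'] at h1

theorem erase_sum (u0 : U) (f : U → ℝ) :
    ∑ u ∈ Finset.univ.erase u0, f u = ∑ u, f u - f u0 := by
  rw [← Finset.add_sum_erase _ _ (Finset.mem_univ u0)]; ring

theorem mixed_fourier (H : SimpleGraph W) (π : W → X) (χ : U → W → ℝ) (T : U → Matrix X X ℝ)
    (u0 : U) (N : ℝ) (hcard : (Fintype.card W : ℝ) = N * Fintype.card X)
    (hst : ∀ x, statPi H x = 1 / Fintype.card W)
    (hstep : ∀ u (f : X → ℝ), (lazyP H).mulVec (fun p => χ u p * f (π p)) =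
      fun p => χ u p * (T u).mulVec f (π p))
    (horth : ∀ p q : W, (∑ u, χ u q * χ u p) * (if π p = π q then 1 else 0) = if p = q then N else 0)
    (h0 : ∀ p, χ u0 p = 1) (habs : ∀ u p, |χ u p| = 1) (t : ℕ)
    (e1 : ∀ x y, |Fintype.card X * ((T u0) ^ t) x y - 1| ≤ 1 / 8) (a : U → ℝ)
    (ha : ∀ u, u ≠ u0 → ∀ x y, |((T u) ^ t) x y| ≤ a u)
    (hsum : Fintype.card X * ∑ u ∈ Finset.univ.erase u0, a u ≤ 1 / 8) : Mixed H t := by
  intro p q
  have hX : (0:ℝ) < Fintype.card X := by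
    have : 0 < Fintype.card X := Fintype.card_pos_iff.mpr ⟨π p⟩
    exact_mod_cast this
  have hentry : N * (lazyP H ^ t) p q = ∑ u, χ u q * χ u p * ((T u) ^ t) (π p) (π q) := by
    have h1 : (fun w => ∑ u, χ u q * (χ u w * (if π w = π q then (1:ℝ) else 0))) =
        fun w => if w = q then N else 0 := by
      funext w
      rw [← horth w q, Finset.sum_mul]
      exact Finset.sum_congr rfl fun u _ => by ring
    have h2 : (lazyP H ^ t).mulVec (fun w => if w = q then N else 0) p = N * (lazyP H ^ t) p q := by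
      show ∑ w, (lazyP H ^ t) p w * (if w = q then N else 0) = _
      simp [mul_comm]
    rw [← h2, ← h1]
    have h3 : (lazyP H ^ t).mulVec (fun w => ∑ u, χ u q * (χ u w * (if π w = π q then (1:ℝ) else 0))) p =
        ∑ u, χ u q * (lazyP H ^ t).mulVec (fun w => χ u w * (if π w = π q then (1:ℝ) else 0)) p := by
      show ∑ w, (lazyP H ^ t) p w * ∑ u, χ u q * (χ u w * (if π w = π q then (1:ℝ) else 0)) =
        ∑ u, χ u q * ∑ w, (lazyP H ^ t) p w * (χ u w * (if π w = π q then (1:ℝ) else 0))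
      simp only [Finset.mul_sum]
      rw [Finset.sum_comm]
      exact Finset.sum_congr rfl fun u _ => Finset.sum_congr rfl fun w _ => by ring
    rw [h3]
    refine Finset.sum_congr rfl fun u _ => ?_
    have h4 := congrFun (pow_char (lazyP H) π (χ u) (T u) (hstep u) t
      (fun x => if x = π q then (1:ℝ) else 0)) p
    rw [h4, mulVec_single']
    ring
  rw [hst, div_div_eq_mul_div, div_one, hcard]
  have h5 : (lazyP H ^ t) p q * (N * Fintype.card X) - 1 =
      (Fintype.card X * ((T u0) ^ t) (π p) (π q) - 1) +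
      Fintype.card X * ∑ u ∈ Finset.univ.erase u0, χ u q * χ u p * ((T u) ^ t) (π p) (π q) := by
    have h6 : (lazyP H ^ t) p q * (N * Fintype.card X) = Fintype.card X * (N * (lazyP H ^ t) p q) := by
      ring
    rw [h6, hentry, ← Finset.add_sum_erase _ _ (Finset.mem_univ u0), h0, h0]
    ring
  rw [h5]
  have h7 : |Fintype.card X * ∑ u ∈ Finset.univ.erase u0, χ u q * χ u p * ((T u) ^ t) (π p) (π q)| ≤ 1 / 8 := by
    rw [abs_mul, abs_of_pos hX]
    refine le_trans (mul_le_mul_of_nonneg_left ?_ hX.le) hsum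
    refine (Finset.abs_sum_le_sum_abs _ _).trans (Finset.sum_le_sum fun u hu => ?_)
    rw [abs_mul, abs_mul, habs, habs, one_mul, one_mul]
    exact ha u (Finset.ne_of_mem_erase hu) _ _
  have h8 := abs_add_le (Fintype.card X * ((T u0) ^ t) (π p) (π q) - 1)
    (Fintype.card X * ∑ u ∈ Finset.univ.erase u0, χ u q * χ u p * ((T u) ^ t) (π p) (π q))
  have h9 := e1 (π p) (π q)
  linarith

end gen

section
variable {n : ℕ} [NeZero n] (b : ZMod n → ZMod 2) {Y : Type} [Fintype Y]
  (Γ : SimpleGraph (Y × ZMod n)) (hb : ¬ Bad n b) (hn : 200 ≤ n)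

/-- killing rates -/
noncomputable def kap (c : ℝ) (u : LA n Y) (z : Y × ZMod n) : ℝ := c * ∑ ε : Bool, (1 - chi u (hc b z ε))

/-- Fourier component of the walk -/
noncomputable def Tu (c : ℝ) (u : LA n Y) : Matrix (Y × ZMod n) (Y × ZMod n) ℝ :=
  Matrix.of fun z z' => lapQ Γ c z z' - if z = z' then kap b c u z else 0

theorem Tu_sym (c : ℝ) (u : LA n Y) (i j : Y × ZMod n) : Tu b Γ c u i j = Tu b Γ c u j i := by
  unfold Tu
  simp only [Matrix.of_apply]
  rw [lapQ_sym]
  by_cases h : i = j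
  · rw [if_pos h, if_pos h.symm, h]
  · rw [if_neg h, if_neg (Ne.symm h)]

theorem Tu_mulVec (c : ℝ) (u : LA n Y) (f : Y × ZMod n → ℝ) (z : Y × ZMod n) :
    (Tu b Γ c u).mulVec f z = (lapQ Γ c).mulVec f z - kap b c u z * f z := by
  show ∑ z', Tu b Γ c u z z' * f z' = ∑ z', lapQ Γ c z z' * f z' - _
  unfold Tu
  simp only [Matrix.of_apply, sub_mul, Finset.sum_sub_distrib, ite_mul, zero_mul,
    Finset.sum_ite_eq, Finset.mem_univ, if_true]

theorem Tu_ip (c : ℝ) (u : LA n Y) (f : Y × ZMod n → ℝ) :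
    ip f ((Tu b Γ c u).mulVec f) = ip f f - c / 2 * En Γ f - ∑ z, kap b c u z * f z ^ 2 := by
  rw [← lapQ_ip]
  unfold ip
  rw [← Finset.sum_sub_distrib]
  refine Finset.sum_congr rfl fun z _ => ?_
  rw [Tu_mulVec]; ring

theorem kap_bd {c : ℝ} (hc0 : 0 ≤ c) (u : LA n Y) (z : Y × ZMod n) :
    0 ≤ kap b c u z ∧ kap b c u z ≤ 4 * c ∧ (z ∈ Kl b u → 2 * c ≤ kap b c u z) := by
  have h1 : ∀ ε, 0 ≤ 1 - chi u (hc b z ε) ∧ 1 - chi u (hc b z ε) ≤ 2 := by
    intro ε
    have := abs_le.mp (chi_abs u (hc b z ε)).le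
    constructor <;> linarith [this.1, this.2]
  unfold kap
  refine ⟨mul_nonneg hc0 (Finset.sum_nonneg fun ε _ => (h1 ε).1), ?_, ?_⟩
  · rw [Fintype.sum_bool]
    have a1 := (h1 true).2
    have a2 := (h1 false).2
    nlinarith
  · intro hz
    obtain ⟨ε, hε⟩ := (Finset.mem_filter.mp hz).2
    have h2 : chi u (hc b z ε) = -1 := by
      rw [chi_hc]; unfold sgn; rw [if_neg hε]
    have h3 : 2 ≤ ∑ ε : Bool, (1 - chi u (hc b z ε)) := by
      have := Finset.single_le_sum (f := fun ε : Bool => 1 - chi u (hc b z ε)) (fun ε _ => (h1 ε).1)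
        (Finset.mem_univ ε)
      simp only [h2] at this
      linarith
    nlinarith

variable {Γ}

theorem Tu_psd {dX : ℕ} (hd : ∀ z, Γ.degree z = dX) {c : ℝ} (hc0 : 0 ≤ c)
    (hcd : 2 * c * (dX + 2) ≤ 1) (u : LA n Y) (f : Y × ZMod n → ℝ) :
    0 ≤ ip f ((Tu b Γ c u).mulVec f) := by
  rw [Tu_ip]
  have h1 := En_le Γ (fun z => (hd z).le) f
  have h2 : ∑ z, kap b c u z * f z ^ 2 ≤ 4 * c * ip f f := by
    unfold ip
    rw [Finset.mul_sum]
    refine Finset.sum_le_sum fun z _ => ?_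
    have := mul_le_mul_of_nonneg_right (kap_bd b hc0 u z).2.1 (sq_nonneg (f z))
    linarith
  have h3 := mul_le_mul_of_nonneg_left h1 (show 0 ≤ c / 2 by positivity)
  have h4 := mul_le_mul_of_nonneg_right hcd (ip_self_nonneg f)
  linarith

theorem Tu_gap {g : ℝ} (hG : PI Γ g) (hg : 0 < g) (hg3 : g ≤ 3) {c : ℝ} (hc0 : 0 ≤ c)
    (hb : ¬ Bad n b) (u : LA n Y) (f : Y × ZMod n → ℝ) :
    ip f ((Tu b Γ c u).mulVec f) ≤ (1 - c * g * act u / (300 * Fintype.card Y)) * ip f f := by
  rw [Tu_ip]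
  by_cases hY : Nonempty Y
  swap
  · rw [not_nonempty_iff] at hY
    have h1 : ip f f = 0 := by unfold ip; simp
    have h2 : ∑ z, kap b c u z * f z ^ 2 = 0 := by simp
    rw [h1, h2]
    have := En_nonneg Γ f
    have : 0 ≤ c / 2 * En Γ f := by positivity
    linarith
  have hYp : (0:ℝ) < Fintype.card Y := by
    have : 0 < Fintype.card Y := Fintype.card_pos
    exact_mod_cast this
  have hnp : (0:ℝ) < n := by
    have : 0 < n := Nat.pos_of_ne_zero (NeZero.ne n)
    exact_mod_cast this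
  have hk := killing Γ hG hg hg3 (Kl b u) f
  have hcard : (Fintype.card (Y × ZMod n) : ℝ) = Fintype.card Y * n := by
    rw [Fintype.card_prod, ZMod.card]; push_cast; ring
  rw [hcard] at hk
  have h1 : (n:ℝ) * act u ≤ 100 * (Kl b u).card := by exact_mod_cast Kl_card b hb u
  have h2 : ∑ z ∈ Kl b u, 2 * c * f z ^ 2 ≤ ∑ z, kap b c u z * f z ^ 2 := by
    refine (Finset.sum_le_sum fun z hz => mul_le_mul_of_nonneg_right ((kap_bd b hc0 u z).2.2 hz)
      (sq_nonneg (f z))).trans ?_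
    exact Finset.sum_le_sum_of_subset_of_nonneg (Finset.subset_univ _) fun z _ _ =>
      mul_nonneg (kap_bd b hc0 u z).1 (sq_nonneg _)
  rw [← Finset.mul_sum] at h2
  have hip := ip_self_nonneg f
  -- divide by |Y| n
  have h3 : g * act u / (300 * Fintype.card Y) * ip f f ≤ 1 / 2 * En Γ f + 2 * ∑ z ∈ Kl b u, f z ^ 2 := by
    have h4 : g / 3 * (n * act u / 100) * ip f f ≤ Fintype.card Y * n * (1 / 2 * En Γ f + 2 * ∑ z ∈ Kl b u, f z ^ 2) := by
      refine le_trans ?_ hk
      have : (n:ℝ) * act u / 100 ≤ (Kl b u).card := by linarith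
      gcongr
    have h5 : g / 3 * (n * act u / 100) * ip f f = Fintype.card Y * n * (g * act u / (300 * Fintype.card Y) * ip f f) := by
      field_simp
      ring
    rw [h5] at h4
    exact le_of_mul_le_mul_left h4 (by positivity)
  have h6 := mul_le_mul_of_nonneg_left h3 hc0
  have h7 : c * g * act u / (300 * Fintype.card Y) * ip f f = c * (g * act u / (300 * Fintype.card Y) * ip f f) := by
    ring
  rw [sub_mul, one_mul, h7]
  linarith

theorem Tu_zero (c : ℝ) : Tu b Γ c 0 = lapQ Γ c := by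
  ext z z'
  unfold Tu
  simp only [Matrix.of_apply]
  have : kap b c (0 : LA n Y) z = 0 := by
    unfold kap; simp [chi_zero_left]
  rw [this]; simp

theorem lamp_step {dX : ℕ} (hd : ∀ z, Γ.degree z = dX) (u : LA n Y) (f : Y × ZMod n → ℝ) :
    (lazyP (lampG b Γ hb hn)).mulVec (fun p => chi u p.1 * f p.2) =
      fun p => chi u p.1 * (Tu b Γ (1 / (2 * ((dX : ℝ) + 2))) u).mulVec f p.2 := by
  funext p
  show ∑ q, (lazyP (lampG b Γ hb hn)) p q * (chi u q.1 * f q.2) = _
  unfold lazyP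
  simp only [Matrix.of_apply, add_mul, Finset.sum_add_distrib, ite_mul, zero_mul,
    Finset.sum_ite_eq, Finset.mem_univ, if_true, lamp_degree, hd]
  have h1 := lamp_sum b Γ hb hn (fun q => 1 / (2 * ((dX + 2 : ℕ) : ℝ)) * (chi u q.1 * f q.2)) p
  rw [h1, Tu_mulVec, lapQ_mulVec]
  unfold kap
  have e1 : ∑ z', (if Γ.Adj p.2 z' then 1 / (2 * ((dX + 2 : ℕ) : ℝ)) * (chi u p.1 * f z') else 0) =
      chi u p.1 * (1 / (2 * ((dX : ℝ) + 2)) * ∑ z', (if Γ.Adj p.2 z' then f z' - f p.2 else 0)) +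
      chi u p.1 * (1 / (2 * ((dX : ℝ) + 2)) * (dX * f p.2)) := by
    have e2 : (dX : ℝ) * f p.2 = ∑ z', (if Γ.Adj p.2 z' then f p.2 else 0) := by
      rw [← Finset.sum_filter, Finset.sum_const, nsmul_eq_mul, ← SimpleGraph.neighborFinset_eq_filter,
        SimpleGraph.card_neighborFinset_eq_degree, hd]
    rw [e2, Finset.mul_sum, Finset.mul_sum, Finset.mul_sum, Finset.mul_sum, ← Finset.sum_add_distrib]
    refine Finset.sum_congr rfl fun z' _ => ?_
    push_cast
    split_ifs <;> ring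
  rw [e1]
  simp only [stp_eq, chi_add, Fintype.sum_bool]
  push_cast
  have hd0 : (0:ℝ) < (dX : ℝ) + 2 := by positivity
  field_simp
  ring

/-- upper bound for the uniform mixing time of the lamp graph -/
theorem lamp_mixed {dX : ℕ} (hd : ∀ z, Γ.degree z = dX) {g : ℝ} (hG : PI Γ g) (hg : 0 < g)
    (hg3 : g ≤ 1) (hY : (Fintype.card Y : ℝ) ≤ 4 ^ n) (hY0 : Nonempty Y) (t : ℕ)
    (ht : 6000 * ((dX : ℝ) + 2) * (Fintype.card Y * n) / g ≤ t) : Mixed (lampG b Γ hb hn) t := by
  set c : ℝ := 1 / (2 * ((dX : ℝ) + 2)) with hcdef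
  have hd0 : (0:ℝ) < (dX : ℝ) + 2 := by positivity
  have hc0 : 0 < c := by positivity
  have hYp : (1:ℝ) ≤ Fintype.card Y := by
    have : 0 < Fintype.card Y := Fintype.card_pos
    exact_mod_cast this
  have hnp : (200:ℝ) ≤ n := by exact_mod_cast hn
  set N : ℝ := (Fintype.card Y : ℝ) with hN
  have hcard : (Fintype.card (Y × ZMod n) : ℝ) = N * n := by
    rw [Fintype.card_prod, ZMod.card]; push_cast; ring
  have hcg : c * g ≤ 1 := by
    have : c ≤ 1 := by
      rw [hcdef, div_le_one (by positivity)]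
      have : (0:ℝ) ≤ dX := Nat.cast_nonneg _
      linarith
    nlinarith
  have htcg : 3000 * (N * n) ≤ t * (c * g) := by
    have h1 : 6000 * ((dX : ℝ) + 2) * (N * n) ≤ t * g := by
      rw [div_le_iff₀ hg] at ht; exact ht
    have h2 : t * (c * g) = (t * g) / (2 * ((dX : ℝ) + 2)) := by rw [hcdef]; ring
    rw [h2, le_div_iff₀ (by positivity)]
    linarith
  have hreg : ∀ p, (lampG b Γ hb hn).degree p = dX + 2 := fun p => by rw [lamp_degree, hd]
  refine mixed_fourier (lampG b Γ hb hn) (fun p => p.2) (fun u p => chi u p.1) (fun u => Tu b Γ c u) 0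
    (Fintype.card (LA n Y)) ?_ (statPi_reg _ (by omega) hreg) (fun u f => lamp_step b hb hn hd u f)
    ?_ (fun p => chi_zero_left _) (fun u p => chi_abs _ _) t ?_
    (fun u => Real.exp (-(t * (c * g) / (300 * N))) ^ act u) ?_ ?_
  · rw [Fintype.card_prod]; push_cast; ring
  · intro p q
    have h1 : ∑ u, chi u q.1 * chi u p.1 = if q.1 + p.1 = 0 then (Fintype.card (LA n Y) : ℝ) else 0 := by
      rw [← chi_sum]
      exact Finset.sum_congr rfl fun u _ => (chi_add u q.1 p.1).symm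
    rw [h1]
    have h2 : q.1 + p.1 = 0 ↔ p.1 = q.1 := by
      have hself : ∀ η : LA n Y, η + η = 0 := fun η => by funext y; exact dbl2 (η y)
      constructor
      · intro h
        have := congrArg (fun v => q.1 + v) h
        simp only [← add_assoc, hself, zero_add, add_zero] at this
        exact this
      · intro h; rw [h]; exact hself _
    by_cases h3 : p.1 = q.1
    · by_cases h4 : p.2 = q.2
      · have h6 := h2.mpr h3
        rw [h3] at h6
        simp [h3, h4, h6, Prod.ext_iff]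
      · simp [h3, h4, Prod.ext_iff]
    · simp [h2, h3, Prod.ext_iff]
  · intro x y
    rw [Tu_zero, hcard]
    have h1 := lapQ_mix Γ (fun z => (hd z).le) hG hc0.le (by
      rw [hcdef, mul_one_div, div_mul_eq_mul_div, div_le_one (by positivity)]; linarith) hcg t x y
    rw [hcard] at h1
    have hNn : 0 < N * n := by positivity
    have h2 : (1 - c * g) ^ t ≤ Real.exp (-(t * (c * g))) := by
      have := Real.add_one_le_exp (-(c * g))
      have h3 := pow_le_pow_left₀ (by linarith) (show 1 - c * g ≤ Real.exp (-(c * g)) by linarith) t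
      rw [← Real.exp_nat_mul] at h3
      refine h3.trans (le_of_eq ?_)
      congr 1; ring
    have h3 : Real.exp (-(t * (c * g))) * (N * n) ≤ 1 / 8 := by
      rw [Real.exp_neg, ← div_eq_inv_mul, div_le_iff₀ (Real.exp_pos _)]
      have := Real.add_one_le_exp (t * (c * g))
      linarith
    exact scale_bd hNn (h1.trans h2) h3
  · intro u _ x y
    have hact : (act u : ℝ) ≤ N := by
      rw [hN]; unfold act; exact_mod_cast Finset.card_le_univ _
    have hact0 : (0:ℝ) ≤ act u := Nat.cast_nonneg _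
    have hlam : 0 ≤ 1 - c * g * act u / (300 * N) := by
      have : c * g * act u / (300 * N) ≤ 1 := by
        rw [div_le_one (by positivity)]
        have : c * g * act u ≤ 1 * N := mul_le_mul hcg hact hact0 (by norm_num)
        linarith
      linarith
    have h1 := psd_single (Tu_sym b Γ c u) (Tu_psd b hd hc0.le (by
      rw [hcdef, mul_one_div, div_mul_eq_mul_div, div_le_one (by positivity)]) u) hlam
      (fun f => Tu_gap b hG hg (by linarith) hc0.le hb u f) t x y
    refine h1.trans ?_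
    have h2 : 1 - c * g * act u / (300 * N) ≤ Real.exp (-(c * g * act u / (300 * N))) := by
      have := Real.add_one_le_exp (-(c * g * act u / (300 * N)))
      linarith
    refine (pow_le_pow_left₀ hlam h2 t).trans (le_of_eq ?_)
    rw [← Real.exp_nat_mul, ← Real.exp_nat_mul]
    congr 1
    ring
  · set x : ℝ := Real.exp (-(t * (c * g) / (300 * N))) with hx
    have hx0 : 0 < x := Real.exp_pos _
    have hact0 : act (0 : LA n Y) = 0 := by unfold act; simp
    rw [erase_sum, act_gen, hact0, pow_zero, hcard]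
    -- bound for x
    have hx10 : x ≤ Real.exp (-(10 * n)) := by
      rw [hx]
      apply Real.exp_le_exp.mpr
      rw [neg_le_neg_iff, le_div_iff₀ (by positivity)]
      linarith
    have he2 : Real.exp (-(10 * (n:ℝ))) ≤ (1 / 2) ^ (10 * n) := by
      have h2 : Real.exp (-(10 * (n:ℝ))) = (Real.exp (-1)) ^ (10 * n) := by
        rw [← Real.exp_nat_mul]; push_cast; ring_nf
      rw [h2]
      refine pow_le_pow_left₀ (Real.exp_pos _).le ?_ _
      rw [Real.exp_neg, one_div]
      have := Real.add_one_le_exp (1:ℝ)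
      exact inv_anti₀ (by norm_num) (by linarith)
    have hxle : x ≤ (1 / 2) ^ (10 * n) := hx10.trans he2
    have h2n : (n:ℝ) ≤ 2 ^ n := by exact_mod_cast (Nat.lt_two_pow_self (n := n)).le
    -- w = 2^n x N
    have hw : (2:ℝ) ^ n * x * N * (N * n) ≤ 1 / 16 := by
      have h4 : (4:ℝ) ^ n = 2 ^ (2 * n) := by rw [pow_mul]; norm_num
      have e1 : (2:ℝ) ^ n * x * N * (N * n) ≤ 2 ^ n * (1 / 2) ^ (10 * n) * 4 ^ n * (4 ^ n * 2 ^ n) := by
        gcongr
      refine e1.trans ?_
      rw [h4]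
      have e2 : (2:ℝ) ^ n * (1 / 2) ^ (10 * n) * 2 ^ (2 * n) * (2 ^ (2 * n) * 2 ^ n) = (1 / 2) ^ (4 * n) := by
        have : (2:ℝ) ^ n * 2 ^ (2 * n) * (2 ^ (2 * n) * 2 ^ n) = 2 ^ (6 * n) := by
          rw [← pow_add, ← pow_add, ← pow_add]; congr 1; ring
        calc (2:ℝ) ^ n * (1 / 2) ^ (10 * n) * 2 ^ (2 * n) * (2 ^ (2 * n) * 2 ^ n) =
            (2 ^ n * 2 ^ (2 * n) * (2 ^ (2 * n) * 2 ^ n)) * (1 / 2) ^ (10 * n) := by ring
          _ = 2 ^ (6 * n) * (1 / 2) ^ (6 * n + 4 * n) := by rw [this]; congr 2; ring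
          _ = _ := by rw [pow_add, ← mul_assoc, ← mul_pow]; norm_num
      rw [e2]
      calc ((1:ℝ) / 2) ^ (4 * n) ≤ (1 / 2) ^ 4 :=
            pow_le_pow_of_le_one (by norm_num) (by norm_num) (by omega)
        _ = 1 / 16 := by norm_num
    have hNn1 : (1:ℝ) ≤ N * n := by nlinarith
    have hw1 : (2:ℝ) ^ n * x * N ≤ 1 / 16 := by
      have : 0 ≤ (2:ℝ) ^ n * x * N := by positivity
      nlinarith
    have h5 : (1 + (2 ^ n - 1) * x) ^ Fintype.card Y ≤ Real.exp (2 ^ n * x * N) := by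
      have h6 : 1 + (2 ^ n - 1) * x ≤ Real.exp (2 ^ n * x) := by
        have := Real.add_one_le_exp ((2:ℝ) ^ n * x)
        nlinarith
      have h7 : 0 ≤ 1 + ((2:ℝ) ^ n - 1) * x := by
        have : (1:ℝ) ≤ 2 ^ n := one_le_pow₀ (by norm_num)
        nlinarith
      refine (pow_le_pow_left₀ h7 h6 _).trans (le_of_eq ?_)
      rw [← Real.exp_nat_mul, ← hN]; congr 1; ring
    have h6 : Real.exp (2 ^ n * x * N) ≤ 1 + 2 * (2 ^ n * x * N) := by
      have h7 := Real.abs_exp_sub_one_le (x := (2:ℝ) ^ n * x * N) (by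
        rw [abs_of_nonneg (by positivity)]; linarith)
      rw [abs_of_nonneg (show (0:ℝ) ≤ 2 ^ n * x * N by positivity)] at h7
      have := (abs_le.mp h7).2
      linarith
    have h7 : (1 + (2 ^ n - 1) * x) ^ Fintype.card Y - 1 ≤ 2 * (2 ^ n * x * N) := by linarith
    have h8 := mul_le_mul_of_nonneg_left h7 (show 0 ≤ N * (n:ℝ) by positivity)
    linarith

end
end Pool.Agent.J6H46.QI
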