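import Pool.Agent.J6H46.QI.Geom
import Pool.Agent.J6H46.QI.Upper2

/-!
# The lamp graph is connected and vertex transitive
-/

set_option autoImplicit false
set_option linter.unusedSectionVars false
open Classical

namespace Pool.Agent.J6H46.QI

section
variable {n : ℕ} [NeZero n] (b : ZMod n → ZMod 2) {Y : Type} [Fintype Y]

theorem lamp_connected (Γ : SimpleGraph (Y × ZMod n)) (hb : ¬ Bad n b) (hn : 200 ≤ n)
    (hΓ : Γ.Connected) : (lampG b Γ hb hn).Connected := by
  have hne := hΓ.nonempty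
  set G := lampG b Γ hb hn with hG
  -- moving the pointer
  have hptr : ∀ (η : LA n Y) (z z' : Y × ZMod n), G.Reachable (η, z) (η, z') := by
    intro η z z'
    obtain ⟨p⟩ := hΓ.preconnected z z'
    let f : Γ →g G := ⟨fun z => (η, z), fun {a c} h => Or.inl ⟨rfl, h⟩⟩
    exact ⟨p.map f⟩
  -- toggling a slot
  have htog : ∀ (y : Y) (c : ZMod n) (η : LA n Y) (z : Y × ZMod n),
      G.Reachable (η, z) (η + Pi.single y (Pi.single c 1), z) := by
    intro y c η z
    have h1 : G.Adj (η, (y, c)) (η + Pi.single y (Pi.single c 1), (y, c)) := by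
      refine Or.inr ⟨rfl, false, ?_⟩
      rw [stp_eq]
      rfl
    exact (hptr η z (y, c)).trans (h1.reachable.trans (hptr _ (y, c) z))
  -- arbitrary lamp moves
  let Q : LA n Y → Prop := fun v => ∀ (η : LA n Y) (z : Y × ZMod n), G.Reachable (η, z) (η + v, z)
  have Qadd : ∀ v w, Q v → Q w → Q (v + w) := by
    intro v w hv hw η z
    rw [← add_assoc]
    exact (hv η z).trans (hw _ z)
  have Q0 : Q 0 := by intro η z; rw [add_zero]
  have Qs : ∀ (y : Y) (c : ZMod n) (a : ZMod 2), Q (Pi.single y (Pi.single c a)) := by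
    intro y c a
    by_cases ha : a = 0
    · subst ha
      rw [Pi.single_zero, Pi.single_zero]; exact Q0
    · rw [z2_ne a ha]; exact htog y c
  have Qb : ∀ (y : Y) (v : ZMod n → ZMod 2), Q (Pi.single y v) := by
    intro y v
    have h1 : (Pi.single y v : LA n Y) = ∑ c, Pi.single y (Pi.single c (v c)) := by
      have h2 : v = ∑ c, Pi.single c (v c) := (Finset.univ_sum_single v).symm
      funext y'
      by_cases hy : y' = y
      · subst hy
        rw [Finset.sum_apply, Pi.single_eq_same]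
        conv_lhs => rw [h2]
        exact Finset.sum_congr rfl fun c _ => by rw [Pi.single_eq_same]
      · rw [Finset.sum_apply, Pi.single_eq_of_ne hy]
        symm
        exact Finset.sum_eq_zero fun c _ => by rw [Pi.single_eq_of_ne hy]
    rw [h1]
    exact Finset.sum_induction _ Q Qadd Q0 fun c _ => Qs y c (v c)
  have Qall : ∀ v, Q v := by
    intro v
    have h1 : v = ∑ y, Pi.single y (v y) := (Finset.univ_sum_single v).symm
    rw [h1]
    exact Finset.sum_induction _ Q Qadd Q0 fun y _ => Qb y (v y)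
  rw [SimpleGraph.connected_iff]
  refine ⟨?_, ⟨(0, hne.some)⟩⟩
  rintro ⟨η, z⟩ ⟨ζ, z'⟩
  have h1 := Qall (η + ζ) η z
  have h2 : η + (η + ζ) = ζ := by
    rw [← add_assoc]
    have : η + η = 0 := by funext y; exact dbl2 (η y)
    rw [this, zero_add]
  rw [h2] at h1
  exact h1.trans (hptr ζ z z')

/-- translations of the lamps -/
def lampT (Γ : SimpleGraph (Y × ZMod n)) (hb : ¬ Bad n b) (hn : 200 ≤ n) (ζ : LA n Y) :
    lampG b Γ hb hn ≃g lampG b Γ hb hn where
  toEquiv := (Equiv.addRight ζ).prodCongr (Equiv.refl _)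
  map_rel_iff' := by
    rintro ⟨η, z⟩ ⟨η', z'⟩
    show (η + ζ = η' + ζ ∧ Γ.Adj z z') ∨ (z = z' ∧ ∃ ε, η' + ζ = stp b (η + ζ) z ε) ↔
      (η = η' ∧ Γ.Adj z z') ∨ (z = z' ∧ ∃ ε, η' = stp b η z ε)
    simp only [stp_add, add_left_inj]

/-- transport of lamps along a symmetry of the pointer -/
def trL (φ : Y ≃ Y) (c0 : ZMod n) (η : LA n Y) : LA n Y := fun y x => η (φ.symm y) (x - c0)

theorem col_shift (c c0 x : ZMod n) (ε : Bool) : col b (c + c0, ε) x = col b (c, ε) (x - c0) := by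
  unfold col
  cases ε
  · simp only [Bool.false_eq_true, if_false]
    rw [Pi.single_apply, Pi.single_apply]
    by_cases h : x = c + c0
    · rw [if_pos h, if_pos (by rw [h]; ring)]
    · rw [if_neg h, if_neg (fun h' => h (by rw [← h']; ring))]
  · simp only [if_true]
    congr 1
    ring

theorem trL_stp (φ : Y ≃ Y) (c0 : ZMod n) (η : LA n Y) (z : Y × ZMod n) (ε : Bool) :
    trL φ c0 (stp b η z ε) = stp b (trL φ c0 η) (φ z.1, z.2 + c0) ε := by
  funext y x
  unfold stp trL
  by_cases h : φ.symm y = z.1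
  · have h' : y = φ z.1 := by rw [← h, Equiv.apply_symm_apply]
    subst h'
    simp only [Equiv.symm_apply_apply, Function.update_self, Pi.add_apply]
    rw [col_shift]
  · have h' : y ≠ φ z.1 := fun e => h (by rw [e, Equiv.symm_apply_apply])
    rw [Function.update_of_ne h, Function.update_of_ne h']

/-- equivalence of vertices -/
def trE (φ : Y ≃ Y) (c0 : ZMod n) : LA n Y × (Y × ZMod n) ≃ LA n Y × (Y × ZMod n) where
  toFun p := (trL φ c0 p.1, (φ p.2.1, p.2.2 + c0))
  invFun p := (trL φ.symm (-c0) p.1, (φ.symm p.2.1, p.2.2 - c0))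
  left_inv p := by
    obtain ⟨η, y, c⟩ := p
    simp only [Equiv.symm_apply_apply, add_sub_cancel_right, Prod.mk.injEq, and_true]
    funext y x
    unfold trL
    simp
  right_inv p := by
    obtain ⟨η, y, c⟩ := p
    simp only [Equiv.apply_symm_apply, sub_add_cancel, Prod.mk.injEq, and_true]
    funext y x
    unfold trL
    simp

theorem lamp_trans {ΓY : SimpleGraph Y} {K : SimpleGraph (ZMod n)} (hY : VertexTransitive ΓY)
    (hK : ∀ c0 x y : ZMod n, K.Adj (x + c0) (y + c0) ↔ K.Adj x y) (hb : ¬ Bad n b) (hn : 200 ≤ n) :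
    VertexTransitive (lampG b (ΓY □ K) hb hn) := by
  rintro ⟨η, y, c⟩ ⟨ζ, y', c'⟩
  obtain ⟨φ, hφ⟩ := hY y y'
  let c0 := c' - c
  have hmap : ∀ p q, (lampG b (ΓY □ K) hb hn).Adj (trE φ.toEquiv c0 p) (trE φ.toEquiv c0 q) ↔
      (lampG b (ΓY □ K) hb hn).Adj p q := by
    rintro ⟨η, y, c⟩ ⟨η', y', c'⟩
    have hinj : ∀ a d : LA n Y, trL φ.toEquiv c0 a = trL φ.toEquiv c0 d ↔ a = d := by
      intro a d
      constructor
      · intro h
        funext y x
        have := congrFun (congrFun h (φ.toEquiv y)) (x + c0)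
        simp only [trL, Equiv.symm_apply_apply, add_sub_cancel_right] at this
        exact this
      · intro h; rw [h]
    have hz : ((φ.toEquiv y, c + c0) : Y × ZMod n) = (φ.toEquiv y', c' + c0) ↔ ((y, c) : Y × ZMod n) = (y', c') := by
      simp only [Prod.mk.injEq, φ.toEquiv.injective.eq_iff, add_left_inj]
    show (trL φ.toEquiv c0 η = trL φ.toEquiv c0 η' ∧ (ΓY □ K).Adj (φ.toEquiv y, c + c0) (φ.toEquiv y', c' + c0)) ∨
      (((φ.toEquiv y, c + c0) : Y × ZMod n) = (φ.toEquiv y', c' + c0) ∧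
        ∃ ε, trL φ.toEquiv c0 η' = stp b (trL φ.toEquiv c0 η) (φ.toEquiv y, c + c0) ε) ↔
      (η = η' ∧ (ΓY □ K).Adj (y, c) (y', c')) ∨ (((y, c) : Y × ZMod n) = (y', c') ∧ ∃ ε, η' = stp b η (y, c) ε)
    rw [hinj, hz]
    have h1 : (ΓY □ K).Adj (φ.toEquiv y, c + c0) (φ.toEquiv y', c' + c0) ↔ (ΓY □ K).Adj (y, c) (y', c') := by
      simp only [SimpleGraph.boxProd_adj, hK, add_left_inj, φ.toEquiv.injective.eq_iff]
      have : ΓY.Adj (φ.toEquiv y) (φ.toEquiv y') ↔ ΓY.Adj y y' := φ.map_rel_iff'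
      rw [this]
    have h2 : ∀ ε, trL φ.toEquiv c0 η' = stp b (trL φ.toEquiv c0 η) (φ.toEquiv y, c + c0) ε ↔
        η' = stp b η (y, c) ε := by
      intro ε
      rw [← trL_stp b φ.toEquiv c0 η (y, c) ε]
      exact hinj _ _
    simp only [h1, h2]
  let ψ : lampG b (ΓY □ K) hb hn ≃g lampG b (ΓY □ K) hb hn := ⟨trE φ.toEquiv c0, fun {a c} => hmap a c⟩
  refine ⟨ψ.trans (lampT b (ΓY □ K) hb hn (ζ - trL φ.toEquiv c0 η)), ?_⟩
  show (trL φ.toEquiv c0 η + (ζ - trL φ.toEquiv c0 η), (φ.toEquiv y, c + c0)) = (ζ, (y', c'))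
  have h1 : φ.toEquiv y = y' := hφ
  rw [h1]
  have h2 : c + c0 = c' := by show c + (c' - c) = c'; ring
  rw [h2, add_sub_cancel]

end
end Pool.Agent.J6H46.QI
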