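import Pool.Agent.J6H46.QI.Spec
import Pool.Agent.J6H46.QI.Defs
import Pool.Agent.K3h39.LT.Exp2

/-!
# Two vertex transitive graphs: circulants with jumps, expander Cayley graphs
-/

set_option autoImplicit false
set_option linter.unusedSectionVars false
open Classical

namespace Pool.Agent.J6H46.QI

section
variable {X : Type} [Fintype X]

theorem PI_of_zero {G : SimpleGraph X} {g : ℝ}
    (h : ∀ f : X → ℝ, ∑ x, f x = 0 → 2 * g * ip f f ≤ En G f) : PI G g := by
  intro f
  by_cases hX : Nonempty X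
  swap
  · rw [not_nonempty_iff] at hX
    unfold Va En; simp
  have hN : (0:ℝ) < Fintype.card X := by
    have : 0 < Fintype.card X := Fintype.card_pos
    exact_mod_cast this
  let m : ℝ := (∑ x, f x) / Fintype.card X
  let f0 : X → ℝ := fun x => f x - m
  have h0 : ∑ x, f0 x = 0 := by
    show ∑ x, (f x - m) = 0
    rw [Finset.sum_sub_distrib, Finset.sum_const, Finset.card_univ, nsmul_eq_mul]
    show _ - _ * ((∑ x, f x) / Fintype.card X) = 0
    field_simp
    ring
  have h1 : Va f = Va f0 := by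
    unfold Va
    refine Finset.sum_congr rfl fun x _ => Finset.sum_congr rfl fun y _ => ?_
    show _ = (f x - m - (f y - m)) ^ 2
    ring
  have h2 : En G f = En G f0 := by
    unfold En
    refine Finset.sum_congr rfl fun x _ => Finset.sum_congr rfl fun y _ => ?_
    show _ = if G.Adj x y then (f x - m - (f y - m)) ^ 2 else 0
    congr 1
    ring
  rw [h1, h2, Va_eq, h0]
  have h3 := mul_le_mul_of_nonneg_left (h f0 h0) hN.le
  linarith

theorem shift_le_En (G : SimpleGraph X) (f : X → ℝ) (σ : X → X) (hσ : ∀ x, σ x ≠ x → G.Adj x (σ x)) :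
    ∑ x, (f (σ x) - f x) ^ 2 ≤ En G f := by
  unfold En
  refine Finset.sum_le_sum fun x _ => ?_
  by_cases h : σ x = x
  · rw [h, sub_self]
    have : 0 ≤ ∑ y, (if G.Adj x y then (f x - f y) ^ 2 else 0) :=
      Finset.sum_nonneg fun y _ => by split_ifs <;> positivity
    simpa using this
  · have h1 := Finset.single_le_sum (f := fun y => if G.Adj x y then (f x - f y) ^ 2 else 0)
      (fun y _ => by beta_reduce; split_ifs <;> positivity) (Finset.mem_univ (σ x))
    simp only [if_pos (hσ x h)] at h1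
    refine le_trans (le_of_eq ?_) h1
    ring

theorem degree_transitive {G : SimpleGraph X} (h : VertexTransitive G) (x y : X) :
    G.degree x = G.degree y := by
  obtain ⟨φ, hφ⟩ := h x y
  rw [← hφ]
  have := SimpleGraph.Iso.degree_eq φ x
  rw [← this]

end

/-! ### circulant with jumps -/
section circ
variable (s : ℕ)

/-- the circulant graph on `ZMod (s^4)` with jumps `1, s, s^2, s^3` -/
def circ : SimpleGraph (ZMod (s ^ 4)) where
  Adj x y := x ≠ y ∧ ∃ i : Fin 4, y = x + ((s ^ (i : ℕ) : ℕ) : ZMod (s ^ 4)) ∨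
    x = y + ((s ^ (i : ℕ) : ℕ) : ZMod (s ^ 4))
  symm := ⟨by
    rintro x y ⟨h, i, h1⟩
    exact ⟨h.symm, i, h1.symm⟩⟩
  loopless := ⟨fun x h => h.1 rfl⟩

/-- translation automorphism -/
def circT (t : ZMod (s ^ 4)) : circ s ≃g circ s where
  toEquiv := Equiv.addRight t
  map_rel_iff' := by
    intro x y
    show (x + t ≠ y + t ∧ ∃ i : Fin 4, y + t = x + t + _ ∨ x + t = y + t + _) ↔
      (x ≠ y ∧ ∃ i : Fin 4, y = x + _ ∨ x = y + _)
    have e : ∀ a b c : ZMod (s ^ 4), (a + t = b + t + c ↔ a = b + c) := by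
      intro a b c
      rw [show b + t + c = b + c + t by ring]
      exact add_left_inj t
    simp only [e, ne_eq, add_left_inj]

theorem circ_trans : VertexTransitive (circ s) := fun x y => ⟨circT s (y - x), by
  show x + (y - x) = y
  ring⟩

variable [NeZero (s ^ 4)]

theorem circ_degree (x : ZMod (s ^ 4)) : (circ s).degree x ≤ 8 := by
  rw [← SimpleGraph.card_neighborFinset_eq_degree]
  have h : (circ s).neighborFinset x ⊆
      (Finset.univ : Finset (Fin 4)).image (fun i : Fin 4 => x + ((s ^ (i : ℕ) : ℕ) : ZMod (s ^ 4))) ∪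
      (Finset.univ : Finset (Fin 4)).image (fun i : Fin 4 => x - ((s ^ (i : ℕ) : ℕ) : ZMod (s ^ 4))) := by
    intro y hy
    rw [SimpleGraph.mem_neighborFinset] at hy
    obtain ⟨_, i, h | h⟩ := hy
    · exact Finset.mem_union_left _ (Finset.mem_image.mpr ⟨i, Finset.mem_univ _, h.symm⟩)
    · exact Finset.mem_union_right _ (Finset.mem_image.mpr ⟨i, Finset.mem_univ _, by rw [h]; ring⟩)
  refine (Finset.card_le_card h).trans ((Finset.card_union_le _ _).trans ?_)
  have h1 : ((Finset.univ : Finset (Fin 4)).image (fun i : Fin 4 => x + ((s ^ (i : ℕ) : ℕ) : ZMod (s ^ 4)))).card ≤ 4 :=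
    Finset.card_image_le
  have h2 : ((Finset.univ : Finset (Fin 4)).image (fun i : Fin 4 => x - ((s ^ (i : ℕ) : ℕ) : ZMod (s ^ 4)))).card ≤ 4 :=
    Finset.card_image_le
  omega

/-- squared increment -/
def psi (f : ZMod (s ^ 4) → ℝ) (k : ZMod (s ^ 4)) : ℝ := ∑ x, (f (x + k) - f x) ^ 2

theorem psi_add (f : ZMod (s ^ 4) → ℝ) (a b : ZMod (s ^ 4)) :
    psi s f (a + b) ≤ 2 * psi s f a + 2 * psi s f b := by
  unfold psi
  have h1 : ∑ x, (f (x + (a + b)) - f x) ^ 2 ≤ ∑ x, (2 * (f (x + a) - f x) ^ 2 +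
      2 * (f (x + a + b) - f (x + a)) ^ 2) := by
    refine Finset.sum_le_sum fun x _ => ?_
    rw [show x + (a + b) = x + a + b by ring]
    nlinarith [sq_nonneg ((f (x + a) - f x) - (f (x + a + b) - f (x + a)))]
  rw [Finset.sum_add_distrib, ← Finset.mul_sum, ← Finset.mul_sum] at h1
  have h2 : ∑ x, (f (x + a + b) - f (x + a)) ^ 2 = ∑ x, (f (x + b) - f x) ^ 2 :=
    Equiv.sum_comp (Equiv.addRight a) (fun x => (f (x + b) - f x) ^ 2)
  rw [h2] at h1
  exact h1

theorem psi_mul (f : ZMod (s ^ 4) → ℝ) (a : ZMod (s ^ 4)) (m : ℕ) :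
    psi s f ((m : ZMod (s ^ 4)) * a) ≤ (m : ℝ) ^ 2 * psi s f a := by
  unfold psi
  have h1 : ∀ x, (f (x + (m : ZMod (s ^ 4)) * a) - f x) ^ 2 ≤
      m * ∑ i ∈ Finset.range m, (f (x + (i : ZMod (s ^ 4)) * a + a) - f (x + (i : ZMod (s ^ 4)) * a)) ^ 2 := by
    intro x
    have h2 : f (x + (m : ZMod (s ^ 4)) * a) - f x = ∑ i ∈ Finset.range m,
        (f (x + (i : ZMod (s ^ 4)) * a + a) - f (x + (i : ZMod (s ^ 4)) * a)) := by
      have := Finset.sum_range_sub (fun i : ℕ => f (x + (i : ZMod (s ^ 4)) * a)) m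
      simp only [Nat.cast_zero, zero_mul, add_zero] at this
      rw [← this]
      refine Finset.sum_congr rfl fun i _ => ?_
      congr 2
      push_cast; ring
    rw [h2]
    have := sq_sum_le_card_mul_sum_sq (s := Finset.range m)
      (f := fun i : ℕ => f (x + (i : ZMod (s ^ 4)) * a + a) - f (x + (i : ZMod (s ^ 4)) * a))
    rwa [Finset.card_range] at this
  refine (Finset.sum_le_sum fun x _ => h1 x).trans (le_of_eq ?_)
  rw [← Finset.mul_sum, Finset.sum_comm]
  have h3 : ∀ i ∈ Finset.range m, ∑ x, (f (x + (i : ZMod (s ^ 4)) * a + a) - f (x + (i : ZMod (s ^ 4)) * a)) ^ 2 =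
      ∑ x, (f (x + a) - f x) ^ 2 := fun i _ =>
    Equiv.sum_comp (Equiv.addRight ((i : ZMod (s ^ 4)) * a)) (fun x => (f (x + a) - f x) ^ 2)
  rw [Finset.sum_congr rfl h3, Finset.sum_const, Finset.card_range, nsmul_eq_mul]
  ring

theorem psi_jump (f : ZMod (s ^ 4) → ℝ) (i : Fin 4) :
    psi s f ((s ^ (i : ℕ) : ℕ) : ZMod (s ^ 4)) ≤ En (circ s) f := by
  unfold psi
  refine shift_le_En (circ s) f (fun x => x + ((s ^ (i : ℕ) : ℕ) : ZMod (s ^ 4))) fun x hx => ?_
  exact ⟨hx.symm, i, Or.inl rfl⟩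

theorem circ_PI (hs : 0 < s) : PI (circ s) (1 / (16 * (s:ℝ) ^ 2)) := by
  intro f
  have hE := En_nonneg (circ s) f
  have key : ∀ k : ZMod (s ^ 4), psi s f k ≤ 16 * (s:ℝ) ^ 2 * En (circ s) f := by
    intro k
    have hv := ZMod.val_lt k
    -- digits
    obtain ⟨c0, c1, c2, c3, h0, h1, h2, h3, hk⟩ : ∃ c0 c1 c2 c3 : ℕ, c0 < s ∧ c1 < s ∧ c2 < s ∧ c3 < s ∧
        k.val = c0 + c1 * s + c2 * s ^ 2 + c3 * s ^ 3 := by
      refine ⟨k.val % s, k.val / s % s, k.val / s / s % s, k.val / s / s / s, Nat.mod_lt _ hs,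
        Nat.mod_lt _ hs, Nat.mod_lt _ hs, ?_, ?_⟩
      · rw [Nat.div_lt_iff_lt_mul hs, Nat.div_lt_iff_lt_mul hs, Nat.div_lt_iff_lt_mul hs]
        calc k.val < s ^ 4 := hv
          _ = s * s * s * s := by ring
      · have e1 := Nat.mod_add_div k.val s
        have e2 := Nat.mod_add_div (k.val / s) s
        have e3 := Nat.mod_add_div (k.val / s / s) s
        calc k.val = k.val % s + s * (k.val / s) := e1.symm
          _ = k.val % s + s * (k.val / s % s + s * (k.val / s / s)) := by rw [e2]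
          _ = k.val % s + s * (k.val / s % s + s * (k.val / s / s % s + s * (k.val / s / s / s))) := by
              rw [e3]
          _ = _ := by ring
    have hk' : k = ((c0 : ZMod (s ^ 4)) * ((s ^ 0 : ℕ) : ZMod (s ^ 4)) + (c1 : ZMod (s ^ 4)) * ((s ^ 1 : ℕ) : ZMod (s ^ 4))) +
        ((c2 : ZMod (s ^ 4)) * ((s ^ 2 : ℕ) : ZMod (s ^ 4)) + (c3 : ZMod (s ^ 4)) * ((s ^ 3 : ℕ) : ZMod (s ^ 4))) := by
      rw [← ZMod.natCast_zmod_val k, hk]
      push_cast
      ring
    have hd : ∀ (c : ℕ) (i : Fin 4), c < s → psi s f ((c : ZMod (s ^ 4)) * ((s ^ (i : ℕ) : ℕ) : ZMod (s ^ 4))) ≤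
        (s:ℝ) ^ 2 * En (circ s) f := by
      intro c i hc
      refine (psi_mul s f _ c).trans ?_
      have hc' : (c:ℝ) ≤ s := by exact_mod_cast hc.le
      have := psi_jump s f i
      have hp : 0 ≤ psi s f ((s ^ (i : ℕ) : ℕ) : ZMod (s ^ 4)) := Finset.sum_nonneg fun _ _ => sq_nonneg _
      exact mul_le_mul (pow_le_pow_left₀ (Nat.cast_nonneg _) hc' 2) this hp (by positivity)
    have d0 := hd c0 0 h0
    have d1 := hd c1 1 h1
    have d2 := hd c2 2 h2
    have d3 := hd c3 3 h3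
    simp only [Fin.val_zero, Fin.val_one, Fin.val_two, show ((3 : Fin 4) : ℕ) = 3 from rfl] at d0 d1 d2 d3
    rw [hk']
    have a1 := psi_add s f ((c0 : ZMod (s ^ 4)) * ((s ^ 0 : ℕ) : ZMod (s ^ 4)) + (c1 : ZMod (s ^ 4)) * ((s ^ 1 : ℕ) : ZMod (s ^ 4)))
      ((c2 : ZMod (s ^ 4)) * ((s ^ 2 : ℕ) : ZMod (s ^ 4)) + (c3 : ZMod (s ^ 4)) * ((s ^ 3 : ℕ) : ZMod (s ^ 4)))
    have a2 := psi_add s f ((c0 : ZMod (s ^ 4)) * ((s ^ 0 : ℕ) : ZMod (s ^ 4))) ((c1 : ZMod (s ^ 4)) * ((s ^ 1 : ℕ) : ZMod (s ^ 4)))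
    have a3 := psi_add s f ((c2 : ZMod (s ^ 4)) * ((s ^ 2 : ℕ) : ZMod (s ^ 4))) ((c3 : ZMod (s ^ 4)) * ((s ^ 3 : ℕ) : ZMod (s ^ 4)))
    linarith
  have hVa : Va f = ∑ k, psi s f k := by
    unfold Va psi
    rw [Finset.sum_comm]
    have e1 : ∀ x, ∑ y, (f y - f x) ^ 2 = ∑ k, (f (x + k) - f x) ^ 2 := fun x =>
      (Equiv.sum_comp (Equiv.addLeft x) (fun y => (f y - f x) ^ 2)).symm
    simp only [e1]
    rw [Finset.sum_comm]
  rw [hVa]
  have h1 : ∑ k, psi s f k ≤ Fintype.card (ZMod (s ^ 4)) * (16 * (s:ℝ) ^ 2 * En (circ s) f) := by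
    refine (Finset.sum_le_sum fun k _ => key k).trans (le_of_eq ?_)
    rw [Finset.sum_const, Finset.card_univ, nsmul_eq_mul]
  have hs' : (0:ℝ) < s := by exact_mod_cast hs
  rw [one_div, inv_mul_le_iff₀ (by positivity)]
  refine h1.trans (le_of_eq ?_)
  ring

end circ

/-! ### expander Cayley graphs -/
section cay
variable {P : Type} [Group P] {S : Type} (s : S → P) (hinv : ∀ a, ∃ b, s b = (s a)⁻¹)

/-- left Cayley graph -/
def cay : SimpleGraph P where
  Adj x y := x ≠ y ∧ ∃ a, y = s a * x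
  symm := ⟨by
    rintro x y ⟨h, a, h1⟩
    obtain ⟨b, hb⟩ := hinv a
    exact ⟨h.symm, b, by rw [hb, h1]; group⟩⟩
  loopless := ⟨fun x h => h.1 rfl⟩

/-- right translations are automorphisms -/
def cayT (t : P) : cay s hinv ≃g cay s hinv where
  toEquiv := Equiv.mulRight t
  map_rel_iff' := by
    intro x y
    show (x * t ≠ y * t ∧ ∃ a, y * t = s a * (x * t)) ↔ (x ≠ y ∧ ∃ a, y = s a * x)
    simp only [ne_eq, mul_left_inj, ← mul_assoc]

theorem cay_trans : VertexTransitive (cay s hinv) := fun x y => ⟨cayT s hinv (x⁻¹ * y), by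
  show x * (x⁻¹ * y) = y
  group⟩

variable [Fintype P] [Fintype S]

theorem cay_degree (x : P) : (cay s hinv).degree x ≤ Fintype.card S := by
  rw [← SimpleGraph.card_neighborFinset_eq_degree]
  have h : (cay s hinv).neighborFinset x ⊆ (Finset.univ : Finset S).image (fun a => s a * x) := by
    intro y hy
    rw [SimpleGraph.mem_neighborFinset] at hy
    obtain ⟨_, a, h⟩ := hy
    exact Finset.mem_image.mpr ⟨a, Finset.mem_univ _, h.symm⟩
  exact (Finset.card_le_card h).trans Finset.card_image_le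

theorem cay_PI {lam : ℝ} (hS : 0 < Fintype.card S)
    (hb : ∀ f : P → ℝ, ∑ x, f x = 0 →
      ∑ x, (∑ a, f (s a * x)) ^ 2 ≤ (Fintype.card S : ℝ) ^ 2 * lam * ∑ x, (f x) ^ 2) :
    PI (cay s hinv) ((1 - lam) / 2) := by
  apply PI_of_zero
  intro f hf
  have hN : (0:ℝ) < Fintype.card S := by exact_mod_cast hS
  set N : ℝ := (Fintype.card S : ℝ) with hNdef
  have h1 : ∀ a, ∑ x, (f (s a * x) - f x) ^ 2 ≤ En (cay s hinv) f := fun a =>
    shift_le_En (cay s hinv) f (fun x => s a * x) fun x hx => ⟨hx.symm, a, rfl⟩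
  have h2 : ∑ a, ∑ x, (f (s a * x) - f x) ^ 2 ≤ N * En (cay s hinv) f := by
    refine (Finset.sum_le_sum fun a _ => h1 a).trans (le_of_eq ?_)
    rw [Finset.sum_const, Finset.card_univ, nsmul_eq_mul]
  have h3 : ∑ a, ∑ x, (f (s a * x) - f x) ^ 2 = 2 * N * ip f f - 2 * ∑ x, f x * ∑ a, f (s a * x) := by
    have e1 : ∀ a x, (f (s a * x) - f x) ^ 2 = f (s a * x) * f (s a * x) + f x * f x -
        2 * (f x * f (s a * x)) := fun a x => by ring
    simp only [e1, Finset.sum_sub_distrib, Finset.sum_add_distrib, ← Finset.mul_sum]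
    have e2 : ∀ a, ∑ x, f (s a * x) * f (s a * x) = ∑ x, f x * f x := fun a =>
      Equiv.sum_comp (Equiv.mulLeft (s a)) (fun x => f x * f x)
    simp only [e2, Finset.sum_const, Finset.card_univ, nsmul_eq_mul]
    rw [Finset.sum_comm]
    simp only [← Finset.mul_sum]
    unfold ip
    rw [← hNdef]; ring
  have h4 : 2 * ∑ x, f x * ∑ a, f (s a * x) ≤ N * (1 + lam) * ip f f := by
    have e1 : ∀ x, 2 * (f x * ∑ a, f (s a * x)) ≤ N * (f x * f x) + (1 / N) * (∑ a, f (s a * x)) ^ 2 := by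
      intro x
      have h5 : N * (f x * f x) + (1 / N) * (∑ a, f (s a * x)) ^ 2 - 2 * (f x * ∑ a, f (s a * x)) =
          (1 / N) * (N * f x - ∑ a, f (s a * x)) ^ 2 := by
        field_simp; ring
      have : 0 ≤ (1 / N) * (N * f x - ∑ a, f (s a * x)) ^ 2 := by positivity
      linarith
    have e2 := Finset.sum_le_sum fun x (_ : x ∈ (Finset.univ : Finset P)) => e1 x
    rw [← Finset.mul_sum, Finset.sum_add_distrib, ← Finset.mul_sum, ← Finset.mul_sum] at e2
    have e3 := mul_le_mul_of_nonneg_left (hb f hf) (show 0 ≤ 1 / N by positivity)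
    have e4 : ∑ x, (f x) ^ 2 = ip f f := by
      unfold ip; exact Finset.sum_congr rfl fun x _ => sq _
    have e5 : (1 / N) * (N ^ 2 * lam * ∑ x, (f x) ^ 2) = N * lam * ip f f := by
      rw [e4]; field_simp
    rw [e5] at e3
    have e6 : ∑ x, f x * f x = ip f f := rfl
    rw [e6] at e2
    linarith
  have h5 : N * (2 * ((1 - lam) / 2) * ip f f) ≤ N * En (cay s hinv) f := by
    rw [h3] at h2; linarith
  exact le_of_mul_le_mul_left h5 hN

end cay

/-! ### the expander groups -/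
section exp
open Pool.Agent.K3h39.LT Pool.Agent.H494R3.GT

/-- gap constant -/
noncomputable def gapP : ℝ := (1 - lam0) / 2

theorem gapP_pos : 0 < gapP := by unfold gapP; linarith [lam0_lt]
theorem gapP_le : gapP ≤ 1 / 2 := by unfold gapP; linarith [lam0_pos]

/-- bundled statement: arbitrarily large finite groups with 15 generators, closed under
inverse, with uniform Poincare inequality for the left Cayley graph -/
theorem exists_group (n : ℕ) : ∃ (P : Type) (_ : Group P) (_ : Fintype P) (s : Lb → P)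
    (hinv : ∀ a, ∃ b, s b = (s a)⁻¹), n ≤ Fintype.card P ∧ PI (cay s hinv) gapP ∧
    (cay s hinv).Connected := by
  let _ : Fintype (Gn n) := Fintype.ofFinite _
  let s : Lb → Gn n := fun p => ⟨sh n p.1 p.2, sh_mem n p.1 p.2⟩
  have hinv : ∀ a, ∃ b, s b = (s a)⁻¹ := by
    rintro ⟨i, a⟩
    refine ⟨(i, -a), ?_⟩
    have h1 : s (i, a) * s (i, -a) = 1 := by
      apply Subtype.ext
      show sh n i a * sh n i (-a) = 1
      rw [← sh_add, add_neg_cancel, sh_zero]
    exact (inv_eq_of_mul_eq_one_right h1).symm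
  refine ⟨Gn n, inferInstance, inferInstance, s, hinv, ?_, ?_, ?_⟩
  · have := card_Gn n
    rwa [Nat.card_eq_fintype_card] at this
  · have h : PI (cay s hinv) ((1 - lam0) / 2) := by
      apply cay_PI s hinv (by rw [card_Lb]; norm_num)
      intro f hf
      have h1 := (tri_Gn n).real_bound f hf
      rw [card_Lb]
      push_cast
      refine le_trans h1 (le_of_eq ?_)
      norm_num
    exact h
  · rw [SimpleGraph.connected_iff]
    refine ⟨?_, ⟨1⟩⟩
    have key : ∀ g : Gn n, ∀ x : Gn n, (cay s hinv).Reachable x (g * x) := by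
      intro g
      have hg : g ∈ Subgroup.closure (Set.range fun p : Fin 3 × ZMod 5 => s p) := by
        have := (tri_Gn n).gen
        have e : (Set.range fun p : Fin 3 × ZMod 5 => s p) =
          Set.range fun p : Fin 3 × ZMod 5 => (⟨sh n p.1 p.2, sh_mem n p.1 p.2⟩ : Gn n) := rfl
        rw [e, this]; trivial
      induction hg using Subgroup.closure_induction with
      | mem y hy =>
        obtain ⟨a, rfl⟩ := hy
        intro x
        by_cases h : s a * x = x
        · rw [show (fun p => s p) a * x = x from h]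
        · exact SimpleGraph.Adj.reachable ⟨fun e => h e.symm, a, rfl⟩
      | one => intro x; rw [one_mul]
      | mul y z _ _ hy hz =>
        intro x
        rw [mul_assoc]
        exact (hz x).trans (hy (z * x))
      | inv y _ hy =>
        intro x
        have := hy (y⁻¹ * x)
        rw [mul_inv_cancel_left] at this
        exact this.symm
    intro x y
    have := key (y * x⁻¹) x
    rwa [inv_mul_cancel_right] at this

end exp
end Pool.Agent.J6H46.QI
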