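import Pool.Agent.J6H46.QI.Sys
import Pool.Agent.J6H46.QI.GPrime
import Pool.Agent.J6H46.QI.Spec2

/-!
# The lamp graph
-/

set_option autoImplicit false
set_option linter.unusedSectionVars false
open Classical

namespace Pool.Agent.J6H46.QI

section
variable {n : ℕ} [NeZero n] (b : ZMod n → ZMod 2) {Y : Type} [Fintype Y]

/-- lamp configurations -/
abbrev LA (n : ℕ) (Y : Type) := Y → ZMod n → ZMod 2

theorem stp_stp (η : LA n Y) (z : Y × ZMod n) (ε : Bool) : stp b (stp b η z ε) z ε = η := by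
  unfold stp
  rw [Function.update_self, Function.update_idem, add_add_self, Function.update_eq_self]

theorem stp_add (η ζ : LA n Y) (z : Y × ZMod n) (ε : Bool) : stp b (η + ζ) z ε = stp b η z ε + ζ := by
  unfold stp
  funext y
  by_cases h : y = z.1
  · subst h
    rw [Pi.add_apply, Function.update_self, Pi.add_apply, Function.update_self]
    abel
  · rw [Function.update_of_ne h, Pi.add_apply, Pi.add_apply, Function.update_of_ne h]

theorem stp_ne (hb : ¬ Bad n b) (hn : 200 ≤ n) (η : LA n Y) (z : Y × ZMod n) (ε : Bool) :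
    stp b η z ε ≠ η := by
  intro h
  have h1 := congrFun h z.1
  unfold stp at h1
  rw [Function.update_self] at h1
  exact col_ne b hb hn (z.2, ε) (by
    have := add_eq_left.mp h1
    exact this)

theorem stp_inj (hb : ¬ Bad n b) (hn : 200 ≤ n) (η : LA n Y) (z : Y × ZMod n) {ε ε' : Bool}
    (h : stp b η z ε = stp b η z ε') : ε = ε' := by
  have h1 := congrFun h z.1
  unfold stp at h1
  rw [Function.update_self, Function.update_self] at h1
  have := col_inj b hb hn (add_left_cancel h1)
  exact (Prod.mk.inj this).2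

/-- the lamp graph over a pointer graph -/
def lampG (Γ : SimpleGraph (Y × ZMod n)) (hb : ¬ Bad n b) (hn : 200 ≤ n) :
    SimpleGraph (LA n Y × (Y × ZMod n)) where
  Adj p q := (p.1 = q.1 ∧ Γ.Adj p.2 q.2) ∨ (p.2 = q.2 ∧ ∃ ε, q.1 = stp b p.1 p.2 ε)
  symm := ⟨by
    rintro p q (⟨h1, h2⟩ | ⟨h1, ε, h2⟩)
    · exact Or.inl ⟨h1.symm, h2.symm⟩
    · refine Or.inr ⟨h1.symm, ε, ?_⟩
      rw [h2, ← h1, stp_stp]⟩
  loopless := ⟨by
    rintro p (⟨h1, h2⟩ | ⟨h1, ε, h2⟩)
    · exact Γ.loopless.irrefl _ h2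
    · exact stp_ne b hb hn p.1 p.2 ε h2.symm⟩

variable (Γ : SimpleGraph (Y × ZMod n)) (hb : ¬ Bad n b) (hn : 200 ≤ n)

theorem lamp_sum (F : LA n Y × (Y × ZMod n) → ℝ) (p : LA n Y × (Y × ZMod n)) :
    ∑ q, (if (lampG b Γ hb hn).Adj p q then F q else 0) =
      ∑ z', (if Γ.Adj p.2 z' then F (p.1, z') else 0) + ∑ ε : Bool, F (stp b p.1 p.2 ε, p.2) := by
  obtain ⟨η, z⟩ := p
  have h0 : ∀ q : LA n Y × (Y × ZMod n), (if (lampG b Γ hb hn).Adj (η, z) q then F q else 0) =
      (if q.1 = η then (if Γ.Adj z q.2 then F (η, q.2) else 0) else 0) +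
      ∑ ε : Bool, (if q = (stp b η z ε, z) then F q else 0) := by
    rintro ⟨η', z'⟩
    have hadj : (lampG b Γ hb hn).Adj (η, z) (η', z') ↔ (η = η' ∧ Γ.Adj z z') ∨
      (z = z' ∧ ∃ ε, η' = stp b η z ε) := Iff.rfl
    simp only [hadj, Prod.mk.injEq]
    by_cases hz : z = z'
    · subst hz
      have h1 : ¬ Γ.Adj z z := Γ.loopless.irrefl z
      simp only [h1, and_false, true_and, false_or, if_false, ite_self, zero_add, and_true]
      by_cases he : ∃ ε, η' = stp b η z ε
      · obtain ⟨ε, rfl⟩ := he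
        rw [if_pos ⟨ε, rfl⟩, Finset.sum_eq_single ε]
        · simp
        · intro ε' _ hne
          rw [if_neg]
          intro h; exact hne (stp_inj b hb hn η z h).symm
        · intro h; exact absurd (Finset.mem_univ _) h
      · rw [if_neg he]
        symm
        refine Finset.sum_eq_zero fun ε _ => ?_
        rw [if_neg (fun h => he ⟨ε, h⟩)]
    · have hz' : ¬ z' = z := fun h => hz h.symm
      simp only [hz, hz', false_and, or_false, and_false, if_false, Finset.sum_const_zero, add_zero]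
      by_cases he : η = η'
      · subst he; simp
      · rw [if_neg (fun h => he h.1), if_neg (fun h => he h.symm)]
  simp only [h0, Finset.sum_add_distrib]
  congr 1
  · rw [Fintype.sum_prod_type, Finset.sum_eq_single η]
    · simp
    · intro η' _ hne; simp [hne]
    · intro h; exact absurd (Finset.mem_univ _) h
  · rw [Finset.sum_comm]
    refine Finset.sum_congr rfl fun ε _ => ?_
    rw [Finset.sum_ite_eq']
    simp

theorem lamp_degree (p : LA n Y × (Y × ZMod n)) :
    (lampG b Γ hb hn).degree p = Γ.degree p.2 + 2 := by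
  have h1 := lamp_sum b Γ hb hn (fun _ => 1) p
  have h2 : ∑ q, (if (lampG b Γ hb hn).Adj p q then (1:ℝ) else 0) = (lampG b Γ hb hn).degree p := by
    rw [Finset.sum_boole, ← SimpleGraph.card_neighborFinset_eq_degree,
      SimpleGraph.neighborFinset_eq_filter]
  have h3 : ∑ z', (if Γ.Adj p.2 z' then (1:ℝ) else 0) = Γ.degree p.2 := by
    rw [Finset.sum_boole, ← SimpleGraph.card_neighborFinset_eq_degree,
      SimpleGraph.neighborFinset_eq_filter]
  rw [h2, h3] at h1
  have h4 : ((lampG b Γ hb hn).degree p : ℝ) = ((Γ.degree p.2 + 2 : ℕ) : ℝ) := by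
    rw [h1]; simp
  exact_mod_cast h4

end
end Pool.Agent.J6H46.QI
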