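import Pool.Agent.H521R4.RB.Core2

/-!
# Level dynamics with bounded integer weights: potential and basic bounds
-/

set_option autoImplicit false
open Classical

namespace Pool.Agent.J6H46.QI
open Pool.H521RB

/-- heavy weight -/
noncomputable def Kc : ℝ := 1099511627776
/-- slots of cluster level `i` : `Sc * J i` -/
noncomputable def Sc : ℝ := 34359738368

theorem Kc_pos : (0:ℝ) < Kc := by unfold Kc; norm_num
theorem Sc_pos : (0:ℝ) < Sc := by unfold Sc; norm_num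
theorem Kc_one : (1:ℝ) ≤ Kc := by unfold Kc; norm_num

/-! ### the growth function -/

/-- increments -/
noncomputable def dl (j k : ℕ) : ℝ := if k ≤ 16 * j then 2 ^ k else 2 ^ (32 * j) / 2 ^ k

theorem dl_pos (j k : ℕ) : 0 < dl j k := by unfold dl; split_ifs <;> positivity

theorem dl_le16 (j k : ℕ) : dl j k ≤ 2 ^ (16 * j) := by
  unfold dl
  split_ifs with h
  · exact pow_le_pow_right₀ (by norm_num) h
  · rw [div_le_iff₀ (by positivity), ← pow_add]
    exact pow_le_pow_right₀ (by norm_num) (by omega)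

theorem dl_le2 {j k : ℕ} (h : k < 2 * j) : dl j k ≤ 2 ^ (2 * j) := by
  unfold dl
  rw [if_pos (by omega)]
  exact pow_le_pow_right₀ (by norm_num) (by omega)

theorem dl_zero (j : ℕ) : dl j 0 = 1 := by unfold dl; simp

theorem dl_succ_le (j k : ℕ) : dl j (k + 1) ≤ 2 * dl j k := by
  unfold dl
  split_ifs with h1 h2 h2
  · rw [pow_succ]; linarith
  · omega
  · rw [div_le_iff₀ (by positivity)]
    have : (2:ℝ) * 2 ^ k * 2 ^ (k + 1) = 2 ^ (2 * k + 2) := by
      rw [show 2 * k + 2 = 1 + k + (k + 1) by ring, pow_add, pow_add]; ring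
    rw [this]
    exact pow_le_pow_right₀ (by norm_num) (by omega)
  · rw [pow_succ, mul_div_assoc', div_le_div_iff₀ (by positivity) (by positivity)]
    have : (0:ℝ) ≤ 2 ^ (32 * j) * 2 ^ k := by positivity
    nlinarith

theorem dl_le_succ (j k : ℕ) : dl j k ≤ 2 * dl j (k + 1) := by
  unfold dl
  split_ifs with h1 h2 h2
  · rw [pow_succ]
    have : (0:ℝ) < 2 ^ k := by positivity
    linarith
  · rw [mul_div_assoc', le_div_iff₀ (by positivity), ← pow_add, ← pow_succ']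
    exact pow_le_pow_right₀ (by norm_num) (by omega)
  · omega
  · rw [pow_succ, mul_div_assoc', div_le_div_iff₀ (by positivity) (by positivity)]
    have : (0:ℝ) ≤ 2 ^ (32 * j) * 2 ^ k := by positivity
    nlinarith

/-- the potential of one coordinate -/
noncomputable def FF (j k : ℕ) : ℝ := 1 + ∑ i ∈ Finset.range k, dl j i

theorem FF_zero (j : ℕ) : FF j 0 = 1 := by unfold FF; simp
theorem FF_succ (j k : ℕ) : FF j (k + 1) = FF j k + dl j k := by
  unfold FF; rw [Finset.sum_range_succ]; ring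
theorem FF_mono (j : ℕ) : Monotone (FF j) :=
  monotone_nat_of_le_succ fun k => by rw [FF_succ]; linarith [dl_pos j k]
theorem FF_ge_dl (j k : ℕ) : dl j k ≤ FF j k := by
  induction k with
  | zero => rw [dl_zero, FF_zero]
  | succ k ih => rw [FF_succ]; linarith [dl_succ_le j k]
theorem FF_big {j k : ℕ} (h : 16 * j ≤ k) : 2 ^ (16 * j) ≤ FF j k := by
  refine le_trans ?_ (FF_mono j h)
  refine le_trans ?_ (FF_ge_dl j (16 * j))
  unfold dl; rw [if_pos le_rfl]

/-! ### weights -/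
section
variable {M : ℕ} (J : Fin M → ℕ) (p0 : Ix M)

noncomputable def cK (n : Ix M → ℕ) (i : Fin M) : ℝ :=
  if n (i, false) % 2 = par n i ∧ n (i, true) % 2 = par n i then Kc else 1

noncomputable def rK (n : Ix M → ℕ) (p : Ix M) : ℝ :=
  if n p % 2 = par n p.1 then Kc else 1

/-- target weight -/
noncomputable def oK (n : Ix M → ℕ) (p : Ix M) : ℝ :=
  ∑ i ∈ Finset.Iio p.1, nu J n p.1 i * cK n i + G1 J n p.1 * rK n p

/-- the integer weight of the edge whose upper level vector is `n`, in cluster `p` -/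
noncomputable def wN (n : Ix M → ℕ) (p : Ix M) : ℕ := ⌈oK J n p⌉₊

variable {J p0}

theorem cK_bd (n : Ix M → ℕ) (i : Fin M) : 1 ≤ cK n i ∧ cK n i ≤ Kc := by
  unfold cK; split_ifs <;> unfold Kc <;> norm_num
theorem rK_bd (n : Ix M → ℕ) (p : Ix M) : 1 ≤ rK n p ∧ rK n p ≤ Kc := by
  unfold rK; split_ifs <;> unfold Kc <;> norm_num

theorem oK_bd (hJ : ∀ i, 0 < J i) (n : Ix M → ℕ) (p : Ix M) :
    1 ≤ oK J n p ∧ oK J n p ≤ Kc := by
  have h := sum_nu hJ n p.1
  have hG := G1_nonneg (J := J) n p.1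
  have hG' := G1_le (J := J) n p.1
  have hr := rK_bd n p
  have h1 : ∑ i ∈ Finset.Iio p.1, nu J n p.1 i * cK n i ≤ ∑ i ∈ Finset.Iio p.1, nu J n p.1 i * Kc :=
    Finset.sum_le_sum fun i _ => mul_le_mul_of_nonneg_left (cK_bd n i).2 (nu_nonneg n _ _)
  have h2 : ∑ i ∈ Finset.Iio p.1, nu J n p.1 i * 1 ≤ ∑ i ∈ Finset.Iio p.1, nu J n p.1 i * cK n i :=
    Finset.sum_le_sum fun i _ => mul_le_mul_of_nonneg_left (cK_bd n i).1 (nu_nonneg n _ _)
  rw [← Finset.sum_mul, h] at h1 h2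
  unfold oK
  constructor <;> nlinarith [hr.1, hr.2, Kc_one]

theorem wN_ge (n : Ix M → ℕ) (p : Ix M) : oK J n p ≤ wN J n p := Nat.le_ceil _
theorem wN_le (hJ : ∀ i, 0 < J i) (n : Ix M → ℕ) (p : Ix M) : (wN J n p : ℝ) ≤ oK J n p + 1 := by
  have := Nat.ceil_lt_add_one (show 0 ≤ oK J n p by linarith [(oK_bd hJ n p).1])
  unfold wN; linarith
theorem wN_le' (hJ : ∀ i, 0 < J i) (n : Ix M → ℕ) (p : Ix M) : wN J n p ≤ 1099511627776 := by
  unfold wN
  apply Nat.ceil_le.mpr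
  have := (oK_bd hJ n p).2
  unfold Kc at this
  push_cast; exact this
theorem wN_le'' (hJ : ∀ i, 0 < J i) (n : Ix M → ℕ) (p : Ix M) : (wN J n p : ℝ) ≤ Kc := by
  have := wN_le' hJ n p
  have h : ((wN J n p : ℕ) : ℝ) ≤ ((1099511627776 : ℕ) : ℝ) := by exact_mod_cast this
  unfold Kc; push_cast at h; exact h
theorem wN_pos (hJ : ∀ i, 0 < J i) (n : Ix M → ℕ) (p : Ix M) : 1 ≤ wN J n p := by
  have h : (1:ℝ) ≤ wN J n p := (oK_bd hJ n p).1.trans (wN_ge n p)
  exact_mod_cast h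

theorem wN_pref {n : Ix M → ℕ} {p : Ix M} (h : G1 J n p.1 = 1) : (wN J n p : ℝ) = rK n p := by
  have h1 : oK J n p = rK n p := by
    unfold oK
    rw [h, one_mul]
    have : ∑ i ∈ Finset.Iio p.1, nu J n p.1 i * cK n i = 0 := by
      refine Finset.sum_eq_zero fun i _ => ?_
      unfold nu; rw [h]; ring
    rw [this, zero_add]
  unfold wN
  rw [h1]
  unfold rK Kc
  split_ifs
  · rw [show (1099511627776:ℝ) = ((1099511627776:ℕ):ℝ) by norm_num, Nat.ceil_natCast]
  · simp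

variable (J p0)

noncomputable def XX (n : Ix M → ℕ) : ℝ := n p0 + 28802 * J p0.1

noncomputable def Psi (n : Ix M → ℕ) (i : Fin M) : ℝ :=
  dl (J p0.1) (n p0) * (XX J p0 n * (sg n (i, false) + sg n (i, true))
    + Sc * J p0.1 * (sg n (i, false) * sg n (i, true)))

noncomputable def T1 (n : Ix M → ℕ) (i : Fin M) : ℝ :=
  nu J n p0.1 i / (Sc * J i) * Psi J p0 n i

/-- corrected potential -/
noncomputable def VV (n : Ix M → ℕ) : ℝ :=
  FF (J p0.1) (n p0) + ∑ i ∈ Finset.Iio p0.1, T1 J p0 n i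

/-- contribution of coordinate `p` to the generator -/
noncomputable def Lp (U D : Ix M → ℝ) (f : (Ix M → ℕ) → ℝ) (n : Ix M → ℕ) (p : Ix M) : ℝ :=
  U p * wN J (Function.update n p (n p + 1)) p * (f (Function.update n p (n p + 1)) - f n)
    + D p * wN J n p * (f (Function.update n p (n p - 1)) - f n)

variable {J p0}

theorem XX_nonneg (n : Ix M → ℕ) : 0 ≤ XX J p0 n := by unfold XX; positivity

theorem Psi_bd (hJ : ∀ i, 0 < J i) (n : Ix M → ℕ) (hn : (n p0 : ℝ) ≤ Sc * J p0.1 + 1) (i : Fin M) :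
    0 ≤ Psi J p0 n i ∧ Psi J p0 n i ≤ 4 * Sc * J p0.1 * dl (J p0.1) (n p0) := by
  have hg := dl_pos (J p0.1) (n p0)
  have hX := XX_nonneg (J := J) (p0 := p0) n
  have hJ0 : (1:ℝ) ≤ J p0.1 := by exact_mod_cast hJ p0.1
  have hXY : 2 * XX J p0 n + Sc * J p0.1 ≤ 4 * Sc * J p0.1 := by
    unfold XX; unfold Sc at *; nlinarith
  have hS : 0 ≤ Sc * J p0.1 := by unfold Sc; positivity
  have h2 : XX J p0 n ≤ 4 * Sc * J p0.1 := by linarith
  unfold Psi
  have e1 := mul_le_mul_of_nonneg_left hXY hg.le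
  have e2 := mul_le_mul_of_nonneg_left h2 hg.le
  have e3 := mul_nonneg hg.le hX
  have e4 := mul_nonneg hg.le hS
  rcases sg_cases n (i, false) with h1 | h1 <;> rcases sg_cases n (i, true) with h2 | h2 <;>
    rw [h1, h2] <;> constructor <;> nlinarith

theorem T1_nonneg (hJ : ∀ i, 0 < J i) (n : Ix M → ℕ) (hn : (n p0 : ℝ) ≤ Sc * J p0.1 + 1) (i : Fin M) :
    0 ≤ T1 J p0 n i := by
  have := Sc_pos
  exact mul_nonneg (div_nonneg (nu_nonneg n _ _) (by positivity)) (Psi_bd hJ n hn i).1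

theorem T1_le (hJ : ∀ i, 0 < J i) (n : Ix M → ℕ) (hn : (n p0 : ℝ) ≤ Sc * J p0.1 + 1) (i : Fin M) :
    T1 J p0 n i ≤ 4 * (J p0.1 / J i) * dl (J p0.1) (n p0) := by
  have hJi : (0:ℝ) < J i := by exact_mod_cast hJ i
  have hS := Sc_pos
  unfold T1
  have hP := Psi_bd hJ n hn i
  have hnu : nu J n p0.1 i / (Sc * J i) ≤ 1 / (Sc * J i) := by
    gcongr; exact nu_le n _ _
  have := mul_le_mul hnu hP.2 hP.1 (by positivity)
  refine this.trans (le_of_eq ?_)
  field_simp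

theorem VV_ge (hJ : ∀ i, 0 < J i) (n : Ix M → ℕ) (hn : (n p0 : ℝ) ≤ Sc * J p0.1 + 1) :
    FF (J p0.1) (n p0) ≤ VV J p0 n := by
  unfold VV
  have : 0 ≤ ∑ i ∈ Finset.Iio p0.1, T1 J p0 n i := Finset.sum_nonneg fun i _ => T1_nonneg hJ n hn i
  linarith

/-- coarser moves -/
theorem T1_coarse (hJ : ∀ i, 0 < J i) {n n' : Ix M → ℕ} {p : Ix M} (h : nbr p n n')
    (hn : (n p0 : ℝ) ≤ Sc * J p0.1) (i : Fin M) :
    |T1 J p0 n' i - T1 J p0 n i| ≤ 8 * (J p0.1 / J i) * dl (J p0.1) (n p0) := by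
  have hJi : (0:ℝ) < J i := by exact_mod_cast hJ i
  have hk : n' p0 ≤ n p0 + 1 ∧ n p0 ≤ n' p0 + 1 := by
    by_cases hp : p0 = p
    · rw [hp]; exact h.2
    · rw [h.1 p0 hp]; omega
  have hn' : (n' p0 : ℝ) ≤ Sc * J p0.1 + 1 := by
    have : (n' p0 : ℝ) ≤ n p0 + 1 := by exact_mod_cast hk.1
    linarith
  have a1 := T1_nonneg hJ n (by linarith) i
  have a2 := T1_nonneg hJ n' hn' i
  have b1 := T1_le hJ n (by linarith) i
  have b2 := T1_le hJ n' hn' i
  have hg' : dl (J p0.1) (n' p0) ≤ 2 * dl (J p0.1) (n p0) := by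
    have hd := dl_pos (J p0.1) (n p0)
    rcases (show n' p0 = n p0 ∨ n' p0 = n p0 + 1 ∨ n p0 = n' p0 + 1 by omega) with h | h | h
    · rw [h]; linarith
    · rw [h]; exact dl_succ_le _ _
    · rw [h]; exact dl_le_succ _ _
  have hg := dl_pos (J p0.1) (n p0)
  have hc : (0:ℝ) ≤ J p0.1 / J i := by positivity
  have e1 := mul_le_mul_of_nonneg_left hg' hc
  have e2 := mul_nonneg hc hg.le
  rw [abs_le]
  constructor <;> nlinarith

/-- finer or equal level moves: change of the share times the potential -/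
theorem T1_fine (hJ : ∀ i, 0 < J i) {n n' : Ix M → ℕ} {p : Ix M} (h : nbr p n n')
    (hp : p ≠ p0) (hn : (n p0 : ℝ) ≤ Sc * J p0.1) (i : Fin M) :
    |T1 J p0 n' i - T1 J p0 n i -
      (1 / (Sc * J i)) * (nu J n p0.1 i * (Psi J p0 n' i - Psi J p0 n i))| ≤
      J p0.1 / (2 * J i * J p.1) * dl (J p0.1) (n p0) := by
  have hJi : (0:ℝ) < J i := by exact_mod_cast hJ i
  have hJp : (0:ℝ) < J p.1 := by exact_mod_cast hJ p.1
  have hS := Sc_pos
  have hk : n' p0 = n p0 := h.1 p0 (fun h => hp h.symm)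
  have hP := Psi_bd hJ (p0 := p0) n' (by rw [hk]; linarith) i
  rw [hk] at hP
  have hnu := (nu_nbr hJ h p0.1 i).2
  have e : T1 J p0 n' i - T1 J p0 n i -
      (1 / (Sc * J i)) * (nu J n p0.1 i * (Psi J p0 n' i - Psi J p0 n i)) =
      (1 / (Sc * J i)) * ((nu J n' p0.1 i - nu J n p0.1 i) * Psi J p0 n' i) := by
    unfold T1; ring
  rw [e, abs_mul, abs_mul, abs_of_nonneg hP.1, abs_of_nonneg (show 0 ≤ 1 / (Sc * J i) by positivity)]
  have h3 : |nu J n' p0.1 i - nu J n p0.1 i| * Psi J p0 n' i ≤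
      1 / (8 * J p.1) * (4 * Sc * J p0.1 * dl (J p0.1) (n p0)) :=
    mul_le_mul hnu hP.2 hP.1 (by positivity)
  have h4 := mul_le_mul_of_nonneg_left h3 (show (0:ℝ) ≤ 1 / (Sc * J i) by positivity)
  refine h4.trans (le_of_eq ?_)
  field_simp
  ring

theorem Psi_fine {n n' : Ix M → ℕ} {p : Ix M} (h : nbr p n n')
    (hp : p ≠ p0) {i : Fin M} (hpi : p.1 < i) : Psi J p0 n' i = Psi J p0 n i := by
  have hk : n' p0 = n p0 := h.1 p0 (fun h => hp h.symm)
  have hpar := par_nbr h i hpi.le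
  have hs : ∀ ε, sg n' (i, ε) = sg n (i, ε) := by
    intro ε
    unfold sg
    rw [h.1 (i, ε) (fun hh => absurd hpi (by rw [← hh]; exact lt_irrefl _))]
    simp only
    rw [hpar]
  unfold Psi XX
  rw [hk, hs, hs]

theorem Psi_flip {n n' : Ix M → ℕ} {i : Fin M} {ε : Bool} (h : nbr (i, ε) n n')
    (hi : i < p0.1) (hfl : n' (i, ε) % 2 ≠ n (i, ε) % 2) :
    Psi J p0 n' i - Psi J p0 n i = dl (J p0.1) (n p0) *
      ((XX J p0 n + Sc * J p0.1 * sg n (i, !ε)) * (1 - 2 * sg n (i, ε))) := by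
  have hk : n' p0 = n p0 := h.1 p0 (fun hh => absurd hi (by rw [hh]; exact lt_irrefl _))
  have hpar : par n' i = par n i := par_nbr h i le_rfl
  have ho : sg n' (i, !ε) = sg n (i, !ε) := by
    unfold sg
    rw [h.1 (i, !ε) (by simp)]
    simp only
    rw [hpar]
  have hf : sg n' (i, ε) = 1 - sg n (i, ε) := by
    unfold sg
    simp only
    rw [hpar]
    have hp2 : par n i < 2 := by unfold par; exact Nat.mod_lt _ (by norm_num)
    split_ifs with a b b
    · exact absurd (a.trans b.symm) hfl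
    · norm_num
    · norm_num
    · exfalso; omega
  unfold Psi XX
  rw [hk]
  cases ε
  · simp only [Bool.not_false] at ho ⊢
    rw [ho, hf]; ring
  · simp only [Bool.not_true] at ho ⊢
    rw [ho, hf]; ring

end
end Pool.Agent.J6H46.QI
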