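import Pool.Agent.J6H46.QI.Lev1

/-!
# Drift of the corrected potential
-/

set_option autoImplicit false
open Classical

namespace Pool.Agent.J6H46.QI
open Pool.H521RB

section
variable {M : ℕ} {J : Fin M → ℕ} {p0 : Ix M}

/-- numbers of up and down slots -/
structure Rates (J : Fin M → ℕ) (n : Ix M → ℕ) (U D : Ix M → ℝ) : Prop where
  U0 : ∀ p, 0 ≤ U p
  D0 : ∀ p, 0 ≤ D p
  UD : ∀ p, U p + D p ≤ Sc * J p.1
  Dge : ∀ p, (n p : ℝ) ≤ D p
  Dle : ∀ p, D p ≤ 600 * n p
  Uge : ∀ p, Sc * J p.1 - 600 * n p ≤ U p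

theorem Rates.n_le {n : Ix M → ℕ} {U D : Ix M → ℝ} (R : Rates J n U D) (p : Ix M) :
    (n p : ℝ) ≤ Sc * J p.1 := by
  linarith [R.Dge p, R.U0 p, R.UD p]

/-- error coefficient -/
noncomputable def ee (J : Fin M → ℕ) (p0 : Ix M) (i : Fin M) (p : Ix M) : ℝ :=
  if i < p.1 then Kc * Sc * J p.1 * (8 * (J p0.1 / J i)) else Kc * Sc * J p0.1 / (2 * J i)

theorem ee_nonneg (i : Fin M) (p : Ix M) : 0 ≤ ee J p0 i p := by
  have := Kc_pos
  have := Sc_pos
  unfold ee; split_ifs <;> positivity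

/-- total error coefficient -/
noncomputable def EEt (J : Fin M → ℕ) (p0 : Ix M) : ℝ := ∑ i ∈ Finset.Iio p0.1, ∑ p, ee J p0 i p

theorem Lp_le (hJ : ∀ i, 0 < J i) {U D : Ix M → ℝ} {n : Ix M → ℕ} (R : Rates J n U D) {p : Ix M}
    {f : (Ix M → ℕ) → ℝ} {b : ℝ} (hb : 0 ≤ b)
    (h1 : f (Function.update n p (n p + 1)) - f n ≤ b)
    (h2 : f (Function.update n p (n p - 1)) - f n ≤ b) :
    Lp J U D f n p ≤ Kc * Sc * J p.1 * b := by
  unfold Lp
  have o1 := wN_le'' hJ (Function.update n p (n p + 1)) p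
  have o2 := wN_le'' hJ n p
  have hU := R.U0 p
  have hD := R.D0 p
  have e1 : U p * wN J (Function.update n p (n p + 1)) p * (f (Function.update n p (n p + 1)) - f n)
      ≤ U p * Kc * b := by
    calc _ ≤ U p * wN J (Function.update n p (n p + 1)) p * b :=
          mul_le_mul_of_nonneg_left h1 (mul_nonneg hU (Nat.cast_nonneg _))
      _ ≤ U p * Kc * b :=
          mul_le_mul_of_nonneg_right (mul_le_mul_of_nonneg_left o1 hU) hb
  have e2 : D p * wN J n p * (f (Function.update n p (n p - 1)) - f n) ≤ D p * Kc * b := by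
    calc _ ≤ D p * wN J n p * b :=
          mul_le_mul_of_nonneg_left h2 (mul_nonneg hD (Nat.cast_nonneg _))
      _ ≤ D p * Kc * b :=
          mul_le_mul_of_nonneg_right (mul_le_mul_of_nonneg_left o2 hD) hb
  have e3 := mul_le_mul_of_nonneg_right (R.UD p) (mul_nonneg Kc_pos.le hb)
  nlinarith

theorem Lp_T1_coarse (hJ : ∀ i, 0 < J i) {U D : Ix M → ℝ} {n : Ix M → ℕ} (R : Rates J n U D)
    {p : Ix M} {i : Fin M} (hip : i < p.1) :
    Lp J U D (fun n => T1 J p0 n i) n p ≤ ee J p0 i p * dl (J p0.1) (n p0) := by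
  have hg := dl_pos (J p0.1) (n p0)
  have := Lp_le hJ R (p := p) (f := fun n => T1 J p0 n i)
    (b := 8 * (J p0.1 / J i) * dl (J p0.1) (n p0)) (by positivity)
    (abs_le.mp (T1_coarse hJ (nbr_up p n) (R.n_le p0) i)).2
    (abs_le.mp (T1_coarse hJ (nbr_dn p n) (R.n_le p0) i)).2
  refine this.trans (le_of_eq ?_)
  unfold ee
  rw [if_pos hip]
  ring

theorem Lp_T1_fine (hJ : ∀ i, 0 < J i) {U D : Ix M → ℝ} {n : Ix M → ℕ} (R : Rates J n U D)
    {p : Ix M} {i : Fin M} (hip : p.1 < i) (hi : i < p0.1) :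
    Lp J U D (fun n => T1 J p0 n i) n p ≤ ee J p0 i p * dl (J p0.1) (n p0) := by
  have hJi : (0:ℝ) < J i := by exact_mod_cast hJ i
  have hJp : (0:ℝ) < J p.1 := by exact_mod_cast hJ p.1
  have hg := dl_pos (J p0.1) (n p0)
  have hp : p ≠ p0 := fun h => absurd (hip.trans hi) (by rw [h]; exact lt_irrefl _)
  have k1 := (abs_le.mp (T1_fine hJ (nbr_up p n) hp (R.n_le p0) i)).2
  have k2 := (abs_le.mp (T1_fine hJ (nbr_dn p n) hp (R.n_le p0) i)).2
  rw [Psi_fine (nbr_up p n) hp hip, sub_self, mul_zero, mul_zero, sub_zero] at k1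
  rw [Psi_fine (nbr_dn p n) hp hip, sub_self, mul_zero, mul_zero, sub_zero] at k2
  have := Lp_le hJ R (p := p) (f := fun n => T1 J p0 n i) (by positivity) k1 k2
  refine this.trans (le_of_eq ?_)
  unfold ee
  rw [if_neg (not_lt.mpr hip.le)]
  field_simp

/-- main part of a half of level `i` -/
noncomputable def mainp (J : Fin M → ℕ) (p0 : Ix M) (n : Ix M → ℕ) (i : Fin M) (ε : Bool) : ℝ :=
  nu J n p0.1 i * dl (J p0.1) (n p0) *
    ((XX J p0 n + Sc * J p0.1 * sg n (i, !ε)) * (921601 - (Kc + 1) * sg n (i, ε)))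

theorem Lp_T1_eq (hJ : ∀ i, 0 < J i) {U D : Ix M → ℝ} {n : Ix M → ℕ} (R : Rates J n U D)
    {i : Fin M} {ε : Bool} (hi : i < p0.1) :
    Lp J U D (fun n => T1 J p0 n i) n (i, ε) ≤
      mainp J p0 n i ε + ee J p0 i (i, ε) * dl (J p0.1) (n p0) := by
  have hJi : (0:ℝ) < J i := by exact_mod_cast hJ i
  have hJ0 : (0:ℝ) < J p0.1 := by exact_mod_cast hJ p0.1
  have hg := dl_pos (J p0.1) (n p0)
  have hX := XX_nonneg (J := J) (p0 := p0) n
  have hSp := Sc_pos
  have hKp := Kc_pos
  have hU := R.U0 (i, ε)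
  have hD := R.D0 (i, ε)
  have hp : ((i, ε) : Ix M) ≠ p0 := fun h => absurd hi (by rw [← h]; exact lt_irrefl _)
  have k1 := (abs_le.mp (T1_fine hJ (nbr_up (i, ε) n) hp (R.n_le p0) i)).2
  have k2 := (abs_le.mp (T1_fine hJ (nbr_dn (i, ε) n) hp (R.n_le p0) i)).2
  have hee : ee J p0 i (i, ε) * dl (J p0.1) (n p0) = Kc * Sc * J i *
      (J p0.1 / (2 * J i * J i) * dl (J p0.1) (n p0)) := by
    unfold ee
    rw [if_neg (lt_irrefl _)]
    field_simp
  by_cases hnu : nu J n p0.1 i = 0
  · rw [hnu, zero_mul, mul_zero, sub_zero] at k1 k2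
    have := Lp_le hJ R (f := fun n => T1 J p0 n i) (by positivity) k1 k2
    unfold mainp
    rw [hnu, zero_mul, zero_mul, zero_add, hee]
    exact this
  · have hmu : mu J n i ≠ 0 := fun h => hnu (by unfold nu; rw [h, mul_zero])
    obtain ⟨hG, hn48⟩ := pref_of_mu hJ hmu
    have hn := hn48 ε
    have hDle := R.Dle (i, ε)
    have hUge := R.Uge (i, ε)
    have hUD := R.UD (i, ε)
    simp only at hUge hUD
    have hnu0 := nu_nonneg (J := J) n p0.1 i
    -- weights
    have hG' : G1 J (Function.update n (i, ε) (n (i, ε) + 1)) i = 1 := by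
      rw [(G1_nbr hJ (nbr_up (i, ε) n) i).1 le_rfl]; exact hG
    have o1 : (wN J (Function.update n (i, ε) (n (i, ε) + 1)) (i, ε) : ℝ) =
        rK (Function.update n (i, ε) (n (i, ε) + 1)) (i, ε) := wN_pref hG'
    have o2 : (wN J n (i, ε) : ℝ) = rK n (i, ε) := wN_pref hG
    have hparu : par (Function.update n (i, ε) (n (i, ε) + 1)) i = par n i :=
      par_nbr (nbr_up (i, ε) n) i le_rfl
    have hp2 : par n i < 2 := by unfold par; exact Nat.mod_lt _ (by norm_num)
    have w1 : (wN J (Function.update n (i, ε) (n (i, ε) + 1)) (i, ε) : ℝ) =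
        if sg n (i, ε) = 0 then 1 else Kc := by
      rw [o1]
      unfold rK sg
      simp only [Function.update_self]
      rw [hparu]
      by_cases a : n (i, ε) % 2 = par n i
      · rw [if_pos a, if_neg (by omega)]; simp
      · rw [if_neg a, if_pos (by omega)]; simp
    have w2 : (wN J n (i, ε) : ℝ) = if sg n (i, ε) = 0 then Kc else 1 := by
      rw [o2]
      unfold rK sg
      by_cases a : n (i, ε) % 2 = par n i
      · rw [if_pos a, if_pos a]; simp
      · rw [if_neg a, if_neg a]; simp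
    set b : ℝ := J p0.1 / (2 * J i * J i) * dl (J p0.1) (n p0) with hb
    have hb0 : 0 ≤ b := by positivity
    set A : ℝ := XX J p0 n + Sc * J p0.1 * sg n (i, !ε) with hA
    have hA0 : 0 ≤ A := by
      have : 0 ≤ sg n (i, !ε) := by rcases sg_cases n (i, !ε) with h | h <;> rw [h]; norm_num
      positivity
    have f1 := Psi_flip (J := J) (p0 := p0) (nbr_up (i, ε) n) hi (by
      simp only [Function.update_self]; omega)
    rw [f1, ← hA] at k1
    have hcoef : (0:ℝ) ≤ nu J n p0.1 i * dl (J p0.1) (n p0) * A := by positivity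
    -- the down move: either `n (i, ε) = 0` and `D = 0`, or the parity flips
    have kd : D (i, ε) * wN J n (i, ε) *
        (T1 J p0 (Function.update n (i, ε) (n (i, ε) - 1)) i - T1 J p0 n i) ≤
        D (i, ε) * wN J n (i, ε) * ((1 / (Sc * J i)) *
          (nu J n p0.1 i * (dl (J p0.1) (n p0) * (A * (1 - 2 * sg n (i, ε))))) + b) := by
      by_cases h0 : n (i, ε) = 0
      · have hD0 : D (i, ε) = 0 := by
          rw [h0] at hDle; push_cast at hDle; linarith
        rw [hD0]; simp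
      · have f2 := Psi_flip (J := J) (p0 := p0) (nbr_dn (i, ε) n) hi (by
          simp only [Function.update_self]; omega)
        rw [f2, ← hA] at k2
        refine mul_le_mul_of_nonneg_left (by linarith) (mul_nonneg hD (Nat.cast_nonneg _))
    have ku : U (i, ε) * wN J (Function.update n (i, ε) (n (i, ε) + 1)) (i, ε) *
        (T1 J p0 (Function.update n (i, ε) (n (i, ε) + 1)) i - T1 J p0 n i) ≤
        U (i, ε) * wN J (Function.update n (i, ε) (n (i, ε) + 1)) (i, ε) * ((1 / (Sc * J i)) *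
          (nu J n p0.1 i * (dl (J p0.1) (n p0) * (A * (1 - 2 * sg n (i, ε))))) + b) := by
      refine mul_le_mul_of_nonneg_left (by linarith) (mul_nonneg hU (Nat.cast_nonneg _))
    have hR : U (i, ε) * wN J (Function.update n (i, ε) (n (i, ε) + 1)) (i, ε) +
        D (i, ε) * wN J n (i, ε) ≤ Kc * Sc * J i := by
      have a1 := wN_le'' hJ (Function.update n (i, ε) (n (i, ε) + 1)) (i, ε)
      have a2 := wN_le'' hJ n (i, ε)
      have b1 := mul_le_mul_of_nonneg_left a1 hU
      have b2 := mul_le_mul_of_nonneg_left a2 hD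
      have b3 := mul_le_mul_of_nonneg_right hUD hKp.le
      linarith
    have hmain : (U (i, ε) * wN J (Function.update n (i, ε) (n (i, ε) + 1)) (i, ε) +
        D (i, ε) * wN J n (i, ε)) * (1 / (Sc * J i)) * (1 - 2 * sg n (i, ε)) ≤
        921601 - (Kc + 1) * sg n (i, ε) := by
      rw [w1, w2]
      rcases sg_cases n (i, ε) with h | h
      · rw [h]
        simp only [if_true]
        rw [mul_zero, sub_zero, mul_one, mul_zero, sub_zero, mul_one_div, div_le_iff₀ (by positivity)]
        unfold Kc Sc at *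
        linarith
      · rw [h]
        simp only [one_ne_zero, if_false]
        rw [show (1:ℝ) - 2 * 1 = -1 by norm_num, mul_neg_one, mul_one_div, neg_le,
          le_div_iff₀ (by positivity)]
        unfold Kc Sc at *
        linarith
    unfold Lp
    rw [hee]
    unfold mainp
    rw [← hA]
    have hfin : (U (i, ε) * wN J (Function.update n (i, ε) (n (i, ε) + 1)) (i, ε) +
        D (i, ε) * wN J n (i, ε)) * (1 / (Sc * J i)) * (1 - 2 * sg n (i, ε)) *
          (nu J n p0.1 i * dl (J p0.1) (n p0) * A) ≤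
        (921601 - (Kc + 1) * sg n (i, ε)) * (nu J n p0.1 i * dl (J p0.1) (n p0) * A) :=
      mul_le_mul_of_nonneg_right hmain hcoef
    have hRb := mul_le_mul_of_nonneg_right hR hb0
    linarith [ku, kd, hfin, hRb]

theorem Lp_VV (U D : Ix M → ℝ) (n : Ix M → ℕ) (p : Ix M) :
    Lp J U D (VV J p0) n p = Lp J U D (fun n => FF (J p0.1) (n p0)) n p +
      ∑ i ∈ Finset.Iio p0.1, Lp J U D (fun n => T1 J p0 n i) n p := by
  unfold Lp VV
  rw [Finset.sum_add_distrib, ← Finset.mul_sum, ← Finset.mul_sum, Finset.sum_sub_distrib,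
    Finset.sum_sub_distrib]
  ring

theorem Lp_F_ne (U D : Ix M → ℝ) (n : Ix M → ℕ) {p : Ix M} (hp : p ≠ p0) :
    Lp J U D (fun n => FF (J p0.1) (n p0)) n p = 0 := by
  unfold Lp
  simp only
  rw [Function.update_of_ne (Ne.symm hp), Function.update_of_ne (Ne.symm hp)]
  ring

theorem Lp_F (hJ : ∀ i, 0 < J i) {U D : Ix M → ℝ} {n : Ix M → ℕ} (R : Rates J n U D) :
    Lp J U D (fun n => FF (J p0.1) (n p0)) n p0 ≤ dl (J p0.1) (n p0) *
      (∑ i ∈ Finset.Iio p0.1, nu J n p0.1 i * (2 * Sc * J p0.1 +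
        Kc * Sc * J p0.1 * (sg n (i, false) * sg n (i, true)) -
        Kc / 2 * n p0 * (1 - (sg n (i, false) + sg n (i, true)))) +
        (Kc + 1) * Sc * J p0.1 * G1 J n p0.1) := by
  have hJ0 : (0:ℝ) < J p0.1 := by exact_mod_cast hJ p0.1
  have hU := R.U0 p0
  have hD := R.D0 p0
  have hDge := R.Dge p0
  have hDle := R.Dle p0
  have hUD := R.UD p0
  have hg := dl_pos (J p0.1) (n p0)
  have hn0 : (0:ℝ) ≤ n p0 := Nat.cast_nonneg _
  have hSp := Sc_pos
  have hKp := Kc_pos
  -- upper bound for the up weight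
  have hom1 : (wN J (Function.update n p0 (n p0 + 1)) p0 : ℝ) ≤
      ∑ i ∈ Finset.Iio p0.1, nu J n p0.1 i * (2 + Kc * (sg n (i, false) * sg n (i, true)))
        + (Kc + 1) * G1 J n p0.1 := by
    have h0 := wN_le hJ (Function.update n p0 (n p0 + 1)) p0
    have hs := sum_nu hJ n p0.1
    have h1 : oK J (Function.update n p0 (n p0 + 1)) p0 ≤
      ∑ i ∈ Finset.Iio p0.1, nu J n p0.1 i * (1 + Kc * (sg n (i, false) * sg n (i, true)))
        + Kc * G1 J n p0.1 := by
      unfold oK
      rw [(G1_nbr hJ (nbr_up p0 n) p0.1).1 le_rfl]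
      have h2 : G1 J n p0.1 * rK (Function.update n p0 (n p0 + 1)) p0 ≤ Kc * G1 J n p0.1 := by
        have := G1_nonneg (J := J) n p0.1
        nlinarith [(rK_bd (Function.update n p0 (n p0 + 1)) p0).2]
      refine add_le_add (Finset.sum_le_sum fun i hi => ?_) h2
      have hi' : i < p0.1 := Finset.mem_Iio.mp hi
      rw [(nu_nbr hJ (nbr_up p0 n) p0.1 i).1 le_rfl hi']
      refine mul_le_mul_of_nonneg_left ?_ (nu_nonneg n _ _)
      have hne : ∀ ε, ((i, ε) : Ix M) ≠ p0 := fun ε h => absurd hi' (by rw [← h]; exact lt_irrefl _)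
      have hp2 : par n i < 2 := by unfold par; exact Nat.mod_lt _ (by norm_num)
      unfold cK sg
      rw [Function.update_of_ne (hne false), Function.update_of_ne (hne true), par_up p0 n i hi']
      simp only
      by_cases a : n (i, false) % 2 = par n i
      · rw [if_pos a, if_neg (by omega)]; norm_num
      · by_cases b : n (i, true) % 2 = par n i
        · rw [if_pos b, if_neg a, if_neg (by omega)]; norm_num
        · rw [if_neg a, if_neg b]
          split_ifs <;> linarith
    have h3 : ∑ i ∈ Finset.Iio p0.1, nu J n p0.1 i * (2 + Kc * (sg n (i, false) * sg n (i, true))) =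
        ∑ i ∈ Finset.Iio p0.1, nu J n p0.1 i * (1 + Kc * (sg n (i, false) * sg n (i, true))) +
        (1 - G1 J n p0.1) := by
      rw [← hs, ← Finset.sum_add_distrib]
      exact Finset.sum_congr rfl fun i _ => by ring
    rw [h3]
    linarith
  -- lower bound for the down weight
  have hom2 : ∑ i ∈ Finset.Iio p0.1, nu J n p0.1 i *
      (Kc * (1 - (sg n (i, false) + sg n (i, true)))) ≤ wN J n p0 := by
    refine le_trans ?_ (wN_ge n p0)
    unfold oK
    have h2 : 0 ≤ G1 J n p0.1 * rK n p0 :=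
      mul_nonneg (G1_nonneg n _) (by linarith [(rK_bd n p0).1])
    have h3 : ∑ i ∈ Finset.Iio p0.1, nu J n p0.1 i *
      (Kc * (1 - (sg n (i, false) + sg n (i, true)))) ≤
        ∑ i ∈ Finset.Iio p0.1, nu J n p0.1 i * cK n i := by
      refine Finset.sum_le_sum fun i hi => ?_
      refine mul_le_mul_of_nonneg_left ?_ (nu_nonneg n _ _)
      unfold cK sg
      simp only
      by_cases a : n (i, false) % 2 = par n i <;> by_cases b : n (i, true) % 2 = par n i <;>
        simp [a, b] <;> linarith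
    linarith
  unfold Lp
  simp only [Function.update_self]
  rw [FF_succ, add_sub_cancel_left]
  have hup : U p0 * wN J (Function.update n p0 (n p0 + 1)) p0 * dl (J p0.1) (n p0) ≤
      dl (J p0.1) (n p0) * (Sc * J p0.1 *
      (∑ i ∈ Finset.Iio p0.1, nu J n p0.1 i * (2 + Kc * (sg n (i, false) * sg n (i, true)))
        + (Kc + 1) * G1 J n p0.1)) := by
    have ho : (0:ℝ) ≤ wN J (Function.update n p0 (n p0 + 1)) p0 := Nat.cast_nonneg _
    have a0 : U p0 ≤ Sc * J p0.1 := by linarith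
    have a1 := mul_le_mul_of_nonneg_right a0 ho
    have a2 := mul_le_mul_of_nonneg_left hom1 (show (0:ℝ) ≤ Sc * J p0.1 by positivity)
    have a3 := mul_le_mul_of_nonneg_left (a1.trans a2) hg.le
    linarith
  have hdn : D p0 * wN J n p0 * (FF (J p0.1) (n p0 - 1) - FF (J p0.1) (n p0)) ≤
      dl (J p0.1) (n p0) * (-(1/2) * (n p0 * ∑ i ∈ Finset.Iio p0.1, nu J n p0.1 i *
      (Kc * (1 - (sg n (i, false) + sg n (i, true)))))) := by
    rcases Nat.eq_zero_or_pos (n p0) with h0 | h0
    · rw [h0]; simp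
    · obtain ⟨m, hm⟩ : ∃ m, n p0 = m + 1 := ⟨n p0 - 1, by omega⟩
      have h1 : FF (J p0.1) (n p0 - 1) - FF (J p0.1) (n p0) = - dl (J p0.1) m := by
        rw [hm, Nat.add_sub_cancel, FF_succ]; ring
      have h2 : dl (J p0.1) (n p0) ≤ 2 * dl (J p0.1) m := by rw [hm]; exact dl_succ_le _ _
      rw [h1]
      have hw : (0:ℝ) ≤ wN J n p0 := Nat.cast_nonneg _
      have a4 : (n p0 : ℝ) * ∑ i ∈ Finset.Iio p0.1, nu J n p0.1 i *
        (Kc * (1 - (sg n (i, false) + sg n (i, true)))) ≤ D p0 * wN J n p0 :=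
        (mul_le_mul_of_nonneg_left hom2 hn0).trans (mul_le_mul_of_nonneg_right hDge hw)
      have a5 := mul_le_mul_of_nonneg_left a4 hg.le
      have a6 := mul_le_mul_of_nonneg_left h2 (mul_nonneg hD hw)
      linarith
  refine (add_le_add hup hdn).trans (le_of_eq ?_)
  rw [← mul_add]
  congr 1
  rw [mul_add, Finset.mul_sum, Finset.mul_sum, Finset.mul_sum]
  have : ∀ A B C : ℝ, A + C + B = (A + B) + C := fun A B C => by ring
  rw [this, ← Finset.sum_add_distrib]
  congr 1
  · refine Finset.sum_congr rfl fun i _ => ?_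
    ring
  · ring

theorem sum_T1 (hJ : ∀ i, 0 < J i) {U D : Ix M → ℝ} {n : Ix M → ℕ} (R : Rates J n U D)
    {i : Fin M} (hi : i < p0.1) :
    ∑ p, Lp J U D (fun n => T1 J p0 n i) n p ≤
      (mainp J p0 n i false + mainp J p0 n i true) + (∑ p, ee J p0 i p) * dl (J p0.1) (n p0) := by
  have h1 : ∀ p : Ix M, Lp J U D (fun n => T1 J p0 n i) n p ≤
      (if p = (i, false) then mainp J p0 n i false else 0) +
      (if p = (i, true) then mainp J p0 n i true else 0) + ee J p0 i p * dl (J p0.1) (n p0) := by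
    intro p
    rcases lt_trichotomy i p.1 with h | h | h
    · have := Lp_T1_coarse (J := J) (p0 := p0) (n := n) hJ R h
      rw [if_neg (by rintro rfl; exact absurd h (lt_irrefl _)),
        if_neg (by rintro rfl; exact absurd h (lt_irrefl _))]
      linarith
    · obtain ⟨a, ε⟩ := p
      simp only at h
      subst h
      have := Lp_T1_eq (J := J) (p0 := p0) (n := n) (ε := ε) hJ R hi
      cases ε
      · simpa using this
      · simpa using this
    · have := Lp_T1_fine (J := J) (p0 := p0) (n := n) hJ R h hi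
      rw [if_neg (by rintro rfl; exact absurd h (lt_irrefl _)),
        if_neg (by rintro rfl; exact absurd h (lt_irrefl _))]
      linarith
  refine (Finset.sum_le_sum fun p _ => h1 p).trans (le_of_eq ?_)
  rw [Finset.sum_add_distrib, Finset.sum_add_distrib, ← Finset.sum_mul]
  simp

theorem drift (hJ : ∀ i, 0 < J i) {U D : Ix M → ℝ} {n : Ix M → ℕ} (R : Rates J n U D) :
    ∑ p, Lp J U D (VV J p0) n p ≤ dl (J p0.1) (n p0) *
      ((1 - G1 J n p0.1) * (137438953472 * J p0.1 - Kc / 4 * n p0) +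
        (Kc + 1) * Sc * J p0.1 * G1 J n p0.1 + EEt J p0) := by
  have hg := dl_pos (J p0.1) (n p0)
  have hJ0 : (1:ℝ) ≤ J p0.1 := by exact_mod_cast hJ p0.1
  have hn0 : (0:ℝ) ≤ n p0 := Nat.cast_nonneg _
  rw [Finset.sum_congr rfl fun p _ => Lp_VV U D n p, Finset.sum_add_distrib, Finset.sum_comm]
  have h1 : ∑ p, Lp J U D (fun n => FF (J p0.1) (n p0)) n p =
      Lp J U D (fun n => FF (J p0.1) (n p0)) n p0 :=
    Finset.sum_eq_single p0 (fun p _ hp => Lp_F_ne U D n hp) (by simp)
  rw [h1]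
  have h2 := Lp_F (p0 := p0) hJ R
  have h3 := Finset.sum_le_sum fun i (hi : i ∈ Finset.Iio p0.1) =>
    sum_T1 (J := J) (p0 := p0) (n := n) hJ R (Finset.mem_Iio.mp hi)
  refine (add_le_add h2 h3).trans ?_
  rw [Finset.sum_add_distrib, ← Finset.sum_mul]
  have h4 : dl (J p0.1) (n p0) * (∑ i ∈ Finset.Iio p0.1, nu J n p0.1 i * (2 * Sc * J p0.1 +
        Kc * Sc * J p0.1 * (sg n (i, false) * sg n (i, true)) -
        Kc / 2 * n p0 * (1 - (sg n (i, false) + sg n (i, true))))) +
      ∑ i ∈ Finset.Iio p0.1, (mainp J p0 n i false + mainp J p0 n i true) ≤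
      dl (J p0.1) (n p0) * ((1 - G1 J n p0.1) * (137438953472 * J p0.1 - Kc / 4 * n p0)) := by
    rw [← sum_nu hJ n p0.1, Finset.sum_mul, Finset.mul_sum, Finset.mul_sum, ← Finset.sum_add_distrib]
    refine Finset.sum_le_sum fun i _ => ?_
    have hnu := nu_nonneg (J := J) n p0.1 i
    unfold mainp XX
    simp only [Bool.not_false, Bool.not_true]
    have key : (2 * Sc * (J p0.1 : ℝ) +
        Kc * Sc * J p0.1 * (sg n (i, false) * sg n (i, true)) -
        Kc / 2 * n p0 * (1 - (sg n (i, false) + sg n (i, true)))) +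
        (((n p0 : ℝ) + 28802 * J p0.1 + Sc * J p0.1 * sg n (i, true)) *
          (921601 - (Kc + 1) * sg n (i, false))) +
        (((n p0 : ℝ) + 28802 * J p0.1 + Sc * J p0.1 * sg n (i, false)) *
          (921601 - (Kc + 1) * sg n (i, true))) ≤ 137438953472 * J p0.1 - Kc / 4 * n p0 := by
      unfold Kc Sc
      rcases sg_cases n (i, false) with a | a <;> rcases sg_cases n (i, true) with b | b <;>
        rw [a, b] <;> nlinarith
    have := mul_le_mul_of_nonneg_left key (mul_nonneg hnu hg.le)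
    linarith
  unfold EEt
  nlinarith [h4]

end
end Pool.Agent.J6H46.QI
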