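import Pool.Agent.J6H46.QI.Lev2

/-!
# Pointwise bounds for the corrected potential, and the final drift bounds
-/

set_option autoImplicit false
open Classical

namespace Pool.Agent.J6H46.QI
open Pool.H521RB

section
variable {M : ℕ} {J : Fin M → ℕ} {p0 : Ix M}

/-- separation of scales -/
noncomputable def rho (M : ℕ) : ℝ := 1152921504606846976 * (M:ℝ) ^ 2
noncomputable def tau (M : ℕ) : ℝ := 1 / (144115188075855872 * (M:ℝ))

/-- `J` is well separated -/
structure Sep (J : Fin M → ℕ) : Prop where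
  M0 : 0 < M
  J0 : ∀ i, 0 < J i
  sep : ∀ i s : Fin M, i < s → rho M * J s ≤ J i

variable (J p0) in
/-- size of the effect of a move in cluster `p` relative to the growth function -/
noncomputable def ss (n : Ix M → ℕ) (p : Ix M) : ℝ :=
  if p = p0 then 3 else if p0.1 ≤ p.1 then tau M else
    (J p0.1 / J p.1) * (4 * nu J n p0.1 p.1 + tau M)

theorem rho_tau {M : ℕ} (hM : 0 < M) : 8 * (M:ℝ) / rho M = tau M := by
  have : (0:ℝ) < M := by exact_mod_cast hM
  unfold rho tau
  rw [div_eq_div_iff (by positivity) (by positivity)]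
  ring

theorem rho_pos {M : ℕ} (hM : 0 < M) : 0 < rho M := by
  have : (0:ℝ) < M := by exact_mod_cast hM
  unfold rho; positivity
theorem tau_pos {M : ℕ} (hM : 0 < M) : 0 < tau M := by
  have : (0:ℝ) < M := by exact_mod_cast hM
  unfold tau; positivity

theorem Sep.ratio (hS : Sep J) {i s : Fin M} (h : i < s) : (J s : ℝ) / J i ≤ 1 / rho M := by
  have h1 := hS.sep i s h
  have h2 := rho_pos hS.M0
  have h3 : (0:ℝ) < J i := by exact_mod_cast hS.J0 i
  rw [div_le_div_iff₀ h3 h2]; linarith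

theorem Sep.inv (hS : Sep J) {i s : Fin M} (h : i < s) : (1:ℝ) / J i ≤ 1 / rho M := by
  have h1 := hS.ratio h
  have h3 : (0:ℝ) < J i := by exact_mod_cast hS.J0 i
  have h4 : (1:ℝ) ≤ J s := by exact_mod_cast hS.J0 s
  refine le_trans ?_ h1
  gcongr

theorem Sep.mono (hS : Sep J) {i s : Fin M} (h : i ≤ s) : (J s : ℝ) ≤ J i := by
  rcases h.eq_or_lt with h | h
  · rw [h]
  · have h1 := hS.sep i s h
    have hM : (1:ℝ) ≤ M := by exact_mod_cast hS.M0
    have h2 : 1 ≤ rho M := by unfold rho; nlinarith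
    have h3 : (0:ℝ) ≤ J s := Nat.cast_nonneg _
    nlinarith

theorem EEt_le (hS : Sep J) : EEt J p0 ≤ Sc * J p0.1 / 2 := by
  have hM : (1:ℝ) ≤ M := by exact_mod_cast hS.M0
  have hρ := rho_pos hS.M0
  have hKp := Kc_pos
  have hSp := Sc_pos
  have hee : ∀ i ∈ Finset.Iio p0.1, ∀ p : Ix M, ee J p0 i p ≤ 8 * Kc * Sc * J p0.1 / rho M := by
    intro i hi p
    have hi' : i < p0.1 := Finset.mem_Iio.mp hi
    have hJi : (0:ℝ) < J i := by exact_mod_cast hS.J0 i
    unfold ee
    split_ifs with h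
    · have h1 := hS.ratio h
      have h2 : Kc * Sc * J p.1 * (8 * (J p0.1 / J i)) = 8 * Kc * Sc * J p0.1 * (J p.1 / J i) := by
        field_simp
      have h4 : 8 * Kc * Sc * (J p0.1 : ℝ) / rho M = 8 * Kc * Sc * J p0.1 * (1 / rho M) := by
        ring
      rw [h2, h4]
      have h3 : (0:ℝ) ≤ 8 * Kc * Sc * J p0.1 := by positivity
      exact mul_le_mul_of_nonneg_left h1 h3
    · have h1 := hS.inv hi'
      have h2 : Kc * Sc * (J p0.1 : ℝ) / (2 * J i) = (1/2) * (Kc * Sc * J p0.1) * (1 / J i) := by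
        field_simp
      have h4 : 8 * Kc * Sc * (J p0.1 : ℝ) / rho M = 8 * (Kc * Sc * J p0.1) * (1 / rho M) := by
        ring
      rw [h2, h4]
      have h3 : (0:ℝ) ≤ Kc * Sc * J p0.1 := by positivity
      have h5 := mul_le_mul_of_nonneg_left h1 h3
      have h6 : 0 ≤ Kc * Sc * (J p0.1 : ℝ) * (1 / rho M) := by positivity
      linarith
  unfold EEt
  have h1 : ∑ i ∈ Finset.Iio p0.1, ∑ p, ee J p0 i p ≤
      ∑ _i ∈ Finset.Iio p0.1, ∑ _p : Ix M, 8 * Kc * Sc * J p0.1 / rho M :=
    Finset.sum_le_sum fun i hi => Finset.sum_le_sum fun p _ => hee i hi p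
  refine h1.trans ?_
  simp only [Finset.sum_const, Finset.card_univ, nsmul_eq_mul, Fintype.card_prod,
    Fintype.card_fin, Fintype.card_bool]
  have h2 : ((Finset.Iio p0.1).card : ℝ) ≤ M := by
    have := Finset.card_le_univ (Finset.Iio p0.1)
    rw [Fintype.card_fin] at this
    exact_mod_cast this
  push_cast
  have h3 : ((Finset.Iio p0.1).card : ℝ) * ((M:ℝ) * 2 * (8 * Kc * Sc * J p0.1 / rho M)) ≤
      (M:ℝ) * ((M:ℝ) * 2 * (8 * Kc * Sc * J p0.1 / rho M)) :=
    mul_le_mul_of_nonneg_right h2 (by positivity)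
  refine h3.trans ?_
  have h4 : (M:ℝ) * ((M:ℝ) * 2 * (8 * Kc * Sc * J p0.1 / rho M)) = Sc * J p0.1 / 65536 := by
    unfold rho Kc
    have : (M:ℝ) ≠ 0 := by positivity
    field_simp
    ring
  rw [h4]
  have : (0:ℝ) ≤ Sc * J p0.1 := by positivity
  linarith

theorem ss_nonneg (hS : Sep J) (n : Ix M → ℕ) (p : Ix M) : 0 ≤ ss J p0 n p := by
  have := tau_pos hS.M0
  have := nu_nonneg (J := J) n p0.1 p.1
  unfold ss
  split_ifs <;> positivity

theorem nbr_p0 {p : Ix M} {n n' : Ix M → ℕ} (h : nbr p n n') :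
    n' p0 = n p0 ∨ n' p0 = n p0 + 1 ∨ n p0 = n' p0 + 1 := by
  by_cases hp : p0 = p
  · rw [hp]; have := h.2; omega
  · rw [h.1 p0 hp]; omega

theorem dl_nbr {p : Ix M} {n n' : Ix M → ℕ} (h : nbr p n n') :
    dl (J p0.1) (n' p0) ≤ 2 * dl (J p0.1) (n p0) := by
  have hd := dl_pos (J p0.1) (n p0)
  rcases nbr_p0 (p0 := p0) h with h | h | h
  · rw [h]; linarith
  · rw [h]; exact dl_succ_le _ _
  · rw [h]; exact dl_le_succ _ _

theorem ss_nbr (hS : Sep J) {p : Ix M} {n n' : Ix M → ℕ} (h : nbr p n n') (q : Ix M) :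
    ss J p0 n' q ≤ 2 * ss J p0 n q := by
  have ht := tau_pos hS.M0
  have hJq : (0:ℝ) < J q.1 := by exact_mod_cast hS.J0 q.1
  unfold ss
  split_ifs with h1 h2
  · norm_num
  · linarith
  · have h3 : nu J n' p0.1 q.1 ≤ nu J n p0.1 q.1 + tau M / 4 := by
      rcases le_or_gt p0.1 p.1 with hp | hp
      · rw [(nu_nbr hS.J0 h p0.1 q.1).1 hp ((not_le.mp h2).trans_le hp)]
        linarith
      · have e1 := (abs_le.mp (nu_nbr hS.J0 h p0.1 q.1).2).2
        have e2 := hS.inv hp
        have e3 : (1:ℝ) / (8 * J p.1) = (1/8) * (1 / J p.1) := by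
          rw [one_div_mul_one_div]
        have e4 : 1 / rho M ≤ 2 * tau M := by
          have hM : (1:ℝ) ≤ M := by exact_mod_cast hS.M0
          rw [← rho_tau hS.M0]
          have := rho_pos hS.M0
          rw [mul_div_assoc']
          gcongr
          linarith
        linarith
    have h4 := nu_nonneg (J := J) n p0.1 q.1
    have h5 : (0:ℝ) ≤ J p0.1 / J q.1 := by positivity
    nlinarith [mul_le_mul_of_nonneg_left h3 h5, mul_nonneg h5 h4, mul_nonneg h5 ht.le]

theorem ss_sum (hS : Sep J) (n : Ix M → ℕ) :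
    ∑ p, Sc * J p.1 * ss J p0 n p ≤ 12 * (Sc * J p0.1) := by
  have ht := tau_pos hS.M0
  have hSp := Sc_pos
  have hM : (1:ℝ) ≤ M := by exact_mod_cast hS.M0
  have hJ0 : (0:ℝ) < J p0.1 := by exact_mod_cast hS.J0 p0.1
  have h1 : ∀ p : Ix M, Sc * J p.1 * ss J p0 n p ≤ Sc * J p0.1 *
      ((if p = p0 then 3 else 0) + tau M + (if p.1 < p0.1 then 4 * nu J n p0.1 p.1 else 0)) := by
    intro p
    have hJp : (0:ℝ) < J p.1 := by exact_mod_cast hS.J0 p.1
    unfold ss
    by_cases h : p = p0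
    · subst h
      simp only [if_true, lt_irrefl, if_false]
      have : (0:ℝ) ≤ Sc * J p.1 * tau M := by positivity
      linarith
    · rw [if_neg h, if_neg h]
      by_cases h2 : p0.1 ≤ p.1
      · rw [if_pos h2, if_neg (not_lt.mpr h2)]
        have := hS.mono h2
        have h3 : Sc * J p.1 * tau M ≤ Sc * J p0.1 * tau M := by gcongr
        linarith
      · rw [if_neg h2, if_pos (not_le.mp h2)]
        refine le_of_eq ?_
        field_simp
        ring
  refine (Finset.sum_le_sum fun p _ => h1 p).trans ?_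
  rw [← Finset.mul_sum, Finset.sum_add_distrib, Finset.sum_add_distrib, Finset.sum_ite_eq']
  have h2 : ∑ p : Ix M, (if p.1 < p0.1 then 4 * nu J n p0.1 p.1 else 0) ≤ 8 := by
    rw [Fintype.sum_prod_type]
    simp only [Fintype.univ_bool, Finset.sum_const]
    have e1 : ∀ i : Fin M, (({true, false} : Finset Bool).card • (if i < p0.1 then 4 * nu J n p0.1 i else 0)) =
        if i ∈ Finset.Iio p0.1 then 8 * nu J n p0.1 i else 0 := by
      intro i
      simp only [Finset.mem_Iio]
      have : ({true, false} : Finset Bool).card = 2 := by decide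
      rw [this]
      split_ifs <;> simp <;> ring
    rw [Finset.sum_congr rfl fun i _ => e1 i, Finset.sum_ite_mem, Finset.univ_inter, ← Finset.mul_sum,
      sum_nu hS.J0]
    linarith [G1_nonneg (J := J) n p0.1]
  have h3 : ∑ _p : Ix M, tau M ≤ 1 := by
    simp only [Finset.sum_const, Finset.card_univ, nsmul_eq_mul, Fintype.card_prod,
      Fintype.card_fin, Fintype.card_bool]
    push_cast
    unfold tau
    rw [mul_one_div, div_le_one (by positivity)]
    nlinarith
  have h4 : (0:ℝ) ≤ Sc * J p0.1 := by positivity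
  have h5 : (if p0 ∈ Finset.univ then (3:ℝ) else 0) = 3 := by simp
  rw [h5]
  nlinarith

theorem VV_move (hS : Sep J) {p : Ix M} {n n' : Ix M → ℕ} (h : nbr p n n')
    (hn : (n p0 : ℝ) ≤ Sc * J p0.1) :
    |VV J p0 n' - VV J p0 n| ≤ dl (J p0.1) (n p0) * ss J p0 n p := by
  have ht := tau_pos hS.M0
  have hg := dl_pos (J p0.1) (n p0)
  have hM : (1:ℝ) ≤ M := by exact_mod_cast hS.M0
  have hρ := rho_pos hS.M0
  have hJ0 : (0:ℝ) < J p0.1 := by exact_mod_cast hS.J0 p0.1
  have hcard : ((Finset.Iio p0.1).card : ℝ) ≤ M := by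
    have := Finset.card_le_univ (Finset.Iio p0.1)
    rw [Fintype.card_fin] at this
    exact_mod_cast this
  have e0 : VV J p0 n' - VV J p0 n = (FF (J p0.1) (n' p0) - FF (J p0.1) (n p0)) +
      ∑ i ∈ Finset.Iio p0.1, (T1 J p0 n' i - T1 J p0 n i) := by
    unfold VV; rw [Finset.sum_sub_distrib]; ring
  have e1 : |VV J p0 n' - VV J p0 n| ≤ |FF (J p0.1) (n' p0) - FF (J p0.1) (n p0)| +
      ∑ i ∈ Finset.Iio p0.1, |T1 J p0 n' i - T1 J p0 n i| := by
    rw [e0]
    exact (abs_add_le _ _).trans (add_le_add le_rfl (Finset.abs_sum_le_sum_abs _ _))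
  by_cases hlt : p = p0 ∨ p0.1 ≤ p.1
  · -- coarse terms only
    have hco : ∑ i ∈ Finset.Iio p0.1, |T1 J p0 n' i - T1 J p0 n i| ≤
        tau M * dl (J p0.1) (n p0) := by
      have : ∀ i ∈ Finset.Iio p0.1, |T1 J p0 n' i - T1 J p0 n i| ≤ 8 / rho M * dl (J p0.1) (n p0) := by
        intro i hi
        have h1 := T1_coarse hS.J0 h hn i
        have h2 := hS.ratio (Finset.mem_Iio.mp hi)
        refine h1.trans ?_
        have : 8 / rho M = 8 * (1 / rho M) := by ring
        rw [this]
        gcongr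
      refine (Finset.sum_le_sum this).trans ?_
      rw [Finset.sum_const, nsmul_eq_mul, ← rho_tau hS.M0]
      have h3 : (0:ℝ) ≤ 8 / rho M * dl (J p0.1) (n p0) := by positivity
      have h4 := mul_le_mul_of_nonneg_right hcard h3
      refine h4.trans (le_of_eq ?_)
      ring
    by_cases hp : p = p0
    · have hs : ss J p0 n p = 3 := by unfold ss; rw [if_pos hp]
      have hF : |FF (J p0.1) (n' p0) - FF (J p0.1) (n p0)| ≤ 2 * dl (J p0.1) (n p0) := by
        rcases nbr_p0 (p0 := p0) h with h1 | h1 | h1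
        · rw [h1, sub_self, abs_zero]; positivity
        · rw [h1, FF_succ, add_sub_cancel_left, abs_of_pos hg]; linarith
        · rw [h1, FF_succ, abs_sub_comm, add_sub_cancel_left, abs_of_pos (dl_pos _ _)]
          exact dl_le_succ _ _
      have hτ : tau M ≤ 1 := by
        unfold tau
        rw [div_le_one (by positivity)]; nlinarith
      rw [hs]
      nlinarith
    · have hp' : p0.1 ≤ p.1 := by tauto
      have hs : ss J p0 n p = tau M := by unfold ss; rw [if_neg hp, if_pos hp']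
      have hk : n' p0 = n p0 := h.1 p0 (fun h => hp h.symm)
      rw [hk, sub_self, abs_zero, zero_add] at e1
      rw [hs]
      linarith
  · push Not at hlt
    obtain ⟨hp, hj⟩ := hlt
    have hs : ss J p0 n p = (J p0.1 / J p.1) * (4 * nu J n p0.1 p.1 + tau M) := by
      unfold ss; rw [if_neg hp, if_neg (not_le.mpr hj)]
    have hk : n' p0 = n p0 := h.1 p0 (fun h => hp h.symm)
    have hJj : (0:ℝ) < J p.1 := by exact_mod_cast hS.J0 p.1
    have hSp := Sc_pos
    rw [hk, sub_self, abs_zero, zero_add] at e1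
    have key : ∀ i ∈ Finset.Iio p0.1, |T1 J p0 n' i - T1 J p0 n i| ≤
        (J p0.1 / J p.1) * dl (J p0.1) (n p0) *
          (8 / rho M + (if i = p.1 then 4 * nu J n p0.1 i else 0)) := by
      intro i hi
      have hi' := Finset.mem_Iio.mp hi
      have hJi : (0:ℝ) < J i := by exact_mod_cast hS.J0 i
      rcases lt_trichotomy i p.1 with hip | hip | hip
      · have h1 := T1_coarse hS.J0 h hn i
        have h2 := hS.ratio hip
        rw [if_neg (ne_of_lt hip), add_zero]
        refine h1.trans ?_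
        have e2 : 8 * ((J p0.1 : ℝ) / J i) * dl (J p0.1) (n p0) =
            (J p0.1 / J p.1) * dl (J p0.1) (n p0) * (8 * (J p.1 / J i)) := by
          field_simp
        have e3 : 8 / rho M = 8 * (1 / rho M) := by ring
        rw [e2, e3]
        gcongr
      · rw [if_pos hip]
        have h1 := T1_fine hS.J0 h hp hn i
        have hPn := Psi_bd hS.J0 (p0 := p0) n (by linarith) i
        have hPn' := Psi_bd hS.J0 (p0 := p0) n' (by rw [hk]; linarith) i
        rw [hk] at hPn'
        have hΔ : |Psi J p0 n' i - Psi J p0 n i| ≤ 4 * Sc * J p0.1 * dl (J p0.1) (n p0) := by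
          rw [abs_le]; constructor <;> linarith [hPn.1, hPn.2, hPn'.1, hPn'.2]
        have hnu0 := nu_nonneg (J := J) n p0.1 i
        have h2 : |(1 / (Sc * J i)) * (nu J n p0.1 i * (Psi J p0 n' i - Psi J p0 n i))| ≤
            (1 / (Sc * J i)) * (nu J n p0.1 i * (4 * Sc * J p0.1 * dl (J p0.1) (n p0))) := by
          rw [abs_mul, abs_mul, abs_of_nonneg hnu0, abs_of_nonneg (show 0 ≤ 1 / (Sc * J i) by positivity)]
          gcongr
        have h3 : |T1 J p0 n' i - T1 J p0 n i| ≤ J p0.1 / (2 * J i * J p.1) * dl (J p0.1) (n p0) +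
            (1 / (Sc * J i)) * (nu J n p0.1 i * (4 * Sc * J p0.1 * dl (J p0.1) (n p0))) := by
          have := abs_add_le (T1 J p0 n' i - T1 J p0 n i -
            (1 / (Sc * J i)) * (nu J n p0.1 i * (Psi J p0 n' i - Psi J p0 n i)))
            ((1 / (Sc * J i)) * (nu J n p0.1 i * (Psi J p0 n' i - Psi J p0 n i)))
          rw [sub_add_cancel] at this
          linarith
        refine h3.trans ?_
        have h4 := hS.inv hi'
        have e2 : (J p0.1 : ℝ) / (2 * J i * J p.1) * dl (J p0.1) (n p0) =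
            (J p0.1 / J p.1) * dl (J p0.1) (n p0) * ((1/2) * (1 / J i)) := by
          field_simp
        have e3 : (1 / (Sc * J i)) * (nu J n p0.1 i * (4 * Sc * J p0.1 * dl (J p0.1) (n p0))) =
            (J p0.1 / J p.1) * dl (J p0.1) (n p0) * (4 * nu J n p0.1 i) := by
          rw [← hip]
          field_simp
        have e4 : (1/2) * (1 / (J i : ℝ)) ≤ 8 / rho M := by
          have e5 : 8 / rho M = 8 * (1 / rho M) := by ring
          rw [e5]
          have : (0:ℝ) < 1 / rho M := by positivity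
          linarith
        rw [e2, e3, ← mul_add]
        gcongr
      · have h1 := T1_fine hS.J0 h hp hn i
        rw [Psi_fine h hp hip, sub_self, mul_zero, mul_zero, sub_zero] at h1
        rw [if_neg (ne_of_gt hip), add_zero]
        refine h1.trans ?_
        have h4 := hS.inv hi'
        have e2 : (J p0.1 : ℝ) / (2 * J i * J p.1) * dl (J p0.1) (n p0) =
            (J p0.1 / J p.1) * dl (J p0.1) (n p0) * ((1/2) * (1 / J i)) := by
          field_simp
        rw [e2]
        gcongr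
        have e5 : 8 / rho M = 8 * (1 / rho M) := by ring
        rw [e5]
        have : (0:ℝ) < 1 / rho M := by positivity
        linarith
    refine e1.trans ((Finset.sum_le_sum key).trans ?_)
    rw [← Finset.mul_sum, Finset.sum_add_distrib, Finset.sum_const, nsmul_eq_mul,
      Finset.sum_ite_eq', if_pos (Finset.mem_Iio.mpr hj), hs, ← rho_tau hS.M0]
    have h3 : ((Finset.Iio p0.1).card : ℝ) * (8 / rho M) ≤ 8 * M / rho M := by
      have := mul_le_mul_of_nonneg_right hcard (show (0:ℝ) ≤ 8 / rho M by positivity)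
      refine this.trans (le_of_eq ?_)
      ring
    have h4 : (0:ℝ) ≤ (J p0.1 / J p.1) * dl (J p0.1) (n p0) := by positivity
    have h5 := mul_le_mul_of_nonneg_left h3 h4
    linarith

/-- final drift bounds: `E1` is the extra error -/
theorem drift_ctrl (hS : Sep J) {U D : Ix M → ℝ} {n : Ix M → ℕ} (R : Rates J n U D) :
    ∑ p, Lp J U D (VV J p0) n p + dl (J p0.1) (n p0) * (Sc * J p0.1 / 2) ≤
      274877906944 * J p0.1 * 2 ^ (2 * J p0.1) +
      (Kc + 13) * Sc * J p0.1 * 2 ^ (16 * J p0.1) * G1 J n p0.1 := by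
  have hg := dl_pos (J p0.1) (n p0)
  have hJ0 : (1:ℝ) ≤ J p0.1 := by exact_mod_cast hS.J0 p0.1
  have hn0 : (0:ℝ) ≤ n p0 := Nat.cast_nonneg _
  have hG0 := G1_nonneg (J := J) n p0.1
  have hG1 := G1_le (J := J) n p0.1
  have hE := EEt_le (p0 := p0) hS
  have hd := drift (p0 := p0) hS.J0 R
  have hK := Kc_pos
  have hSc := Sc_pos
  have h0 : ∑ p, Lp J U D (VV J p0) n p + dl (J p0.1) (n p0) * (Sc * J p0.1 / 2) ≤
      dl (J p0.1) (n p0) *
      ((1 - G1 J n p0.1) * (137438953472 * J p0.1 - Kc / 4 * n p0) +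
        (Kc + 1) * Sc * J p0.1 * G1 J n p0.1 + Sc * J p0.1) := by
    nlinarith
  refine h0.trans ?_
  have hg16 := dl_le16 (J p0.1) (n p0)
  by_cases h2 : n p0 < 2 * J p0.1
  · have hg2 := dl_le2 h2
    have h3 : (1 - G1 J n p0.1) * (137438953472 * J p0.1 - Kc / 4 * n p0) +
        (Kc + 1) * Sc * J p0.1 * G1 J n p0.1 + Sc * J p0.1 ≤
        274877906944 * J p0.1 + (Kc + 13) * Sc * J p0.1 * G1 J n p0.1 := by
      have e1 : (1 - G1 J n p0.1) * (137438953472 * J p0.1 - Kc / 4 * n p0) ≤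
          137438953472 * J p0.1 := by
        have : 0 ≤ (1 - G1 J n p0.1) * (Kc / 4 * n p0) := by
          have : 0 ≤ 1 - G1 J n p0.1 := by linarith
          positivity
        nlinarith
      have e2 : Sc * (J p0.1 : ℝ) ≤ 137438953472 * J p0.1 := by
        unfold Sc; linarith
      have e3 : 0 ≤ Sc * (J p0.1 : ℝ) * G1 J n p0.1 := by positivity
      linarith
    have h4 := mul_le_mul_of_nonneg_left h3 hg.le
    have h5 : dl (J p0.1) (n p0) * (274877906944 * J p0.1) ≤ 2 ^ (2 * J p0.1) * (274877906944 * J p0.1) :=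
      mul_le_mul_of_nonneg_right hg2 (by positivity)
    have h6 : dl (J p0.1) (n p0) * ((Kc + 13) * Sc * J p0.1 * G1 J n p0.1) ≤
        2 ^ (16 * J p0.1) * ((Kc + 13) * Sc * J p0.1 * G1 J n p0.1) :=
      mul_le_mul_of_nonneg_right hg16 (by positivity)
    linarith
  · have h2' : (2 * J p0.1 : ℝ) ≤ n p0 := by exact_mod_cast not_lt.mp h2
    have h3 : (1 - G1 J n p0.1) * (137438953472 * J p0.1 - Kc / 4 * n p0) +
        (Kc + 1) * Sc * J p0.1 * G1 J n p0.1 + Sc * J p0.1 ≤
        (Kc + 13) * Sc * J p0.1 * G1 J n p0.1 := by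
      have e1 : (1 - G1 J n p0.1) * (137438953472 * J p0.1 - Kc / 4 * n p0) ≤
          (1 - G1 J n p0.1) * (-(12 * Sc * J p0.1)) := by
        refine mul_le_mul_of_nonneg_left ?_ (by linarith)
        unfold Kc Sc
        linarith
      have e2 : (0:ℝ) ≤ Sc * J p0.1 := by positivity
      linarith
    have h4 := mul_le_mul_of_nonneg_left h3 hg.le
    have h6 : dl (J p0.1) (n p0) * ((Kc + 13) * Sc * J p0.1 * G1 J n p0.1) ≤
        2 ^ (16 * J p0.1) * ((Kc + 13) * Sc * J p0.1 * G1 J n p0.1) :=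
      mul_le_mul_of_nonneg_right hg16 (by positivity)
    have h7 : (0:ℝ) ≤ 274877906944 * J p0.1 * 2 ^ (2 * J p0.1) := by positivity
    linarith

theorem drift_crude (hS : Sep J) {U D : Ix M → ℝ} {n : Ix M → ℕ} (R : Rates J n U D) :
    ∑ p, Lp J U D (VV J p0) n p + dl (J p0.1) (n p0) * (Sc * J p0.1 / 2) ≤
      (Kc + 6) * Sc * J p0.1 * VV J p0 n := by
  have hg := dl_pos (J p0.1) (n p0)
  have hJ0 : (1:ℝ) ≤ J p0.1 := by exact_mod_cast hS.J0 p0.1
  have hn0 : (0:ℝ) ≤ n p0 := Nat.cast_nonneg _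
  have hG0 := G1_nonneg (J := J) n p0.1
  have hG1 := G1_le (J := J) n p0.1
  have hE := EEt_le (p0 := p0) hS
  have hd := drift (p0 := p0) hS.J0 R
  have hK := Kc_pos
  have hSc := Sc_pos
  have h0 : ∑ p, Lp J U D (VV J p0) n p + dl (J p0.1) (n p0) * (Sc * J p0.1 / 2) ≤
      dl (J p0.1) (n p0) *
      ((1 - G1 J n p0.1) * (137438953472 * J p0.1 - Kc / 4 * n p0) +
        (Kc + 1) * Sc * J p0.1 * G1 J n p0.1 + Sc * J p0.1) := by
    nlinarith
  have hV : dl (J p0.1) (n p0) ≤ VV J p0 n :=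
    (FF_ge_dl _ _).trans (VV_ge hS.J0 n (by linarith [R.n_le p0]))
  refine h0.trans ?_
  have h3 : (1 - G1 J n p0.1) * (137438953472 * J p0.1 - Kc / 4 * n p0) +
        (Kc + 1) * Sc * J p0.1 * G1 J n p0.1 + Sc * J p0.1 ≤ (Kc + 6) * Sc * J p0.1 := by
    have e1 : (1 - G1 J n p0.1) * (137438953472 * J p0.1 - Kc / 4 * n p0) ≤
        4 * Sc * J p0.1 := by
      have : 0 ≤ (1 - G1 J n p0.1) * (Kc / 4 * n p0) := by
        have : 0 ≤ 1 - G1 J n p0.1 := by linarith
        positivity
      unfold Sc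
      nlinarith
    have e2 : (Kc + 1) * Sc * J p0.1 * G1 J n p0.1 ≤ (Kc + 1) * Sc * J p0.1 * 1 :=
      mul_le_mul_of_nonneg_left hG1 (by positivity)
    nlinarith
  have h4 := mul_le_mul_of_nonneg_left h3 hg.le
  have h5 := mul_le_mul_of_nonneg_right hV (show 0 ≤ (Kc + 6) * Sc * J p0.1 by positivity)
  linarith

/-- control of the share by coarser potentials -/
theorem G1_bound (hS : Sep J) (n : Ix M → ℕ) (hn : ∀ p, (n p : ℝ) ≤ Sc * J p.1) {s i : Fin M} (hi : i < s) :
    G1 J n s ≤ (1 / 2 ^ (16 * J i)) * (VV J (i, false) n + VV J (i, true) n) := by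
  have hJ := hS.J0
  have k1 := VV_ge hJ (p0 := (i, false)) n (by linarith [hn (i, false)])
  have k2 := VV_ge hJ (p0 := (i, true)) n (by linarith [hn (i, true)])
  simp only at k1 k2
  have f1 : 0 < FF (J i) (n (i, false)) := (dl_pos _ _).trans_le (FF_ge_dl _ _)
  have f2 : 0 < FF (J i) (n (i, true)) := (dl_pos _ _).trans_le (FF_ge_dl _ _)
  by_cases h : g1 J n i = 0
  · have : G1 J n s = 0 := Finset.prod_eq_zero (Finset.mem_Iio.mpr hi) h
    rw [this]
    have : 0 ≤ VV J (i, false) n + VV J (i, true) n := by linarith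
    positivity
  · have h1 := gt_of_g1_ne_zero hJ h
    have h1' : 16 * J i < NN n i := by exact_mod_cast h1
    refine (G1_le n s).trans ?_
    rw [one_div, ← div_eq_inv_mul, le_div_iff₀ (by positivity), one_mul]
    unfold NN at h1'
    rcases lt_max_iff.mp h1' with h2 | h2
    · have := FF_big h2.le
      linarith
    · have := FF_big h2.le
      linarith

end
end Pool.Agent.J6H46.QI
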