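import Pool.Agent.J6H46.QI.Geom2

/-!
# Lower bound for the mixing time of the blow-up
-/

set_option autoImplicit false
set_option linter.unusedSectionVars false
open Classical

namespace Pool.Agent.J6H46.QI
open Pool.H521RB

section
variable {M : ℕ} {J : Fin M → ℕ} {n : ℕ} [NeZero n] (b : ZMod n → ZMod 2) {Y : Type} [Fintype Y]
  (blk : Y → Option (Ix M)) (Γ : SimpleGraph (Y × ZMod n)) (hb : ¬ Bad n b) (hn : 200 ≤ n)
  (hk : ∀ p : Ix M, 2 * (n:ℝ) * ((Bk blk p).card : ℝ) = Sc * J p.1)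

theorem lower (hS : Sep J) (hJ20 : ∀ i, M + 20 ≤ J i) {W D m : ℕ} [NeZero m]
    (hw : Wgt (wgt b blk Γ hb hn hk W) D m) (hY : Nonempty Y) {T : ℕ} {Λ ε : ℝ}
    (hP : Par (SY b blk hb hn hk) (lapQ Γ (W / (2 * (D:ℝ)))) (1 / (2 * (D:ℝ))) T Λ ε)
    (hd : ∀ η z, (1 / (2 * (D:ℝ))) * ∑ ε : Bool, ((SY b blk hb hn hk).wt η z ε : ℝ) ≤
      lapQ Γ (W / (2 * (D:ℝ))) z z)
    (hbig : ∀ i, (1 / (2 * (D:ℝ))) / Fintype.card (Y × ZMod n) * 151115727451828646838272 * J i ≤ 1)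
    (p0 : Ix M) (hp0 : (p0.1 : ℕ) + 1 = M) (hm' : (2 ^ 34 : ℕ) * J p0.1 = n * (Bk blk p0).card)
    {t : ℕ} (hmix : Mixed (GP hw) t) :
    (M:ℝ) < t * (151115727451828646838272 * ((1 / (2 * (D:ℝ))) / Fintype.card (Y × ZMod n))) := by
  by_contra hcon
  have hcon' := not_lt.mp hcon
  obtain ⟨y0⟩ := hY
  have hloc := (SY b blk hb hn hk).localized hS hJ20 hP hd 0 (y0, 0)
    (by
      funext p
      show ∑ y ∈ Bk blk p, wl b ((0 : LA n Y) y) = 0
      refine Finset.sum_eq_zero fun y _ => ?_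
      show wl b 0 = 0
      exact wl_zero b)
    hbig t hcon' p0 hp0
  let f : LA n Y × (Y × ZMod n) → ℝ := fun q => if 16 * J p0.1 ≤ lvl b blk q.1 p0 then 1 else 0
  have : Nonempty (LA n Y × (Y × ZMod n)) := ⟨(0, (y0, 0))⟩
  have h1 := mixed_lower hw hmix f (fun v => by
    show 0 ≤ (if _ then (1:ℝ) else 0)
    split_ifs <;> norm_num) (0, (y0, 0))
  rw [RR_iter] at h1
  have h2 : (3 / 4) * ((∑ u, f u) / Fintype.card (LA n Y × (Y × ZMod n))) ≤ 1 / 10 := h1.trans hloc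
  have hlow := low_small b blk p0 (J p0.1) hm' (hS.J0 p0.1)
  have hA : (0:ℝ) < Fintype.card (LA n Y) := by
    have : 0 < Fintype.card (LA n Y) := Fintype.card_pos
    exact_mod_cast this
  have hX : (0:ℝ) < Fintype.card (Y × ZMod n) := by
    have : 0 < Fintype.card (Y × ZMod n) := Fintype.card_pos_iff.mpr ⟨(y0, 0)⟩
    exact_mod_cast this
  have hsum : ∑ u, f u = Fintype.card (Y × ZMod n) * (Fintype.card (LA n Y) -
      ((Finset.univ.filter fun η : LA n Y => lvl b blk η p0 < 16 * J p0.1).card : ℝ)) := by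
    rw [Fintype.sum_prod_type]
    have h3 : ∀ η : LA n Y, ∑ z : Y × ZMod n, f (η, z) = Fintype.card (Y × ZMod n) *
        (1 - (if lvl b blk η p0 < 16 * J p0.1 then (1:ℝ) else 0)) := by
      intro η
      show ∑ z : Y × ZMod n, (if 16 * J p0.1 ≤ lvl b blk η p0 then (1:ℝ) else 0) = _
      rw [Finset.sum_const, Finset.card_univ, nsmul_eq_mul]
      congr 1
      by_cases h : 16 * J p0.1 ≤ lvl b blk η p0
      · rw [if_pos h, if_neg (not_lt.mpr h)]; norm_num
      · rw [if_neg h, if_pos (not_le.mp h)]; norm_num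
    simp only [h3]
    rw [← Finset.mul_sum, Finset.sum_sub_distrib, Finset.sum_boole, Finset.sum_const, Finset.card_univ,
      nsmul_eq_mul, mul_one]
  have hcW : (Fintype.card (LA n Y × (Y × ZMod n)) : ℝ) =
      Fintype.card (LA n Y) * Fintype.card (Y × ZMod n) := by
    rw [Fintype.card_prod (LA n Y), Nat.cast_mul]
  rw [hsum, hcW] at h2
  have h4 : (3 / 4 : ℝ) * (9 / 10) ≤ 1 / 10 := by
    refine le_trans ?_ h2
    refine mul_le_mul_of_nonneg_left ?_ (by norm_num)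
    rw [le_div_iff₀ (by positivity)]
    have h5 : (9 / 10 : ℝ) * Fintype.card (LA n Y) ≤ Fintype.card (LA n Y) -
      ((Finset.univ.filter fun η : LA n Y => lvl b blk η p0 < 16 * J p0.1).card : ℝ) := by linarith
    have h6 := mul_le_mul_of_nonneg_left h5 hX.le
    linarith
  norm_num at h4

end
end Pool.Agent.J6H46.QI
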