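import Pool.Agent.J6H46.QI.Core

/-!
# The sequence of pairs of graphs
-/

set_option autoImplicit false
set_option linter.unusedSectionVars false
open Classical

namespace Pool.Agent.J6H46.QI
open Pool.H521RB Pool.Agent.K3h39.LT

theorem core_P {j : ℕ} (hj : 100 ≤ j) {P : Type} [Fintype P] (H : SimpleGraph P)
    (hHc : H.Connected) (hHt : VertexTransitive H) (hHd : ∀ x, H.degree x ≤ 15) (hHP : PI H gapP)
    (hP1 : Fintype.card P ≤ 2 ^ (2 ^ (4 * j))) (hP2 : 2 ^ (2 ^ (4 * (j - 1))) < Fintype.card P)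
    (hjg : 1 / (16 * ((2:ℝ) ^ j) ^ 2) ≤ gapP / 2)
    {C : ℝ} (hC0 : 0 ≤ C) (hC : 2 ^ 100 * C ≤ 2 ^ j) : ∃ dX, dX ≤ 38 ∧ Good dX C := by
  have hN0 : 0 < Fintype.card P := lt_of_le_of_lt (Nat.zero_le _) hP2
  obtain ⟨x0⟩ := Fintype.card_pos_iff.mp hN0
  have hn : (2 ^ j) ^ 4 = 2 ^ (4 * j) := by rw [← pow_mul]; congr 1; ring
  have : NeZero ((2 ^ j) ^ 4) := ⟨by positivity⟩
  obtain ⟨b, hb⟩ := exists_good' ((2 ^ j) ^ 4) (4 * j) hn (by omega)
  have hn200 : 200 ≤ (2 ^ j) ^ 4 := by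
    rw [hn]
    calc 200 ≤ 2 ^ 8 := by norm_num
      _ ≤ 2 ^ (4 * j) := Nat.pow_le_pow_right (by norm_num) (by omega)
  obtain ⟨K, hK⟩ : ∃ K : SimpleGraph (ZMod ((2 ^ j) ^ 4)), K = circ (2 ^ j) := ⟨_, rfl⟩
  have hKcon : K.Connected := by rw [hK]; exact circ_connected _
  have hKs : ∀ c0 x y : ZMod ((2 ^ j) ^ 4), K.Adj (x + c0) (y + c0) ↔ K.Adj x y := by
    rw [hK]; exact circ_shift _
  have hKt : VertexTransitive K := by rw [hK]; exact circ_trans _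
  have hKd : ∀ x, K.degree x ≤ 8 := by
    intro x
    subst hK
    exact circ_degree _ x
  have hKP : PI K (1 / (16 * ((2:ℝ) ^ j) ^ 2)) := by
    rw [hK]
    have := circ_PI (2 ^ j) (by positivity)
    push_cast at this
    exact this
  obtain ⟨HH, hHH⟩ : ∃ HH : SimpleGraph (P × P), HH = H □ H := ⟨_, rfl⟩
  obtain ⟨Γ, hΓ⟩ : ∃ Γ : SimpleGraph ((P × P) × ZMod ((2 ^ j) ^ 4)), Γ = HH □ K := ⟨_, rfl⟩
  have hHHt : VertexTransitive HH := by rw [hHH]; exact box_trans hHt hHt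
  have hΓc : Γ.Connected := by rw [hΓ, hHH]; exact (hHc.boxProd hHc).boxProd hKcon
  have hΓt : VertexTransitive Γ := by rw [hΓ]; exact box_trans hHHt hKt
  obtain ⟨dX, hdX⟩ : ∃ dX, dX = Γ.degree ((x0, x0), 0) := ⟨_, rfl⟩
  have hd : ∀ z, Γ.degree z = dX := fun z => by rw [hdX]; exact degree_transitive hΓt _ _
  have hdH : ∀ z : P × P, HH.degree z ≤ 30 := by
    intro z
    have h2 := box_degree H H HH hHH z
    have h3 := hHd z.1
    have h4 := hHd z.2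
    rw [h2]; omega
  have hd38 : dX ≤ 38 := by
    have h1 := box_degree HH K Γ hΓ ((x0, x0), 0)
    have h2 := hdH (x0, x0)
    have h3 := hKd 0
    rw [hdX, h1]
    exact (add_le_add h2 h3).trans (by norm_num)
  have hHdX : ∀ x, H.degree x ≤ dX := by
    intro x
    have h1 := box_degree HH K Γ hΓ ((x, x), 0)
    have h2 := box_degree H H HH hHH (x, x)
    rw [hd] at h1
    have h3 : dX = H.degree x + H.degree x + K.degree 0 := by
      rw [h1]; show HH.degree (x, x) + K.degree 0 = _; rw [h2]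
    omega
  have hdX1 : 1 ≤ dX := by
    by_contra h0
    have h0' : dX = 0 := by omega
    have h3 : ((x0, x0), (0 : ZMod ((2 ^ j) ^ 4))) ≠ ((x0, x0), (1 : ZMod ((2 ^ j) ^ 4))) := by
      intro h
      have h4 : (0 : ZMod ((2 ^ j) ^ 4)) = 1 := (Prod.mk.inj h).2
      have hf : Fact (1 < (2 ^ j) ^ 4) := ⟨by omega⟩
      exact zero_ne_one h4
    have : Nontrivial ((P × P) × ZMod ((2 ^ j) ^ 4)) := ⟨_, _, h3⟩
    have h5 := hΓc.preconnected.degree_pos_of_nontrivial ((x0, x0), (0 : ZMod ((2 ^ j) ^ 4)))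
    rw [hd] at h5
    omega
  have hΓP : PI Γ (1 / (32 * ((2:ℝ) ^ j) ^ 2)) := by
    have h1 : PI HH (1 / (16 * ((2:ℝ) ^ j) ^ 2)) := by
      rw [hHH]; exact PI_mono (PI_prod gapP_pos.le hHP hHP) hjg
    have h2 := PI_prod (by positivity) h1 hKP
    have h3 : 1 / (16 * ((2:ℝ) ^ j) ^ 2) / 2 = 1 / (32 * ((2:ℝ) ^ j) ^ 2) := by field_simp; norm_num
    rw [h3, ← hΓ] at h2; exact h2
  obtain ⟨hsum, hRM⟩ := sum_k (j := j) (by omega) hP2
  have hA : (Finset.univ.filter fun y : P × P => y.2 = x0).card = Fintype.card P := by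
    rw [← Finset.card_univ]
    refine Finset.card_bij (fun y _ => y.1) (fun _ _ => Finset.mem_univ _) ?_ ?_
    · rintro ⟨a, a'⟩ h ⟨c, c'⟩ h' hh
      have e1 : a' = x0 := (Finset.mem_filter.mp h).2
      have e2 : c' = x0 := (Finset.mem_filter.mp h').2
      have e3 : a = c := hh
      rw [e1, e2, e3]
    · intro a _
      exact ⟨(a, x0), Finset.mem_filter.mpr ⟨Finset.mem_univ _, rfl⟩, rfl⟩
  have hDne : NeZero (Dc dX) := ⟨by unfold Dc; omega⟩
  refine ⟨dX, hd38, ?_⟩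
  exact core_Y hn hn200 hj Γ hΓc b hb (by subst hΓ; exact lamp_trans b hHHt hKs hb hn200) hd hd38 hdX1
    (P := P) (by rw [Fintype.card_prod, sq]) (by rw [hn]; exact hP1) H hHdX hHP hΓP Prod.snd
    (fun c f => by rw [hΓ, hHH]; exact lap_second H K c f) x0
    (Finset.univ.filter fun y : P × P => y.2 = x0) hA (fun y hy => (Finset.mem_filter.mp hy).2)
    hsum hRM ⟨rfl, rfl⟩ hC0 hC

theorem core (C : ℝ) (hC0 : 0 ≤ C) : ∃ dX, dX ≤ 38 ∧ Good dX C := by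
  obtain ⟨j0, hj0⟩ : ∃ j0 : ℕ, j0 = 100 + ⌈C⌉₊ + ⌈1 / gapP⌉₊ := ⟨_, rfl⟩
  obtain ⟨P, iG, iF, s0, hinv, hcard, hPI, hcon⟩ := exists_group (2 ^ (2 ^ (4 * j0)) + 1)
  obtain ⟨j, hj, h1, h2⟩ := choose_j j0 (Fintype.card P) hcard
  have hlow : (j : ℝ) ≤ 2 ^ j := by exact_mod_cast Nat.lt_two_pow_self.le
  refine core_P (j := j) (by omega) (cay s0 hinv) hcon (cay_trans s0 hinv) ?_ hPI h1 h2 ?_ hC0 ?_
  · intro x
    have := cay_degree s0 hinv x
    rw [card_Lb] at this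
    exact this
  · have hg := gapP_pos
    have e1 : 1 / gapP ≤ 2 ^ j := by
      refine (Nat.le_ceil _).trans (le_trans ?_ hlow)
      have : ⌈1 / gapP⌉₊ ≤ j := by omega
      exact_mod_cast this
    have e2 : (1:ℝ) ≤ 2 ^ j := one_le_pow₀ (by norm_num)
    rw [div_le_iff₀ (by positivity)]
    rw [div_le_iff₀ hg] at e1
    nlinarith
  · have e1 : C ≤ 2 ^ (j - 100) := by
      have e2 : ⌈C⌉₊ ≤ j - 100 := by omega
      have e3 : ((j - 100 : ℕ) : ℝ) ≤ 2 ^ (j - 100) := by exact_mod_cast Nat.lt_two_pow_self.le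
      have e4 : ((⌈C⌉₊ : ℕ) : ℝ) ≤ ((j - 100 : ℕ) : ℝ) := by exact_mod_cast e2
      exact (Nat.le_ceil C).trans (e4.trans e3)
    have e5 : (2:ℝ) ^ j = 2 ^ 100 * 2 ^ (j - 100) := by rw [← pow_add]; congr 1; omega
    rw [e5]
    exact mul_le_mul_of_nonneg_left e1 (by positivity)

theorem Good_anti {dX : ℕ} {C C' : ℝ} (h : C ≤ C') (hg : Good dX C') : Good dX C := by
  obtain ⟨V, V', i1, i2, G, G', h1, h2, h3, h4, h5, h6, h7, h8, h9⟩ := hg
  refine ⟨V, V', i1, i2, G, G', h1, h2, h3, h4, h5, h6, h7, h8, lt_of_le_of_lt ?_ h9⟩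
  exact mul_le_mul_of_nonneg_right h (Nat.cast_nonneg _)

/-- a fixed degree works for all constants -/
theorem exists_deg : ∃ dX, dX ≤ 38 ∧ ∀ C : ℝ, Good dX C := by
  by_contra hcon
  push Not at hcon
  have h1 : ∀ dX : ℕ, ∃ C : ℝ, dX ≤ 38 → ¬ Good dX C := by
    intro dX
    by_cases h : dX ≤ 38
    · obtain ⟨C, hC⟩ := hcon dX h
      exact ⟨C, fun _ => hC⟩
    · exact ⟨0, fun h' => absurd h' h⟩
  choose F hF using h1
  obtain ⟨dX, hd, hG⟩ := core (∑ i ∈ Finset.range 39, |F i|) (Finset.sum_nonneg fun _ _ => abs_nonneg _)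
  refine hF dX hd (Good_anti ?_ hG)
  refine (le_abs_self _).trans ?_
  exact Finset.single_le_sum (f := fun i => |F i|) (fun _ _ => abs_nonneg _)
    (Finset.mem_range.mpr (by omega))

end Pool.Agent.J6H46.QI
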