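import Pool.Agent.J6H46.QI.Lower

/-!
# Choice of parameters: combinatorial lemmas
-/

set_option autoImplicit false
set_option linter.unusedSectionVars false
open Classical

namespace Pool.Agent.J6H46.QI
open Pool.H521RB

theorem exists_blk {Y ι : Type} [Fintype Y] [Fintype ι] (k : ι → ℕ) (A : Finset Y)
    (h : ∑ p, k p ≤ A.card) : ∃ blk : Y → Option ι, (∀ y, blk y ≠ none → y ∈ A) ∧
      ∀ p, (Finset.univ.filter fun y => blk y = some p).card = k p := by
  have hc : Fintype.card (Σ p, Fin (k p)) ≤ Fintype.card A := by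
    rw [Fintype.card_sigma, Fintype.card_coe]; simpa using h
  obtain ⟨e⟩ := Function.Embedding.nonempty_of_card_le hc
  let blk : Y → Option ι := fun y =>
    if hy : ∃ x, (e x : Y) = y then some (Classical.choose hy).1 else none
  have hblk : ∀ x, blk (e x) = some x.1 := by
    intro x
    have hy : ∃ x', (e x' : Y) = e x := ⟨x, rfl⟩
    have h1 : Classical.choose hy = x := e.injective (Subtype.ext (Classical.choose_spec hy))
    show (if hy : ∃ x', (e x' : Y) = e x then some (Classical.choose hy).1 else none) = _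
    rw [dif_pos hy, h1]
  refine ⟨blk, ?_, ?_⟩
  · intro y hy
    by_cases h : ∃ x, (e x : Y) = y
    · obtain ⟨x, rfl⟩ := h; exact (e x).2
    · exact absurd (dif_neg h) hy
  · intro p
    have h1 : (Finset.univ.filter fun y => blk y = some p) =
        (Finset.univ : Finset (Fin (k p))).image (fun i => (e ⟨p, i⟩ : Y)) := by
      ext y
      simp only [Finset.mem_filter, Finset.mem_univ, true_and, Finset.mem_image]
      constructor
      · intro hy
        by_cases h : ∃ x, (e x : Y) = y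
        · obtain ⟨⟨q, i⟩, rfl⟩ := h
          rw [hblk] at hy
          have := Option.some.inj hy
          subst this
          exact ⟨i, rfl⟩
        · have : blk y = none := dif_neg h
          rw [this] at hy; exact absurd hy (by simp)
      · rintro ⟨i, rfl⟩; exact hblk _
    rw [h1, Finset.card_image_of_injective, Finset.card_univ, Fintype.card_fin]
    intro i i' h
    have := e.injective (Subtype.ext h)
    simpa using this

theorem circ_connected (s : ℕ) [NeZero (s ^ 4)] : (circ s).Connected := by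
  rw [SimpleGraph.connected_iff]
  refine ⟨?_, ⟨0⟩⟩
  have key : ∀ (k : ℕ) (x : ZMod (s ^ 4)), (circ s).Reachable x (x + k) := by
    intro k
    induction k with
    | zero => intro x; rw [Nat.cast_zero, add_zero]
    | succ k ih =>
      intro x
      refine (ih x).trans ?_
      by_cases h : x + k = x + (k + 1 : ℕ)
      · rw [h]
      · refine SimpleGraph.Adj.reachable ⟨h, 0, Or.inl ?_⟩
        push_cast
        simp
        ring
  intro x y
  have := key (y - x).val x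
  rwa [ZMod.natCast_zmod_val, add_sub_cancel] at this

theorem circ_shift (s : ℕ) (c0 x y : ZMod (s ^ 4)) :
    (circ s).Adj (x + c0) (y + c0) ↔ (circ s).Adj x y := (circT s c0).map_rel_iff'

theorem choose_j (j0 N : ℕ) (h : 2 ^ (2 ^ (4 * j0)) < N) :
    ∃ j, j0 < j ∧ N ≤ 2 ^ (2 ^ (4 * j)) ∧ 2 ^ (2 ^ (4 * (j - 1))) < N := by
  have hex : ∃ j, N ≤ 2 ^ (2 ^ (4 * j)) := by
    refine ⟨N, ?_⟩
    have h1 : N ≤ 2 ^ N := Nat.lt_two_pow_self.le
    have h2 : N ≤ 2 ^ (4 * N) := h1.trans (Nat.pow_le_pow_right (by norm_num) (by omega))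
    exact h1.trans (Nat.pow_le_pow_right (by norm_num) h2)
  have hj : j0 < Nat.find hex := by
    by_contra hcon
    have h1 := Nat.find_spec hex
    have h2 : 2 ^ (2 ^ (4 * Nat.find hex)) ≤ 2 ^ (2 ^ (4 * j0)) :=
      Nat.pow_le_pow_right (by norm_num) (Nat.pow_le_pow_right (by norm_num) (by omega))
    omega
  refine ⟨Nat.find hex, hj, Nat.find_spec hex, ?_⟩
  have := Nat.find_min hex (show Nat.find hex - 1 < Nat.find hex by omega)
  omega

theorem exists_good' (n k : ℕ) [NeZero n] (h : n = 2 ^ k) (hk : 6 ≤ k) : ∃ b : ZMod n → ZMod 2, ¬ Bad n b := by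
  subst h
  exact exists_good k hk

theorem par_ineq {j : ℕ} (hj : 40 ≤ j) : (60 + 6 * j) * 2 ^ (3 * j) ≤ 2 ^ (4 * (j - 1)) := by
  obtain ⟨i, rfl⟩ : ∃ i, j = i + 8 := ⟨j - 8, by omega⟩
  have h1 : i < 2 ^ i := Nat.lt_two_pow_self
  have h2 : 60 + 6 * (i + 8) ≤ 2 ^ (i + 4) := by
    rw [pow_add]; omega
  have h3 : 2 ^ (4 * (i + 8 - 1)) = 2 ^ (i + 4) * 2 ^ (3 * (i + 8)) := by
    rw [← pow_add]; congr 1; omega
  rw [h3]
  exact Nat.mul_le_mul_right _ h2

/-- the ratio between consecutive levels -/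
def Rr (M : ℕ) : ℕ := 1152921504606846976 * M ^ 2

/-- the scales -/
def Jf (j : ℕ) (i : Fin (2 ^ (3 * j))) : ℕ :=
  2 ^ (4 * j - 34) * Rr (2 ^ (3 * j)) ^ (2 ^ (3 * j) - 1 - (i : ℕ))

theorem Rr_eq (j : ℕ) : Rr (2 ^ (3 * j)) = 2 ^ (60 + 6 * j) := by
  unfold Rr
  rw [← pow_mul, pow_add]
  congr 2
  ring

theorem Rr_pos (j : ℕ) : 0 < Rr (2 ^ (3 * j)) := by rw [Rr_eq]; positivity

theorem Jf_sep (j : ℕ) : Sep (Jf j) where
  M0 := by positivity
  J0 i := by unfold Jf; have := Rr_pos j; positivity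
  sep i s h := by
    have h1 : rho (2 ^ (3 * j)) = (Rr (2 ^ (3 * j)) : ℝ) := by
      unfold rho Rr; push_cast; ring
    rw [h1]
    unfold Jf
    have h2 : Rr (2 ^ (3 * j)) * (2 ^ (4 * j - 34) * Rr (2 ^ (3 * j)) ^ (2 ^ (3 * j) - 1 - (s : ℕ))) ≤
        2 ^ (4 * j - 34) * Rr (2 ^ (3 * j)) ^ (2 ^ (3 * j) - 1 - (i : ℕ)) := by
      have h3 : Rr (2 ^ (3 * j)) * (2 ^ (4 * j - 34) * Rr (2 ^ (3 * j)) ^ (2 ^ (3 * j) - 1 - (s : ℕ))) =
          2 ^ (4 * j - 34) * Rr (2 ^ (3 * j)) ^ (2 ^ (3 * j) - 1 - (s : ℕ) + 1) := by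
        rw [pow_succ]; ring
      rw [h3]
      have hs := s.2
      have hi : (i : ℕ) < s := h
      exact Nat.mul_le_mul_left _ (Nat.pow_le_pow_right (Rr_pos j) (by omega))
    exact_mod_cast h2

theorem Jf_20 {j : ℕ} (hj : 40 ≤ j) (i : Fin (2 ^ (3 * j))) : 2 ^ (3 * j) + 20 ≤ Jf j i := by
  have h1 : 2 ^ (4 * j - 34) ≤ Jf j i := by
    unfold Jf
    exact Nat.le_mul_of_pos_right _ (pow_pos (Rr_pos j) _)
  have h2 : 2 ^ (3 * j + 1) ≤ 2 ^ (4 * j - 34) := Nat.pow_le_pow_right (by norm_num) (by omega)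
  have h3 : 2 ^ 5 ≤ 2 ^ (3 * j) := Nat.pow_le_pow_right (by norm_num) (by omega)
  rw [pow_succ] at h2
  omega

theorem sum_k {j N : ℕ} (hj : 40 ≤ j) (hN : 2 ^ (2 ^ (4 * (j - 1))) < N) :
    ∑ p : Ix (2 ^ (3 * j)), Rr (2 ^ (3 * j)) ^ (2 ^ (3 * j) - 1 - (p.1 : ℕ)) ≤ N ∧
    Rr (2 ^ (3 * j)) ^ (2 ^ (3 * j)) ≤ N := by
  have hR := Rr_eq j
  have hRM : Rr (2 ^ (3 * j)) ^ (2 ^ (3 * j)) ≤ N := by
    rw [hR, ← pow_mul]
    exact (Nat.pow_le_pow_right (by norm_num) (par_ineq hj)).trans hN.le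
  refine ⟨?_, hRM⟩
  refine le_trans ?_ hRM
  have h1 : ∀ p ∈ (Finset.univ : Finset (Ix (2 ^ (3 * j)))),
      Rr (2 ^ (3 * j)) ^ (2 ^ (3 * j) - 1 - (p.1 : ℕ)) ≤ Rr (2 ^ (3 * j)) ^ (2 ^ (3 * j) - 1) :=
    fun p _ => Nat.pow_le_pow_right (Rr_pos j) (by omega)
  refine (Finset.sum_le_card_nsmul _ _ _ h1).trans ?_
  have hc : (Finset.univ : Finset (Ix (2 ^ (3 * j)))).card = 2 ^ (3 * j) * 2 := by
    rw [Finset.card_univ, Fintype.card_prod, Fintype.card_fin, Fintype.card_bool]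
  rw [hc, smul_eq_mul]
  have hM : 0 < 2 ^ (3 * j) := by positivity
  have h2 : Rr (2 ^ (3 * j)) ^ (2 ^ (3 * j)) = Rr (2 ^ (3 * j)) ^ (2 ^ (3 * j) - 1) * Rr (2 ^ (3 * j)) := by
    rw [← pow_succ]; congr 1; omega
  rw [h2, mul_comm]
  refine Nat.mul_le_mul_left _ ?_
  unfold Rr
  nlinarith

/-- pointer weight -/
noncomputable def Wc : ℕ := ⌈3840 * Kc ^ 2 / gapP⌉₊ + 1

/-- degree of the perturbed graph -/
noncomputable def Dc (dX : ℕ) : ℕ := Wc * dX + 2 * 1099511627776 + 2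

theorem Wc_pos : 0 < Wc := by unfold Wc; omega

theorem Wc_ge : 3840 * Kc ^ 2 ≤ Wc * gapP := by
  have h1 : 3840 * Kc ^ 2 / gapP ≤ Wc := by
    unfold Wc; push_cast
    exact (Nat.le_ceil _).trans (by linarith)
  rwa [div_le_iff₀ gapP_pos] at h1

end Pool.Agent.J6H46.QI
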