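import Pool.Agent.J6H46.QI.Blow

/-!
# The pointer walk
-/

set_option autoImplicit false
set_option linter.unusedSectionVars false
open Classical

namespace Pool.Agent.J6H46.QI

section gen
variable {X P : Type} [Fintype X] [Fintype P]

theorem pow_nonneg_ent (Q : Matrix X X ℝ) (h : ∀ i j, 0 ≤ Q i j) (t : ℕ) : ∀ i j, 0 ≤ (Q ^ t) i j := by
  induction t with
  | zero => intro i j; rw [pow_zero, Matrix.one_apply]; split_ifs <;> norm_num
  | succ t ih =>
    intro i j
    rw [pow_succ, Matrix.mul_apply]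
    exact Finset.sum_nonneg fun k _ => mul_nonneg (ih i k) (h k j)

theorem pow_sym_ent (Q : Matrix X X ℝ) (h : ∀ i j, Q i j = Q j i) (t : ℕ) :
    ∀ i j, (Q ^ t) i j = (Q ^ t) j i := by
  have h1 : Q.transpose = Q := by ext i j; exact h j i
  intro i j
  have h2 : (Q ^ t).transpose = Q ^ t := by rw [Matrix.transpose_pow, h1]
  rw [← Matrix.transpose_apply (Q ^ t), h2]

theorem green_bound (Q : Matrix X X ℝ) (Q2 : Matrix P P ℝ) (π : X → P)
    (h : ∀ f : P → ℝ, Q.mulVec (fun x => f (π x)) = fun x => Q2.mulVec f (π x))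
    (hnn : ∀ (t : ℕ) i j, 0 ≤ (Q ^ t) i j) (a : P) (C : Finset X) (hC : ∀ x ∈ C, π x = a)
    {lam : ℝ} (h0 : 0 ≤ lam) (h1 : lam < 1)
    (hmix : ∀ (t : ℕ) p q, |(Q2 ^ t) p q - 1 / Fintype.card P| ≤ lam ^ t) (T : ℕ) (i : X) :
    ∑ j ∈ C, ∑ t ∈ Finset.range T, (Q ^ t) i j ≤ T / Fintype.card P + 1 / (1 - lam) := by
  rw [Finset.sum_comm]
  have h2 : ∀ t ∈ Finset.range T, ∑ j ∈ C, (Q ^ t) i j ≤ 1 / Fintype.card P + lam ^ t := by
    intro t _
    have e1 : ∑ j ∈ C, (Q ^ t) i j ≤ ∑ j, (Q ^ t) i j * (if π j = a then 1 else 0) := by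
      have e2 : ∑ j ∈ C, (Q ^ t) i j = ∑ j ∈ C, (Q ^ t) i j * (if π j = a then 1 else 0) :=
        Finset.sum_congr rfl fun j hj => by rw [if_pos (hC j hj), mul_one]
      rw [e2]
      exact Finset.sum_le_sum_of_subset_of_nonneg (Finset.subset_univ _) fun j _ _ =>
        mul_nonneg (hnn t i j) (by split_ifs <;> norm_num)
    have e3 := congrFun (pow_proj Q π (fun f => Q2.mulVec f) h t (fun p => if p = a then 1 else 0)) i
    have e4 : ∀ (t : ℕ) (f : P → ℝ), (fun f => Q2.mulVec f)^[t] f = (Q2 ^ t).mulVec f := by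
      intro t
      induction t with
      | zero => intro f; simp
      | succ t ih => intro f; rw [Function.iterate_succ_apply, ih, pow_succ, ← Matrix.mulVec_mulVec]
    rw [e4] at e3
    have e5 : (Q2 ^ t).mulVec (fun p => if p = a then 1 else 0) (π i) = (Q2 ^ t) (π i) a := by
      show ∑ z, (Q2 ^ t) (π i) z * (if z = a then (1:ℝ) else 0) = _
      simp
    rw [e5] at e3
    have e6 : ∑ j, (Q ^ t) i j * (if π j = a then 1 else 0) = (Q2 ^ t) (π i) a := e3
    rw [e6] at e1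
    have e7 := (abs_le.mp (hmix t (π i) a)).2
    linarith
  refine (Finset.sum_le_sum h2).trans ?_
  rw [Finset.sum_add_distrib, Finset.sum_const, Finset.card_range, nsmul_eq_mul, mul_one_div]
  have h3 : ∑ t ∈ Finset.range T, lam ^ t ≤ 1 / (1 - lam) := by
    rw [geom_sum_eq (ne_of_lt h1), ← neg_div_neg_eq]
    have h4 : 0 < 1 - lam := by linarith
    rw [neg_sub, neg_sub]
    have : 0 ≤ lam ^ T := pow_nonneg h0 T
    gcongr
    linarith
  linarith

theorem ptr_of (Γ : SimpleGraph X) (H : SimpleGraph P) (π : X → P) {c : ℝ}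
    (hproj : ∀ f : P → ℝ, (lapQ Γ c).mulVec (fun x => f (π x)) = fun x => (lapQ H c).mulVec f (π x))
    {dX : ℕ} (hdΓ : ∀ x, Γ.degree x ≤ dX) (hdH : ∀ x, H.degree x ≤ dX) (hc : 0 < c)
    (hcd : 2 * c * dX ≤ 1) {g gP : ℝ} (hG : PI Γ g) (hH : PI H gP) (hg1 : c * g ≤ 1)
    (hgP : 0 < gP) (hgP1 : c * gP ≤ 1) (T : ℕ) {ε : ℝ}
    (hT : (1 - c * g) ^ T ≤ ε / Fintype.card X) (a : P) (C : Finset X) (hC : ∀ x ∈ C, π x = a) :
    Ptr (lapQ Γ c) T C (T / Fintype.card P + 1 / (c * gP)) ε where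
  nn := pow_nonneg_ent _ (lapQ_nonneg Γ hdΓ hc.le (by
    have : 0 ≤ c * dX := by positivity
    linarith))
  sym := fun t => pow_sym_ent _ (lapQ_sym Γ c) t
  row := lapQ_row Γ c
  mix := fun i j => (lapQ_mix Γ hdΓ hG hc.le hcd hg1 T i j).trans hT
  green := fun i => by
    have h1 := green_bound (lapQ Γ c) (lapQ H c) π hproj
      (pow_nonneg_ent _ (lapQ_nonneg Γ hdΓ hc.le (by
        have : 0 ≤ c * dX := by positivity
        linarith))) a C hC (lam := 1 - c * gP) (by linarith) (by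
          have : 0 < c * gP := by positivity
          linarith)
      (fun t p q => lapQ_mix H hdH hH hc.le hcd hgP1 t p q) T i
    rwa [sub_sub_cancel] at h1

end gen

section box
variable {X Y : Type} [Fintype X] [Fintype Y]

theorem box_sum (G : SimpleGraph X) (H : SimpleGraph Y) (F : X × Y → ℝ) (p : X × Y) :
    ∑ q, (if (G □ H).Adj p q then F q else 0) =
      ∑ x', (if G.Adj p.1 x' then F (x', p.2) else 0) + ∑ y', (if H.Adj p.2 y' then F (p.1, y') else 0) := by
  obtain ⟨x, y⟩ := p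
  have h2 : ∀ q : X × Y, (if (G □ H).Adj (x, y) q then F q else 0) =
      (if q.2 = y then (if G.Adj x q.1 then F (q.1, y) else 0) else 0) +
      (if q.1 = x then (if H.Adj y q.2 then F (x, q.2) else 0) else 0) := by
    rintro ⟨x', y'⟩
    simp only [SimpleGraph.boxProd_adj]
    by_cases hx : x' = x
    · subst hx
      by_cases hy : y' = y
      · subst hy; simp
      · have hy' : ¬ y = y' := fun h => hy h.symm
        simp [hy, hy']
    · have hx' : ¬ x = x' := fun h => hx h.symm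
      by_cases hy : y' = y
      · subst hy; simp [hx, hx']
      · have hy' : ¬ y = y' := fun h => hy h.symm
        simp [hy, hy', hx, hx']
  simp only [h2, Finset.sum_add_distrib]
  congr 1
  · rw [Fintype.sum_prod_type]
    exact Finset.sum_congr rfl fun x' _ => by simp
  · rw [Fintype.sum_prod_type, Finset.sum_comm]
    exact Finset.sum_congr rfl fun y' _ => by simp

theorem deg_sum (G : SimpleGraph X) (x : X) : ∑ y, (if G.Adj x y then (1:ℝ) else 0) = G.degree x := by
  rw [Finset.sum_boole, ← SimpleGraph.neighborFinset_eq_filter,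
    SimpleGraph.card_neighborFinset_eq_degree]

theorem box_degree (G : SimpleGraph X) (H : SimpleGraph Y) (K : SimpleGraph (X × Y))
    (hK : K = G □ H) (p : X × Y) : K.degree p = G.degree p.1 + H.degree p.2 := by
  have h := box_sum G H (fun _ => 1) p
  rw [← hK] at h
  have h1 : ∑ q, (if K.Adj p q then (1:ℝ) else 0) = K.degree p := deg_sum K p
  have h2 : (K.degree p : ℝ) = ((G.degree p.1 + H.degree p.2 : ℕ) : ℝ) := by
    rw [← h1]
    push_cast
    rw [← deg_sum G, ← deg_sum H]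
    exact h
  exact_mod_cast h2

/-- box products of vertex transitive graphs -/
theorem box_trans {G : SimpleGraph X} {H : SimpleGraph Y} (hG : VertexTransitive G)
    (hH : VertexTransitive H) : VertexTransitive (G □ H) := by
  rintro ⟨x, y⟩ ⟨x', y'⟩
  obtain ⟨φ, hφ⟩ := hG x x'
  obtain ⟨ψ, hψ⟩ := hH y y'
  refine ⟨⟨φ.toEquiv.prodCongr ψ.toEquiv, ?_⟩, ?_⟩
  · rintro ⟨a, c⟩ ⟨a', c'⟩
    simp only [SimpleGraph.boxProd_adj, Equiv.prodCongr_apply, Prod.map]
    show (G.Adj (φ a) (φ a') ∧ ψ c = ψ c') ∨ (H.Adj (ψ c) (ψ c') ∧ φ a = φ a') ↔ _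
    rw [SimpleGraph.Iso.map_adj_iff, SimpleGraph.Iso.map_adj_iff, φ.injective.eq_iff, ψ.injective.eq_iff]
  · show (φ x, ψ y) = (x', y')
    rw [hφ, hψ]

variable {Z : Type} [Fintype Z]

theorem lap_second (H : SimpleGraph X) (K : SimpleGraph Z) (c : ℝ) (f : X → ℝ) :
    (lapQ ((H □ H) □ K) c).mulVec (fun x => f x.1.2) = fun x => (lapQ H c).mulVec f x.1.2 := by
  funext x
  rw [lapQ_mulVec, lapQ_mulVec]
  have e1 := box_sum (H □ H) K (fun y => f y.1.2 - f x.1.2) x
  have e2 := box_sum H H (fun y => f y.2 - f x.1.2) x.1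
  beta_reduce at e1 e2 ⊢
  rw [e1, e2]
  simp

end box
end Pool.Agent.J6H46.QI
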