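import Mathlib

/-!
# Spectral tools: contraction of positive semidefinite operators, Poincare inequalities
-/

set_option autoImplicit false
set_option linter.unusedSectionVars false
open Classical

namespace Pool.Agent.J6H46.QI

section
variable {X : Type} [Fintype X]

/-- inner product -/
def ip (f g : X → ℝ) : ℝ := ∑ x, f x * g x

theorem ip_comm (f g : X → ℝ) : ip f g = ip g f := by
  unfold ip; exact Finset.sum_congr rfl fun x _ => mul_comm _ _
theorem ip_add_left (f g h : X → ℝ) : ip (f + g) h = ip f h + ip g h := by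
  unfold ip; rw [← Finset.sum_add_distrib]; exact Finset.sum_congr rfl fun x _ => by
    rw [Pi.add_apply]; ring
theorem ip_smul_left (a : ℝ) (f h : X → ℝ) : ip (a • f) h = a * ip f h := by
  unfold ip; rw [Finset.mul_sum]; exact Finset.sum_congr rfl fun x _ => by
    rw [Pi.smul_apply, smul_eq_mul]; ring
theorem ip_add_right (f g h : X → ℝ) : ip f (g + h) = ip f g + ip f h := by
  rw [ip_comm, ip_add_left, ip_comm g, ip_comm h]
theorem ip_smul_right (a : ℝ) (f h : X → ℝ) : ip f (a • h) = a * ip f h := by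
  rw [ip_comm, ip_smul_left, ip_comm]
theorem ip_self_nonneg (f : X → ℝ) : 0 ≤ ip f f :=
  Finset.sum_nonneg fun x _ => mul_self_nonneg _
theorem ip_single (f : X → ℝ) (x : X) : f x ^ 2 ≤ ip f f := by
  rw [sq]
  exact Finset.single_le_sum (f := fun x => f x * f x) (fun x _ => mul_self_nonneg _)
    (Finset.mem_univ x)

theorem ip_sym {T : Matrix X X ℝ} (hT : ∀ i j, T i j = T j i) (f g : X → ℝ) :
    ip (T.mulVec f) g = ip f (T.mulVec g) := by
  unfold ip Matrix.mulVec dotProduct
  simp only [Finset.sum_mul, Finset.mul_sum]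
  rw [Finset.sum_comm]
  refine Finset.sum_congr rfl fun x _ => Finset.sum_congr rfl fun y _ => ?_
  rw [hT]; ring

/-- Cauchy-Schwarz for a positive semidefinite operator -/
theorem psd_cs {T : Matrix X X ℝ} (hT : ∀ i j, T i j = T j i) (hpos : ∀ f, 0 ≤ ip f (T.mulVec f))
    (f g : X → ℝ) : ip f (T.mulVec g) ^ 2 ≤ ip f (T.mulVec f) * ip g (T.mulVec g) := by
  have h : ∀ s : ℝ, 0 ≤ ip g (T.mulVec g) * (s * s) + 2 * ip f (T.mulVec g) * s + ip f (T.mulVec f) := by
    intro s
    have h1 := hpos (f + s • g)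
    rw [Matrix.mulVec_add, Matrix.mulVec_smul, ip_add_left, ip_add_right, ip_add_right,
      ip_smul_left, ip_smul_left, ip_smul_right, ip_smul_right] at h1
    have h2 : ip g (T.mulVec f) = ip f (T.mulVec g) := by rw [← ip_sym hT, ip_comm]
    rw [h2] at h1
    linarith
  have h3 := discrim_le_zero h
  unfold discrim at h3
  nlinarith

theorem psd_contract {T : Matrix X X ℝ} (hT : ∀ i j, T i j = T j i)
    (hpos : ∀ f, 0 ≤ ip f (T.mulVec f)) {lam : ℝ} (hl : 0 ≤ lam) (f : X → ℝ)
    (h1 : ip f (T.mulVec f) ≤ lam * ip f f)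
    (h2 : ip (T.mulVec f) (T.mulVec (T.mulVec f)) ≤ lam * ip (T.mulVec f) (T.mulVec f)) :
    ip (T.mulVec f) (T.mulVec f) ≤ lam ^ 2 * ip f f := by
  have h3 := psd_cs hT hpos f (T.mulVec f)
  rw [← ip_sym hT] at h3
  set B := ip (T.mulVec f) (T.mulVec f) with hB
  have hB0 : 0 ≤ B := ip_self_nonneg _
  have hf0 := ip_self_nonneg f
  have h4 : B ^ 2 ≤ (lam * ip f f) * (lam * B) :=
    h3.trans (mul_le_mul h1 h2 (hpos _) (by positivity))
  rcases hB0.eq_or_lt with h | h
  · rw [← h]; positivity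
  · have : B * B ≤ (lam ^ 2 * ip f f) * B := by nlinarith
    exact le_of_mul_le_mul_right this h

theorem psd_iter {T : Matrix X X ℝ} (hT : ∀ i j, T i j = T j i)
    (hpos : ∀ f, 0 ≤ ip f (T.mulVec f)) {lam : ℝ} (hl : 0 ≤ lam) (S : (X → ℝ) → Prop)
    (hS : ∀ f, S f → S (T.mulVec f)) (hlam : ∀ f, S f → ip f (T.mulVec f) ≤ lam * ip f f)
    (f : X → ℝ) (hf : S f) (t : ℕ) :
    S ((T ^ t).mulVec f) ∧ ip ((T ^ t).mulVec f) ((T ^ t).mulVec f) ≤ (lam ^ t) ^ 2 * ip f f := by
  induction t with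
  | zero => simpa using hf
  | succ t ih =>
    obtain ⟨h1, h2⟩ := ih
    have e : (T ^ (t + 1)).mulVec f = T.mulVec ((T ^ t).mulVec f) := by
      rw [pow_succ', ← Matrix.mulVec_mulVec]
    rw [e]
    refine ⟨hS _ h1, ?_⟩
    have h3 := psd_contract hT hpos hl _ (hlam _ h1) (hlam _ (hS _ h1))
    refine h3.trans ?_
    have h4 := mul_le_mul_of_nonneg_left h2 (sq_nonneg lam)
    refine h4.trans (le_of_eq ?_)
    rw [pow_succ]; ring

theorem psd_entry {T : Matrix X X ℝ} (hT : ∀ i j, T i j = T j i)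
    (hpos : ∀ f, 0 ≤ ip f (T.mulVec f)) {lam : ℝ} (hl : 0 ≤ lam) (S : (X → ℝ) → Prop)
    (hS : ∀ f, S f → S (T.mulVec f)) (hlam : ∀ f, S f → ip f (T.mulVec f) ≤ lam * ip f f)
    (f : X → ℝ) (hf : S f) (hf1 : ip f f ≤ 1) (t : ℕ) (x : X) :
    |((T ^ t).mulVec f) x| ≤ lam ^ t := by
  have h1 := (psd_iter hT hpos hl S hS hlam f hf t).2
  have h2 := ip_single ((T ^ t).mulVec f) x
  have h3 : ((T ^ t).mulVec f x) ^ 2 ≤ (lam ^ t) ^ 2 := by
    refine h2.trans (h1.trans ?_)
    have : 0 ≤ (lam ^ t) ^ 2 := sq_nonneg _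
    nlinarith
  exact abs_le_of_sq_le_sq h3 (pow_nonneg hl t)

/-! ### Dirichlet forms -/

/-- Dirichlet form (ordered pairs) -/
noncomputable def En (G : SimpleGraph X) (f : X → ℝ) : ℝ :=
  ∑ x, ∑ y, if G.Adj x y then (f x - f y) ^ 2 else 0

/-- total variance (ordered pairs) -/
def Va (f : X → ℝ) : ℝ := ∑ x, ∑ y, (f x - f y) ^ 2

/-- Poincare inequality -/
def PI (G : SimpleGraph X) (g : ℝ) : Prop := ∀ f : X → ℝ, g * Va f ≤ Fintype.card X * En G f

theorem En_nonneg (G : SimpleGraph X) (f : X → ℝ) : 0 ≤ En G f :=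
  Finset.sum_nonneg fun x _ => Finset.sum_nonneg fun y _ => by split_ifs <;> positivity

theorem Va_nonneg (f : X → ℝ) : 0 ≤ Va f :=
  Finset.sum_nonneg fun x _ => Finset.sum_nonneg fun y _ => sq_nonneg _

theorem Va_eq (f : X → ℝ) : Va f = 2 * Fintype.card X * ip f f - 2 * (∑ x, f x) ^ 2 := by
  unfold Va ip
  have h1 : ∀ x y, (f x - f y) ^ 2 = f x * f x + f y * f y - 2 * (f x * f y) := fun x y => by ring
  simp only [h1, Finset.sum_sub_distrib, Finset.sum_add_distrib, Finset.sum_const, Finset.card_univ,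
    nsmul_eq_mul, ← Finset.mul_sum]
  rw [← Finset.sum_mul]
  ring

/-- generator matrix `1 + c L` -/
noncomputable def lapQ (G : SimpleGraph X) (c : ℝ) : Matrix X X ℝ :=
  Matrix.of fun x y => (if x = y then 1 - c * (G.degree x : ℝ) else 0) + (if G.Adj x y then c else 0)

theorem lapQ_sym (G : SimpleGraph X) (c : ℝ) (i j : X) : lapQ G c i j = lapQ G c j i := by
  unfold lapQ
  simp only [Matrix.of_apply]
  congr 1
  · by_cases h : i = j
    · rw [if_pos h, if_pos h.symm, h]
    · rw [if_neg h, if_neg (Ne.symm h)]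
  · simp only [G.adj_comm]

theorem lapQ_mulVec (G : SimpleGraph X) (c : ℝ) (f : X → ℝ) (x : X) :
    (lapQ G c).mulVec f x = f x + c * ∑ y, if G.Adj x y then f y - f x else 0 := by
  show ∑ y, lapQ G c x y * f y = _
  unfold lapQ
  simp only [Matrix.of_apply, add_mul, ite_mul, zero_mul, Finset.sum_add_distrib,
    Finset.sum_ite_eq, Finset.mem_univ, if_true]
  have h1 : ∑ y, (if G.Adj x y then f y - f x else 0) = ∑ y, (if G.Adj x y then f y else 0) -
      (G.degree x : ℝ) * f x := by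
    have h2 : (G.degree x : ℝ) * f x = ∑ y, (if G.Adj x y then f x else 0) := by
      rw [← Finset.sum_filter, Finset.sum_const, nsmul_eq_mul, ← SimpleGraph.neighborFinset_eq_filter,
        SimpleGraph.card_neighborFinset_eq_degree]
    rw [h2, ← Finset.sum_sub_distrib]
    exact Finset.sum_congr rfl fun y _ => by split_ifs <;> ring
  rw [h1, mul_sub, Finset.mul_sum]
  have h3 : ∑ y, (if G.Adj x y then c * f y else 0) = ∑ y, c * (if G.Adj x y then f y else 0) :=
    Finset.sum_congr rfl fun y _ => by split_ifs <;> ring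
  rw [h3]
  ring

theorem lapQ_ip (G : SimpleGraph X) (c : ℝ) (f : X → ℝ) :
    ip f ((lapQ G c).mulVec f) = ip f f - c / 2 * En G f := by
  have h1 : ip f ((lapQ G c).mulVec f) = ip f f + c * ∑ x, ∑ y, (if G.Adj x y then f x * (f y - f x) else 0) := by
    unfold ip
    rw [Finset.mul_sum, ← Finset.sum_add_distrib]
    refine Finset.sum_congr rfl fun x _ => ?_
    rw [lapQ_mulVec, mul_add]
    congr 1
    rw [Finset.mul_sum, Finset.mul_sum, Finset.mul_sum]
    exact Finset.sum_congr rfl fun y _ => by split_ifs <;> ring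
  have h2 : 2 * ∑ x, ∑ y, (if G.Adj x y then f x * (f y - f x) else 0) = - En G f := by
    have h3 : ∑ x, ∑ y, (if G.Adj x y then f x * (f y - f x) else 0) =
        ∑ x, ∑ y, (if G.Adj x y then f y * (f x - f y) else 0) := by
      rw [Finset.sum_comm]
      refine Finset.sum_congr rfl fun y _ => Finset.sum_congr rfl fun x _ => ?_
      simp only [G.adj_comm]
    rw [two_mul]
    nth_rewrite 2 [h3]
    unfold En
    rw [← Finset.sum_add_distrib, ← Finset.sum_neg_distrib]
    refine Finset.sum_congr rfl fun x _ => ?_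
    rw [← Finset.sum_add_distrib, ← Finset.sum_neg_distrib]
    exact Finset.sum_congr rfl fun y _ => by split_ifs <;> ring
  rw [h1]
  linear_combination (c / 2) * h2

theorem En_le (G : SimpleGraph X) {d : ℕ} (hd : ∀ x, G.degree x ≤ d) (f : X → ℝ) :
    En G f ≤ 4 * d * ip f f := by
  have h1 : En G f ≤ ∑ x, ∑ y, (if G.Adj x y then 2 * (f x * f x) + 2 * (f y * f y) else 0) := by
    unfold En
    refine Finset.sum_le_sum fun x _ => Finset.sum_le_sum fun y _ => ?_
    split_ifs
    · nlinarith [sq_nonneg (f x + f y)]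
    · exact le_rfl
  have h2 : ∑ x, ∑ y, (if G.Adj x y then 2 * (f x * f x) + 2 * (f y * f y) else 0) =
      ∑ x, ∑ y, (if G.Adj x y then 4 * (f x * f x) else 0) := by
    have h3 : ∀ x y, (if G.Adj x y then 2 * (f x * f x) + 2 * (f y * f y) else 0) =
        (if G.Adj x y then 2 * (f x * f x) else 0) + (if G.Adj x y then 2 * (f y * f y) else 0) := by
      intro x y; split_ifs <;> simp
    simp only [h3, Finset.sum_add_distrib]
    have h4 : ∑ x, ∑ y, (if G.Adj x y then 2 * (f y * f y) else 0) =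
        ∑ x, ∑ y, (if G.Adj x y then 2 * (f x * f x) else 0) := by
      rw [Finset.sum_comm]
      refine Finset.sum_congr rfl fun y _ => Finset.sum_congr rfl fun x _ => ?_
      simp only [G.adj_comm]
    rw [h4, ← Finset.sum_add_distrib]
    refine Finset.sum_congr rfl fun x _ => ?_
    rw [← Finset.sum_add_distrib]
    exact Finset.sum_congr rfl fun y _ => by split_ifs <;> ring
  rw [h2] at h1
  refine h1.trans ?_
  unfold ip
  rw [Finset.mul_sum]
  refine Finset.sum_le_sum fun x _ => ?_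
  rw [← Finset.sum_filter, Finset.sum_const, nsmul_eq_mul, ← SimpleGraph.neighborFinset_eq_filter,
        SimpleGraph.card_neighborFinset_eq_degree]
  have h5 : (G.degree x : ℝ) ≤ d := by exact_mod_cast hd x
  have h6 := mul_le_mul_of_nonneg_right h5 (show 0 ≤ 4 * (f x * f x) by
    have := mul_self_nonneg (f x); linarith)
  linarith

theorem lapQ_psd (G : SimpleGraph X) {d : ℕ} (hd : ∀ x, G.degree x ≤ d) {c : ℝ} (hc : 0 ≤ c)
    (hcd : 2 * c * d ≤ 1) (f : X → ℝ) : 0 ≤ ip f ((lapQ G c).mulVec f) := by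
  rw [lapQ_ip]
  have h1 := En_le G hd f
  have h2 := ip_self_nonneg f
  have h3 := mul_le_mul_of_nonneg_left h1 (show 0 ≤ c / 2 by positivity)
  nlinarith

theorem lapQ_row (G : SimpleGraph X) (c : ℝ) (x : X) : ∑ y, lapQ G c x y = 1 := by
  have h := lapQ_mulVec G c (fun _ => 1) x
  have h2 : (lapQ G c).mulVec (fun _ => 1) x = ∑ y, lapQ G c x y := by
    show ∑ y, lapQ G c x y * 1 = _
    simp
  rw [← h2, h]; simp

theorem lapQ_nonneg (G : SimpleGraph X) {d : ℕ} (hd : ∀ x, G.degree x ≤ d) {c : ℝ} (hc : 0 ≤ c)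
    (hcd : c * d ≤ 1) (x y : X) : 0 ≤ lapQ G c x y := by
  unfold lapQ
  simp only [Matrix.of_apply]
  have h5 : (G.degree x : ℝ) ≤ d := by exact_mod_cast hd x
  have h6 := mul_le_mul_of_nonneg_left h5 hc
  split_ifs <;> linarith

theorem lapQ_sum (G : SimpleGraph X) (c : ℝ) (f : X → ℝ) :
    ∑ x, (lapQ G c).mulVec f x = ∑ x, f x := by
  have h1 : ∑ x, (lapQ G c).mulVec f x = ip (fun _ => 1) ((lapQ G c).mulVec f) := by
    unfold ip; simp
  rw [h1, ← ip_sym (lapQ_sym G c)]
  unfold ip
  refine Finset.sum_congr rfl fun x _ => ?_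
  have : (lapQ G c).mulVec (fun _ => 1) x = ∑ y, lapQ G c x y := by
    show ∑ y, lapQ G c x y * 1 = _
    simp
  rw [this, lapQ_row, one_mul]

/-- gap bound on mean zero functions -/
theorem lapQ_gap (G : SimpleGraph X) {g c : ℝ} (hG : PI G g) (hc : 0 ≤ c) (f : X → ℝ)
    (hf : ∑ x, f x = 0) : ip f ((lapQ G c).mulVec f) ≤ (1 - c * g) * ip f f := by
  rw [lapQ_ip]
  have h1 := hG f
  rw [Va_eq, hf] at h1
  by_cases hX : Nonempty X
  · have hX' : (0:ℝ) < Fintype.card X := by
      have : 0 < Fintype.card X := Fintype.card_pos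
      exact_mod_cast this
    have h2 : g * (2 * ip f f) ≤ En G f := by
      have : (Fintype.card X : ℝ) * (g * (2 * ip f f)) ≤ Fintype.card X * En G f := by linarith
      exact le_of_mul_le_mul_left this hX'
    nlinarith
  · have : ∀ f : X → ℝ, ip f f = 0 := by
      intro f
      rw [not_nonempty_iff] at hX
      unfold ip; simp
    rw [this]
    have := En_nonneg G f
    nlinarith

/-- mixing of `1 + c L` -/
theorem lapQ_mix (G : SimpleGraph X) {d : ℕ} (hd : ∀ x, G.degree x ≤ d) {g c : ℝ} (hG : PI G g)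
    (hc : 0 ≤ c) (hcd : 2 * c * d ≤ 1) (hcg : c * g ≤ 1) (t : ℕ) (x y : X) :
    |(lapQ G c ^ t) x y - 1 / Fintype.card X| ≤ (1 - c * g) ^ t := by
  have hX' : (0:ℝ) < Fintype.card X := by
    have : 0 < Fintype.card X := Fintype.card_pos_iff.mpr ⟨x⟩
    exact_mod_cast this
  let f : X → ℝ := fun z => (if z = y then 1 else 0) - 1 / Fintype.card X
  have hf0 : ∑ z, f z = 0 := by
    show ∑ z, ((if z = y then (1:ℝ) else 0) - 1 / Fintype.card X) = 0
    rw [Finset.sum_sub_distrib, Finset.sum_ite_eq', Finset.sum_const, Finset.card_univ, nsmul_eq_mul]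
    simp only [Finset.mem_univ, if_true]
    field_simp
    ring
  have hf1 : ip f f ≤ 1 := by
    have h1 : ip f f = 1 - 1 / Fintype.card X := by
      show ∑ z, ((if z = y then (1:ℝ) else 0) - 1 / Fintype.card X) * ((if z = y then 1 else 0) - 1 / Fintype.card X) = _
      have h2 : ∀ z, ((if z = y then (1:ℝ) else 0) - 1 / Fintype.card X) * ((if z = y then 1 else 0) - 1 / Fintype.card X) =
          (if z = y then 1 - 2 / (Fintype.card X : ℝ) else 0) + 1 / (Fintype.card X : ℝ) ^ 2 := by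
        intro z; split_ifs
        · field_simp; ring
        · field_simp; ring
      simp only [h2, Finset.sum_add_distrib, Finset.sum_ite_eq', Finset.mem_univ, if_true,
        Finset.sum_const, Finset.card_univ, nsmul_eq_mul]
      field_simp
      ring
    rw [h1]
    have : 0 ≤ 1 / (Fintype.card X : ℝ) := by positivity
    linarith
  have h1 := psd_entry (lapQ_sym G c) (lapQ_psd G hd hc hcd) (lam := 1 - c * g) (by linarith)
    (fun f => ∑ z, f z = 0) (fun f hf => by rw [lapQ_sum]; exact hf)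
    (fun f hf => lapQ_gap G hG hc f hf) f hf0 hf1 t x
  have hrow : ∀ t : ℕ, ∀ x, ∑ y, (lapQ G c ^ t) x y = 1 := by
    intro t
    induction t with
    | zero => intro x; simp [Matrix.one_apply]
    | succ t ih =>
      intro x
      rw [pow_succ']
      simp only [Matrix.mul_apply]
      rw [Finset.sum_comm]
      simp only [← Finset.mul_sum, ih, mul_one]
      exact lapQ_row G c x
  have h2 : ((lapQ G c ^ t).mulVec f) x = (lapQ G c ^ t) x y - 1 / Fintype.card X := by
    show ∑ z, (lapQ G c ^ t) x z * ((if z = y then (1:ℝ) else 0) - 1 / Fintype.card X) = _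
    simp only [mul_sub, mul_ite, mul_one, mul_zero, Finset.sum_sub_distrib, Finset.sum_ite_eq',
      Finset.mem_univ, if_true, ← Finset.sum_mul, hrow, one_mul]
  rwa [h2] at h1

/-- killing lemma -/
theorem killing (G : SimpleGraph X) {g : ℝ} (hG : PI G g) (hg : 0 < g) (hg3 : g ≤ 3)
    (S : Finset X) (f : X → ℝ) :
    g / 3 * (S.card : ℝ) * ip f f ≤ Fintype.card X * (1 / 2 * En G f + 2 * ∑ x ∈ S, f x ^ 2) := by
  by_cases hX : Nonempty X
  swap
  · rw [not_nonempty_iff] at hX
    unfold ip En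
    simp
  have hN : (0:ℝ) < Fintype.card X := by
    have : 0 < Fintype.card X := Fintype.card_pos
    exact_mod_cast this
  set N : ℝ := (Fintype.card X : ℝ) with hNdef
  set a : ℝ := (∑ x, f x) / N with ha
  set v : ℝ := ∑ x, (f x - a) ^ 2 with hv
  have hsum : ∑ x, f x = N * a := by rw [ha]; field_simp
  have hv0 : 0 ≤ v := Finset.sum_nonneg fun x _ => sq_nonneg _
  have e1 : ip f f = v + N * a ^ 2 := by
    rw [hv]
    unfold ip
    have : ∀ x, (f x - a) ^ 2 = f x * f x - 2 * a * f x + a ^ 2 := fun x => by ring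
    simp only [this, Finset.sum_add_distrib, Finset.sum_sub_distrib, Finset.sum_const,
      Finset.card_univ, nsmul_eq_mul, ← Finset.mul_sum]
    rw [hsum, ← hNdef]; ring
  have e2 : Va f = 2 * N * v := by
    rw [Va_eq, e1, hsum, ← hNdef]; ring
  have e3 : g * v ≤ 1 / 2 * En G f := by
    have h1 := hG f
    rw [e2, ← hNdef] at h1
    have : N * (g * (2 * v)) ≤ N * En G f := by linarith
    have := le_of_mul_le_mul_left this hN
    linarith
  have e4 : (S.card : ℝ) * a ^ 2 ≤ 2 * ∑ x ∈ S, f x ^ 2 + 2 * v := by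
    have h1 : ∑ x ∈ S, a ^ 2 ≤ ∑ x ∈ S, (2 * f x ^ 2 + 2 * (f x - a) ^ 2) :=
      Finset.sum_le_sum fun x _ => by nlinarith [sq_nonneg (2 * f x - a)]
    rw [Finset.sum_const, nsmul_eq_mul, Finset.sum_add_distrib, ← Finset.mul_sum, ← Finset.mul_sum] at h1
    have h2 : ∑ x ∈ S, (f x - a) ^ 2 ≤ v :=
      Finset.sum_le_sum_of_subset_of_nonneg (Finset.subset_univ _) fun x _ _ => sq_nonneg _
    linarith
  have hS : (S.card : ℝ) ≤ N := by
    rw [hNdef]; exact_mod_cast Finset.card_le_univ S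
  have hS0 : (0:ℝ) ≤ S.card := Nat.cast_nonneg _
  have hq : 0 ≤ ∑ x ∈ S, f x ^ 2 := Finset.sum_nonneg fun x _ => sq_nonneg _
  rw [e1]
  have k1 : (S.card : ℝ) * (v + N * a ^ 2) ≤ N * (3 * v + 2 * ∑ x ∈ S, f x ^ 2) := by
    have := mul_le_mul_of_nonneg_left e4 hN.le
    have := mul_le_mul_of_nonneg_right hS hv0
    linarith
  have k2 := mul_le_mul_of_nonneg_left k1 (show 0 ≤ g / 3 by positivity)
  have k3 : g / 3 * (N * (3 * v + 2 * ∑ x ∈ S, f x ^ 2)) ≤ N * (1 / 2 * En G f + 2 * ∑ x ∈ S, f x ^ 2) := by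
    have h1 : g / 3 * (3 * v + 2 * ∑ x ∈ S, f x ^ 2) ≤ 1 / 2 * En G f + 2 * ∑ x ∈ S, f x ^ 2 := by
      have : g / 3 * (2 * ∑ x ∈ S, f x ^ 2) ≤ 1 * (2 * ∑ x ∈ S, f x ^ 2) :=
        mul_le_mul_of_nonneg_right (by linarith) (by positivity)
      linarith
    have := mul_le_mul_of_nonneg_left h1 hN.le
    linarith
  linarith

end

/-! ### products -/

section prod
variable {X Y : Type} [Fintype X] [Fintype Y]

theorem PI_prod {G : SimpleGraph X} {H : SimpleGraph Y} {g : ℝ} (hg : 0 ≤ g) (hG : PI G g) (hH : PI H g) :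
    PI (G □ H) (g / 2) := by
  intro f
  have hE : En (G □ H) f = ∑ y, En G (fun x => f (x, y)) + ∑ x, En H (fun y => f (x, y)) := by
    unfold En
    rw [Fintype.sum_prod_type]
    have h1 : ∀ (x : X) (y : Y), ∑ q : X × Y, (if (G □ H).Adj (x, y) q then (f (x, y) - f q) ^ 2 else 0) =
        ∑ x', (if G.Adj x x' then (f (x, y) - f (x', y)) ^ 2 else 0) +
        ∑ y', (if H.Adj y y' then (f (x, y) - f (x, y')) ^ 2 else 0) := by
      intro x y
      have h2 : ∀ q : X × Y, (if (G □ H).Adj (x, y) q then (f (x, y) - f q) ^ 2 else 0) =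
          (if q.2 = y then (if G.Adj x q.1 then (f (x, y) - f (q.1, y)) ^ 2 else 0) else 0) +
          (if q.1 = x then (if H.Adj y q.2 then (f (x, y) - f (x, q.2)) ^ 2 else 0) else 0) := by
        rintro ⟨x', y'⟩
        simp only [SimpleGraph.boxProd_adj]
        by_cases hx : x' = x
        · subst hx
          by_cases hy : y' = y
          · subst hy; simp
          · have hy' : ¬ y = y' := fun h => hy h.symm
            simp [hy, hy']
        · have hx' : ¬ x = x' := fun h => hx h.symm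
          by_cases hy : y' = y
          · subst hy; simp [hx, hx']
          · have hy' : ¬ y = y' := fun h => hy h.symm
            simp [hy, hy', hx, hx']
      simp only [h2, Finset.sum_add_distrib]
      congr 1
      · rw [Fintype.sum_prod_type]
        exact Finset.sum_congr rfl fun x' _ => by simp
      · rw [Fintype.sum_prod_type, Finset.sum_comm]
        exact Finset.sum_congr rfl fun y' _ => by simp
    simp only [h1, Finset.sum_add_distrib]
    congr 1
    rw [Finset.sum_comm]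
  have hV : Va f ≤ 2 * (Fintype.card Y * ∑ y, Va (fun x => f (x, y))) +
      2 * (Fintype.card X * ∑ x, Va (fun y => f (x, y))) := by
    unfold Va
    have h1 : ∑ p : X × Y, ∑ q : X × Y, (f p - f q) ^ 2 ≤
        ∑ p : X × Y, ∑ q : X × Y, (2 * (f (p.1, p.2) - f (q.1, p.2)) ^ 2 +
          2 * (f (q.1, p.2) - f (q.1, q.2)) ^ 2) := by
      refine Finset.sum_le_sum fun p _ => Finset.sum_le_sum fun q _ => ?_
      obtain ⟨x, y⟩ := p
      obtain ⟨x', y'⟩ := q
      simp only
      nlinarith [sq_nonneg ((f (x, y) - f (x', y)) - (f (x', y) - f (x', y')))]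
    refine h1.trans (le_of_eq ?_)
    simp only [Finset.sum_add_distrib]
    congr 1
    · rw [Fintype.sum_prod_type]
      have : ∀ (x : X) (y : Y), ∑ q : X × Y, 2 * (f (x, y) - f (q.1, y)) ^ 2 =
          2 * (Fintype.card Y * ∑ x', (f (x, y) - f (x', y)) ^ 2) := by
        intro x y
        rw [Fintype.sum_prod_type]
        simp only [Finset.sum_const, Finset.card_univ, nsmul_eq_mul]
        rw [← Finset.mul_sum, ← Finset.mul_sum]; ring
      simp only [this]
      rw [Finset.sum_comm]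
      simp only [← Finset.mul_sum]
    · have h2 : ∑ p : X × Y, ∑ q : X × Y, 2 * (f (q.1, p.2) - f (q.1, q.2)) ^ 2 =
          ∑ y : Y, (Fintype.card X : ℝ) * ∑ x' : X, ∑ y' : Y, 2 * (f (x', y) - f (x', y')) ^ 2 := by
        rw [Fintype.sum_prod_type, Finset.sum_comm]
        refine Finset.sum_congr rfl fun y _ => ?_
        simp only
        rw [Finset.sum_const, Finset.card_univ, nsmul_eq_mul]
        congr 1
        rw [Fintype.sum_prod_type]
      rw [h2, ← Finset.mul_sum, Finset.sum_comm]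
      simp only [← Finset.mul_sum]
      ring
  rw [hE]
  have h1 : g * ∑ y, Va (fun x => f (x, y)) ≤ Fintype.card X * ∑ y, En G (fun x => f (x, y)) := by
    rw [Finset.mul_sum, Finset.mul_sum]
    exact Finset.sum_le_sum fun y _ => hG _
  have h2 : g * ∑ x, Va (fun y => f (x, y)) ≤ Fintype.card Y * ∑ x, En H (fun y => f (x, y)) := by
    rw [Finset.mul_sum, Finset.mul_sum]
    exact Finset.sum_le_sum fun x _ => hH _
  have h3 := mul_le_mul_of_nonneg_left hV (show 0 ≤ g / 2 by positivity)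
  have hX0 : (0:ℝ) ≤ Fintype.card X := Nat.cast_nonneg _
  have hY0 : (0:ℝ) ≤ Fintype.card Y := Nat.cast_nonneg _
  have h4 := mul_le_mul_of_nonneg_left h1 hY0
  have h5 := mul_le_mul_of_nonneg_left h2 hX0
  rw [Fintype.card_prod]
  push_cast
  nlinarith

theorem PI_mono {G : SimpleGraph X} {g g' : ℝ} (h : PI G g) (hg : g' ≤ g) : PI G g' := fun f =>
  (mul_le_mul_of_nonneg_right hg (Va_nonneg f)).trans (h f)

end prod
end Pool.Agent.J6H46.QI
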