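import Pool.Agent.J6H46.QI.Word
import Pool.Agent.J6H46.QI.Chain2

/-!
# The lamp system made of blocks
-/

set_option autoImplicit false
set_option linter.unusedSectionVars false
open Classical

namespace Pool.Agent.J6H46.QI
open Pool.H521RB

section
variable {M : ℕ} {J : Fin M → ℕ} {n : ℕ} [NeZero n] (b : ZMod n → ZMod 2) {Y : Type} [Fintype Y]
  (blk : Y → Option (Ix M))

/-- toggle one slot -/
noncomputable def stp (η : Y → ZMod n → ZMod 2) (z : Y × ZMod n) (ε : Bool) : Y → ZMod n → ZMod 2 :=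
  Function.update η z.1 (η z.1 + col b (z.2, ε))

/-- blocks of a cluster -/
noncomputable def Bk (p : Ix M) : Finset Y := Finset.univ.filter fun y => blk y = some p

/-- level vector -/
noncomputable def lvl (η : Y → ZMod n → ZMod 2) (p : Ix M) : ℕ := ∑ y ∈ Bk blk p, wl b (η y)

theorem lvl_congr {η η' : Y → ZMod n → ZMod 2} (h : ∀ y, blk y ≠ none → η y = η' y) :
    lvl b blk η = lvl b blk η' := by
  funext p
  unfold lvl
  refine Finset.sum_congr rfl fun y hy => ?_
  rw [h y]
  have : blk y = some p := (Finset.mem_filter.mp hy).2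
  rw [this]; simp

theorem lvl_stp_same {η : Y → ZMod n → ZMod 2} {z : Y × ZMod n} {ε : Bool} {p : Ix M}
    (h : blk z.1 = some p) :
    lvl b blk (stp b η z ε) p + wl b (η z.1) = lvl b blk η p + wl b (η z.1 + col b (z.2, ε)) := by
  unfold lvl
  have hz : z.1 ∈ Bk blk p := Finset.mem_filter.mpr ⟨Finset.mem_univ _, h⟩
  rw [← Finset.add_sum_erase _ _ hz, ← Finset.add_sum_erase (Bk blk p) (fun y => wl b (η y)) hz]
  have h1 : ∑ y ∈ (Bk blk p).erase z.1, wl b (stp b η z ε y) = ∑ y ∈ (Bk blk p).erase z.1, wl b (η y) := by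
    refine Finset.sum_congr rfl fun y hy => ?_
    unfold stp
    rw [Function.update_of_ne (Finset.ne_of_mem_erase hy)]
  rw [h1]
  unfold stp
  rw [Function.update_self]
  omega

theorem lvl_stp_ne {η : Y → ZMod n → ZMod 2} {z : Y × ZMod n} {ε : Bool} {p q : Ix M}
    (h : blk z.1 = some p) (hq : q ≠ p) :
    lvl b blk (stp b η z ε) q = lvl b blk η q := by
  unfold lvl
  refine Finset.sum_congr rfl fun y hy => ?_
  have hy' : blk y = some q := (Finset.mem_filter.mp hy).2
  unfold stp
  rw [Function.update_of_ne]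
  rintro rfl
  rw [h] at hy'
  exact hq (Option.some.inj hy').symm

theorem card_slots_filter (p : Ix M) (P : Y → ZMod n × Bool → Prop) :
    ((Finset.univ.filter fun a : (Y × ZMod n) × Bool => blk a.1.1 = some p ∧ P a.1.1 (a.1.2, a.2)).card) =
      ∑ y ∈ Bk blk p, (Finset.univ.filter fun e : ZMod n × Bool => P y e).card := by
  rw [← Finset.card_sigma]
  refine Finset.card_bij (fun a _ => ⟨a.1.1, (a.1.2, a.2)⟩) ?_ ?_ ?_
  · rintro ⟨⟨y, c⟩, ε⟩ h
    obtain ⟨h1, h2⟩ := (Finset.mem_filter.mp h).2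
    exact Finset.mem_sigma.mpr ⟨Finset.mem_filter.mpr ⟨Finset.mem_univ _, h1⟩,
      Finset.mem_filter.mpr ⟨Finset.mem_univ _, h2⟩⟩
  · rintro ⟨⟨y, c⟩, ε⟩ _ ⟨⟨y', c'⟩, ε'⟩ _ h
    simp only [Sigma.mk.injEq] at h
    obtain ⟨h1, h2⟩ := h
    subst h1
    have := eq_of_heq h2
    simp only [Prod.mk.injEq] at this
    simp [this]
  · rintro ⟨y, ⟨c, ε⟩⟩ h
    obtain ⟨h1, h2⟩ := Finset.mem_sigma.mp h
    exact ⟨((y, c), ε), Finset.mem_filter.mpr ⟨Finset.mem_univ _, (Finset.mem_filter.mp h1).2,
      (Finset.mem_filter.mp h2).2⟩, rfl⟩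

/-- the lamp system -/
noncomputable def sys (hb : ¬ Bad n b) (hn : 100 ≤ n)
    (hk : ∀ p : Ix M, 2 * (n:ℝ) * ((Bk blk p).card : ℝ) = Sc * J p.1) :
    LS J (Y × ZMod n) (Y → ZMod n → ZMod 2) where
  st := stp b
  n := lvl b blk
  clu z := blk z.1
  stay η z ε h := by
    apply lvl_congr
    intro y hy
    unfold stp
    rw [Function.update_of_ne]
    rintro rfl
    exact hy h
  far η z ε z' ε' h := by
    apply lvl_congr
    intro y hy
    have h1 : ∀ y, blk y ≠ none → stp b η z ε y = η y := by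
      intro y hy
      unfold stp
      rw [Function.update_of_ne]
      rintro rfl
      exact hy h
    unfold stp at h1 ⊢
    by_cases hy' : y = z'.1
    · subst hy'
      rw [Function.update_self, Function.update_self, h1 _ hy]
    · rw [Function.update_of_ne hy', Function.update_of_ne hy', h1 _ hy]
  move η z ε p h := by
    refine ⟨fun q hq => lvl_stp_ne b blk h hq, ?_⟩
    have h1 := lvl_stp_same b blk (η := η) (ε := ε) h
    have h2 := wl_add b (η z.1) (z.2, ε)
    have h3 := wl_add' b (η z.1) (z.2, ε)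
    omega
  rates η := by
    have hup : ∀ p, ((upS (stp b) (lvl b blk) (fun z : Y × ZMod n => blk z.1) η p).card) =
        ∑ y ∈ Bk blk p, (uS b (η y)).card := by
      intro p
      unfold upS uS
      refine Eq.trans ?_ ((card_slots_filter blk p (fun y e => wl b (η y + col b e) =
        wl b (η y) + 1)).trans (Finset.sum_congr rfl fun y _ => by congr!))
      congr 1
      ext a
      simp only [Finset.mem_filter, Finset.mem_univ, true_and]
      refine and_congr_right fun h => ?_
      have h1 := lvl_stp_same b blk (η := η) (z := a.1) (ε := a.2) h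
      constructor <;> intro h2 <;> omega
    have hdn : ∀ p, ((dnS (stp b) (lvl b blk) (fun z : Y × ZMod n => blk z.1) η p).card) =
        ∑ y ∈ Bk blk p, (dS b (η y)).card := by
      intro p
      unfold dnS dS
      refine Eq.trans ?_ ((card_slots_filter blk p (fun y e => wl b (η y + col b e) + 1 =
        wl b (η y))).trans (Finset.sum_congr rfl fun y _ => by congr!))
      congr 1
      ext a
      simp only [Finset.mem_filter, Finset.mem_univ, true_and]
      refine and_congr_right fun h => ?_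
      have h1 := lvl_stp_same b blk (η := η) (z := a.1) (ε := a.2) h
      constructor <;> intro h2 <;> omega
    have hUge : ∀ p, 2 * n * (Bk blk p).card ≤ ∑ y ∈ Bk blk p, (uS b (η y)).card +
        600 * lvl b blk η p := by
      intro p
      unfold lvl
      rw [Finset.mul_sum, ← Finset.sum_add_distrib, mul_comm, ← smul_eq_mul, ← Finset.sum_const]
      exact Finset.sum_le_sum fun y _ => uS_compl b hb hn (η y)
    have hUD : ∀ p, ∑ y ∈ Bk blk p, (uS b (η y)).card + ∑ y ∈ Bk blk p, (dS b (η y)).card ≤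
        2 * n * (Bk blk p).card := by
      intro p
      rw [← Finset.sum_add_distrib, mul_comm, ← smul_eq_mul, ← Finset.sum_const]
      exact Finset.sum_le_sum fun y _ => ud_le b (η y)
    have hDge : ∀ p, lvl b blk η p ≤ ∑ y ∈ Bk blk p, (dS b (η y)).card := by
      intro p
      exact Finset.sum_le_sum fun y _ => dS_ge b (η y)
    refine ⟨fun p => Nat.cast_nonneg _, fun p => Nat.cast_nonneg _, fun p => ?_, fun p => ?_,
      fun p => ?_, fun p => ?_⟩
    · rw [hup, hdn, ← hk p]
      exact_mod_cast hUD p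
    · rw [hdn]; exact_mod_cast hDge p
    · rw [hdn]
      have h1 := hUge p
      have h2 := hUD p
      have : ∑ y ∈ Bk blk p, (dS b (η y)).card ≤ 600 * lvl b blk η p := by omega
      exact_mod_cast this
    · rw [hup, ← hk p]
      have h1 := hUge p
      have h2 : (2 * (n:ℝ) * (Bk blk p).card) ≤ ((∑ y ∈ Bk blk p, (uS b (η y)).card : ℕ) : ℝ) +
          600 * lvl b blk η p := by exact_mod_cast h1
      linarith
  size p := by
    rw [← hk p]
    have : (Finset.univ.filter fun z : Y × ZMod n => blk z.1 = some p) =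
        (Bk blk p) ×ˢ (Finset.univ : Finset (ZMod n)) := by
      ext ⟨y, c⟩
      unfold Bk
      simp
    rw [this, Finset.card_product, Finset.card_univ, ZMod.card]
    push_cast
    exact le_of_eq (by ring)

/-- stationary measure of low levels is small -/
theorem low_small (p : Ix M) (m : ℕ) (hm : (2 ^ 34 : ℕ) * m = n * (Bk blk p).card) (hm0 : 0 < m) :
    10 * ((Finset.univ.filter fun η : Y → ZMod n → ZMod 2 => lvl b blk η p < 16 * m).card : ℝ) ≤
      Fintype.card (Y → ZMod n → ZMod 2) := by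
  set N : ℝ := (2:ℝ) ^ n with hN
  have hNpos : 0 < N := by positivity
  have hcard : (Fintype.card (Y → ZMod n → ZMod 2) : ℝ) = N ^ (Fintype.card Y) := by
    rw [Fintype.card_fun, card_fn, hN]; push_cast; rfl
  -- weights
  let φ : Y → (ZMod n → ZMod 2) → ℝ := fun y v => if y ∈ Bk blk p then (1/100 : ℝ) ^ (wl b v) else 1
  have h1 : ((Finset.univ.filter fun η : Y → ZMod n → ZMod 2 => lvl b blk η p < 16 * m).card : ℝ) ≤
      100 ^ (16 * m) * ∑ η : Y → ZMod n → ZMod 2, ∏ y, φ y (η y) := by
    rw [Finset.card_filter, Finset.mul_sum]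
    push_cast
    refine Finset.sum_le_sum fun η _ => ?_
    have hprod : ∏ y, φ y (η y) = (1/100 : ℝ) ^ (lvl b blk η p) := by
      unfold lvl
      rw [← Finset.prod_pow_eq_pow_sum]
      show ∏ y, (if y ∈ Bk blk p then (1/100 : ℝ) ^ (wl b (η y)) else 1) = _
      rw [Finset.prod_ite_mem, Finset.univ_inter]
    rw [hprod]
    split_ifs with h
    · rw [one_div, inv_pow, ← div_eq_mul_inv, le_div_iff₀ (by positivity), one_mul]
      exact pow_le_pow_right₀ (by norm_num) h.le
    · positivity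
  have h2 : ∑ η : Y → ZMod n → ZMod 2, ∏ y, φ y (η y) = ∏ y, ∑ v, φ y v := by
    have := Finset.prod_univ_sum (fun _ : Y => (Finset.univ : Finset (ZMod n → ZMod 2))) φ
    rw [Fintype.piFinset_univ] at this
    exact this.symm
  have h3 : ∏ y, ∑ v, φ y v ≤ ∏ y : Y, (N * (if y ∈ Bk blk p then (2/3 : ℝ) ^ n else 1)) := by
    refine Finset.prod_le_prod (fun y _ => Finset.sum_nonneg fun v _ => ?_) fun y _ => ?_
    · show 0 ≤ (if y ∈ Bk blk p then (1/100 : ℝ) ^ (wl b v) else 1)
      split_ifs <;> positivity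
    · show ∑ v, (if y ∈ Bk blk p then (1/100 : ℝ) ^ (wl b v) else 1) ≤ _
      split_ifs with h
      · refine (wl_gen b (1/100) (by norm_num)).trans ?_
        rw [pow_mul, hN, ← mul_pow]
        exact pow_le_pow_left₀ (by norm_num) (by norm_num) _
      · rw [Finset.sum_const, Finset.card_univ, card_fn, nsmul_eq_mul, hN]
        push_cast; exact le_rfl
  have h4 : ∏ y : Y, (N * (if y ∈ Bk blk p then (2/3 : ℝ) ^ n else 1)) =
      N ^ (Fintype.card Y) * (2/3 : ℝ) ^ (2 ^ 34 * m) := by
    rw [Finset.prod_mul_distrib, Finset.prod_const, Finset.card_univ, Finset.prod_ite_mem,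
      Finset.univ_inter, Finset.prod_const, ← pow_mul, ← pow_mul, hm]
  have h5 : (100:ℝ) ^ (16 * m) * (2/3 : ℝ) ^ (2 ^ 34 * m) ≤ 1 / 10 := by
    have e1 : (2/3 : ℝ) ^ (2 ^ 34 * m) ≤ (2/3 : ℝ) ^ (256 * m) :=
      pow_le_pow_of_le_one (by norm_num) (by norm_num) (by
        have : 256 ≤ 2 ^ 34 := by norm_num
        exact Nat.mul_le_mul_right _ this)
    calc (100:ℝ) ^ (16 * m) * (2/3 : ℝ) ^ (2 ^ 34 * m) ≤ (100:ℝ) ^ (16 * m) * (2/3 : ℝ) ^ (256 * m) := by
          gcongr
      _ = (100 ^ 16 * (2/3 : ℝ) ^ 256) ^ m := by rw [mul_pow, pow_mul, pow_mul]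
      _ ≤ (1/10) ^ m := pow_le_pow_left₀ (by positivity) (by norm_num) _
      _ ≤ (1/10) ^ 1 := pow_le_pow_of_le_one (by norm_num) (by norm_num) hm0
      _ = 1/10 := by norm_num
  rw [hcard]
  have h6 : ((Finset.univ.filter fun η : Y → ZMod n → ZMod 2 => lvl b blk η p < 16 * m).card : ℝ) ≤
      N ^ (Fintype.card Y) * (100 ^ (16 * m) * (2/3 : ℝ) ^ (2 ^ 34 * m)) := by
    refine h1.trans ?_
    rw [h2]
    have := mul_le_mul_of_nonneg_left (h3.trans h4.le) (show (0:ℝ) ≤ 100 ^ (16 * m) by positivity)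
    refine this.trans (le_of_eq ?_)
    ring
  have h7 := mul_le_mul_of_nonneg_left h5 (show (0:ℝ) ≤ N ^ (Fintype.card Y) by positivity)
  linarith

end
end Pool.Agent.J6H46.QI
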