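import Pool.Agent.J6H46.QI.Lamp

/-!
# Characters of the lamp group, number of killed positions
-/

set_option autoImplicit false
set_option linter.unusedSectionVars false
open Classical

namespace Pool.Agent.J6H46.QI

/-- sign -/
noncomputable def sgn (z : ZMod 2) : ℝ := if z = 0 then 1 else -1

theorem sgn_zero : sgn 0 = 1 := by unfold sgn; simp
theorem sgn_add (a b : ZMod 2) : sgn (a + b) = sgn a * sgn b := by
  have : ∀ a b : ZMod 2, (a + b = 0 ↔ (a = 0 ∧ b = 0) ∨ (a ≠ 0 ∧ b ≠ 0)) := by decide
  unfold sgn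
  by_cases ha : a = 0 <;> by_cases hb : b = 0 <;> simp [this, ha, hb]
theorem sgn_abs (a : ZMod 2) : |sgn a| = 1 := by
  unfold sgn; split_ifs <;> simp

section
variable {n : ℕ} [NeZero n] (b : ZMod n → ZMod 2) {Y : Type} [Fintype Y]

/-- pairing of one block -/
def pr (u v : ZMod n → ZMod 2) : ZMod 2 := ∑ c, u c * v c

theorem pr_add (u v w : ZMod n → ZMod 2) : pr u (v + w) = pr u v + pr u w := by
  unfold pr
  rw [← Finset.sum_add_distrib]
  exact Finset.sum_congr rfl fun c _ => by rw [Pi.add_apply]; ring

theorem pr_add_left (u v w : ZMod n → ZMod 2) : pr (u + v) w = pr u w + pr v w := by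
  unfold pr
  rw [← Finset.sum_add_distrib]
  exact Finset.sum_congr rfl fun c _ => by rw [Pi.add_apply]; ring

/-- character of the lamp group -/
noncomputable def chi (u η : LA n Y) : ℝ := sgn (∑ y, pr (u y) (η y))

theorem chi_add (u η ζ : LA n Y) : chi u (η + ζ) = chi u η * chi u ζ := by
  unfold chi
  rw [← sgn_add, ← Finset.sum_add_distrib]
  congr 1
  exact Finset.sum_congr rfl fun y _ => by rw [Pi.add_apply, pr_add]

theorem chi_add_left (u v η : LA n Y) : chi (u + v) η = chi u η * chi v η := by
  unfold chi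
  rw [← sgn_add, ← Finset.sum_add_distrib]
  congr 1
  exact Finset.sum_congr rfl fun y _ => by rw [Pi.add_apply, pr_add_left]

theorem chi_abs (u η : LA n Y) : |chi u η| = 1 := sgn_abs _

theorem chi_zero_right (u : LA n Y) : chi u 0 = 1 := by
  unfold chi pr; simp [sgn_zero]

theorem chi_zero_left (η : LA n Y) : chi 0 η = 1 := by
  unfold chi pr; simp [sgn_zero]

theorem chi_sum (η : LA n Y) : ∑ u, chi u η = if η = 0 then (Fintype.card (LA n Y) : ℝ) else 0 := by
  split_ifs with h
  · subst h
    simp only [chi_zero_right, Finset.sum_const, Finset.card_univ, nsmul_eq_mul, mul_one]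
  · obtain ⟨y, hy⟩ := Function.ne_iff.mp h
    obtain ⟨c, hc⟩ := Function.ne_iff.mp hy
    have hc' : η y c ≠ 0 := hc
    let e : LA n Y := Pi.single y (Pi.single c 1)
    have he : chi e η = -1 := by
      unfold chi
      have h1 : ∑ y', pr (e y') (η y') = η y c := by
        rw [Finset.sum_eq_single y]
        · rw [show e y = Pi.single c 1 from Pi.single_eq_same y _]
          unfold pr
          rw [Finset.sum_eq_single c]
          · rw [Pi.single_eq_same, one_mul]
          · intro c' _ hne; rw [Pi.single_eq_of_ne hne, zero_mul]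
          · intro h; exact absurd (Finset.mem_univ _) h
        · intro y' _ hne
          rw [show e y' = 0 from Pi.single_eq_of_ne hne _]
          unfold pr; simp
        · intro h; exact absurd (Finset.mem_univ _) h
      rw [h1]
      unfold sgn
      rw [if_neg hc']
    have h2 : ∑ u, chi u η = ∑ u, chi (u + e) η :=
      (Equiv.sum_comp (Equiv.addRight e) (fun u => chi u η)).symm
    simp only [chi_add_left, he] at h2
    rw [← Finset.sum_mul] at h2
    linarith

/-- lamp increment -/
noncomputable def hc (z : Y × ZMod n) (ε : Bool) : LA n Y := Pi.single z.1 (col b (z.2, ε))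

theorem stp_eq (η : LA n Y) (z : Y × ZMod n) (ε : Bool) : stp b η z ε = η + hc b z ε := by
  unfold stp hc
  funext y
  by_cases h : y = z.1
  · subst h
    rw [Function.update_self, Pi.add_apply, Pi.single_eq_same]
  · rw [Function.update_of_ne h, Pi.add_apply, Pi.single_eq_of_ne h, add_zero]

theorem chi_hc (u : LA n Y) (z : Y × ZMod n) (ε : Bool) :
    chi u (hc b z ε) = sgn (pr (u z.1) (col b (z.2, ε))) := by
  unfold chi hc
  congr 1
  rw [Finset.sum_eq_single z.1]
  · rw [Pi.single_eq_same]
  · intro y _ hne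
    rw [Pi.single_eq_of_ne hne]
    unfold pr; simp
  · intro h; exact absurd (Finset.mem_univ _) h

/-- killed positions -/
noncomputable def Kl (u : LA n Y) : Finset (Y × ZMod n) :=
  Finset.univ.filter fun z => ∃ ε, pr (u z.1) (col b (z.2, ε)) ≠ 0

/-- number of active blocks -/
noncomputable def act (u : LA n Y) : ℕ := (Finset.univ.filter fun y => u y ≠ 0).card

theorem pr_col_false (v : ZMod n → ZMod 2) (c : ZMod n) : pr v (col b (c, false)) = v c := by
  unfold pr col
  simp only [Bool.false_eq_true, if_false]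
  rw [Finset.sum_eq_single c]
  · rw [Pi.single_eq_same, mul_one]
  · intro c' _ hne; rw [Pi.single_eq_of_ne hne, mul_zero]
  · intro h; exact absurd (Finset.mem_univ _) h

theorem pr_col_true (v : ZMod n → ZMod 2) (c : ZMod n) :
    pr v (col b (c, true)) = conv (fun x => v (-x)) b (-c) := by
  unfold pr col conv
  simp only [if_true]
  rw [← Equiv.sum_comp (Equiv.neg (ZMod n))]
  refine Finset.sum_congr rfl fun x _ => ?_
  simp only [Equiv.neg_apply]
  congr 2
  ring

/-- each active block has many killed positions -/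
theorem block_killed (hb : ¬ Bad n b) {v : ZMod n → ZMod 2} (hv : v ≠ 0) :
    n ≤ 100 * (Finset.univ.filter fun c : ZMod n => ∃ ε, pr v (col b (c, ε)) ≠ 0).card := by
  by_contra hcon
  apply hb
  have hneg : ∀ (f : ZMod n → ZMod 2), wt (fun x => f (-x)) = wt f := by
    intro f
    unfold wt
    refine Finset.card_bij (fun x _ => -x) ?_ ?_ ?_
    · intro x hx
      exact Finset.mem_filter.mpr ⟨Finset.mem_univ _, (Finset.mem_filter.mp hx).2⟩
    · intro x _ y _ h; exact neg_injective h
    · intro x hx
      refine ⟨-x, Finset.mem_filter.mpr ⟨Finset.mem_univ _, ?_⟩, neg_neg x⟩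
      show f (- -x) ≠ 0
      rw [neg_neg]; exact (Finset.mem_filter.mp hx).2
  refine ⟨fun x => v (-x), ?_, ?_, ?_⟩
  · intro h
    apply hv
    funext x
    have := congrFun h (-x)
    simpa using this
  · rw [hneg]
    have : wt v ≤ (Finset.univ.filter fun c : ZMod n => ∃ ε, pr v (col b (c, ε)) ≠ 0).card := by
      unfold wt
      apply Finset.card_le_card
      intro c hc
      refine Finset.mem_filter.mpr ⟨Finset.mem_univ _, false, ?_⟩
      rw [pr_col_false]; exact (Finset.mem_filter.mp hc).2
    omega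
  · rw [← hneg]
    have : wt (fun x => conv (fun x => v (-x)) b (-x)) ≤
        (Finset.univ.filter fun c : ZMod n => ∃ ε, pr v (col b (c, ε)) ≠ 0).card := by
      unfold wt
      apply Finset.card_le_card
      intro c hc
      refine Finset.mem_filter.mpr ⟨Finset.mem_univ _, true, ?_⟩
      rw [pr_col_true]; exact (Finset.mem_filter.mp hc).2
    omega

theorem Kl_card (hb : ¬ Bad n b) (u : LA n Y) : n * act u ≤ 100 * (Kl b u).card := by
  have h1 : ((Finset.univ.filter fun y => u y ≠ 0).sigma (fun y =>
      Finset.univ.filter fun c : ZMod n => ∃ ε, pr (u y) (col b (c, ε)) ≠ 0)).card ≤ (Kl b u).card := by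
    refine Finset.card_le_card_of_injOn (fun a => (a.1, a.2)) ?_ ?_
    · rintro ⟨y, c⟩ h
      have h' := Finset.mem_sigma.mp (Finset.mem_coe.mp h)
      exact Finset.mem_coe.mpr (Finset.mem_filter.mpr ⟨Finset.mem_univ _, (Finset.mem_filter.mp h'.2).2⟩)
    · rintro ⟨y, c⟩ _ ⟨y', c'⟩ _ h
      simp only [Prod.mk.injEq] at h
      obtain ⟨rfl, rfl⟩ := h
      rfl
  rw [Finset.card_sigma] at h1
  have h2 : ∑ y ∈ Finset.univ.filter (fun y => u y ≠ 0), n ≤
      ∑ y ∈ Finset.univ.filter (fun y => u y ≠ 0), 100 * (Finset.univ.filter fun c : ZMod n =>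
        ∃ ε, pr (u y) (col b (c, ε)) ≠ 0).card :=
    Finset.sum_le_sum fun y hy => block_killed b hb (Finset.mem_filter.mp hy).2
  rw [Finset.sum_const, smul_eq_mul, ← Finset.mul_sum] at h2
  unfold act
  rw [mul_comm]
  omega

/-- generating function of the number of active blocks -/
theorem act_gen (x : ℝ) : ∑ u : LA n Y, x ^ act u = (1 + (2 ^ n - 1) * x) ^ Fintype.card Y := by
  have h1 : ∀ u : LA n Y, x ^ act u = ∏ y, (if u y ≠ 0 then x else 1) := by
    intro u
    unfold act
    rw [Finset.prod_ite, Finset.prod_const, Finset.prod_const_one, mul_one]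
  rw [Finset.sum_congr rfl fun u _ => h1 u]
  have h2 := Finset.prod_univ_sum (fun _ : Y => (Finset.univ : Finset (ZMod n → ZMod 2)))
    (fun _ v => if v ≠ 0 then x else (1:ℝ))
  rw [Fintype.piFinset_univ] at h2
  rw [← h2]
  have h3 : ∑ v : ZMod n → ZMod 2, (if v ≠ 0 then x else (1:ℝ)) = 1 + (2 ^ n - 1) * x := by
    rw [← Finset.add_sum_erase _ _ (Finset.mem_univ (0 : ZMod n → ZMod 2))]
    rw [if_neg (by simp)]
    congr 1
    have h4 : ∑ v ∈ Finset.univ.erase (0 : ZMod n → ZMod 2), (if v ≠ 0 then x else (1:ℝ)) =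
        ∑ v ∈ Finset.univ.erase (0 : ZMod n → ZMod 2), x :=
      Finset.sum_congr rfl fun v hv => if_pos (Finset.ne_of_mem_erase hv)
    rw [h4, Finset.sum_const, Finset.card_erase_of_mem (Finset.mem_univ _), Finset.card_univ, card_fn,
      nsmul_eq_mul, Nat.cast_sub Nat.one_le_two_pow]
    push_cast; ring
  rw [Finset.prod_const, h3, Finset.card_univ]

end
end Pool.Agent.J6H46.QI
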