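import Pool.Agent.J6H46.QI.Code2

/-!
# Word length in one block
-/

set_option autoImplicit false
set_option linter.unusedSectionVars false
open Classical

namespace Pool.Agent.J6H46.QI

section
variable {n : ℕ} [NeZero n]

/-- columns of the quasi-cyclic code -/
noncomputable def col (b : ZMod n → ZMod 2) (e : ZMod n × Bool) : ZMod n → ZMod 2 :=
  if e.2 then fun x => b (x - e.1) else Pi.single e.1 1

variable (b : ZMod n → ZMod 2)

theorem dbl2 (v : ZMod n → ZMod 2) : v + v = 0 := by
  funext x
  have : ∀ z : ZMod 2, z + z = 0 := by decide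
  exact this _

theorem add_add_self (v u : ZMod n → ZMod 2) : v + u + u = v := by
  rw [add_assoc, dbl2, add_zero]

theorem z2_ne (z : ZMod 2) (h : z ≠ 0) : z = 1 := by revert h; revert z; decide

/-- small relations are trivial -/
theorem no_rel (hb : ¬ Bad n b) (S : Finset (ZMod n × Bool)) (hS : 100 * S.card ≤ n)
    (h : ∑ e ∈ S, col b e = 0) : S = ∅ := by
  let g : ZMod n → ZMod 2 := fun c => if (c, true) ∈ S then 1 else 0
  let f : ZMod n → ZMod 2 := fun c => if (c, false) ∈ S then 1 else 0
  have hsum : ∑ e ∈ S, col b e = f + conv g b := by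
    funext x
    rw [Finset.sum_apply, Pi.add_apply]
    rw [← Finset.sum_filter_add_sum_filter_not S (fun e => e.2 = false)]
    congr 1
    · have h1 : ∑ e ∈ S.filter (fun e => e.2 = false), col b e x =
          ∑ e ∈ S.filter (fun e => e.2 = false), (if e = (x, false) then (1 : ZMod 2) else 0) := by
        refine Finset.sum_congr rfl fun e he => ?_
        obtain ⟨c, ε⟩ := e
        have : ε = false := (Finset.mem_filter.mp he).2
        subst this
        unfold col
        simp only [Bool.false_eq_true, if_false, Prod.mk.injEq, and_true]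
        rw [Pi.single_apply]
        by_cases hx : x = c
        · rw [if_pos hx, if_pos hx.symm]
        · rw [if_neg hx, if_neg (Ne.symm hx)]
      rw [h1, Finset.sum_ite_eq']
      show _ = (if (x, false) ∈ S then (1:ZMod 2) else 0)
      simp
    · show _ = ∑ j, (if (j, true) ∈ S then (1:ZMod 2) else 0) * b (x - j)
      simp only [ite_mul, one_mul, zero_mul]
      rw [← Finset.sum_filter]
      refine Finset.sum_bij (fun e _ => e.1) ?_ ?_ ?_ ?_
      · rintro ⟨c, ε⟩ he
        obtain ⟨h1, h2⟩ := Finset.mem_filter.mp he
        have : ε = true := by simpa using h2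
        subst this
        exact Finset.mem_filter.mpr ⟨Finset.mem_univ _, h1⟩
      · rintro ⟨c, ε⟩ he ⟨c', ε'⟩ he' hc
        have h2 : ε = true := by simpa using (Finset.mem_filter.mp he).2
        have h3 : ε' = true := by simpa using (Finset.mem_filter.mp he').2
        simp only at hc
        rw [hc, h2, h3]
      · intro c hc
        exact ⟨(c, true), Finset.mem_filter.mpr ⟨(Finset.mem_filter.mp hc).2, by simp⟩, rfl⟩
      · rintro ⟨c, ε⟩ he
        have h2 : ε = true := by simpa using (Finset.mem_filter.mp he).2
        subst h2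
        rfl
  have hcv : conv g b = f := by
    have h1 : f + conv g b = 0 := hsum ▸ h
    have h2 := congrArg (fun v => v + conv g b) h1
    simp only [zero_add] at h2
    rw [add_add_self] at h2
    exact h2.symm
  have hwg : wt g ≤ S.card := by
    unfold wt
    refine Finset.card_le_card_of_injOn (fun c => (c, true)) ?_ ?_
    · intro c hc
      have : g c ≠ 0 := (Finset.mem_filter.mp hc).2
      show (c, true) ∈ S
      by_contra hn
      exact this (if_neg hn)
    · intro c _ c' _ h
      exact (Prod.mk.inj h).1
  have hwf : wt f ≤ S.card := by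
    unfold wt
    refine Finset.card_le_card_of_injOn (fun c => (c, false)) ?_ ?_
    · intro c hc
      have : f c ≠ 0 := (Finset.mem_filter.mp hc).2
      show (c, false) ∈ S
      by_contra hn
      exact this (if_neg hn)
    · intro c _ c' _ h
      exact (Prod.mk.inj h).1
  have hg0 : g = 0 := by
    by_contra hg
    exact hb ⟨g, hg, by omega, by rw [hcv]; omega⟩
  have hf0 : f = 0 := by
    rw [← hcv, hg0]; funext x; simp [conv]
  rw [Finset.eq_empty_iff_forall_notMem]
  rintro ⟨c, ε⟩ he
  cases ε
  · have := congrFun hf0 c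
    have h1 : f c = 1 := if_pos he
    rw [h1] at this
    exact one_ne_zero this
  · have := congrFun hg0 c
    have h1 : g c = 1 := if_pos he
    rw [h1] at this
    exact one_ne_zero this

/-- word length -/
noncomputable def wl (v : ZMod n → ZMod 2) : ℕ :=
  sInf {j | ∃ S : Finset (ZMod n × Bool), S.card = j ∧ ∑ e ∈ S, col b e = v}

theorem wl_ne (v : ZMod n → ZMod 2) :
    {j | ∃ S : Finset (ZMod n × Bool), S.card = j ∧ ∑ e ∈ S, col b e = v}.Nonempty := by
  refine ⟨_, (Finset.univ.filter fun c => v c ≠ 0).image (fun c => (c, false)), rfl, ?_⟩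
  rw [Finset.sum_image (fun c _ c' _ h => (Prod.mk.inj h).1)]
  funext x
  rw [Finset.sum_apply]
  unfold col
  simp only [Bool.false_eq_true, if_false]
  have : ∀ c, (Pi.single c (1 : ZMod 2) : ZMod n → ZMod 2) x = if c = x then 1 else 0 := by
    intro c
    rw [Pi.single_apply]
    by_cases h : x = c
    · rw [if_pos h, if_pos h.symm]
    · rw [if_neg h, if_neg (Ne.symm h)]
  simp only [this]
  rw [Finset.sum_ite_eq']
  simp only [Finset.mem_filter, Finset.mem_univ, true_and]
  split_ifs with h
  · exact (z2_ne _ h).symm
  · push Not at h; exact h.symm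

theorem wl_ex (v : ZMod n → ZMod 2) :
    ∃ S : Finset (ZMod n × Bool), S.card = wl b v ∧ ∑ e ∈ S, col b e = v :=
  Nat.sInf_mem (wl_ne b v)

theorem wl_le {v : ZMod n → ZMod 2} {S : Finset (ZMod n × Bool)} (h : ∑ e ∈ S, col b e = v) :
    wl b v ≤ S.card := Nat.sInf_le ⟨S, rfl, h⟩

theorem wl_zero : wl b 0 = 0 := by
  have := wl_le b (v := 0) (S := ∅) (by simp)
  simpa using this

theorem sum_erase {S : Finset (ZMod n × Bool)} {e : ZMod n × Bool} (he : e ∈ S) :
    ∑ e ∈ S.erase e, col b e = ∑ e ∈ S, col b e + col b e := by
  rw [← Finset.add_sum_erase S _ he]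
  have : ∀ u v : ZMod n → ZMod 2, v = u + v + u := by
    intro u v; rw [add_comm u v, add_add_self]
  exact this _ _

theorem wl_add (v : ZMod n → ZMod 2) (e : ZMod n × Bool) : wl b (v + col b e) ≤ wl b v + 1 := by
  obtain ⟨S, hS, hv⟩ := wl_ex b v
  by_cases he : e ∈ S
  · have h1 := wl_le b (sum_erase b he)
    rw [hv, Finset.card_erase_of_mem he] at h1
    omega
  · have h1 := wl_le b (v := v + col b e) (S := insert e S) (by
      rw [Finset.sum_insert he, hv, add_comm])
    rw [Finset.card_insert_of_notMem he] at h1
    omega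

theorem wl_add' (v : ZMod n → ZMod 2) (e : ZMod n × Bool) : wl b v ≤ wl b (v + col b e) + 1 := by
  have := wl_add b (v + col b e) e
  rwa [add_add_self] at this

theorem wl_step (v : ZMod n → ZMod 2) (e : ZMod n × Bool) :
    wl b (v + col b e) = wl b v ∨ wl b (v + col b e) = wl b v + 1 ∨
      wl b (v + col b e) + 1 = wl b v := by
  have h1 := wl_add b v e
  have h2 := wl_add' b v e
  omega

/-- up slots and down slots of a block -/
noncomputable def uS (v : ZMod n → ZMod 2) : Finset (ZMod n × Bool) :=
  Finset.univ.filter fun e => wl b (v + col b e) = wl b v + 1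
noncomputable def dS (v : ZMod n → ZMod 2) : Finset (ZMod n × Bool) :=
  Finset.univ.filter fun e => wl b (v + col b e) + 1 = wl b v

theorem dS_ge (v : ZMod n → ZMod 2) : wl b v ≤ (dS b v).card := by
  obtain ⟨S, hS, hv⟩ := wl_ex b v
  rw [← hS]
  apply Finset.card_le_card
  intro e he
  refine Finset.mem_filter.mpr ⟨Finset.mem_univ _, ?_⟩
  have h1 := wl_le b (sum_erase b he)
  rw [hv, Finset.card_erase_of_mem he] at h1
  have h2 := wl_add' b v e
  have h3 : 0 < S.card := Finset.card_pos.mpr ⟨e, he⟩
  omega

theorem card_slots : Fintype.card (ZMod n × Bool) = 2 * n := by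
  rw [Fintype.card_prod, ZMod.card, Fintype.card_bool, mul_comm]

theorem uS_compl (hb : ¬ Bad n b) (hn : 100 ≤ n) (v : ZMod n → ZMod 2) :
    2 * n ≤ (uS b v).card + 600 * wl b v := by
  obtain ⟨S, hS, hv⟩ := wl_ex b v
  by_cases hw : 100 * (2 * wl b v + 1) ≤ n
  · have hsub : (uS b v)ᶜ ⊆ S := by
      intro e he
      rw [Finset.mem_compl] at he
      have he' : ¬ wl b (v + col b e) = wl b v + 1 := fun h =>
        he (Finset.mem_filter.mpr ⟨Finset.mem_univ _, h⟩)
      by_contra heS
      have hle : wl b (v + col b e) ≤ wl b v := by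
        have := wl_add b v e; omega
      obtain ⟨S', hS', hv'⟩ := wl_ex b (v + col b e)
      -- relation
      set R := symmDiff (insert e S) S' with hR
      have hsumR : ∑ x ∈ R, col b x = 0 := by
        have h1 : ∑ x ∈ insert e S, col b x = v + col b e := by
          rw [Finset.sum_insert heS, hv, add_comm]
        have h2 : ∑ x ∈ insert e S, col b x = ∑ x ∈ insert e S \ S', col b x +
            ∑ x ∈ insert e S ∩ S', col b x := by
          rw [add_comm, Finset.sum_inter_add_sum_sdiff]
        have h3 : ∑ x ∈ S', col b x = ∑ x ∈ S' \ insert e S, col b x +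
            ∑ x ∈ S' ∩ insert e S, col b x := by
          rw [add_comm, Finset.sum_inter_add_sum_sdiff]
        have h4 : ∑ x ∈ R, col b x = ∑ x ∈ insert e S \ S', col b x +
            ∑ x ∈ S' \ insert e S, col b x := by
          rw [hR, symmDiff_def, Finset.sup_eq_union, Finset.sum_union]
          exact disjoint_sdiff_sdiff
        have h5 : ∑ x ∈ insert e S, col b x + ∑ x ∈ S', col b x = 0 := by
          rw [h1, hv', dbl2]
        rw [h2, h3, Finset.inter_comm S'] at h5
        rw [h4]
        have : ∀ a c d : ZMod n → ZMod 2, a + d + (c + d) = a + c := by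
          intro a c d
          rw [show a + d + (c + d) = a + c + (d + d) by abel, dbl2, add_zero]
        rwa [this] at h5
      have hcardR : R.card ≤ 2 * wl b v + 1 := by
        have h1 : R.card ≤ (insert e S).card + S'.card := by
          rw [hR, symmDiff_def, Finset.sup_eq_union]
          refine (Finset.card_union_le _ _).trans ?_
          exact add_le_add (Finset.card_le_card Finset.sdiff_subset)
            (Finset.card_le_card Finset.sdiff_subset)
        rw [Finset.card_insert_of_notMem heS] at h1
        omega
      have hR0 : R = ∅ := no_rel b hb R (by omega) hsumR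
      have hEq : insert e S = S' := by
        have : symmDiff (insert e S) S' = ⊥ := hR0
        exact symmDiff_eq_bot.mp this
      have h6 : S'.card = S.card + 1 := by
        rw [← hEq, Finset.card_insert_of_notMem heS]
      omega
    have h1 := Finset.card_le_card hsub
    rw [Finset.card_compl, card_slots] at h1
    omega
  · have hw1 : 1 ≤ wl b v := by
      by_contra hc
      have : wl b v = 0 := by omega
      rw [this] at hw; omega
    omega

theorem ud_le (v : ZMod n → ZMod 2) : (uS b v).card + (dS b v).card ≤ 2 * n := by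
  rw [← card_slots, ← Finset.card_union_of_disjoint]
  · exact Finset.card_le_univ _
  · unfold uS dS
    rw [Finset.disjoint_filter]
    intro e _ h1; omega

theorem col_ne (hb : ¬ Bad n b) (hn : 200 ≤ n) (e : ZMod n × Bool) : col b e ≠ 0 := by
  intro h
  have := no_rel b hb {e} (by rw [Finset.card_singleton]; omega) (by simpa using h)
  simp at this

theorem col_inj (hb : ¬ Bad n b) (hn : 200 ≤ n) {e e' : ZMod n × Bool} (h : col b e = col b e') :
    e = e' := by
  by_contra hne
  have := no_rel b hb {e, e'} (by rw [Finset.card_pair hne]; omega) (by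
    rw [Finset.sum_pair hne, h, dbl2])
  simp at this

/-- generating function bound for the word length -/
theorem wl_gen (t : ℝ) (ht : 0 ≤ t) :
    ∑ v : ZMod n → ZMod 2, t ^ (wl b v) ≤ (1 + t) ^ (2 * n) := by
  choose S hS hv using wl_ex b
  have h1 : ∑ v : ZMod n → ZMod 2, t ^ (wl b v) = ∑ v, t ^ (S v).card :=
    Finset.sum_congr rfl fun v _ => by rw [hS]
  have hinj : Function.Injective S := by
    intro v v' h
    rw [← hv v, ← hv v', h]
  have h2 : ∑ v, t ^ (S v).card = ∑ T ∈ Finset.univ.image S, t ^ T.card := by
    rw [Finset.sum_image fun v _ v' _ h => hinj h]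
  have h3 : ∑ T ∈ Finset.univ.image S, t ^ T.card ≤ ∑ T : Finset (ZMod n × Bool), t ^ T.card :=
    Finset.sum_le_sum_of_subset_of_nonneg (Finset.subset_univ _) fun T _ _ => pow_nonneg ht _
  have h4 : ∑ T : Finset (ZMod n × Bool), t ^ T.card = (1 + t) ^ (2 * n) := by
    have := Finset.sum_pow_mul_eq_add_pow t 1 (Finset.univ : Finset (ZMod n × Bool))
    simp only [one_pow, mul_one, Finset.powerset_univ] at this
    rw [this, Finset.card_univ, card_slots, add_comm]
  rw [h1, h2]
  exact h3.trans h4.le

end
end Pool.Agent.J6H46.QI
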